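import Pool.Agent.T3h73.Cheb3

/-!
# Prime numbers which split completely
-/

set_option autoImplicit false
set_option linter.all false

open Polynomial IsDedekindDomain NumberField
open scoped Classical IntermediateField

namespace Pool.Agent.T3h73

open Pool.Agent.N783.PF (Ov fF rd)
open Pool.Agent.K3h30.RS (Above)

theorem span_max {p : ℕ} (hp : p.Prime) : (Ideal.span {(p : 𝓞 ℚ)}).IsMaximal := by
  have hn : Ideal.absNorm (Ideal.span {(p : 𝓞 ℚ)}) = p := by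
    rw [Ideal.absNorm_span_natCast, NumberField.RingOfIntegers.rank, Module.finrank_self, pow_one]
  have hirr : Irreducible (Ideal.absNorm (Ideal.span {(p : 𝓞 ℚ)})) := by rw [hn]; exact hp
  have h1 : (Ideal.span {(p : 𝓞 ℚ)}).IsPrime := Ideal.isPrime_of_irreducible_absNorm hirr
  refine h1.isMaximal ?_
  rw [Ne, Ideal.span_singleton_eq_bot]
  exact_mod_cast hp.ne_zero

/-- The Galois group acts transitively. -/
theorem exists_tau {F N : Type} [Field F] [NumberField F] [Field N] [NumberField N] [Algebra F N]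
    [Algebra ℚ N] [IsScalarTower ℚ F N] [IsGalois ℚ N] {p : ℕ} (hp : p.Prime)
    (P : HeightOneSpectrum (𝓞 N)) (hpP : (p : 𝓞 N) ∈ P.asIdeal)
    (Q : HeightOneSpectrum (𝓞 F)) (hpQ : (p : 𝓞 F) ∈ Q.asIdeal) :
    ∃ (τ : N ≃ₐ[ℚ] N) (j : 𝓞 F →+* 𝓞 N),
      (∀ x : 𝓞 F, ((j x : 𝓞 N) : N) = τ (algebraMap F N (x : F))) ∧
      ∀ x : 𝓞 F, x ∈ Q.asIdeal ↔ j x ∈ P.asIdeal := by
  obtain ⟨𝔔, h𝔔⟩ := exists_up N Q
  have hG : IsGaloisGroup (N ≃ₐ[ℚ] N) (𝓞 ℚ) (𝓞 N) := inferInstance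
  have hs : SMulCommClass (N ≃ₐ[ℚ] N) (𝓞 ℚ) (𝓞 N) := hG.commutes
  have hinv : Algebra.IsInvariant (𝓞 ℚ) (𝓞 N) (N ≃ₐ[ℚ] N) := hG.isInvariant
  haveI := 𝔔.isPrime
  haveI := P.isPrime
  have hgen : ∀ (𝔓 : HeightOneSpectrum (𝓞 N)), (p : 𝓞 N) ∈ 𝔓.asIdeal →
      𝔓.asIdeal.under (𝓞 ℚ) = Ideal.span {(p : 𝓞 ℚ)} := by
    intro 𝔓 h𝔓
    haveI := 𝔓.isPrime
    symm
    refine (span_max hp).eq_of_le ?_ ?_
    · exact (inferInstance : (𝔓.asIdeal.under (𝓞 ℚ)).IsPrime).ne_top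
    · rw [Ideal.span_singleton_le_iff_mem]
      show algebraMap (𝓞 ℚ) (𝓞 N) (p : 𝓞 ℚ) ∈ 𝔓.asIdeal
      rw [map_natCast]
      exact h𝔓
  have hp𝔔 : (p : 𝓞 N) ∈ 𝔔.asIdeal := by
    have h3 := h𝔔 _ hpQ
    rwa [map_natCast] at h3
  obtain ⟨τ, hτ⟩ := Algebra.IsInvariant.exists_smul_of_under_eq (𝓞 ℚ) (𝓞 N) (N ≃ₐ[ℚ] N)
    𝔔.asIdeal P.asIdeal ((hgen 𝔔 hp𝔔).trans (hgen P hpP).symm)
  obtain ⟨j, hj⟩ := exists_j (F := F) τ
  refine ⟨τ, j, hj, fun x => ?_⟩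
  rw [← ov_iff h𝔔 x, hτ]
  have e : j x = τ • (algebraMap (𝓞 F) (𝓞 N) x) := by
    apply RingOfIntegers.ext
    rw [hj]
    rfl
  rw [e, Ideal.smul_mem_pointwise_smul_iff]

theorem exists_gen (F : Type) [Field F] [NumberField F] : ∃ (α : 𝓞 F) (h : ℤ[X]),
    Algebra.adjoin ℚ {(α : F)} = ⊤ ∧ aeval α h = 0 ∧ aeval α (derivative h) ≠ 0 := by
  obtain ⟨β, hβ⟩ := Field.exists_primitive_element ℚ F
  obtain ⟨m, hm0, hmi⟩ := IsAlgebraic.exists_integral_multiple (R := ℤ) (A := F) (z := β)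
    ((IsFractionRing.isAlgebraic_iff ℤ ℚ F).2 (Algebra.IsAlgebraic.isAlgebraic β))
  obtain ⟨α, hα⟩ : ∃ α : 𝓞 F, (α : F) = m • β := ⟨⟨_, hmi⟩, rfl⟩
  have hαint : IsIntegral ℚ (α : F) := IsIntegral.of_finite ℚ _
  have htop : ℚ⟮(α : F)⟯ = ⊤ := by
    rw [eq_top_iff, ← hβ, IntermediateField.adjoin_simple_le_iff]
    have e1 : β = (algebraMap ℚ F (m : ℚ))⁻¹ * (α : F) := by
      rw [hα, zsmul_eq_mul, map_intCast, ← mul_assoc, inv_mul_cancel₀, one_mul]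
      exact_mod_cast hm0
    rw [e1]
    exact mul_mem (inv_mem (IntermediateField.algebraMap_mem _ _))
      (IntermediateField.mem_adjoin_simple_self ℚ _)
  refine ⟨α, minpoly ℤ (α : F), ?_, ?_, ?_⟩
  · have h3 := IntermediateField.adjoin_simple_toSubalgebra_of_isAlgebraic hαint.isAlgebraic
    rw [← h3, htop]
    rfl
  · apply RingOfIntegers.coe_injective
    rw [map_zero, ← aeval_algebraMap_apply]
    exact minpoly.aeval ℤ (α : F)
  · intro h0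
    have h1 : aeval (α : F) (derivative (minpoly ℤ (α : F))) = 0 := by
      have := congrArg (algebraMap (𝓞 F) F) h0
      rw [map_zero, ← aeval_algebraMap_apply] at this
      exact this
    have h2 : (minpoly ℤ (α : F)).map (algebraMap ℤ ℚ) = minpoly ℚ (α : F) :=
      (minpoly.isIntegrallyClosed_eq_field_fractions' ℚ α.2).symm
    have h3 : aeval (α : F) (derivative (minpoly ℚ (α : F))) = 0 := by
      rw [← h2, derivative_map, aeval_map_algebraMap]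
      exact h1
    have hsep : (minpoly ℚ (α : F)).Separable := (minpoly.irreducible hαint).separable
    exact hsep.aeval_derivative_ne_zero (minpoly.aeval ℚ (α : F)) h3

/-- Existence of a prime number which splits completely. -/
theorem exists_split (F : Type) [Field F] [NumberField F] (R : ℕ) (hR : R ≠ 0) :
    ∃ l : ℕ, SplitPrime F l ∧ ¬ l ∣ R := by
  obtain ⟨α, h, hα, hh, hsep⟩ := exists_gen F
  obtain ⟨N, _, _, _, _, _, hgal, -⟩ := Pool.Agent.K3h8.RS.exists_gal ℚ F X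
  obtain ⟨R', hR'⟩ : ∃ R' : ℕ, R' = R * Ideal.absNorm (Ideal.span {aeval α (derivative h)}) :=
    ⟨_, rfl⟩
  have hR'0 : R' ≠ 0 := by
    rw [hR']
    refine mul_ne_zero hR ?_
    rw [Ne, Ideal.absNorm_eq_zero_iff, Ideal.span_singleton_eq_bot]
    exact hsep
  have hfin2 : {v : HeightOneSpectrum (𝓞 ℚ) | (R' : 𝓞 ℚ) ∈ v.asIdeal}.Finite := by
    have h1 := Ideal.finite_factors (I := Ideal.span {(R' : 𝓞 ℚ)}) (by
      rw [Ne, Ideal.zero_eq_bot, Ideal.span_singleton_eq_bot]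
      exact_mod_cast hR'0)
    refine h1.subset fun P hP => ?_
    rw [Set.mem_setOf_eq, Ideal.dvd_span_singleton]
    exact hP
  obtain ⟨v, ⟨hvbad, P, ⟨v', hv', hP⟩, hPx⟩⟩ := exists_of_pos
    (Pool.Agent.K3h73.RS.t_CHEB ℚ N 1 hfin2.toFinset)
  rw [Set.mem_singleton_iff] at hv'
  rw [hv'] at hP
  rw [Set.Finite.mem_toFinset] at hvbad
  obtain ⟨l, hldef⟩ : ∃ l, l = Ideal.absNorm v.asIdeal := ⟨_, rfl⟩
  have hlp : l.Prime := by rw [hldef]; exact prime_vQ v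
  rw [← hldef] at hPx
  have hlv : (l : 𝓞 ℚ) ∈ v.asIdeal := by rw [hldef]; exact Ideal.absNorm_mem v.asIdeal
  have hlP : (l : 𝓞 N) ∈ P.asIdeal := by
    have h1 : (l : 𝓞 ℚ) ∈ P.asIdeal.comap (algebraMap (𝓞 ℚ) (𝓞 N)) := by rw [hP]; exact hlv
    rw [Ideal.mem_comap, map_natCast] at h1
    exact h1
  have hlR' : ¬ l ∣ R' := fun h => hvbad ((nat_mem v.isPrime.ne_top hlp hlv R').2 h)
  refine ⟨l, ⟨hlp, ?_, α, h, hα, hh, ?_⟩, fun hd => hlR' (by
    rw [hR']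
    exact Dvd.dvd.mul_right hd _)⟩
  · intro Q hQ x
    obtain ⟨τ, j, hj, hjQ⟩ := exists_tau (F := F) hlp P hlP Q hQ
    rw [hjQ, map_sub, map_pow]
    have h1 := frob_pow hPx 1 (j x) (j x) (by rw [pow_one]; rfl)
    rw [pow_one, ← map_pow] at h1
    exact Ideal.Quotient.eq.1 h1.symm
  · intro Q hQ hmem
    apply hlR'
    rw [hR']
    refine Dvd.dvd.mul_left ?_ _
    have h1 := Pool.Agent.N710.PF.dvd_absNorm hlp Q.isPrime hQ
    refine h1.trans (Ideal.absNorm_dvd_absNorm_of_le ?_)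
    rw [Ideal.span_singleton_le_iff_mem]
    exact hmem

end Pool.Agent.T3h73
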