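import Pool.Agent.T3h73.Cpl
import Pool.Agent.Y682.Lcl

/-!
# Embeddings in a completion
-/

set_option autoImplicit false
set_option linter.all false

open Polynomial IsDedekindDomain NumberField Topology
open scoped Classical

namespace Pool.Agent.T3h73

open Pool.Agent.N783.PF (Ov)
open Pool.Agent.Y682 (vv vv_coe exists_approx)

section

variable {F M : Type} [Field F] [NumberField F] [Field M] [NumberField M] [Algebra F M]

theorem int_le (v : HeightOneSpectrum (𝓞 F)) {x : v.adicCompletion F}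
    (h : (Int.castRingHom (v.adicCompletion F)).IsIntegralElem x) : vv v x ≤ 1 := by
  have h1 : IsIntegral (v.adicCompletionIntegers F) x := by
    obtain ⟨p, hp, hx⟩ := h
    refine ⟨p.map (Int.castRingHom _), hp.map _, ?_⟩
    rw [eval₂_map]
    have e : (algebraMap (v.adicCompletionIntegers F) (v.adicCompletion F)).comp
        (Int.castRingHom (v.adicCompletionIntegers F)) =
        Int.castRingHom (v.adicCompletion F) := RingHom.ext_int _ _
    rw [e]
    exact hx
  obtain ⟨y, hy⟩ := IsIntegrallyClosed.isIntegral_iff.1 h1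
  rw [← hy]
  exact y.2

theorem lt_one_le {x : WithZero (Multiplicative ℤ)} (h : x < 1) : x ≤ WithZero.exp (-1) := by
  by_cases h0 : x = 0
  · rw [h0]
    exact zero_le
  · rw [← WithZero.exp_log h0, ← WithZero.exp_zero, WithZero.exp_lt_exp] at h
    rw [← WithZero.exp_log h0, WithZero.exp_le_exp]
    omega

theorem spl_of_emb {v : HeightOneSpectrum (𝓞 F)} (φ : M →ₐ[F] v.adicCompletion F) : Spl M v := by
  have hle : ∀ x : 𝓞 M, vv v (φ (x : M)) ≤ 1 := by
    intro x
    refine int_le v ?_
    obtain ⟨p, hp, hx⟩ := x.2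
    refine ⟨p, hp, ?_⟩
    have h1 := hom_eval₂ p (algebraMap ℤ M) (φ : M →+* v.adicCompletion F) (x : M)
    have h2 : ((φ : M →+* v.adicCompletion F)).comp (algebraMap ℤ M) =
        Int.castRingHom (v.adicCompletion F) := RingHom.ext_int _ _
    rw [h2] at h1
    have h3 : (x : M) = x.1 := rfl
    rw [h3] at h1 ⊢
    rw [hx, map_zero] at h1
    exact h1.symm
  have hF : ∀ a : 𝓞 F, φ ((algebraMap (𝓞 F) (𝓞 M) a : 𝓞 M) : M) =
      algebraMap F (v.adicCompletion F) (a : F) := by
    intro a
    have h1 : ((algebraMap (𝓞 F) (𝓞 M) a : 𝓞 M) : M) = algebraMap F M (a : F) := rfl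
    rw [h1, AlgHom.commutes]
  obtain ⟨I, hI⟩ : ∃ I : Ideal (𝓞 M), ∀ x : 𝓞 M, x ∈ I ↔ vv v (φ (x : M)) < 1 := by
    refine ⟨{ carrier := {x | vv v (φ (x : M)) < 1}, add_mem' := ?_, zero_mem' := ?_,
              smul_mem' := ?_ }, fun x => Iff.rfl⟩
    · intro a b ha hb
      have e : ((a + b : 𝓞 M) : M) = (a : M) + (b : M) := by push_cast; rfl
      show vv v (φ ((a + b : 𝓞 M) : M)) < 1
      rw [e, map_add]
      exact (Valuation.map_add _ _ _).trans_lt (max_lt ha hb)
    · show vv v (φ ((0 : 𝓞 M) : M)) < 1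
      have e : ((0 : 𝓞 M) : M) = 0 := rfl
      rw [e, map_zero, map_zero]
      exact zero_lt_one
    · intro c x hx
      have e : ((c * x : 𝓞 M) : M) = (c : M) * (x : M) := by push_cast; rfl
      show vv v (φ ((c * x : 𝓞 M) : M)) < 1
      rw [e, map_mul, map_mul]
      exact (mul_le_of_le_one_left' (hle c)).trans_lt hx
  have hprime : I.IsPrime := by
    refine ⟨?_, ?_⟩
    · intro h
      have h1 : (1 : 𝓞 M) ∈ I := by rw [h]; trivial
      rw [hI] at h1
      have e : ((1 : 𝓞 M) : M) = 1 := rfl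
      rw [e, map_one, map_one] at h1
      exact lt_irrefl _ h1
    · intro x y hxy
      rw [hI, hI]
      rw [hI] at hxy
      have e : ((x * y : 𝓞 M) : M) = (x : M) * (y : M) := by push_cast; rfl
      rw [e, map_mul, map_mul] at hxy
      by_contra hn
      rw [not_or, not_lt, not_lt] at hn
      have h1 := le_antisymm (hle x) hn.1
      have h2 := le_antisymm (hle y) hn.2
      rw [h1, h2, one_mul] at hxy
      exact lt_irrefl _ hxy
  have hov : ∀ a ∈ v.asIdeal, algebraMap (𝓞 F) (𝓞 M) a ∈ I := by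
    intro a ha
    rw [hI, hF, vv_coe]
    exact (v.valuation_lt_one_iff_mem (K := F) a).2 ha
  obtain ⟨π, hπ⟩ := v.intValuation_exists_uniformizer
  have hπv : π ∈ v.asIdeal := by
    rw [← HeightOneSpectrum.intValuation_lt_one_iff_mem, hπ]
    exact WithZero.exp_lt_exp.2 (by norm_num)
  have hπ0 : π ≠ 0 := by
    rintro rfl
    rw [map_zero] at hπ
    exact WithZero.exp_ne_zero hπ.symm
  have hne : I ≠ ⊥ := by
    intro h
    have h1 := hov π hπv
    rw [h, Ideal.mem_bot] at h1
    apply hπ0
    exact map_inj (L := M) (by rw [h1, map_zero])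
  refine ⟨⟨I, hprime, hne⟩, hov, ⟨π, hπv, fun h => ?_⟩, fun x => ?_⟩
  · obtain ⟨J, hJ⟩ : ∃ J : Ideal (𝓞 M), ∀ x : 𝓞 M, x ∈ J ↔
        vv v (φ (x : M)) ≤ WithZero.exp (-2) := by
      refine ⟨{ carrier := {x | vv v (φ (x : M)) ≤ WithZero.exp (-2)}, add_mem' := ?_,
                zero_mem' := ?_, smul_mem' := ?_ }, fun x => Iff.rfl⟩
      · intro a b ha hb
        have e : ((a + b : 𝓞 M) : M) = (a : M) + (b : M) := by push_cast; rfl
        show vv v (φ ((a + b : 𝓞 M) : M)) ≤ _
        rw [e, map_add]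
        exact (Valuation.map_add _ _ _).trans (max_le ha hb)
      · show vv v (φ ((0 : 𝓞 M) : M)) ≤ _
        have e : ((0 : 𝓞 M) : M) = 0 := rfl
        rw [e, map_zero, map_zero]
        exact zero_le
      · intro c x hx
        have e : ((c * x : 𝓞 M) : M) = (c : M) * (x : M) := by push_cast; rfl
        show vv v (φ ((c * x : 𝓞 M) : M)) ≤ _
        rw [e, map_mul, map_mul]
        exact (mul_le_of_le_one_left' (hle c)).trans hx
    have h1 : I ^ 2 ≤ J := by
      rw [sq, Ideal.mul_le]
      intro r hr s hs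
      rw [hJ]
      have e : ((r * s : 𝓞 M) : M) = (r : M) * (s : M) := by push_cast; rfl
      rw [e, map_mul, map_mul]
      have h3 : (WithZero.exp (-2) : WithZero (Multiplicative ℤ)) =
          WithZero.exp (-1) * WithZero.exp (-1) := by
        rw [← WithZero.exp_add]
        rfl
      rw [h3]
      exact mul_le_mul' (lt_one_le ((hI r).1 hr)) (lt_one_le ((hI s).1 hs))
    have h2 := h1 h
    rw [hJ, hF, vv_coe] at h2
    have e1 : v.valuation F (π : F) = v.intValuation π :=
      HeightOneSpectrum.valuation_of_algebraMap v π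
    rw [e1, hπ, WithZero.exp_le_exp] at h2
    norm_num at h2
  · obtain ⟨k, hk⟩ := exists_approx v (φ (x : M)) 1 one_ne_zero
    have hk1 : v.valuation F k ≤ 1 := by
      rw [← vv_coe]
      have e : algebraMap F (v.adicCompletion F) k =
          (algebraMap F (v.adicCompletion F) k - φ (x : M)) + φ (x : M) := by ring
      rw [e]
      exact (Valuation.map_add _ _ _).trans (max_le hk.le (hle x))
    obtain ⟨a, ha⟩ := v.exists_valuation_sub_lt_of_integer hk1 1
    rw [Units.val_one] at ha
    refine ⟨a, ?_⟩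
    show _ ∈ I
    rw [hI]
    have e : ((x - algebraMap (𝓞 F) (𝓞 M) a : 𝓞 M) : M) =
        (x : M) - ((algebraMap (𝓞 F) (𝓞 M) a : 𝓞 M) : M) := by push_cast; rfl
    have e2 : φ (x : M) - algebraMap F (v.adicCompletion F) (a : F) =
        -(algebraMap F (v.adicCompletion F) k - φ (x : M)) -
          (algebraMap F (v.adicCompletion F) (algebraMap (𝓞 F) F a - k)) := by
      rw [map_sub]
      ring
    rw [e, map_sub, hF, e2]
    refine (Valuation.map_sub _ _ _).trans_lt (max_lt ?_ ?_)
    · rw [Valuation.map_neg]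
      exact hk
    · rw [vv_coe]
      exact ha

theorem dn_of_emb {v : HeightOneSpectrum (𝓞 F)} (h : Nonempty (M →ₐ[F] v.adicCompletion F)) :
    Dn M v := dn_of_spl (spl_of_emb h.some)

theorem emb_of_dn {v : HeightOneSpectrum (𝓞 F)} (h : Dn M v) :
    Nonempty (M →ₐ[F] v.adicCompletion F) := by
  obtain ⟨w, φ, hφ⟩ := h
  exact ⟨{ toRingHom := φ.comp (algebraMap M _), commutes' := hφ }⟩

end

end Pool.Agent.T3h73
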