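import Pool.Agent.K3h73.RS.Cheb
import Pool.Agent.K3h8.RS.Frob
import Pool.Agent.N783.PF.Def

/-!
# A polynomial which is irreducible modulo one prime ideal is irreducible modulo infinitely many
-/

set_option autoImplicit false
set_option linter.all false

open Polynomial NumberField IsDedekindDomain
open scoped Classical

namespace Pool.Agent.T3h73

open Pool.Agent.N783.PF (rd fF)
open Pool.Agent.K3h30.RS (Above PosProportion)

/-- orbits of the Frobenius automorphism: the degree of an irreducible polynomial -/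
theorem deg_le_of_root {k k' : Type} [Field k] [Finite k] [Field k'] (ι : k →+* k') {p : k[X]}
    (hp : Irreducible p) {a : k'} (ha : p.eval₂ ι a = 0) {d : ℕ} (hd : 0 < d)
    (h : a ^ (Nat.card k) ^ d = a) : p.natDegree ≤ d := by
  refine Nat.le_of_dvd hd (hp.natDegree_dvd_of_dvd_X_pow_card_pow_sub_X ?_)
  by_contra hnd
  obtain ⟨u, v, huv⟩ := (hp.coprime_iff_not_dvd).2 hnd
  have h1 := congrArg (fun q => eval₂ ι a q) huv
  simp only [eval₂_add, eval₂_mul, eval₂_sub, eval₂_pow, eval₂_X, eval₂_one, ha, h, sub_self,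
    mul_zero, add_zero] at h1
  exact zero_ne_one h1

theorem frob_root {k k' : Type} [Field k] [Finite k] [Field k'] (ι : k →+* k') {p : k[X]}
    {a : k'} (ha : p.eval₂ ι a = 0) (i : ℕ) : p.eval₂ ι (a ^ (Nat.card k) ^ i) = 0 := by
  letI := Fintype.ofFinite k
  obtain ⟨q, hq⟩ := CharP.exists k
  haveI := hq
  obtain ⟨n, hn1, hn2⟩ := FiniteField.card k q
  haveI : Fact q.Prime := ⟨hn1⟩
  haveI : CharP k' q := (RingHom.charP_iff_charP ι q).1 hq
  have key : ∀ (x : k'), p.eval₂ ι x = 0 → p.eval₂ ι (x ^ Nat.card k) = 0 := by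
    intro x hx
    have h1 : (p.eval₂ ι x) ^ Nat.card k = p.eval₂ ι (x ^ Nat.card k) := by
      rw [Nat.card_eq_fintype_card, hn2, ← iterateFrobenius_def, hom_eval₂, ← iterateFrobenius_def]
      congr 1
      ext c
      rw [RingHom.comp_apply, iterateFrobenius_def, ← map_pow, ← hn2, FiniteField.pow_card]
    rw [← h1, hx, zero_pow Nat.card_pos.ne']
  induction i with
  | zero => rwa [pow_zero, pow_one]
  | succ i ih =>
    rw [pow_succ, pow_mul]
    exact key _ ih

theorem irr_of_orbit {k k' : Type} [Field k] [Finite k] [Field k'] (ι : k →+* k') {p : k[X]}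
    (hm : p.Monic) {a : k'} (ha : p.eval₂ ι a = 0)
    (h : ∀ i < p.natDegree, ∀ j < p.natDegree, a ^ (Nat.card k) ^ i = a ^ (Nat.card k) ^ j → i = j) :
    Irreducible p := by
  letI := ι.toAlgebra
  have hint : IsIntegral k a := ⟨p, hm, ha⟩
  have hdvd : minpoly k a ∣ p := minpoly.dvd k a ha
  have hle : p.natDegree ≤ (minpoly k a).natDegree := by
    have h0 : (minpoly k a).map ι ≠ 0 := (Polynomial.map_ne_zero_iff ι.injective).2
      (minpoly.ne_zero hint)
    have h1 : ((Finset.range p.natDegree).image fun i => a ^ (Nat.card k) ^ i) ⊆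
        ((minpoly k a).map ι).roots.toFinset := by
      intro x hx
      obtain ⟨i, hi, rfl⟩ := Finset.mem_image.1 hx
      rw [Multiset.mem_toFinset, mem_roots h0, IsRoot.def, eval_map]
      exact frob_root ι (minpoly.aeval k a) i
    have h2 := Finset.card_le_card h1
    rw [Finset.card_image_of_injOn, Finset.card_range] at h2
    · refine h2.trans ((Multiset.toFinset_card_le _).trans ((card_roots' _).trans ?_))
      exact natDegree_map_le
    · intro i hi j hj hij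
      exact h i (Finset.mem_range.1 hi) j (Finset.mem_range.1 hj) hij
  have : minpoly k a = p := by
    refine (eq_of_monic_of_dvd_of_natDegree_le (minpoly.monic hint) hm hdvd ?_).symm
    exact hle
  rw [← this]
  exact minpoly.irreducible hint

theorem exists_of_pos {F : Type} [Field F] [NumberField F] {P : HeightOneSpectrum (𝓞 F) → Prop}
    (h : PosProportion P) : ∃ v, P v := by
  obtain ⟨c, hc, h⟩ := h
  obtain ⟨X, hX, hX2⟩ := (h.and (Filter.eventually_ge_atTop 2)).exists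
  by_contra hne
  push Not at hne
  have h1 : IsEmpty {v : HeightOneSpectrum (𝓞 F) // P v ∧ Ideal.absNorm v.asIdeal ≤ X} :=
    ⟨fun v => hne v.1 v.2.1⟩
  rw [Nat.card_of_isEmpty, Nat.cast_zero] at hX
  have h2 : 0 < Nat.primeCounting X := by
    have := Nat.monotone_primeCounting hX2
    have h3 : Nat.primeCounting 2 = 1 := by decide
    omega
  have h3 : (0 : ℝ) < Nat.primeCounting X := by exact_mod_cast h2
  nlinarith

theorem exists_irr (F : Type) [Field F] [NumberField F] (f : (𝓞 F)[X]) (hm : f.Monic)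
    (hf : Irreducible (fF f)) (v₀ : HeightOneSpectrum (𝓞 F)) (h₀ : Irreducible (rd v₀.asIdeal f))
    (bad : Finset (HeightOneSpectrum (𝓞 F))) :
    ∃ v : HeightOneSpectrum (𝓞 F), v ∉ bad ∧ Irreducible (rd v.asIdeal f) := by
  obtain ⟨n, hn⟩ : ∃ n, n = f.natDegree := ⟨_, rfl⟩
  have hmF : (fF f).Monic := hm.map _
  set L := (fF f).SplittingField with hL
  haveI : FiniteDimensional F L := inferInstance
  haveI : NumberField L := NumberField.of_module_finite F L
  haveI : IsGalois F L := IsGalois.of_separable_splitting_field hf.separable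
  obtain ⟨t, ht⟩ : ∃ t : L, eval₂ (algebraMap F L) t (fF f) = 0 := by
    have h1 := SplittingField.splits (fF f)
    obtain ⟨t, ht⟩ := h1.exists_eval_eq_zero (by
      rw [degree_map]
      exact (degree_pos_of_irreducible hf).ne')
    exact ⟨t, by rwa [eval_map] at ht⟩
  have htint : IsIntegral (𝓞 F) t := by
    refine ⟨f, hm, ?_⟩
    have h1 : eval₂ (algebraMap F L) t (f.map (algebraMap (𝓞 F) F)) = 0 := ht
    rw [eval₂_map, ← IsScalarTower.algebraMap_eq] at h1
    exact h1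
  have htZ : IsIntegral ℤ t := isIntegral_trans t htint
  obtain ⟨θ, hθ⟩ : ∃ θ : 𝓞 L, (θ : L) = t := ⟨⟨t, htZ⟩, rfl⟩
  have hθ0 : eval₂ (algebraMap (𝓞 F) (𝓞 L)) θ f = 0 := by
    apply RingOfIntegers.coe_injective
    rw [map_zero]
    have h1 := hom_eval₂ f (algebraMap (𝓞 F) (𝓞 L)) (algebraMap (𝓞 L) L) θ
    have h2 : (algebraMap (𝓞 L) L).comp (algebraMap (𝓞 F) (𝓞 L)) =
        (algebraMap F L).comp (algebraMap (𝓞 F) F) := by
      ext x
      rfl
    rw [h2, ← eval₂_map] at h1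
    rw [h1]
    have h3 : algebraMap (𝓞 L) L θ = t := hθ
    rw [h3]
    exact ht
  -- reduction
  have hred : ∀ (v : HeightOneSpectrum (𝓞 F)) (P : HeightOneSpectrum (𝓞 L)),
      P.asIdeal.comap (algebraMap (𝓞 F) (𝓞 L)) = v.asIdeal →
      ∃ ι : (𝓞 F ⧸ v.asIdeal) →+* (𝓞 L ⧸ P.asIdeal),
        (rd v.asIdeal f).eval₂ ι (Ideal.Quotient.mk P.asIdeal θ) = 0 := by
    intro v P hP
    refine ⟨Ideal.quotientMap P.asIdeal (algebraMap (𝓞 F) (𝓞 L)) hP.ge, ?_⟩
    rw [rd, eval₂_map, Ideal.quotientMap_comp_mk, ← hom_eval₂, hθ0, map_zero]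
  -- the powers of an automorphism
  have hpow : ∀ (v : HeightOneSpectrum (𝓞 F)) (P : HeightOneSpectrum (𝓞 L)) (Φ : L ≃ₐ[F] L),
      (∀ x : 𝓞 L, P.valuation L (Φ (x : L) - (x : L) ^ (Ideal.absNorm v.asIdeal)) < 1) →
      ∀ (i : ℕ) (y : 𝓞 L), (y : L) = (Φ ^ i) (θ : L) → Ideal.Quotient.mk P.asIdeal y =
        (Ideal.Quotient.mk P.asIdeal θ) ^ (Nat.card (𝓞 F ⧸ v.asIdeal)) ^ i := by
    intro v P Φ hΦ i
    induction i with
    | zero =>
      intro y hy
      rw [pow_zero, AlgEquiv.one_apply] at hy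
      rw [pow_zero, pow_one, RingOfIntegers.ext hy]
    | succ i ih =>
      intro y hy
      have h1 : IsIntegral ℤ ((Φ ^ i) (θ : L)) := map_isIntegral_int (Φ ^ i) θ.2
      obtain ⟨z, hz⟩ : ∃ z : 𝓞 L, (z : L) = (Φ ^ i) (θ : L) := ⟨⟨_, h1⟩, rfl⟩
      have h2 := hΦ z
      have h3 : Φ (z : L) = (y : L) := by
        rw [hy, hz, pow_succ', AlgEquiv.mul_apply]
      have h4 : Φ (z : L) - (z : L) ^ (Ideal.absNorm v.asIdeal) =
          ((y - z ^ (Ideal.absNorm v.asIdeal) : 𝓞 L) : L) := by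
        rw [h3]
        push_cast
        rfl
      rw [h4] at h2
      have h5 : y - z ^ (Ideal.absNorm v.asIdeal) ∈ P.asIdeal :=
        (P.valuation_lt_one_iff_mem _).1 h2
      have h6 : Ideal.Quotient.mk P.asIdeal y = Ideal.Quotient.mk P.asIdeal z ^
          (Ideal.absNorm v.asIdeal) := by
        rw [← map_pow]
        exact Ideal.Quotient.eq.2 h5
      rw [h6, ih z hz, ← pow_mul, pow_succ]
      rfl
  -- the Frobenius automorphism at `v₀`
  obtain ⟨P₀, hP₀⟩ : ∃ P₀ : HeightOneSpectrum (𝓞 L),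
      P₀.asIdeal.comap (algebraMap (𝓞 F) (𝓞 L)) = v₀.asIdeal := by
    haveI := v₀.isPrime
    haveI := v₀.isMaximal
    obtain ⟨Q, hQ1, hQ2⟩ := Ideal.exists_ideal_over_maximal_of_isIntegral (S := 𝓞 L)
      v₀.asIdeal (by
        rw [(RingHom.injective_iff_ker_eq_bot _).1
          (FaithfulSMul.algebraMap_injective (𝓞 F) (𝓞 L))]
        exact bot_le)
    refine ⟨⟨Q, hQ1.isPrime, ?_⟩, hQ2⟩
    rintro rfl
    apply v₀.ne_bot
    rw [← hQ2]
    exact Ideal.comap_bot_of_injective _ (FaithfulSMul.algebraMap_injective (𝓞 F) (𝓞 L))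
  obtain ⟨Φ, hΦ⟩ := Pool.Agent.K3h8.RS.exists_frob F L v₀ P₀ hP₀
  have hfin : ∀ v : HeightOneSpectrum (𝓞 F), Finite (𝓞 F ⧸ v.asIdeal) := fun v =>
    Ideal.finiteQuotientOfFreeOfNeBot v.asIdeal v.ne_bot
  have hdist : ∀ i < n, ∀ j < n, (Φ ^ i) (θ : L) = (Φ ^ j) (θ : L) → i = j := by
    have hlt : ∀ i j, i < j → j < n → (Φ ^ i) (θ : L) ≠ (Φ ^ j) (θ : L) := by
      intro i j hij hj heq
      haveI hv := v₀.isMaximal
      haveI hp := P₀.isMaximal
      letI : Field (𝓞 F ⧸ v₀.asIdeal) := Ideal.Quotient.field v₀.asIdeal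
      letI : Field (𝓞 L ⧸ P₀.asIdeal) := Ideal.Quotient.field P₀.asIdeal
      haveI := hfin v₀
      obtain ⟨ι, hι⟩ := hred v₀ P₀ hP₀
      have h1 : (Φ ^ (j - i)) (θ : L) = (θ : L) := by
        have h2 : (Φ ^ i) ((Φ ^ (j - i)) (θ : L)) = (Φ ^ i) (θ : L) := by
          rw [← AlgEquiv.mul_apply, ← pow_add, Nat.add_sub_cancel' hij.le, ← heq]
        exact (Φ ^ i).injective h2
      have h3 := hpow v₀ P₀ Φ hΦ (j - i) θ h1.symm
      have h4 := deg_le_of_root ι h₀ hι (Nat.sub_pos_of_lt hij) h3.symm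
      have h5 : (rd v₀.asIdeal f).natDegree = f.natDegree := hm.natDegree_map _
      omega
    intro i hi j hj heq
    rcases lt_trichotomy i j with h | h | h
    · exact absurd heq (hlt i j h hj)
    · exact h
    · exact absurd heq.symm (hlt j i h hi)
  -- the bad primes
  have hy : ∀ i, ∃ y : 𝓞 L, (y : L) = (Φ ^ i) (θ : L) := fun i =>
    ⟨⟨_, map_isIntegral_int (Φ ^ i) θ.2⟩, rfl⟩
  choose y hy using hy
  set D : 𝓞 L := ∏ i ∈ Finset.range n, ∏ j ∈ (Finset.range n).erase i, (y i - y j) with hD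
  have hD0 : D ≠ 0 := by
    rw [hD, Finset.prod_ne_zero_iff]
    intro i hi
    rw [Finset.prod_ne_zero_iff]
    intro j hj h0
    rw [Finset.mem_erase] at hj
    apply hj.1
    refine (hdist i (Finset.mem_range.1 hi) j (Finset.mem_range.1 hj.2) ?_).symm
    rw [← hy i, ← hy j, sub_eq_zero.1 h0]
  have hPfin : {P : HeightOneSpectrum (𝓞 L) | D ∈ P.asIdeal}.Finite := by
    have h1 := Ideal.finite_factors (I := Ideal.span {D}) (by
      rw [Ne, Ideal.zero_eq_bot, Ideal.span_singleton_eq_bot]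
      exact hD0)
    refine h1.subset fun P hP => ?_
    rw [Set.mem_setOf_eq, Ideal.dvd_span_singleton]
    exact hP
  have hvfin : {v : HeightOneSpectrum (𝓞 F) | ∃ P : HeightOneSpectrum (𝓞 L),
      P.asIdeal.comap (algebraMap (𝓞 F) (𝓞 L)) = v.asIdeal ∧ D ∈ P.asIdeal}.Finite := by
    have hex : ∀ v : HeightOneSpectrum (𝓞 F), ∃ P : HeightOneSpectrum (𝓞 L),
        (∃ P : HeightOneSpectrum (𝓞 L),
          P.asIdeal.comap (algebraMap (𝓞 F) (𝓞 L)) = v.asIdeal ∧ D ∈ P.asIdeal) →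
        (P.asIdeal.comap (algebraMap (𝓞 F) (𝓞 L)) = v.asIdeal ∧ D ∈ P.asIdeal) := by
      intro v
      by_cases h : ∃ P : HeightOneSpectrum (𝓞 L),
          P.asIdeal.comap (algebraMap (𝓞 F) (𝓞 L)) = v.asIdeal ∧ D ∈ P.asIdeal
      · obtain ⟨P, hP⟩ := h
        exact ⟨P, fun _ => hP⟩
      · exact ⟨P₀, fun h' => absurd h' h⟩
    choose Q hQ using hex
    refine Set.Finite.of_injOn (f := Q) (t := {P : HeightOneSpectrum (𝓞 L) | D ∈ P.asIdeal})
      (fun v hv => (hQ v hv).2) ?_ hPfin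
    intro v hv w hw hvw
    apply HeightOneSpectrum.ext
    rw [← (hQ v hv).1, ← (hQ w hw).1]
    exact congrArg (fun P : HeightOneSpectrum (𝓞 L) =>
      P.asIdeal.comap (algebraMap (𝓞 F) (𝓞 L))) hvw
  obtain ⟨v, ⟨hvbad, P, ⟨v', hv', hP⟩, hPx⟩⟩ := exists_of_pos
    (Pool.Agent.K3h73.RS.t_CHEB F L Φ (bad ∪ hvfin.toFinset))
  rw [Set.mem_singleton_iff] at hv'
  rw [hv'] at hP
  rw [Finset.mem_union, not_or] at hvbad
  refine ⟨v, hvbad.1, ?_⟩
  have hDP : D ∉ P.asIdeal := by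
    intro h
    exact hvbad.2 (hvfin.mem_toFinset.2 ⟨P, hP, h⟩)
  haveI hv := v.isMaximal
  haveI hp := P.isMaximal
  letI : Field (𝓞 F ⧸ v.asIdeal) := Ideal.Quotient.field v.asIdeal
  letI : Field (𝓞 L ⧸ P.asIdeal) := Ideal.Quotient.field P.asIdeal
  haveI := hfin v
  obtain ⟨ι, hι⟩ := hred v P hP
  have hdeg : (rd v.asIdeal f).natDegree = n := by rw [hn]; exact hm.natDegree_map _
  refine irr_of_orbit ι (hm.map _) hι ?_
  intro i hi j hj hij
  rw [hdeg] at hi hj
  by_contra hne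
  apply hDP
  rw [← hpow v P Φ hPx i (y i) (hy i), ← hpow v P Φ hPx j (y j) (hy j)] at hij
  have h7 : y i - y j ∈ P.asIdeal := Ideal.Quotient.eq.1 hij
  rw [hD]
  have h8 : ∏ j ∈ (Finset.range n).erase i, (y i - y j) ∈ P.asIdeal := by
    refine Ideal.prod_mem (I := P.asIdeal) (i := j) ?_ h7
    exact Finset.mem_erase.2 ⟨fun h => hne h.symm, Finset.mem_range.2 hj⟩
  exact Ideal.prod_mem (I := P.asIdeal) (i := i) (Finset.mem_range.2 hi) h8

end Pool.Agent.T3h73
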