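import Pool.Agent.T3h73.Quad

/-!
# Infinitely many quadratic extensions with local conditions
-/

set_option autoImplicit false
set_option linter.all false

open Polynomial NumberField IsDedekindDomain
open scoped Classical IntermediateField

namespace Pool.Agent.T3h73

section

variable {F : Type} [Field F] [NumberField F]

theorem val_prod {I : Ideal (𝓞 F)} (hI : I ≠ ⊥) {P : HeightOneSpectrum (𝓞 F)} {a : 𝓞 F}
    (ha : a ≠ 0) (h : P.asIdeal * I = Ideal.span {a}) (v : HeightOneSpectrum (𝓞 F)) :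
    v.valuation F (a : F) = WithZero.exp (-((if v = P then 1 else 0 : ℕ) +
      (Associates.mk v.asIdeal).count (Associates.mk I).factors : ℤ)) := by
  have e1 : v.valuation F (a : F) = v.intValuation a :=
    HeightOneSpectrum.valuation_of_algebraMap v a
  rw [e1, v.intValuation_if_neg ha, ← h, ← Associates.mk_mul_mk, Associates.count_mul]
  · push_cast
    congr 3
    by_cases hv : v = P
    · rw [if_pos hv, hv]
      exact_mod_cast Associates.count_self (Associates.irreducible_mk.2 P.irreducible)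
    · rw [if_neg hv]
      have := Associates.count_eq_zero_of_ne (Associates.irreducible_mk.2 v.irreducible)
        (Associates.irreducible_mk.2 P.irreducible) (fun h => hv (by
          have h3 := Associates.mk_eq_mk_iff_associated.1 h
          exact HeightOneSpectrum.ext (associated_iff_eq.1 h3)))
      exact_mod_cast this
  · rw [Associates.mk_ne_zero]
    exact P.ne_bot
  · rw [Associates.mk_ne_zero]
    exact hI
  · exact Associates.irreducible_mk.2 v.irreducible

/-- Infinitely many prime ideals give infinitely many quadratic extensions which are ramified at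
these primes only (apart from the primes over 2), split at `T` and at the real places. -/
theorem inf_quad {Ω : Type} [Field Ω] [Algebra F Ω] [IsSepClosed Ω]
    {X : Set (HeightOneSpectrum (𝓞 F))} (hX : X.Infinite) {N : 𝓞 F} (hN : N ≠ 0)
    {T : Set (HeightOneSpectrum (𝓞 F))} (hT : ∀ v ∈ T, v.valuation F (N : F) < v.valuation F 4)
    (hXT : ∀ v ∈ X, v ∉ T) :
    {M : IntermediateField F Ω | ∃ (d : F) (s : Ω), s ^ 2 = algebraMap F Ω d ∧ ¬ IsSquare d ∧
      M = F⟮s⟯ ∧ (∀ v : HeightOneSpectrum (𝓞 F), v ∉ X → v.valuation F d = 1) ∧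
      (∀ v ∈ T, ∃ z : v.adicCompletion F, z ^ 2 = algebraMap F _ d) ∧
      ∀ σ : F →+* ℝ, 0 < σ d}.Infinite := by
  haveI : Infinite X := hX.to_subtype
  haveI : CharZero Ω := charZero_of_injective_algebraMap (algebraMap F Ω).injective
  -- the ideal classes
  obtain ⟨y, hy⟩ := Finite.exists_infinite_fiber (fun P : X =>
    ClassGroup.mk0 (R := 𝓞 F) ⟨P.1.asIdeal, mem_nonZeroDivisors_iff_ne_zero.2 P.1.ne_bot⟩)
  obtain ⟨I, hI⟩ := ClassGroup.mk0_surjective (R := 𝓞 F) y⁻¹
  have hI0 : (I : Ideal (𝓞 F)) ≠ ⊥ := nonZeroDivisors.ne_zero I.2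
  set Y := ((fun P : X =>
    ClassGroup.mk0 (R := 𝓞 F) ⟨P.1.asIdeal, mem_nonZeroDivisors_iff_ne_zero.2 P.1.ne_bot⟩) ⁻¹' {y})
    with hY
  have hprin : ∀ P : Y, ∃ a : 𝓞 F, a ≠ 0 ∧ P.1.1.asIdeal * (I : Ideal (𝓞 F)) = Ideal.span {a} := by
    rintro ⟨⟨P, hPX⟩, hP⟩
    have h1 : ClassGroup.mk0 (R := 𝓞 F)
        (⟨P.asIdeal, mem_nonZeroDivisors_iff_ne_zero.2 P.ne_bot⟩ * I) = 1 := by
      rw [map_mul, hI]
      have : ClassGroup.mk0 (R := 𝓞 F) ⟨P.asIdeal, mem_nonZeroDivisors_iff_ne_zero.2 P.ne_bot⟩ = y :=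
        hP
      rw [this, mul_inv_cancel]
    rw [ClassGroup.mk0_eq_one_iff] at h1
    obtain ⟨a, ha⟩ := (Submodule.isPrincipal_iff _).1 h1
    refine ⟨a, ?_, ha⟩
    rintro rfl
    have h2 : P.asIdeal * (I : Ideal (𝓞 F)) = ⊥ := by
      have h3 : P.asIdeal * (I : Ideal (𝓞 F)) = Ideal.span {0} := ha
      rw [h3, Ideal.span_singleton_eq_bot]
    rcases Ideal.mul_eq_bot.1 h2 with h3 | h3
    · exact P.ne_bot h3
    · exact hI0 h3
  choose a ha0 ha using hprin
  obtain ⟨P₀⟩ : Nonempty Y := inferInstance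
  -- the residue classes and signs
  set J : Ideal (𝓞 F) := Ideal.span {N * a P₀} with hJ
  have hJ0 : J ≠ ⊥ := by
    rw [hJ, Ne, Ideal.span_singleton_eq_bot]
    exact mul_ne_zero hN (ha0 P₀)
  haveI : Finite (𝓞 F ⧸ J) := J.finiteQuotientOfFreeOfNeBot hJ0
  obtain ⟨z, hz⟩ := Finite.exists_infinite_fiber (fun P : Y =>
    ((Ideal.Quotient.mk J (a P), fun φ : F →+* ℂ => 0 < (φ (a P : F)).re) :
      (𝓞 F ⧸ J) × ((F →+* ℂ) → Prop)))
  set Z := ((fun P : Y =>
    ((Ideal.Quotient.mk J (a P), fun φ : F →+* ℂ => 0 < (φ (a P : F)).re) :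
      (𝓞 F ⧸ J) × ((F →+* ℂ) → Prop))) ⁻¹' {z}) with hZ
  obtain ⟨Q⟩ : Nonempty Z := inferInstance
  have hcong : ∀ P : Z, a P.1 - a Q.1 ∈ J := by
    intro P
    have h1 : _ = z := P.2
    have h2 : _ = z := Q.2
    exact Ideal.Quotient.eq.1 (congrArg Prod.fst (h1.trans h2.symm))
  have hsign : ∀ (P : Z) (φ : F →+* ℂ), 0 < (φ (a P.1 : F)).re ↔ 0 < (φ (a Q.1 : F)).re := by
    intro P φ
    have h1 : _ = z := P.2
    have h2 : _ = z := Q.2
    exact iff_of_eq (congrFun (congrArg Prod.snd (h1.trans h2.symm)) φ)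
  have haF : ∀ P : Y, (a P : F) ≠ 0 := fun P => by
    have := ha0 P
    exact_mod_cast this
  -- the valuations
  have hval : ∀ (P : Y) (v : HeightOneSpectrum (𝓞 F)), v.valuation F (a P : F) =
      WithZero.exp (-((if v = P.1.1 then 1 else 0 : ℕ) +
      (Associates.mk v.asIdeal).count (Associates.mk (I : Ideal (𝓞 F))).factors : ℤ)) :=
    fun P v => val_prod hI0 (ha0 P) (ha P) v
  set d : Z → F := fun P => (a P.1 : F) / (a Q.1 : F) with hd
  have hroot : ∀ P : Z, ∃ s : Ω, s ^ 2 = algebraMap F Ω (d P) := fun P => by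
    haveI : NeZero ((2 : ℕ) : Ω) := ⟨by norm_num⟩
    exact IsSepClosed.exists_pow_nat_eq _ 2
  choose s hs using hroot
  -- a quotient is not a square
  have hnsq : ∀ P P' : Y, P ≠ P' → ¬ IsSquare ((a P : F) * (a P' : F)) := by
    rintro P P' hne ⟨b, hb⟩
    have h1 := congrArg (P.1.1.valuation F) hb
    have hPP : P.1.1 ≠ P'.1.1 := fun h => hne (Subtype.ext (Subtype.ext h))
    rw [map_mul, map_mul, hval, hval, if_pos rfl, if_neg hPP, ← WithZero.exp_add] at h1
    have hb0 : b ≠ 0 := by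
      rintro rfl
      rw [mul_zero] at hb
      exact mul_ne_zero (haF P) (haF P') hb
    have h2 : P.1.1.valuation F b ≠ 0 := (Valuation.ne_zero_iff _).2 hb0
    obtain ⟨k, hk⟩ : ∃ k : ℤ, P.1.1.valuation F b = WithZero.exp k :=
      ⟨WithZero.log (P.1.1.valuation F b), (WithZero.exp_log h2).symm⟩
    rw [hk, ← WithZero.exp_add, WithZero.exp_inj] at h1
    push_cast at h1
    omega
  have hdsq : ∀ P : Z, P ≠ Q → ¬ IsSquare (d P) := by
    rintro P hne ⟨b, hb⟩
    refine hnsq P.1 Q.1 (fun h => hne (Subtype.ext h)) ⟨b * (a Q.1 : F), ?_⟩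
    have h1 : (a P.1 : F) = d P * (a Q.1 : F) := (div_mul_cancel₀ _ (haF Q.1)).symm
    rw [h1, hb]
    ring
  have hZinf : (Set.univ \ {Q} : Set Z).Infinite := by
    haveI : Infinite Z := hz
    exact Set.infinite_univ.diff (Set.finite_singleton Q)
  refine Set.infinite_of_injOn_mapsTo (s := (Set.univ \ {Q} : Set Z)) (f := fun P => F⟮s P⟯)
    ?_ ?_ hZinf
  · -- the fields are distinct
    intro P hP P' hP' hPP
    by_contra hne
    have h1 : s P' ∈ F⟮s P⟯ := by
      have h2 : F⟮s P⟯ = F⟮s P'⟯ := hPP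
      rw [h2]
      exact IntermediateField.mem_adjoin_simple_self F _
    obtain ⟨b, hb⟩ := qd_kummer two_ne_zero (hs P) (hdsq P hP.2) (hs P') (hdsq P' hP'.2) h1
    refine hnsq P.1 P'.1 (fun h => hne (Subtype.ext h)) ⟨b * (a Q.1 : F), ?_⟩
    have h3 : (a P.1 : F) = d P * (a Q.1 : F) := (div_mul_cancel₀ _ (haF Q.1)).symm
    have h4 : (a P'.1 : F) = d P' * (a Q.1 : F) := (div_mul_cancel₀ _ (haF Q.1)).symm
    rw [h3, h4]
    linear_combination (a Q.1 : F) ^ 2 * hb
  · intro P hP
    have hPQ : P.1 ≠ Q.1 := fun h => hP.2 (Subtype.ext h)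
    refine ⟨d P, s P, hs P, hdsq P hP.2, rfl, ?_, ?_, ?_⟩
    · intro v hv
      rw [hd]
      simp only
      rw [map_div₀, hval, hval, if_neg (fun h => hv (by rw [h]; exact P.1.1.2)),
        if_neg (fun h => hv (by rw [h]; exact Q.1.1.2))]
      exact div_self WithZero.coe_ne_zero
    · intro v hv
      have hvX : v ∉ X := fun h => hXT v h hv
      have hq : ∀ P : Y, v.valuation F (a P : F) = v.valuation F (a Q.1 : F) := by
        intro P
        rw [hval, hval, if_neg (fun h => hvX (by rw [h]; exact P.1.2)),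
          if_neg (fun h => hvX (by rw [h]; exact Q.1.1.2))]
      have h1 := hcong P
      rw [hJ, Ideal.mem_span_singleton] at h1
      obtain ⟨c, hc⟩ := h1
      have hc' : (a P.1 : F) - (a Q.1 : F) = (N : F) * (a P₀ : F) * (c : F) := by
        have := congrArg (fun x : 𝓞 F => (x : F)) hc
        push_cast at this
        exact this
      have hvQ : v.valuation F (a Q.1 : F) ≠ 0 := (Valuation.ne_zero_iff _).2 (haF Q.1)
      have h2 : v.valuation F (d P - 1) < v.valuation F 4 := by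
        have e1 : d P - 1 = ((a P.1 : F) - (a Q.1 : F)) / (a Q.1 : F) := by
          rw [hd]
          simp only
          rw [sub_div, div_self (haF Q.1)]
        rw [e1, hc', map_div₀, map_mul, map_mul, hq P₀]
        refine lt_of_le_of_lt ?_ (hT v hv)
        rw [mul_right_comm, mul_div_assoc, div_self hvQ, mul_one]
        exact mul_le_of_le_one_right' (v.valuation_le_one (K := F) c)
      obtain ⟨z, hz⟩ := Pool.Agent.Y682.exists_sqrt v (algebraMap F _ (d P - 1)) (by
        have e4 : algebraMap F (v.adicCompletion F) 4 = 4 := map_ofNat _ 4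
        rw [← e4, Pool.Agent.Y682.vv_coe, Pool.Agent.Y682.vv_coe]
        exact h2)
      refine ⟨z, ?_⟩
      rw [hz, map_sub, map_one]
      ring
    · intro σ
      have h1 := hsign P (Complex.ofRealHom.comp σ)
      have e : ∀ x : F, ((Complex.ofRealHom.comp σ) x).re = σ x := fun x => rfl
      rw [e, e] at h1
      have h2 : σ (a P.1 : F) ≠ 0 := (_root_.map_ne_zero σ).2 (haF P.1)
      have h3 : σ (a Q.1 : F) ≠ 0 := (_root_.map_ne_zero σ).2 (haF Q.1)
      rw [hd]
      simp only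
      rw [map_div₀]
      rcases lt_or_gt_of_ne h3 with h4 | h4
      · have h5 : σ (a P.1 : F) < 0 := by
          rcases lt_or_gt_of_ne h2 with h6 | h6
          · exact h6
          · exact absurd (h1.1 h6) (not_lt.2 h4.le)
        exact div_pos_of_neg_of_neg h5 h4
      · exact div_pos (h1.2 h4) h4

end

end Pool.Agent.T3h73
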