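import Pool.Agent.N710.PF.Exs

/-!
# The auxiliary primes, congruent to one modulo a given number
-/

set_option autoImplicit false
set_option linter.all false

open Polynomial NumberField
open scoped Classical

namespace Pool.Agent.T3h73

open Pool.Agent.N783.PF

theorem exists_primes1 (m₀ M r : ℕ) (hm₀ : 0 < m₀) :
    ∃ S : Finset ℕ, S.card = r ∧ ∀ q ∈ S, q.Prime ∧ M < q ∧ q % 8 = 1 ∧ m₀ ∣ q - 1 := by
  classical
  induction r with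
  | zero => exact ⟨∅, rfl, by simp⟩
  | succ r ih =>
    obtain ⟨S, hS, hS2⟩ := ih
    obtain ⟨q, hq1, hq2, hq3⟩ := Nat.exists_prime_gt_modEq_one (k := 8 * m₀)
      (M + ∑ i ∈ S, i) (by omega)
    have hdv : 8 * m₀ ∣ q - 1 := by
      exact (Nat.modEq_iff_dvd' hq1.one_lt.le).1 hq3.symm
    have h8 : q % 8 = 1 := by
      obtain ⟨c, hc⟩ := (Dvd.intro m₀ rfl : 8 ∣ 8 * m₀).trans hdv
      have := hq1.one_lt
      omega
    have hqS : q ∉ S := by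
      intro h
      have := Finset.single_le_sum (f := fun i : ℕ => i) (fun i _ => Nat.zero_le i) h
      omega
    refine ⟨insert q S, by rw [Finset.card_insert_of_notMem hqS, hS], fun i hi => ?_⟩
    rw [Finset.mem_insert] at hi
    rcases hi with rfl | hi
    · exact ⟨hq1, by omega, h8, (Dvd.intro_left 8 rfl).trans hdv⟩
    · exact hS2 i hi

theorem exs1 (F : Type) [Field F] [NumberField F] (g W m₀ : ℕ) (hg : 1 ≤ g) (hm₀ : 0 < m₀)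
    (m : ℕ) : ∃ (S : Finset ℕ) (𝔮 : ℕ → Ideal (𝓞 F)) (h P : ℕ → (𝓞 F)[X]),
    GoodS g W S 𝔮 h P ∧ S.card = m ∧ ∀ q ∈ S, m₀ ∣ q - 1 := by
  obtain ⟨S, hS, hS2⟩ := exists_primes1 m₀ (W + (2 * g + 1) + (discr F).natAbs) m hm₀
  have hdata : ∀ q : ℕ, ∃ (𝔮 : Ideal (𝓞 F)) (h A : (𝓞 F)[X]), q ∈ S →
    (∀ 𝔭 : Ideal (𝓞 F), 𝔭.IsPrime → (q : 𝓞 F) ∉ 𝔭 ^ 2) ∧
    𝔮.IsPrime ∧ (q : 𝓞 F) ∈ 𝔮 ∧
    h.Monic ∧ h.natDegree = 2 * g ∧ Irreducible (rd 𝔮 h) ∧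
    A.Monic ∧ A.natDegree = 2 * g + 1 ∧ A.coeff (2 * g) = 0 ∧
    Cg 𝔮 A (X * h) ∧
    ∀ 𝔭 : Ideal (𝓞 F), 𝔭.IsPrime → (q : 𝓞 F) ∈ 𝔭 → 𝔭 ≠ 𝔮 → Irreducible (rd 𝔭 A) := by
    intro q
    by_cases hq : q ∈ S
    · obtain ⟨h1, h2, h3, h4⟩ := hS2 q hq
      obtain ⟨𝔮, h, A, hh⟩ := Pool.Agent.N710.PF.exists_data F g q hg h1 (by omega) (by omega)
      exact ⟨𝔮, h, A, fun _ => hh⟩
    · exact ⟨⊥, 0, 0, fun h => absurd h hq⟩
  choose 𝔮 h A hh using hdata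
  refine ⟨S, 𝔮, h, A, fun q hq => ?_, hS, fun q hq => (hS2 q hq).2.2.2⟩
  obtain ⟨h1, h2, h3, h4⟩ := hS2 q hq
  exact ⟨h1, by omega, by omega, h3, hh q hq⟩

/-- The twisting parameter is one modulo `m₀`. -/
theorem dp_one {m₀ : ℕ} {S J : Finset ℕ} (hS : ∀ q ∈ S, q.Prime ∧ m₀ ∣ q - 1) (hJ : J ⊆ S) :
    (m₀ : ℤ) ∣ ((∏ q ∈ J, q : ℕ) : ℤ) - 1 := by
  rw [← Int.modEq_iff_dvd]
  push_cast
  induction J using Finset.induction_on with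
  | empty => exact Int.ModEq.refl _
  | insert p J hp ih =>
    rw [Finset.prod_insert hp]
    obtain ⟨h1, c, hc⟩ := hS p (hJ (Finset.mem_insert_self _ _))
    have e1 : (1 : ℤ) ≡ (p : ℤ) [ZMOD (m₀ : ℤ)] := by
      rw [Int.modEq_iff_dvd]
      refine ⟨(c : ℤ), ?_⟩
      have h3 : p = m₀ * c + 1 := by have := h1.one_lt; omega
      rw [h3]
      push_cast
      ring
    have e2 := ih fun q hq => hJ (Finset.mem_insert_of_mem hq)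
    simpa using e1.mul e2

end Pool.Agent.T3h73
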