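import Pool.Agent.T3h73.SelUp

/-!
# One real root: the real condition is always satisfied
-/

set_option autoImplicit false
set_option linter.all false

open Polynomial NumberField
open scoped Classical ComplexConjugate

namespace Pool.Agent.T3h73

open Pool.Agent.N783.PQ (LocIm)
open Pool.Agent.Y160.SE (Rt)

theorem aeval_conj (k : ℝ[X]) (e : ℂ) : aeval (conj e) k = conj (aeval e k) := by
  have := aeval_algHom_apply Complex.conjAe.toAlgHom e k
  simpa using this

/-- The sign of the value at the real root. -/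
theorem pos_of_prod {k : ℝ[X]} (R : Finset ℂ) (hconj : ∀ e ∈ R, conj e ∈ R)
    (hne : ∀ e ∈ R, aeval e k ≠ 0) {r : ℝ} (hr : (r : ℂ) ∈ R)
    (hu : ∀ e ∈ R, e.im = 0 → e = (r : ℂ)) {y : ℝ} (hy : y ≠ 0)
    (hprod : ∏ e ∈ R, aeval e k = ((y ^ 2 : ℝ) : ℂ)) : 0 < k.eval r := by
  have h1 : R = (R.filter fun e => e.im = 0) ∪ ((R.filter fun e => 0 < e.im) ∪
      (R.filter fun e => e.im < 0)) := by
    ext e
    simp only [Finset.mem_union, Finset.mem_filter]
    constructor
    · intro he
      rcases lt_trichotomy e.im 0 with h | h | h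
      · exact Or.inr (Or.inr ⟨he, h⟩)
      · exact Or.inl ⟨he, h⟩
      · exact Or.inr (Or.inl ⟨he, h⟩)
    · rintro (h | h | h)
      · exact h.1
      · exact h.1
      · exact h.1
  have h0 : R.filter (fun e => e.im = 0) = {(r : ℂ)} := by
    ext e
    simp only [Finset.mem_filter, Finset.mem_singleton]
    constructor
    · rintro ⟨he, h⟩
      exact hu e he h
    · rintro rfl
      exact ⟨hr, by simp⟩
  have hd1 : Disjoint (R.filter fun e => e.im = 0) ((R.filter fun e => 0 < e.im) ∪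
      (R.filter fun e => e.im < 0)) := by
    rw [Finset.disjoint_left]
    intro e he
    simp only [Finset.mem_union, Finset.mem_filter] at he ⊢
    rintro (h | h)
    · linarith [he.2, h.2]
    · linarith [he.2, h.2]
  have hd2 : Disjoint (R.filter fun e => 0 < e.im) (R.filter fun e => e.im < 0) := by
    rw [Finset.disjoint_left]
    intro e he
    simp only [Finset.mem_filter] at he ⊢
    rintro ⟨_, h⟩
    linarith [he.2]
  have h2 : ∏ e ∈ R.filter (fun e => e.im < 0), aeval e k =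
      ∏ e ∈ R.filter (fun e => 0 < e.im), conj (aeval e k) := by
    symm
    refine Finset.prod_bij (fun e _ => conj e) ?_ ?_ ?_ ?_
    · intro e he
      rw [Finset.mem_filter] at he ⊢
      exact ⟨hconj e he.1, by rw [Complex.conj_im]; linarith [he.2]⟩
    · intro a _ b _ hab
      exact (starRingEnd ℂ).injective hab
    · intro b hb
      rw [Finset.mem_filter] at hb
      refine ⟨conj b, ?_, Complex.conj_conj b⟩
      rw [Finset.mem_filter]
      exact ⟨hconj b hb.1, by rw [Complex.conj_im]; linarith [hb.2]⟩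
    · intro e _
      rw [aeval_conj]
  have h3 : ∏ e ∈ R, aeval e k = ((k.eval r *
      ∏ e ∈ R.filter (fun e => 0 < e.im), Complex.normSq (aeval e k) : ℝ) : ℂ) := by
    conv_lhs => rw [h1]
    rw [Finset.prod_union hd1, h0, Finset.prod_singleton, Finset.prod_union hd2, h2,
      ← Finset.prod_mul_distrib]
    push_cast
    congr 1
    · have := aeval_algebraMap_apply ℂ r k
      simpa using this
    · refine Finset.prod_congr rfl fun e _ => ?_
      rw [Complex.mul_conj]
  rw [hprod] at h3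
  have h4 : y ^ 2 = k.eval r * ∏ e ∈ R.filter (fun e => 0 < e.im), Complex.normSq (aeval e k) :=
    Complex.ofReal_injective h3
  have h5 : 0 < ∏ e ∈ R.filter (fun e => 0 < e.im), Complex.normSq (aeval e k) := by
    refine Finset.prod_pos fun e he => ?_
    rw [Complex.normSq_pos]
    exact hne e (Finset.mem_filter.1 he).1
  have h6 : 0 < y ^ 2 := by positivity
  rw [h4] at h6
  exact (pos_iff_pos_of_mul_pos h6).2 h5

theorem one : S_ONE := by
  intro F _ _ p h σ hm hsep hcop hnorm hone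
  obtain ⟨r, hr, hu⟩ := hone
  simp only at hr hu
  obtain ⟨q, hq⟩ : ∃ q : ℝ[X], q = p.map σ := ⟨_, rfl⟩
  obtain ⟨k, hk⟩ : ∃ k : ℝ[X], k = h.map σ := ⟨_, rfl⟩
  rw [← hq] at hr hu ⊢
  rw [← hk]
  have hqm : q.Monic := by rw [hq]; exact hm.map _
  have hqs : q.Separable := by rw [hq]; exact hsep.map
  have hqc : IsCoprime k q := by
    rw [hq, hk]
    exact hcop.map (mapRingHom σ)
  letI : Algebra F ℂ := ((algebraMap ℝ ℂ).comp σ).toAlgebra
  have hmapp : ∀ s : F[X], s.map (algebraMap F ℂ) = (s.map σ).map (algebraMap ℝ ℂ) := by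
    intro s
    rw [Polynomial.map_map]
    rfl
  have hae : ∀ (s : F[X]) (e : ℂ), aeval e s = aeval e (s.map σ) := by
    intro s e
    rw [aeval_def, aeval_def, eval₂_map]
    rfl
  obtain ⟨y, hy⟩ := hnorm
  have hN := Pool.Agent.N615.JB.nrm F ℂ p h hm (IsAlgClosed.splits _)
  rw [hy, hmapp, ← hq] at hN
  have hs : (q.map (algebraMap ℝ ℂ)).Separable := hqs.map
  have hnd : (q.map (algebraMap ℝ ℂ)).roots.Nodup := nodup_roots hs
  have hq0 : q.map (algebraMap ℝ ℂ) ≠ 0 := (hqm.map _).ne_zero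
  have hmem : ∀ e : ℂ, e ∈ (q.map (algebraMap ℝ ℂ)).roots.toFinset ↔ aeval e q = 0 := by
    intro e
    rw [Multiset.mem_toFinset, mem_roots hq0, IsRoot.def, eval_map_algebraMap]
  have hne : ∀ e : ℂ, aeval e q = 0 → aeval e k ≠ 0 := by
    intro e he h0
    obtain ⟨a, b, hab⟩ := hqc
    have := congrArg (aeval e) hab
    rw [map_add, map_mul, map_mul, h0, he, mul_zero, mul_zero, add_zero, map_one] at this
    exact zero_ne_one this
  have hprod : ∏ e ∈ (q.map (algebraMap ℝ ℂ)).roots.toFinset, aeval e k = (((σ y) ^ 2 : ℝ) : ℂ) := by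
    have e1 : ((q.map (algebraMap ℝ ℂ)).roots.map fun e => aeval e h).prod =
        ∏ e ∈ (q.map (algebraMap ℝ ℂ)).roots.toFinset, aeval e k := by
      rw [Finset.prod, Multiset.toFinset_val, hnd.dedup]
      congr 1
      apply Multiset.map_congr rfl
      intro e _
      rw [hae, hk]
    rw [← e1, ← hN, pow_two]
    change algebraMap ℝ ℂ (σ (y * y)) = _
    rw [map_mul]
    rfl
  have hroot : aeval (r : ℂ) q = 0 := by
    have := aeval_algebraMap_apply ℂ r q
    rw [show (algebraMap ℝ ℂ r) = (r : ℂ) from rfl] at this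
    rw [this, coe_aeval_eq_eval, hr, map_zero]
  have hreal : ∀ e : ℂ, aeval e q = 0 → e.im = 0 → e = (r : ℂ) := by
    intro e he him
    obtain ⟨x, hx⟩ : ∃ x : ℝ, e = (x : ℂ) := ⟨e.re, Complex.ext rfl him⟩
    subst hx
    have := aeval_algebraMap_apply ℂ x q
    rw [show (algebraMap ℝ ℂ x) = (x : ℂ) from rfl, he, coe_aeval_eq_eval] at this
    have h1 : q.eval x = 0 := by
      have h2 : ((q.eval x : ℝ) : ℂ) = 0 := this.symm
      exact_mod_cast h2
    rw [hu x h1]
  have hy0 : σ y ≠ 0 := by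
    intro h0
    rw [h0] at hprod
    have h1 : ∏ e ∈ (q.map (algebraMap ℝ ℂ)).roots.toFinset, aeval e k = 0 := by
      rw [hprod]
      simp
    rw [Finset.prod_eq_zero_iff] at h1
    obtain ⟨e, he, h2⟩ := h1
    exact hne e ((hmem e).1 he) h2
  have hpos : 0 < k.eval r := by
    refine pos_of_prod _ ?_ ?_ ((hmem _).2 hroot) ?_ hy0 hprod
    · intro e he
      rw [hmem] at he ⊢
      rw [aeval_conj, he, map_zero]
    · intro e he
      exact hne e ((hmem e).1 he)
    · intro e he
      exact hreal e ((hmem e).1 he)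
  -- the square root
  obtain ⟨sq, hsq⟩ : ∃ sq : ℂ → ℂ, ∀ z, sq z ^ 2 = z :=
    ⟨fun z => (IsAlgClosed.exists_pow_nat_eq z two_pos).choose,
      fun z => (IsAlgClosed.exists_pow_nat_eq z two_pos).choose_spec⟩
  obtain ⟨γ, hγ⟩ : ∃ γ : ℂ → ℂ, γ = fun e => if e.im = 0 then ((Real.sqrt (k.eval r) : ℝ) : ℂ) else
      if 0 < e.im then sq (aeval e k) else conj (sq (aeval (conj e) k)) := ⟨_, rfl⟩
  have hγsq : ∀ e : ℂ, aeval e q = 0 → γ e ^ 2 = aeval e k := by
    intro e he
    rw [hγ]
    simp only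
    split_ifs with h1 h2
    · have h3 := hreal e he h1
      rw [h3, ← Complex.ofReal_pow, Real.sq_sqrt hpos.le]
      have := aeval_algebraMap_apply ℂ r k
      rw [show (algebraMap ℝ ℂ r) = (r : ℂ) from rfl] at this
      rw [this, coe_aeval_eq_eval]
      rfl
    · exact hsq _
    · rw [← map_pow, hsq, ← aeval_conj, Complex.conj_conj]
  have hγc : ∀ e : ℂ, conj (γ e) = γ (conj e) := by
    intro e
    rw [hγ]
    simp only [Complex.conj_im, neg_eq_zero, Left.neg_pos_iff, Complex.conj_conj]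
    rcases lt_trichotomy e.im 0 with h | h | h
    · rw [if_neg h.ne, if_neg (not_lt.2 h.le), if_neg h.ne, if_pos h, Complex.conj_conj]
    · rw [if_pos h, if_pos h, Complex.conj_ofReal]
    · rw [if_neg h.ne', if_pos h, if_neg h.ne', if_neg (not_lt.2 h.le)]
  haveI hgal : IsGalois ℝ ℂ := by
    haveI : IsAlgClosure ℝ ℂ := ⟨inferInstance, inferInstance⟩
    exact IsAlgClosure.isGalois ℝ ℂ
  obtain ⟨s, hs'⟩ := Pool.Agent.N615.JB.lag ℝ ℂ q hqs γ (by
    intro τ e he
    rcases Complex.real_algHom_eq_id_or_conj (τ : ℂ →ₐ[ℝ] ℂ) with h1 | h1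
    · have h2 : ∀ z, τ z = z := fun z => congrArg (fun φ : ℂ →ₐ[ℝ] ℂ => φ z) h1
      rw [h2, h2]
    · have h2 : ∀ z, τ z = conj z := fun z => congrArg (fun φ : ℂ →ₐ[ℝ] ℂ => φ z) h1
      rw [h2, h2, hγc])
  refine LocIm.of_sq (s := s) ?_
  apply Pool.Agent.N424.JB.dvd_of_roots (Ω := ℂ) hqs (IsAlgClosed.splits _)
  intro e he
  rw [map_sub, map_pow, hs' e he, hγsq e he, sub_self]

end Pool.Agent.T3h73
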