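import Pool.Agent.T3h73.Fam2
import Pool.Agent.T3h73.Exs2
import Pool.Agent.T3h73.Real

/-!
# A positive proportion, uniformly over the 2-extensions: the count
-/

set_option autoImplicit false
set_option linter.all false

open Polynomial NumberField IsDedekindDomain
open scoped Classical

namespace Pool.Agent.T3h73

open Pool.Agent.N352.PJ (dd)
open Pool.Agent.N783.PF
open Pool.Agent.N99.PF (card_fib sum_ddM ht_card ht_scale scale_inj good_card)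
open Pool.Agent.N170.PF (LBad.mono irr_scale)
open Pool.Agent.N78.PF (fF_scale)

/-- The primes at which the extensions have to be split. -/
def TT {F : Type} [Field F] [NumberField F] (T₀ : Finset (HeightOneSpectrum (𝓞 F))) :
    Set (Ideal (𝓞 F)) :=
  {I | (2 : 𝓞 F) ∈ I ∨ ∃ v ∈ T₀, v.asIdeal = I}

/-- The polynomial is good: the Selmer group of its Jacobian is trivial over all extensions
considered. -/
structure Good2 {F : Type} [Field F] [NumberField F] (g m₀ : ℕ) (f₀ : (𝓞 F)[X]) (p : F[X])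
    (δ : ℝ) (T₀ : Finset (HeightOneSpectrum (𝓞 F))) (B : ℕ) (f : (𝓞 F)[X]) : Prop where
  ht : Ht g B f
  cong : ∀ j, (m₀ : 𝓞 F) ∣ f.coeff j - f₀.coeff j
  near : ∃ b : ℝ, 0 < b ∧ b ≤ B ∧ NearA g p δ b f.coeff
  min : Min g f
  irr : Irreducible (fF f)
  irr2 : ∀ v : HeightOneSpectrum (𝓞 F), (2 : 𝓞 F) ∈ v.asIdeal → Irreducible (rd v.asIdeal f)
  sel : ∀ (M : Type) [Field M] [NumberField M] [Algebra F M], AdmA M f (TT T₀) →
    Irreducible ((fF f).map (algebraMap F M)) ∧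
    Pool.Agent.N352.JB.SelTriv (PlF M) ((fF f).map (algebraMap F M))

theorem irr_unscale {K : Type} [Field K] {p : K[X]} {D : K} (hD : D ≠ 0)
    (hp : Irreducible (p.scaleRoots D)) : Irreducible p := by
  have h1 := irr_scale (inv_ne_zero hD) hp
  rwa [← scaleRoots_mul, mul_inv_cancel₀ hD, scaleRoots_one] at h1

theorem oneRoot_unscale {p : ℝ[X]} {D : ℝ} (hD : D ≠ 0) (h : OneRoot (p.scaleRoots D)) :
    OneRoot p := by
  have h1 := oneRoot_scale (inv_ne_zero hD) h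
  rwa [← scaleRoots_mul, mul_inv_cancel₀ hD, scaleRoots_one] at h1

section

variable {F : Type} [Field F] [NumberField F]

theorem irr_rd_unscale {f : (𝓞 F)[X]} (hm : f.Monic) (hd : 2 ≤ f.natDegree) (D : ℕ)
    (v : HeightOneSpectrum (𝓞 F))
    (h : Irreducible (rd v.asIdeal (f.scaleRoots ((D : ℕ) : 𝓞 F)))) :
    Irreducible (rd v.asIdeal f) := by
  have hmax : v.asIdeal.IsMaximal := v.isMaximal
  letI : Field (𝓞 F ⧸ v.asIdeal) := Ideal.Quotient.field v.asIdeal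
  have e1 : rd v.asIdeal (f.scaleRoots ((D : ℕ) : 𝓞 F)) =
      (rd v.asIdeal f).scaleRoots (Ideal.Quotient.mk v.asIdeal ((D : ℕ) : 𝓞 F)) := by
    unfold rd
    rw [map_scaleRoots]
    rw [hm.leadingCoeff, map_one]
    exact one_ne_zero
  rw [e1] at h
  by_cases h0 : Ideal.Quotient.mk v.asIdeal ((D : ℕ) : 𝓞 F) = 0
  · exfalso
    have hmv : (rd v.asIdeal f).Monic := hm.map _
    have hdv : (rd v.asIdeal f).natDegree = f.natDegree := hm.natDegree_map _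
    rw [h0] at h
    have e2 : (rd v.asIdeal f).scaleRoots 0 = X ^ f.natDegree := by
      ext j
      rw [coeff_scaleRoots, coeff_X_pow, hdv]
      by_cases hj : j = f.natDegree
      · rw [if_pos hj, hj, Nat.sub_self, pow_zero, mul_one, ← hdv]
        exact hmv
      · rw [if_neg hj]
        rcases lt_or_gt_of_ne hj with h1 | h1
        · rw [zero_pow (by omega), mul_zero]
        · rw [coeff_eq_zero_of_natDegree_lt (by rw [hdv]; exact h1), zero_mul]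
    rw [e2] at h
    have h3 := (irreducible_X (R := 𝓞 F ⧸ v.asIdeal)).not_isUnit
    obtain ⟨k, hk⟩ : ∃ k, f.natDegree = k + 2 := ⟨f.natDegree - 2, by omega⟩
    rw [hk, pow_succ] at h
    rcases h.isUnit_or_isUnit rfl with h1 | h1
    · rw [isUnit_pow_iff (by omega)] at h1
      exact h3 h1
    · exact h3 h1
  · exact irr_unscale h0 h

theorem admA_unscale {f : (𝓞 F)[X]} (hm : f.Monic) (hd : 2 ≤ f.natDegree) {D : ℕ} (hD : D ≠ 0)
    {T : Set (Ideal (𝓞 F))} {M : Type} [Field M] [NumberField M] [Algebra F M]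
    (h : AdmA M (f.scaleRoots ((D : ℕ) : 𝓞 F)) T) : AdmA M f T where
  gal := h.gal
  two := h.two
  ram := fun v hv => irr_rd_unscale hm hd D v (h.ram v hv)
  spl := h.spl
  real := by
    intro σ
    rcases h.real σ with h1 | h1
    · exact Or.inl h1
    · right
      have hmF : (fF f).Monic := hm.map _
      have e3 : (fF (f.scaleRoots ((D : ℕ) : 𝓞 F))).map σ =
          ((fF f).map σ).scaleRoots ((D : ℕ) : ℝ) := by
        rw [fF_scale hm, map_scaleRoots]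
        · rw [map_natCast]
        · rw [hmF.leadingCoeff, map_one]
          exact one_ne_zero
      rw [e3] at h1
      exact oneRoot_unscale (Nat.cast_ne_zero.2 hD) h1

/-- From the absence of bad elements to a twist without 2-Selmer group over all extensions. -/
theorem tw2 (g : ℕ) (F : Type) [Field F] [NumberField F] (hg : 1 ≤ g) : ∃ κ : ℕ,
    ∀ (B N W : ℕ) (f₁ : (𝓞 F)[X]) (S : Finset ℕ) (𝔮 : ℕ → Ideal (𝓞 F)) (r P : ℕ → (𝓞 F)[X])
    (f : (𝓞 F)[X]), κ ≤ W → GoodF g W f₁ → GoodS g W S 𝔮 r P → Fam g B W f₁ S P f →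
    2 ^ κ * B ≤ 4 ^ N → 1 ≤ B → ¬ LBad g N κ S 𝔮 P f →
    ∃ J ⊆ S, Irreducible (fF (f.scaleRoots ((Dp J : ℕ) : 𝓞 F))) ∧
      Min g (f.scaleRoots ((Dp J : ℕ) : 𝓞 F)) ∧
      (∀ v : HeightOneSpectrum (𝓞 F), (2 : 𝓞 F) ∈ v.asIdeal →
        Irreducible (rd v.asIdeal (f.scaleRoots ((Dp J : ℕ) : 𝓞 F)))) ∧
      ∀ T₀ : Finset (HeightOneSpectrum (𝓞 F)), (∀ q ∈ S, ∃ v ∈ T₀, v.asIdeal = 𝔮 q) →
      ∀ (M : Type) [Field M] [NumberField M] [Algebra F M],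
      AdmA M (f.scaleRoots ((Dp J : ℕ) : 𝓞 F)) (TT T₀) →
      Irreducible ((fF (f.scaleRoots ((Dp J : ℕ) : 𝓞 F))).map (algebraMap F M)) ∧
      Pool.Agent.N352.JB.SelTriv (PlF M)
        ((fF (f.scaleRoots ((Dp J : ℕ) : 𝓞 F))).map (algebraMap F M)) := by
  obtain ⟨κ₁, hκ₁⟩ := core g F hg
  obtain ⟨κ₂, hκ₂⟩ := sqf g F hg
  refine ⟨max κ₁ κ₂, fun B N W f₁ S 𝔮 r P f hW hf₁ hS hF hBN hB hnb => ?_⟩
  have hBN1 : 2 ^ κ₁ * B ≤ 4 ^ N :=
    (Nat.mul_le_mul_right _ (Nat.pow_le_pow_right (by norm_num) (le_max_left _ _))).trans hBN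
  have hBN2 : 2 ^ κ₂ * B ≤ 4 ^ N :=
    (Nat.mul_le_mul_right _ (Nat.pow_le_pow_right (by norm_num) (le_max_right _ _))).trans hBN
  have hnb1 : ¬ LBad g N κ₁ S 𝔮 P f := fun h => hnb (LBad.mono (le_max_left _ _) h)
  have hnb2 : ¬ LBad g N κ₂ S 𝔮 P f := fun h => hnb (LBad.mono (le_max_right _ _) h)
  have hm := hF.ht.mon
  have hd := hF.ht.deg
  have hirr : Irreducible (fF f) := Pool.Agent.N667.PF.irr F g W f₁ f hf₁ hF.one hm hd
  have hsq : SqF g f := hκ₂ B N W f₁ S 𝔮 r P f ((le_max_right _ _).trans hW) hf₁ hS hF hirr hBN2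
    hB hnb2
  obtain ⟨L, _, _, _, θ, hc⟩ := Pool.Agent.N667.PF.gen F g f hm hd hirr
  obtain ⟨J, hJ, hcore⟩ := hκ₁ L f f₁ θ B N W S 𝔮 r P ((le_max_left _ _).trans hW) hc hsq hf₁ hS
    hF hBN1 hB hnb1
  have hD0 : Dp J ≠ 0 := by
    rw [Dp, Finset.prod_ne_zero_iff]
    exact fun q hq => (hS q (hJ hq)).1.ne_zero
  have hD0F : ((Dp J : ℕ) : F) ≠ 0 := Nat.cast_ne_zero.2 hD0
  refine ⟨J, hJ, ?_, Pool.Agent.N547.PF.min g W F S J 𝔮 r P f hg hS hsq hm hd hF.con hJ, ?_, ?_⟩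
  · rw [fF_scale hm]
    exact irr_scale hD0F hirr
  · -- the primes over 2
    intro v hv
    have hodd : ∀ K ⊆ J, (Dp K : ℕ) % 2 = 1 := by
      intro K hK
      induction K using Finset.induction_on with
      | empty => simp
      | insert a K ha ih =>
        rw [Dp, Finset.prod_insert ha, Nat.mul_mod,
          ih fun x hx => hK (Finset.mem_insert_of_mem hx)]
        have h8 := (hS a (hJ (hK (Finset.mem_insert_self _ _)))).2.2.2.1
        have : a % 2 = 1 := by omega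
        rw [this]
    have h1 := hodd J le_rfl
    have h2 : ((Dp J : ℕ) : 𝓞 F) - 1 ∈ v.asIdeal := by
      have e1 : ((Dp J : ℕ) : 𝓞 F) - 1 = 2 * ((Dp J / 2 : ℕ) : 𝓞 F) := by
        have e2 : Dp J = 2 * (Dp J / 2) + 1 := by omega
        conv_lhs => rw [e2]
        push_cast
        ring
      rw [e1]
      exact Ideal.mul_mem_right _ _ hv
    have h3 : rd v.asIdeal (f.scaleRoots ((Dp J : ℕ) : 𝓞 F)) = rd v.asIdeal f := by
      have e1 : Ideal.Quotient.mk v.asIdeal ((Dp J : ℕ) : 𝓞 F) = 1 := by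
        rw [← map_one (Ideal.Quotient.mk v.asIdeal)]
        exact Ideal.Quotient.eq.2 h2
      ext j
      rw [coeff_map, coeff_map, coeff_scaleRoots, map_mul, map_pow, e1, one_pow, mul_one]
    have h4 : rd v.asIdeal f = rd v.asIdeal f₁ := by
      ext j
      rw [coeff_map, coeff_map]
      refine Ideal.Quotient.eq.2 ?_
      have h5 := hF.one j
      rw [Ideal.mem_span_singleton] at h5
      obtain ⟨c, hc⟩ := h5
      obtain ⟨e, he⟩ := hf₁.two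
      rw [hc, he, Nat.cast_mul, Nat.cast_ofNat, mul_assoc]
      exact Ideal.mul_mem_right _ _ hv
    rw [h3, h4]
    exact hf₁.irr _ v.isPrime hv
  · intro T₀ hT₀ M _ _ _ hA
    refine selUp one hg hc hsq hirr hf₁ hS hF.one hF.con hJ hcore (T := TT T₀) ?_ M
      (admA_unscale hm (by omega) hD0 hA)
    rintro v (hv | ⟨q, hq, hqv⟩)
    · exact Or.inl hv
    · obtain ⟨w, hw, hwq⟩ := hT₀ q hq
      exact Or.inr ⟨w, hw, hwq.trans hqv⟩

theorem near_scale {g : ℕ} {p : F[X]} {δ b : ℝ} {f : (𝓞 F)[X]} (hd : f.natDegree = 2 * g + 1)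
    (D : ℕ) (h : NearA g p δ b f.coeff) :
    NearA g p δ (b * D) (f.scaleRoots ((D : ℕ) : 𝓞 F)).coeff := by
  intro j hj σ
  rw [coeff_scaleRoots, hd]
  have e1 : (((f.coeff j * ((D : ℕ) : 𝓞 F) ^ (2 * g + 1 - j) : 𝓞 F)) : F) =
      (f.coeff j : F) * (D : F) ^ (2 * g + 1 - j) := by
    push_cast
    rfl
  rw [e1, map_mul, map_pow, map_natCast]
  have e2 : σ (f.coeff j : F) * (D : ℂ) ^ (2 * g + 1 - j) -
      ((b * D : ℝ) : ℂ) ^ (2 * g + 1 - j) * σ (p.coeff j) =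
      (σ (f.coeff j : F) - (b : ℂ) ^ (2 * g + 1 - j) * σ (p.coeff j)) *
        (D : ℂ) ^ (2 * g + 1 - j) := by
    push_cast
    ring
  rw [e2, norm_mul, norm_pow, Complex.norm_natCast, mul_pow, ← mul_assoc]
  exact mul_le_mul_of_nonneg_right (h j hj σ) (by positivity)

end

/-- A positive proportion. -/
theorem main2 (F : Type) [Field F] [NumberField F] (g : ℕ) (hg : 1 ≤ g) (m₀ : ℕ) (hm₀ : 0 < m₀)
    (f₀ : (𝓞 F)[X]) (f0mon : f₀.Monic) (f0deg : f₀.natDegree = 2 * g + 1)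
    (f0tr : f₀.coeff (2 * g) = 0)
    (f0sep : ∀ v : HeightOneSpectrum (𝓞 F), (m₀ : 𝓞 F) ∈ v.asIdeal →
      (rd v.asIdeal f₀).Separable)
    (f0irr : ∀ v : HeightOneSpectrum (𝓞 F), (m₀ : 𝓞 F) ∈ v.asIdeal → (2 : 𝓞 F) ∈ v.asIdeal →
      Irreducible (rd v.asIdeal f₀)) (p : F[X]) (δ : ℝ) (hδ : 0 < δ) :
    ∃ T₀ : Finset (HeightOneSpectrum (𝓞 F)),
      (∀ v ∈ T₀, (2 : 𝓞 F) ∉ v.asIdeal ∧ (m₀ : 𝓞 F) ∉ v.asIdeal) ∧
      ∃ c : ℝ, 0 < c ∧ ∃ B₀ : ℕ, ∀ B ≥ B₀, {f : (𝓞 F)[X] | Ht g B f}.Finite ∧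
        c * ({f : (𝓞 F)[X] | Ht g B f}.ncard : ℝ) ≤
          ({f : (𝓞 F)[X] | Good2 g m₀ f₀ p δ T₀ B f}.ncard : ℝ) := by
  obtain ⟨κ, htw⟩ := tw2 g F hg
  obtain ⟨C, K, hbad⟩ := bad F g κ hg
  obtain ⟨N₁, hN₁, hfamK⟩ := fam2 F g hg m₀ hm₀ f₀ f0mon f0deg f0tr f0sep f0irr p δ hδ
  obtain ⟨W, f₁, hKW, hmW, hf10, hf₁, c, hc, hfam⟩ := hfamK (max K κ)
  obtain ⟨-, Cp, hCp, -, hpt⟩ := Pool.Agent.N490.PF.pts F
  set D : ℕ := Module.finrank ℚ F * dd g with hD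
  obtain ⟨m, hm⟩ : ∃ m : ℕ, 2 * (C * (4 * 2 ^ κ : ℝ) ^ D) / c < 2 ^ m :=
    pow_unbounded_of_one_lt _ (by norm_num)
  obtain ⟨S, 𝔮, h, P, hS, hcard, hS1⟩ := exs1 F g W m₀ hg hm₀ m
  -- the set of primes
  have hqprime : ∀ q ∈ S, (𝔮 q).IsPrime ∧ 𝔮 q ≠ ⊥ := by
    intro q hq
    obtain ⟨q1, q2, q3, q4, q5, q6, q7, -⟩ := hS q hq
    exact ⟨q6, Pool.Agent.N710.PF.ne_bot_of_mem q1 q7⟩
  set T₀ : Finset (HeightOneSpectrum (𝓞 F)) :=
    S.attach.image (fun q => ⟨𝔮 q.1, (hqprime q.1 q.2).1, (hqprime q.1 q.2).2⟩) with hT₀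
  have hTq : ∀ q ∈ S, ∃ v ∈ T₀, v.asIdeal = 𝔮 q := fun q hq =>
    ⟨⟨𝔮 q, (hqprime q hq).1, (hqprime q hq).2⟩,
      Finset.mem_image.2 ⟨⟨q, hq⟩, Finset.mem_attach _ _, rfl⟩, rfl⟩
  have hT1 : ∀ v ∈ T₀, (2 : 𝓞 F) ∉ v.asIdeal ∧ (m₀ : 𝓞 F) ∉ v.asIdeal := by
    intro v hv
    obtain ⟨⟨q, hq⟩, -, rfl⟩ := Finset.mem_image.1 hv
    obtain ⟨q1, q2, q3, q4, q5, q6, q7, -⟩ := hS q hq
    have hWq : (W : 𝓞 F) ∉ 𝔮 q := by
      intro hW
      have hcop : Nat.Coprime W q :=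
        ((Nat.Prime.coprime_iff_not_dvd q1).2 fun hd =>
          absurd (Nat.le_of_dvd hf₁.pos hd) (by omega)).symm
      obtain ⟨u, w, huw⟩ := Nat.isCoprime_iff_coprime.2 hcop
      have h2 : (1 : 𝓞 F) ∈ 𝔮 q := by
        have : (1 : 𝓞 F) = (u : 𝓞 F) * (W : 𝓞 F) + (w : 𝓞 F) * (q : 𝓞 F) := by
          exact_mod_cast (congrArg (fun z : ℤ => (z : 𝓞 F)) huw).symm
        rw [this]
        exact (𝔮 q).add_mem ((𝔮 q).mul_mem_left _ hW) ((𝔮 q).mul_mem_left _ q7)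
      exact q6.ne_top ((Ideal.eq_top_iff_one _).mpr h2)
    refine ⟨fun h2 => hWq ?_, fun h2 => hWq ?_⟩
    · obtain ⟨e, he⟩ := hf₁.two
      rw [he, Nat.cast_mul, Nat.cast_ofNat]
      exact Ideal.mul_mem_right _ _ h2
    · obtain ⟨e, he⟩ := hmW
      rw [he, Nat.cast_mul]
      exact Ideal.mul_mem_right _ _ h2
  refine ⟨T₀, hT1, ?_⟩
  obtain ⟨B₁₀, hB₁₀⟩ := hfam S 𝔮 h P hS
  obtain ⟨N₀, hN₀⟩ := hbad W S 𝔮 h P ((le_max_left _ _).trans hKW) hS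
  set Q : ℕ := ∏ q ∈ S, q with hQ
  have hq1 : ∀ q ∈ S, 1 ≤ q := fun q hq => (hS q hq).1.pos
  have hQ1 : 1 ≤ Q := Finset.one_le_prod' hq1
  set Pn : ℕ := (∏ q ∈ S, q ^ (2 * g)) ^ Module.finrank ℚ F with hPn
  have hP0 : (0 : ℝ) < Pn := by
    have : 0 < Pn := pow_pos (Finset.prod_pos fun q hq => pow_pos (hq1 q hq) _) _
    exact_mod_cast this
  have hQ0 : (0 : ℝ) < Q := by exact_mod_cast hQ1
  set X₀ : ℕ := max (max B₁₀ (4 ^ N₀)) 1 with hX₀
  refine ⟨c / 2 / (Pn * 2 ^ m * ((2 * Cp) ^ (2 * g) * (2 * Q) ^ D)), by positivity, X₀ * Q,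
    fun B hB => ?_⟩
  set B₁ : ℕ := B / Q with hB₁
  have hBX : X₀ ≤ B₁ := (Nat.le_div_iff_mul_le hQ1).2 hB
  have hb1 : 1 ≤ B₁ := (le_max_right _ _).trans hBX
  have hb2 : B₁₀ ≤ B₁ := ((le_max_left _ _).trans (le_max_left _ _)).trans hBX
  have hb3 : 4 ^ N₀ ≤ B₁ := ((le_max_right _ _).trans (le_max_left _ _)).trans hBX
  have hBQ : B₁ * Q ≤ B := Nat.div_mul_le_self B Q
  have hBQ2 : B ≤ 2 * Q * B₁ := by
    have e1 : B < B₁ * Q + Q := by
      have := Nat.lt_div_mul_add (a := B) (b := Q) hQ1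
      exact this
    nlinarith
  have hB1 : 1 ≤ B := le_trans (by nlinarith) hBQ
  obtain ⟨N, hNa, hNb⟩ : ∃ N : ℕ, 2 ^ κ * B₁ ≤ 4 ^ N ∧ 4 ^ N ≤ 4 * (2 ^ κ * B₁) := by
    refine ⟨Nat.log 4 (2 ^ κ * B₁) + 1, (Nat.lt_pow_succ_log_self (by norm_num) _).le, ?_⟩
    rw [pow_succ, mul_comm]
    refine Nat.mul_le_mul_left 4 (Nat.pow_log_le_self 4 ?_)
    positivity
  have hNN : N₀ ≤ N := by
    have e1 : 4 ^ N₀ ≤ 4 ^ N := hb3.trans (le_trans (Nat.le_mul_of_pos_left _ (by positivity)) hNa)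
    exact (Nat.pow_le_pow_iff_right (by norm_num)).1 e1
  obtain ⟨hfin, hBd⟩ := hN₀ N hNN
  refine ⟨(ht_card hCp hpt g B hB1).1, ?_⟩
  set H := {f : (𝓞 F)[X] | Good2 g m₀ f₀ p δ T₀ B f} with hH
  set G := {f : (𝓞 F)[X] | Fam g B₁ W f₁ S P f ∧ NearA g p δ ((B₁ : ℝ) / N₁) f.coeff} \
    {f : (𝓞 F)[X] | LBad g N κ S 𝔮 P f} with hGdef
  have hHf : H.Finite := (ht_card hCp hpt g B hB1).1.subset fun f hf => hf.ht
  have hGf : G.Finite := (ht_card hCp hpt g B₁ hb1).1.subset fun f hf => hf.1.1.ht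
  have hG : c / 2 * (B₁ : ℝ) ^ D ≤ Pn * (G.ncard : ℝ) := by
    refine good_card (C := C) (m := m) (κ := κ) hc hP0 B₁ N (hB₁₀ B₁ hb2) hfin ?_ hm ?_
    · rw [hcard] at hBd
      have e2 : Module.finrank ℚ F * (2 * N * dd g) = 2 * N * D := by rw [hD]; ring
      rw [e2] at hBd
      exact_mod_cast hBd
    · exact_mod_cast hNb
  have hJ0' : ∀ J ⊆ S, 0 < Dp J := fun J hJ =>
    Finset.prod_pos fun q hq => hq1 q (hJ hq)
  have hJ0 : ∀ J ⊆ S, ((Dp J : ℕ) : 𝓞 F) ≠ 0 := by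
    intro J hJ
    have h5 : (Dp J : ℕ) ≠ 0 := (hJ0' J hJ).ne'
    exact_mod_cast h5
  have hcard1 := card_fib hGf hHf S (fun J f => f.scaleRoots ((Dp J : ℕ) : 𝓞 F)) (by
      intro f hf
      obtain ⟨J, hJ, hirr, hmin, hirr2, hsel⟩ := htw B₁ N W f₁ S 𝔮 h P f
        ((le_max_right _ _).trans hKW) hf₁ hS hf.1.1 hNa hb1 hf.2
      have hDle : Dp J ≤ Q :=
        Finset.prod_le_prod_of_subset_of_one_le' hJ fun q hq _ => hq1 q hq
      refine ⟨J, hJ, ?_⟩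
      have hN₁r : (1 : ℝ) ≤ N₁ := by exact_mod_cast hN₁
      exact
        { ht := ht_scale hf.1.1.ht ((Nat.mul_le_mul_left _ hDle).trans hBQ)
          cong := by
            intro j
            rw [coeff_scaleRoots]
            have e1 : (m₀ : ℤ) ∣ ((Dp J : ℕ) : ℤ) - 1 :=
              dp_one (S := S) (fun q hq => ⟨(hS q hq).1, hS1 q hq⟩) hJ
            have e2 : (m₀ : 𝓞 F) ∣ ((Dp J : ℕ) : 𝓞 F) - 1 := by
              obtain ⟨x, hx⟩ := e1
              refine ⟨(x : 𝓞 F), ?_⟩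
              have := congrArg (Int.cast : ℤ → 𝓞 F) hx
              push_cast at this ⊢
              exact this
            have e3 : (m₀ : 𝓞 F) ∣ ((Dp J : ℕ) : 𝓞 F) ^ (f.natDegree - j) - 1 := by
              have := sub_dvd_pow_sub_pow ((Dp J : ℕ) : 𝓞 F) 1 (f.natDegree - j)
              rw [one_pow] at this
              exact e2.trans this
            have e4 : (m₀ : 𝓞 F) ∣ f.coeff j - f₁.coeff j := by
              have h5 := hf.1.1.one j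
              rw [Ideal.mem_span_singleton] at h5
              exact dvd_trans (Nat.cast_dvd_cast hmW) h5
            have e5 : f.coeff j * ((Dp J : ℕ) : 𝓞 F) ^ (f.natDegree - j) - f₀.coeff j =
                f.coeff j * (((Dp J : ℕ) : 𝓞 F) ^ (f.natDegree - j) - 1) +
                (f.coeff j - f₁.coeff j) + (f₁.coeff j - f₀.coeff j) := by ring
            rw [e5]
            exact dvd_add (dvd_add (Dvd.dvd.mul_left e3 _) e4) (hf10 j)
          near := by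
            refine ⟨(B₁ : ℝ) / N₁ * (Dp J : ℕ), ?_, ?_, near_scale hf.1.1.ht.deg _ hf.1.2⟩
            · have h6 : (0 : ℝ) < (Dp J : ℕ) := by exact_mod_cast hJ0' J hJ
              have h7 : (0 : ℝ) < B₁ := by exact_mod_cast hb1
              positivity
            · calc (B₁ : ℝ) / N₁ * (Dp J : ℕ) ≤ (B₁ : ℝ) * Q := by
                    refine mul_le_mul (div_le_self (Nat.cast_nonneg _) hN₁r)
                      (by exact_mod_cast hDle) (Nat.cast_nonneg _) (Nat.cast_nonneg _)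
                _ ≤ B := by exact_mod_cast hBQ
          min := hmin
          irr := hirr
          irr2 := hirr2
          sel := fun M _ _ _ hA => hsel T₀ hTq M hA }) (by
      intro J hJ x hx y hy hxy
      exact scale_inj (hJ0 J hJ) (by rw [hx.1.1.ht.deg, hy.1.1.ht.deg]) hxy)
  rw [hcard] at hcard1
  have hcard' : (G.ncard : ℝ) ≤ 2 ^ m * H.ncard := by exact_mod_cast hcard1
  have hM' : ({f : (𝓞 F)[X] | Ht g B f}.ncard : ℝ) ≤
      (2 * Cp) ^ (2 * g) * (2 * Q) ^ D * (B₁ : ℝ) ^ D := by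
    have e1 : ({f : (𝓞 F)[X] | Ht g B f}.ncard : ℝ) ≤ (2 * Cp) ^ (2 * g) * (B : ℝ) ^ D :=
      (ht_card hCp hpt g B hB1).2
    refine e1.trans ?_
    rw [mul_assoc, ← mul_pow]
    have e2 : (B : ℝ) ≤ 2 * Q * B₁ := by exact_mod_cast hBQ2
    gcongr
  calc c / 2 / (Pn * 2 ^ m * ((2 * Cp) ^ (2 * g) * (2 * Q) ^ D)) *
        ({f : (𝓞 F)[X] | Ht g B f}.ncard : ℝ)
      ≤ c / 2 / (Pn * 2 ^ m * ((2 * Cp) ^ (2 * g) * (2 * Q) ^ D)) *
        ((2 * Cp) ^ (2 * g) * (2 * Q) ^ D * (B₁ : ℝ) ^ D) :=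
        mul_le_mul_of_nonneg_left hM' (by positivity)
    _ = c / 2 * (B₁ : ℝ) ^ D / (Pn * 2 ^ m) := by
        field_simp
    _ ≤ (Pn * (G.ncard : ℝ)) / (Pn * 2 ^ m) := by gcongr
    _ ≤ (Pn * (2 ^ m * H.ncard)) / (Pn * 2 ^ m) := by gcongr
    _ = H.ncard := by field_simp

end Pool.Agent.T3h73
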