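import Pool.Agent.T3h73.Def
import Pool.Agent.T3h73.Main2
import Pool.Agent.T3h73.InfIrr
import Pool.Agent.T3h73.InfQuad
import Pool.Agent.T3h73.Emb

/-!
# Admissible extensions
-/

set_option autoImplicit false
set_option linter.all false

open Polynomial IsDedekindDomain NumberField
open scoped Classical IntermediateField

namespace Pool.Agent.T3h73

open Pool.Agent.N783.PF (fF Ov rd)

section

variable {F : Type} [Field F] [NumberField F]

theorem admA_of_adm {f : (𝓞 F)[X]} {S : Finset (HeightOneSpectrum (𝓞 F))}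
    {M : IntermediateField F (SeparableClosure F)} [NumberField M]
    (h : LatTw.Admissible f S M) : AdmA M f (TT S) where
  gal := LatTw.AdmissibleField.galois h
  two := LatTw.AdmissibleField.degree h
  ram := by
    intro v hv
    unfold Unr at hv
    push Not at hv
    obtain ⟨w, hw, hram⟩ := hv
    exact LatTw.AdmissibleField.ramified h v w (Ideal.map_le_iff_le_comap.2 fun a ha => hram a ha)
  spl := by
    intro v hv
    refine dn_of_emb (LatTw.AdmissibleField.split h v ?_)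
    rcases hv with h1 | ⟨v', hv', he⟩
    · exact Or.inl h1
    · right
      rw [← HeightOneSpectrum.ext he]
      exact hv'
  real := by
    intro σ
    rcases LatTw.AdmissibleField.real h σ with h1 | h1
    · exact Or.inr h1
    · exact Or.inl h1

theorem inf_adm {f : (𝓞 F)[X]} (hm : f.Monic) (hf : Irreducible (fF f))
    (h2 : ∀ v : HeightOneSpectrum (𝓞 F), (2 : 𝓞 F) ∈ v.asIdeal → Irreducible (rd v.asIdeal f))
    (S : Finset (HeightOneSpectrum (𝓞 F))) :
    {M : IntermediateField F (SeparableClosure F) | LatTw.Admissible f S M ∧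
      Module.finrank F M = 2}.Infinite := by
  have h20 : (2 : 𝓞 F) ≠ 0 := two_ne_zero
  have hfin2 : {v : HeightOneSpectrum (𝓞 F) | (2 : 𝓞 F) ∈ v.asIdeal}.Finite := by
    have h1 := Ideal.finite_factors (I := Ideal.span {(2 : 𝓞 F)}) (by
      rw [Ne, Ideal.zero_eq_bot, Ideal.span_singleton_eq_bot]
      exact h20)
    refine h1.subset fun P hP => ?_
    rw [Set.mem_setOf_eq, Ideal.dvd_span_singleton]
    exact hP
  obtain ⟨v₀, hv₀⟩ : ∃ v : HeightOneSpectrum (𝓞 F), (2 : 𝓞 F) ∈ v.asIdeal := by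
    obtain ⟨⟨P, hP1, hP2⟩⟩ := Pool.Agent.N710.PF.nonempty_over (F := F) Nat.prime_two
    exact ⟨⟨P, hP1, Pool.Agent.N710.PF.ne_bot_of_mem Nat.prime_two hP2⟩, by exact_mod_cast hP2⟩
  set X : Set (HeightOneSpectrum (𝓞 F)) := {v | ((2 : 𝓞 F) ∉ v.asIdeal ∧ v ∉ S) ∧
    Irreducible (rd v.asIdeal f)} with hX
  have hXinf : X.Infinite := by
    intro hfin
    obtain ⟨v, hv1, hv2⟩ := exists_irr F f hm hf v₀ (h2 v₀ hv₀)
      (hfin.toFinset ∪ S ∪ hfin2.toFinset)
    rw [Finset.mem_union, Finset.mem_union, not_or, not_or, Set.Finite.mem_toFinset,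
      Set.Finite.mem_toFinset] at hv1
    exact hv1.1.1 ⟨⟨hv1.2, hv1.1.2⟩, hv2⟩
  set T : Set (HeightOneSpectrum (𝓞 F)) := {v | (2 : 𝓞 F) ∈ v.asIdeal ∨ v ∈ S} with hT
  obtain ⟨m, hm0⟩ : ∃ m : ℕ, m = ∏ v ∈ S, Ideal.absNorm v.asIdeal := ⟨_, rfl⟩
  have hmne : m ≠ 0 := by
    rw [hm0, Finset.prod_ne_zero_iff]
    intro v _
    rw [Ne, Ideal.absNorm_eq_zero_iff]
    exact v.ne_bot
  have hmv : ∀ v ∈ S, (m : 𝓞 F) ∈ v.asIdeal := by
    intro v hv
    obtain ⟨c, hc⟩ := Finset.dvd_prod_of_mem (fun v : HeightOneSpectrum (𝓞 F) =>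
      Ideal.absNorm v.asIdeal) hv
    rw [← hm0] at hc
    rw [hc, Nat.cast_mul]
    exact Ideal.mul_mem_right _ _ (Ideal.absNorm_mem v.asIdeal)
  have hN : (4 * (2 * (m : 𝓞 F))) ≠ 0 := by
    have h4 : (4 : 𝓞 F) ≠ 0 := by norm_num
    exact mul_ne_zero h4 (mul_ne_zero h20 (by exact_mod_cast hmne))
  have key := inf_quad (F := F) (Ω := SeparableClosure F) hXinf (N := 4 * (2 * (m : 𝓞 F))) hN
    (T := T) (by
      intro v hv
      have e1 : ((4 * (2 * (m : 𝓞 F)) : 𝓞 F) : F) = 4 * (2 * (m : F)) := by push_cast; rfl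
      have h40 : v.valuation F (4 : F) ≠ 0 := (Valuation.ne_zero_iff _).2 (by norm_num)
      rw [e1, map_mul]
      refine mul_lt_of_lt_one_right (zero_lt_iff.2 h40) ?_
      have e2 : (2 : F) * (m : F) = ((2 * (m : 𝓞 F) : 𝓞 F) : F) := by push_cast; rfl
      rw [e2]
      refine (v.valuation_lt_one_iff_mem (K := F) _).2 ?_
      rcases hv with h | h
      · exact Ideal.mul_mem_right _ _ h
      · exact Ideal.mul_mem_left _ _ (hmv v h)) (by
      rintro v ⟨⟨h3, h4⟩, -⟩ (h5 | h5)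
      · exact h3 h5
      · exact h4 h5)
  refine key.mono ?_
  rintro M ⟨d, s, hs, hd, rfl, hval, hsq, hpos⟩
  have hrk := qd_finrank hs hd
  refine ⟨?_, hrk⟩
  haveI : FiniteDimensional F F⟮s⟯ := Module.finite_of_finrank_pos (by rw [hrk]; norm_num)
  haveI : Algebra.IsQuadraticExtension F F⟮s⟯ := ⟨hrk⟩
  haveI : NumberField F⟮s⟯ := NumberField.of_module_finite F _
  refine (⟨inferInstance, ⟨1, by rw [hrk, pow_one]⟩, ?_, ?_, ?_⟩ :
    LatTw.AdmissibleField f S F⟮s⟯)
  · intro v hv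
    obtain ⟨z, hz⟩ := hsq v hv
    exact qd_hom hs hd hz
  · intro v w hvw
    by_contra hirr
    have h2v : (2 : 𝓞 F) ∉ v.asIdeal := fun h => hirr (h2 v h)
    have hvX : v ∉ X := fun h => hirr h.2
    have ht : (IntermediateField.AdjoinSimple.gen F s) ^ 2 = algebraMap F F⟮s⟯ d := by
      apply (algebraMap F⟮s⟯ (SeparableClosure F)).injective
      rw [map_pow, IntermediateField.AdjoinSimple.algebraMap_gen, hs]
      rfl
    have htop : F⟮IntermediateField.AdjoinSimple.gen F s⟯ = ⊤ := by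
      rw [eq_top_iff]
      rintro x -
      obtain ⟨a, b, hab⟩ := qd_lin hs x.2
      have e : x = algebraMap F _ a + algebraMap F _ b * IntermediateField.AdjoinSimple.gen F s := by
        apply (algebraMap F⟮s⟯ (SeparableClosure F)).injective
        rw [map_add, map_mul, IntermediateField.AdjoinSimple.algebraMap_gen]
        exact hab
      rw [e]
      exact add_mem (IntermediateField.algebraMap_mem _ _) (mul_mem
        (IntermediateField.algebraMap_mem _ _) (IntermediateField.mem_adjoin_simple_self F _))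
    have hun := qd_unr ht htop v h2v (hval v hvX)
    have hov : Ov v.asIdeal w := fun a ha =>
      Ideal.pow_le_self two_ne_zero (hvw (Ideal.mem_map_of_mem _ ha))
    obtain ⟨a, ha, ha2⟩ := hun w hov
    exact ha2 (hvw (Ideal.mem_map_of_mem _ ha))
  · intro σ
    right
    letI := σ.toAlgebra
    obtain ⟨φ⟩ := qd_hom (E := ℝ) hs hd (z := Real.sqrt (σ d)) (by
      rw [Real.sq_sqrt (hpos σ).le]
      rfl)
    exact ⟨φ.toRingHom, RingHom.ext fun x => φ.commutes x⟩

end

end Pool.Agent.T3h73
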