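import Pool.Agent.T3h73.Cyc2
import Pool.Agent.T3h73.Cheb4
import Pool.Agent.T3h73.InfAdm

/-!
# Cyclic admissible extensions
-/

set_option autoImplicit false
set_option linter.all false

open Polynomial IsDedekindDomain NumberField
open scoped Classical IntermediateField

namespace Pool.Agent.T3h73

open Pool.Agent.N783.PF (fF Ov rd)

section tr

variable {F M M' : Type} [Field F] [NumberField F] [Field M] [NumberField M] [Field M']
  [NumberField M'] [Algebra F M] [Algebra F M']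

theorem unr_congr (E : M' ≃ₐ[F] M) {v : HeightOneSpectrum (𝓞 F)} (h : Unr M' v) : Unr M v := by
  intro w hw
  obtain ⟨e, he⟩ : ∃ e : 𝓞 M' ≃+* 𝓞 M, ∀ x : 𝓞 M', ((e x : 𝓞 M) : M) = E (x : M') :=
    ⟨RingOfIntegers.mapRingEquiv E.toRingEquiv, fun x => rfl⟩
  have hea : ∀ a : 𝓞 F, e (algebraMap (𝓞 F) (𝓞 M') a) = algebraMap (𝓞 F) (𝓞 M) a := by
    intro a
    apply RingOfIntegers.ext
    rw [he]
    exact E.commutes (a : F)
  haveI := w.isPrime
  have hmap : (w.asIdeal.comap (e : 𝓞 M' →+* 𝓞 M)).map (e : 𝓞 M' →+* 𝓞 M) = w.asIdeal :=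
    Ideal.map_comap_of_surjective _ e.surjective _
  have hw'0 : w.asIdeal.comap (e : 𝓞 M' →+* 𝓞 M) ≠ ⊥ := by
    intro h0
    rw [h0, Ideal.map_bot] at hmap
    exact w.ne_bot hmap.symm
  obtain ⟨w', hw'⟩ : ∃ w' : HeightOneSpectrum (𝓞 M'),
      w'.asIdeal = w.asIdeal.comap (e : 𝓞 M' →+* 𝓞 M) :=
    ⟨⟨w.asIdeal.comap (e : 𝓞 M' →+* 𝓞 M), inferInstance, hw'0⟩, rfl⟩
  obtain ⟨a, ha, ha2⟩ := h w' (by
    intro a ha
    rw [hw', Ideal.mem_comap]
    have := hw a ha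
    rwa [← hea] at this)
  refine ⟨a, ha, fun h2 => ha2 ?_⟩
  have h3 : w.asIdeal ^ 2 = (w'.asIdeal ^ 2).map (e : 𝓞 M' →+* 𝓞 M) := by
    rw [Ideal.map_pow, hw', hmap]
  rw [h3, ← hea] at h2
  have h4 : algebraMap (𝓞 F) (𝓞 M') a ∈
      ((w'.asIdeal ^ 2).map (e : 𝓞 M' →+* 𝓞 M)).comap (e : 𝓞 M' →+* 𝓞 M) := h2
  rwa [Ideal.comap_map_of_bijective (e : 𝓞 M' →+* 𝓞 M) e.bijective] at h4

theorem cyc_irr_unr {p : ℕ} (hp : p.Prime) (hF : (discr F).natAbs < p)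
    (h : ∀ v : HeightOneSpectrum (𝓞 F), (p : 𝓞 F) ∈ v.asIdeal → Unr M v) :
    Irreducible (cyclotomic p M) := by
  obtain ⟨⟨P, hP1, hP2⟩⟩ := Pool.Agent.N710.PF.nonempty_over (F := F) hp
  obtain ⟨v, hv⟩ : ∃ v : HeightOneSpectrum (𝓞 F), v.asIdeal = P :=
    ⟨⟨P, hP1, Pool.Agent.N710.PF.ne_bot_of_mem hp hP2⟩, rfl⟩
  obtain ⟨w, hw⟩ := exists_up M v
  have hpv : (p : 𝓞 F) ∈ v.asIdeal := by rw [hv]; exact hP2
  have hpv2 : (p : 𝓞 F) ∉ v.asIdeal ^ 2 := Pool.Agent.N710.PF.not_mem_sq hp hF v.isPrime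
  refine cyc_irr hp w.asIdeal w.isPrime ?_ ?_
  · have := hw _ hpv
    rwa [map_natCast] at this
  · intro h2
    apply hpv2
    have h3 := val_unr (h v hpv) hw (algebraMap (𝓞 F) F (p : 𝓞 F))
    rw [← IsScalarTower.algebraMap_apply (𝓞 F) F M, IsScalarTower.algebraMap_apply (𝓞 F) (𝓞 M) M,
      HeightOneSpectrum.valuation_of_algebraMap, HeightOneSpectrum.valuation_of_algebraMap,
      map_natCast] at h3
    rw [← v.intValuation_le_pow_iff_mem, ← h3, w.intValuation_le_pow_iff_mem]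
    exact h2

end tr

section main

variable {F : Type} [Field F] [NumberField F]

/-- the data attached to the prime number `p` -/
theorem exists_cyc_of {p : ℕ} (hp : p.Prime) (hd : (discr F).natAbs < p) {k : ℕ} (hk : 1 ≤ k)
    (hpk : 2 ^ (k + 1) ∣ p - 1) {f : (𝓞 F)[X]} {S : Finset (HeightOneSpectrum (𝓞 F))}
    (hf : ∀ P : HeightOneSpectrum (𝓞 F), (p : 𝓞 F) ∈ P.asIdeal → Irreducible (rd P.asIdeal f))
    (hS : ∀ v : HeightOneSpectrum (𝓞 F), (2 : 𝓞 F) ∈ v.asIdeal ∨ v ∈ S →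
      (p : 𝓞 F) ∉ v.asIdeal ∧ ((Ideal.absNorm v.asIdeal : ℕ) : ZMod p) ^ ((p - 1) / 2 ^ k) = 1)
    {K : Type} [Field K] [NumberField K] [Algebra F K] [IsCyclotomicExtension {p} F K]
    {ζ : K} (hζ : IsPrimitiveRoot ζ p) :
    ∃ M : IntermediateField F (SeparableClosure F), LatTw.Admissible f S M ∧
      IsCyclic (M ≃ₐ[F] M) ∧ Module.finrank F M = 2 ^ k ∧ ¬ Irreducible (cyclotomic p M) ∧
      ∀ q : ℕ, q.Prime → q ≠ p → (discr F).natAbs < q → Irreducible (cyclotomic q M) := by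
  haveI : Fact p.Prime := ⟨hp⟩
  obtain ⟨e, he⟩ := hpk
  have he2 : (p - 1) / 2 ^ k = 2 * e := by
    rw [he, pow_succ, mul_assoc, Nat.mul_div_cancel_left _ (by positivity)]
  have he1 : 2 ^ k * (2 * e) = p - 1 := by rw [he, pow_succ, mul_assoc]
  rw [he2] at hS
  have hirr : Irreducible (cyclotomic p F) := by
    obtain ⟨⟨P, hP1, hP2⟩⟩ := Pool.Agent.N710.PF.nonempty_over (F := F) hp
    exact cyc_irr hp P hP1 hP2 (Pool.Agent.N710.PF.not_mem_sq hp hd hP1)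
  obtain ⟨-, hfr, -⟩ := mm_card hζ he1 hirr
  haveI := mm_nf (F := F) hζ (2 * e)
  haveI := mm_gal (F := F) hζ (2 * e)
  haveI : FiniteDimensional F (MM F hζ (2 * e)) := Module.finite_of_finrank_pos (by
    rw [hfr]; positivity)
  obtain ⟨ι⟩ : Nonempty (MM F hζ (2 * e) →ₐ[F] SeparableClosure F) :=
    ⟨IsSepClosed.lift⟩
  obtain ⟨M, hM⟩ : ∃ M, M = ι.fieldRange := ⟨_, rfl⟩
  obtain ⟨E⟩ : Nonempty (MM F hζ (2 * e) ≃ₐ[F] M) := by
    rw [hM]
    exact ⟨AlgEquiv.ofInjectiveField ι⟩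
  have hfrM : Module.finrank F M = 2 ^ k := by rw [← hfr]; exact E.toLinearEquiv.finrank_eq.symm
  haveI : FiniteDimensional F M := Module.finite_of_finrank_pos (by rw [hfrM]; positivity)
  haveI : NumberField M := NumberField.of_module_finite F M
  have hunr : ∀ v : HeightOneSpectrum (𝓞 F), (p : 𝓞 F) ∉ v.asIdeal → Unr M v := fun v hv =>
    unr_congr E (mm_unr hζ (2 * e) hv)
  refine ⟨M, (⟨IsGalois.of_algEquiv E, ⟨k, hfrM⟩, ?_, ?_, ?_⟩ : LatTw.AdmissibleField f S M), ?_,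
    hfrM, ?_, ?_⟩
  · intro v hv
    obtain ⟨h1, h2⟩ := hS v hv
    obtain ⟨φ⟩ := emb_of_dn (dn_of_spl (mm_spl hζ h1 h2))
    exact ⟨φ.comp E.symm.toAlgHom⟩
  · intro v w hvw
    by_cases hv : (p : 𝓞 F) ∈ v.asIdeal
    · exact hf v hv
    · exfalso
      have hov : Ov v.asIdeal w := fun a ha =>
        Ideal.pow_le_self two_ne_zero (hvw (Ideal.mem_map_of_mem _ ha))
      obtain ⟨a, ha, ha2⟩ := hunr v hv w hov
      exact ha2 (hvw (Ideal.mem_map_of_mem _ ha))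
  · intro σ
    right
    obtain ⟨τ, hτ⟩ := mm_real hζ (even_two_mul e) σ
    refine ⟨τ.comp (E.symm : M →+* MM F hζ (2 * e)), ?_⟩
    ext x
    have h1 : E.symm (algebraMap F M x) = algebraMap F _ x := E.symm.commutes x
    show τ (E.symm (algebraMap F M x)) = σ x
    rw [h1, ← hτ]
    rfl
  · haveI := mm_cyc (F := F) hζ (2 * e)
    exact isCyclic_of_surjective (AlgEquiv.autCongr E).toMonoidHom (AlgEquiv.autCongr E).surjective
  · intro h
    refine mm_red hζ he1 hk hirr ?_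
    have h1 : (mapEquiv E.toRingEquiv) (cyclotomic p (MM F hζ (2 * e))) = cyclotomic p M := by
      rw [mapEquiv_apply]
      exact map_cyclotomic p _
    rw [← h1] at h
    exact (MulEquiv.irreducible_iff (mapEquiv E.toRingEquiv)).1 h
  · intro q hq hqp hqd
    refine cyc_irr_unr hq hqd fun v hv => hunr v fun hpv => ?_
    haveI := v.isPrime
    apply v.isPrime.ne_top
    have hcop : Nat.Coprime p q := (Nat.coprime_primes hp hq).2 (Ne.symm hqp)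
    have h1 : IsCoprime (p : ℤ) (q : ℤ) := Nat.isCoprime_iff_coprime.2 hcop
    obtain ⟨a, b, hab⟩ := h1
    rw [Ideal.eq_top_iff_one]
    have h2 : (1 : 𝓞 F) = (a : 𝓞 F) * (p : 𝓞 F) + (b : 𝓞 F) * (q : 𝓞 F) := by
      exact_mod_cast (congrArg (Int.cast : ℤ → 𝓞 F) hab).symm
    rw [h2]
    exact add_mem (Ideal.mul_mem_left _ _ hpv) (Ideal.mul_mem_left _ _ hv)

theorem exists_cyc {p : ℕ} (hp : p.Prime) (hd : (discr F).natAbs < p) {k : ℕ} (hk : 1 ≤ k)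
    (hpk : 2 ^ (k + 1) ∣ p - 1) {f : (𝓞 F)[X]} {S : Finset (HeightOneSpectrum (𝓞 F))}
    (hf : ∀ P : HeightOneSpectrum (𝓞 F), (p : 𝓞 F) ∈ P.asIdeal → Irreducible (rd P.asIdeal f))
    (hS : ∀ v : HeightOneSpectrum (𝓞 F), (2 : 𝓞 F) ∈ v.asIdeal ∨ v ∈ S →
      (p : 𝓞 F) ∉ v.asIdeal ∧ ((Ideal.absNorm v.asIdeal : ℕ) : ZMod p) ^ ((p - 1) / 2 ^ k) = 1) :
    ∃ M : IntermediateField F (SeparableClosure F), LatTw.Admissible f S M ∧
      IsCyclic (M ≃ₐ[F] M) ∧ Module.finrank F M = 2 ^ k ∧ ¬ Irreducible (cyclotomic p M) ∧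
      ∀ q : ℕ, q.Prime → q ≠ p → (discr F).natAbs < q → Irreducible (cyclotomic q M) := by
  haveI : NeZero p := ⟨hp.ne_zero⟩
  haveI : NeZero ((p : ℕ) : F) := ⟨by exact_mod_cast hp.ne_zero⟩
  haveI : NumberField (CyclotomicField p F) :=
    IsCyclotomicExtension.numberField {p} F (CyclotomicField p F)
  exact exists_cyc_of hp hd hk hpk hf hS
    (IsCyclotomicExtension.zeta_spec p F (CyclotomicField p F))

theorem inf_cyc {f : (𝓞 F)[X]} (hm : f.Monic) (hodd : Odd f.natDegree) {l : ℕ}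
    (hl : SplitPrime F l)
    (hf : ∀ P : HeightOneSpectrum (𝓞 F), (l : 𝓞 F) ∈ P.asIdeal → Irreducible (rd P.asIdeal f))
    (S : Finset (HeightOneSpectrum (𝓞 F))) {k : ℕ} (hk : 1 ≤ k) :
    {M : IntermediateField F (SeparableClosure F) | LatTw.Admissible f S M ∧
      LatTw.CyclicOfDegree F M (2 ^ k)}.Infinite := by
  have hfin2 : {v : HeightOneSpectrum (𝓞 F) | (2 : 𝓞 F) ∈ v.asIdeal}.Finite := by
    have h1 := Ideal.finite_factors (I := Ideal.span {(2 : 𝓞 F)}) (by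
      rw [Ne, Ideal.zero_eq_bot, Ideal.span_singleton_eq_bot]
      exact two_ne_zero)
    refine h1.subset fun P hP => ?_
    rw [Set.mem_setOf_eq, Ideal.dvd_span_singleton]
    exact hP
  obtain ⟨L, hL⟩ : ∃ L : Finset ℕ, L = (hfin2.toFinset ∪ S).image
    (fun v : HeightOneSpectrum (𝓞 F) => Ideal.absNorm v.asIdeal) := ⟨_, rfl⟩
  have hmemL : ∀ v : HeightOneSpectrum (𝓞 F), (2 : 𝓞 F) ∈ v.asIdeal ∨ v ∈ S →
      Ideal.absNorm v.asIdeal ∈ L := by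
    intro v hv
    rw [hL]
    refine Finset.mem_image_of_mem _ ?_
    rw [Finset.mem_union, Set.Finite.mem_toFinset]
    exact hv
  have hL0 : ∀ q ∈ L, q ≠ 0 := by
    intro q hq
    rw [hL] at hq
    obtain ⟨v, -, rfl⟩ := Finset.mem_image.1 hq
    rw [Ne, Ideal.absNorm_eq_zero_iff]
    exact v.ne_bot
  obtain ⟨PS, hPS⟩ : ∃ PS : Set ℕ, PS = {p : ℕ | p.Prime ∧ (discr F).natAbs < p ∧
      2 ^ (k + 1) ∣ p - 1 ∧ (∀ v : HeightOneSpectrum (𝓞 F), (2 : 𝓞 F) ∈ v.asIdeal ∨ v ∈ S →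
        (p : 𝓞 F) ∉ v.asIdeal ∧
          ((Ideal.absNorm v.asIdeal : ℕ) : ZMod p) ^ ((p - 1) / 2 ^ k) = 1) ∧
      ∀ P : HeightOneSpectrum (𝓞 F), (p : 𝓞 F) ∈ P.asIdeal → Irreducible (rd P.asIdeal f)} :=
    ⟨_, rfl⟩
  have hinf : PS.Infinite := by
    refine Set.infinite_of_forall_exists_gt fun n => ?_
    obtain ⟨p, hp, hpR, hpk, hpL, hpf⟩ := exists_p hm hodd hl hf k L hL0
      ((n + (discr F).natAbs).factorial * ∏ q ∈ L, q)
      (mul_ne_zero (Nat.factorial_ne_zero _) (Finset.prod_ne_zero_iff.2 hL0))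
    have h1 : n + (discr F).natAbs < p := by
      by_contra h
      push Not at h
      exact hpR (Dvd.dvd.mul_right ((Nat.Prime.dvd_factorial hp).2 h) _)
    refine ⟨p, ?_, by omega⟩
    rw [hPS]
    refine ⟨hp, by omega, hpk, fun v hv => ⟨fun hpv => ?_, hpL _ (hmemL v hv)⟩, hpf⟩
    apply hpR
    refine Dvd.dvd.mul_left ((Pool.Agent.N710.PF.dvd_absNorm hp v.isPrime hpv).trans ?_) _
    exact Finset.dvd_prod_of_mem (fun q : ℕ => q) (hmemL v hv)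
  have hex : ∀ p : ℕ, ∃ M : IntermediateField F (SeparableClosure F), p ∈ PS →
      (LatTw.Admissible f S M ∧
      IsCyclic (M ≃ₐ[F] M) ∧ Module.finrank F M = 2 ^ k ∧ ¬ Irreducible (cyclotomic p M) ∧
      ∀ q : ℕ, q.Prime → q ≠ p → (discr F).natAbs < q → Irreducible (cyclotomic q M)) := by
    intro p
    by_cases hp : p ∈ PS
    · have hp' := hp
      rw [hPS] at hp'
      obtain ⟨h1, h2, h3, h4, h5⟩ := hp'
      obtain ⟨M, hM⟩ := exists_cyc h1 h2 hk h3 h5 h4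
      exact ⟨M, fun _ => hM⟩
    · exact ⟨⊥, fun h => absurd h hp⟩
  choose Mf hMf using hex
  refine Set.infinite_of_injOn_mapsTo (f := Mf) (s := PS) ?_ ?_ hinf
  · intro p hp q hq hpq
    by_contra hne
    obtain ⟨-, -, -, h1, -⟩ := hMf p hp
    obtain ⟨-, -, -, -, h2⟩ := hMf q hq
    rw [hPS] at hp
    have h3 := h2 p hp.1 hne hp.2.1
    have hpq' : Mf p = Mf q := hpq
    rw [hpq'] at h1
    exact h1 h3
  · intro p hp
    obtain ⟨h1, h2, h3, -⟩ := hMf p hp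
    exact ⟨h1, LatTw.AdmissibleField.galois h1, h2, h3⟩

end main

end Pool.Agent.T3h73
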