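import Pool.Agent.T3h73.Fin1
import Pool.Agent.T3h73.Cyc3

/-!
# The theorem on lattice twists over 2-extensions
-/

set_option autoImplicit false
set_option linter.all false

open Polynomial IsDedekindDomain NumberField
open scoped Classical IntermediateField

namespace Pool.Agent.T3h73

open Pool.Agent.N783.PF (fF Ov rd Ht Min)
open Pool.Agent.N874.Jac (Gal)

section

variable {F : Type} [Field F] [NumberField F]

/-- the residue class is extended to a prime which splits completely -/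
theorem prep (g : ℕ) (hg : 1 ≤ g) (m : ℕ) (hm : 0 < m) (f₀ : (𝓞 F)[X]) (f0mon : f₀.Monic)
    (f0deg : f₀.natDegree = 2 * g + 1) (f0tr : f₀.coeff (2 * g) = 0) :
    ∃ (l : ℕ) (f₁ : (𝓞 F)[X]), SplitPrime F l ∧ ¬ l ∣ 2 * m ∧ f₁.Monic ∧
      f₁.natDegree = 2 * g + 1 ∧ f₁.coeff (2 * g) = 0 ∧
      (∀ j, (m : 𝓞 F) ∣ f₁.coeff j - f₀.coeff j) ∧
      ∀ v : HeightOneSpectrum (𝓞 F), (l : 𝓞 F) ∈ v.asIdeal → Irreducible (rd v.asIdeal f₁) := by
  obtain ⟨l, hl, hlR⟩ := exists_split F (2 * m * (2 * g + 1).factorial)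
    (mul_ne_zero (mul_ne_zero two_ne_zero hm.ne') (Nat.factorial_ne_zero _))
  have hlp := hl.prime
  have hlm : ¬ l ∣ 2 * m := fun h => hlR (Dvd.dvd.mul_right h _)
  have hlm' : ¬ l ∣ m := fun h => hlm (Dvd.dvd.mul_left h _)
  have hlg : 2 * g + 1 < l := by
    by_contra h
    push Not at h
    exact hlR (Dvd.dvd.mul_left ((Nat.Prime.dvd_factorial hlp).2 h) _)
  choose t ht using fun 𝔭 : Pool.Agent.N710.PF.Ov F l =>
    Pool.Agent.N710.PF.exists_irr_mod (F := F) hlp (2 * g + 1) (by omega) hlg 𝔭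
  obtain ⟨f₂, m2, d2, t2, a2⟩ := Pool.Agent.N710.PF.lift (F := F) hlp (2 * g + 1) (by omega) t
    (fun 𝔭 => ⟨(ht 𝔭).1, (ht 𝔭).2.2.1, (ht 𝔭).2.2.2⟩)
  have t2' : f₂.coeff (2 * g) = 0 := by
    rw [show 2 * g = 2 * g + 1 - 1 from by omega]
    exact t2
  have hcop : Nat.Coprime l m := (Nat.Prime.coprime_iff_not_dvd hlp).2 hlm'
  obtain ⟨u, v, huv0⟩ := Nat.isCoprime_iff_coprime.2 hcop
  have huv : (u : 𝓞 F) * (l : 𝓞 F) + (v : 𝓞 F) * (m : 𝓞 F) = 1 := by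
    have := congrArg (Int.cast : ℤ → 𝓞 F) huv0
    push_cast at this ⊢
    exact this
  set f₁ : (𝓞 F)[X] := C ((u : 𝓞 F) * (l : 𝓞 F)) * f₀ + C ((v : 𝓞 F) * (m : 𝓞 F)) * f₂ with hf₁
  have hco : ∀ j, f₁.coeff j = (u : 𝓞 F) * (l : 𝓞 F) * f₀.coeff j +
      (v : 𝓞 F) * (m : 𝓞 F) * f₂.coeff j := by
    intro j
    rw [hf₁, coeff_add, coeff_C_mul, coeff_C_mul]
  have htop : f₁.coeff (2 * g + 1) = 1 := by
    have e1 : f₀.coeff (2 * g + 1) = 1 := by rw [← f0deg]; exact f0mon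
    have e2 : f₂.coeff (2 * g + 1) = 1 := by rw [← d2]; exact m2
    rw [hco, e1, e2, mul_one, mul_one, huv]
  have hd : f₁.natDegree = 2 * g + 1 := by
    apply Polynomial.natDegree_eq_of_le_of_coeff_ne_zero
    · rw [Polynomial.natDegree_le_iff_coeff_eq_zero]
      intro n hn
      rw [hco, coeff_eq_zero_of_natDegree_lt (by omega), coeff_eq_zero_of_natDegree_lt (by omega)]
      ring
    · rw [htop]
      exact one_ne_zero
  have hm1 : f₁.Monic := by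
    rw [Polynomial.Monic, Polynomial.leadingCoeff, hd, htop]
  refine ⟨l, f₁, hl, hlm, hm1, hd, ?_, ?_, ?_⟩
  · rw [hco, f0tr, t2', mul_zero, mul_zero, add_zero]
  · intro j
    refine ⟨(v : 𝓞 F) * (f₂.coeff j - f₀.coeff j), ?_⟩
    rw [hco]
    linear_combination (f₀.coeff j) * huv
  · intro w hw
    have h1 : rd w.asIdeal f₁ = rd w.asIdeal f₂ := by
      ext j
      rw [rd, rd, coeff_map, coeff_map]
      refine Ideal.Quotient.eq.2 ?_
      have e : f₁.coeff j - f₂.coeff j = (l : 𝓞 F) * ((u : 𝓞 F) * (f₀.coeff j - f₂.coeff j)) := by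
        rw [hco]
        linear_combination (f₂.coeff j) * huv
      rw [e]
      exact Ideal.mul_mem_right _ _ hw
    rw [h1]
    have h2 := a2 ⟨w.asIdeal, w.isPrime, hw⟩
    have h3 := (ht ⟨w.asIdeal, w.isPrime, hw⟩).2.1
    rw [← h2] at h3
    exact h3

theorem cong_rd {m : ℕ} {f h : (𝓞 F)[X]} (hc : ∀ j, (m : 𝓞 F) ∣ f.coeff j - h.coeff j)
    {v : HeightOneSpectrum (𝓞 F)} (hv : (m : 𝓞 F) ∈ v.asIdeal) :
    rd v.asIdeal f = rd v.asIdeal h := by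
  ext j
  rw [rd, rd, coeff_map, coeff_map]
  refine Ideal.Quotient.eq.2 ?_
  obtain ⟨c, hc⟩ := hc j
  rw [hc]
  exact Ideal.mul_mem_right _ _ hv

theorem sep_of_irr {f : (𝓞 F)[X]} {v : HeightOneSpectrum (𝓞 F)}
    (h : Irreducible (rd v.asIdeal f)) : (rd v.asIdeal f).Separable := by
  haveI := v.isMaximal
  letI : Field (𝓞 F ⧸ v.asIdeal) := Ideal.Quotient.field v.asIdeal
  haveI : Finite (𝓞 F ⧸ v.asIdeal) := Ideal.finiteQuotientOfFreeOfNeBot v.asIdeal v.ne_bot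
  exact PerfectField.separable_of_irreducible h

end

/-- The theorem. -/
theorem final (F : Type) [Field F] [NumberField F] (g : ℕ) (hg : 1 ≤ g) (m : ℕ)
    (f₀ : (𝓞 F)[X]) (h₀ : LatTw.ResidueClass g m f₀) (p : F[X]) (δ : ℝ) (hδ : 0 < δ) :
    ∃ S : Finset (HeightOneSpectrum (𝓞 F)),
      (∀ v ∈ S, (2 : 𝓞 F) ∉ v.asIdeal ∧ (m : 𝓞 F) ∉ v.asIdeal) ∧
      ∃ c : ℝ, 0 < c ∧ ∃ B₀ : ℕ, ∀ B ≥ B₀, {f : (𝓞 F)[X] | LatTw.Poly g B f}.Finite ∧
        c * ({f : (𝓞 F)[X] | LatTw.Poly g B f}.ncard : ℝ) ≤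
          ({f : (𝓞 F)[X] | LatTw.Poly g B f ∧ (∀ j, (m : 𝓞 F) ∣ f.coeff j - f₀.coeff j) ∧
            LatTw.Near g p δ f ∧ LatTw.Minimal g f ∧ Irreducible (LatTw.toField f) ∧
            LatTw.AllTwists f S ∧ LatTw.ManyCyclic f S}.ncard : ℝ) := by
  obtain ⟨hm, f0mon, f0deg, f0tr, f0sep, f0irr⟩ := h₀
  obtain ⟨l, f₁, hl, hlm, f1mon, f1deg, f1tr, f1cong, f1irr⟩ := prep g hg m hm f₀ f0mon f0deg f0tr
  have hl2 : ∀ v : HeightOneSpectrum (𝓞 F), (l : 𝓞 F) ∈ v.asIdeal → (2 : 𝓞 F) ∉ v.asIdeal := by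
    intro v hv h2
    have h3 := (nat_mem v.isPrime.ne_top hl.prime hv 2).1 (by exact_mod_cast h2)
    exact hlm (Dvd.dvd.mul_right h3 _)
  have hdich : ∀ v : HeightOneSpectrum (𝓞 F), ((m * l : ℕ) : 𝓞 F) ∈ v.asIdeal →
      (m : 𝓞 F) ∈ v.asIdeal ∨ (l : 𝓞 F) ∈ v.asIdeal := by
    intro v hv
    rw [Nat.cast_mul] at hv
    exact v.isPrime.mem_or_mem hv
  obtain ⟨S, hS, c, hc, B₀, hmain⟩ := main2 F g hg (m * l) (Nat.mul_pos hm hl.prime.pos) f₁ f1mon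
    f1deg f1tr (by
      intro v hv
      rcases hdich v hv with h | h
      · rw [cong_rd f1cong h]
        exact f0sep v h
      · exact sep_of_irr (f1irr v h)) (by
      intro v hv hv2
      rcases hdich v hv with h | h
      · rw [cong_rd f1cong h]
        exact f0irr v h hv2
      · exact absurd hv2 (hl2 v h)) p δ hδ
  refine ⟨S, fun v hv => ⟨(hS v hv).1, fun h => (hS v hv).2 ?_⟩, c, hc, B₀, fun B hB => ?_⟩
  · rw [Nat.cast_mul]
    exact Ideal.mul_mem_right _ _ h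
  obtain ⟨hfin, hle⟩ := hmain B hB
  have hset : {f : (𝓞 F)[X] | Ht g B f} = {f : (𝓞 F)[X] | LatTw.Poly g B f} := by
    ext f
    exact ht_iff
  rw [hset] at hfin hle
  refine ⟨hfin, hle.trans ?_⟩
  have hsub : {f : (𝓞 F)[X] | Good2 g (m * l) f₁ p δ S B f} ⊆
      {f : (𝓞 F)[X] | LatTw.Poly g B f ∧ (∀ j, (m : 𝓞 F) ∣ f.coeff j - f₀.coeff j) ∧
            LatTw.Near g p δ f ∧ LatTw.Minimal g f ∧ Irreducible (LatTw.toField f) ∧
            LatTw.AllTwists f S ∧ LatTw.ManyCyclic f S} := by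
    intro f hf
    have hcl : ∀ j, (l : 𝓞 F) ∣ f.coeff j - f₁.coeff j := by
      intro j
      refine Dvd.dvd.trans ?_ (hf.cong j)
      rw [Nat.cast_mul]
      exact dvd_mul_left _ _
    refine ⟨ht_iff.1 hf.ht, ?_, near_of hf.near, min_of hf.min, hf.irr, twists_of hf, ?_⟩
    · intro j
      have h1 : (m : 𝓞 F) ∣ f.coeff j - f₁.coeff j := by
        refine Dvd.dvd.trans ?_ (hf.cong j)
        rw [Nat.cast_mul]
        exact dvd_mul_right _ _
      have h2 := dvd_add h1 (f1cong j)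
      rwa [sub_add_sub_cancel] at h2
    · intro k hk
      refine inf_cyc hf.ht.mon (by rw [hf.ht.deg]; exact odd_two_mul_add_one g) hl ?_ S hk
      intro P hP
      rw [cong_rd hcl hP]
      exact f1irr P hP
  exact_mod_cast Set.ncard_le_ncard hsub (hfin.subset fun f hf => hf.1)

end Pool.Agent.T3h73
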