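import Pool.Agent.T3h73.BKDef
import Pool.Agent.T3h73.Fin2
import Pool.Agent.N844.QF.Hf

/-!
# The Bloch-Kato Selmer groups of the Artin twists of `V_2 J`: proof
-/

set_option autoImplicit false
set_option linter.all false

open Polynomial IsDedekindDomain NumberField
open scoped Classical

namespace Pool.Agent.T3h73

open Pool.Agent.N783.PF (fF)
open Pool.Agent.Y160.SE (Jac jm jm_jm jm_id)
open Pool.Agent.TH115.GD (incl rs ak exists_restrict)
open Pool.Agent.N106.JB (ad mu ad_mapJ)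
open Pool.Agent.N844.QF (AV abs_h1f real_aut)
open Pool.Agent.N874.Jac (J mapJ Gal)

section real

theorem real_aux1 {r : ℕ} {A B : Type} [AddCommGroup A] [AddCommGroup B] (j : A →+ B)
    (d : Fin r → A) :
    (fun i => j ((0 : Fin r → A) i)) = -(fun i => j (d i)) - fun i => -(j (d i)) := by
  funext i
  rw [Pi.sub_apply, Pi.neg_apply, Pi.zero_apply, map_zero, sub_self]

theorem real_aux2 {r : ℕ} {A B : Type} [AddCommGroup A] [AddCommGroup B] (j : A →+ B)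
    (d : Fin r → A) :
    (fun i => j ((2 • d) i)) = -(fun i => j ((-d) i)) - fun i => -(j (d i)) := by
  funext i
  rw [Pi.sub_apply, Pi.neg_apply, Pi.smul_apply, Pi.neg_apply, map_nsmul, map_neg, two_nsmul,
    sub_neg_eq_add, neg_neg]

/-- a twisted cocycle which is divisible by two is trivial over `ℝ` -/
theorem real_ttriv {K : Type} [Field K] [Algebra K ℝ] {f : K[X]} {r : ℕ}
    (ρ : LatTw.Rep K (SeparableClosure K) r)
    (c d : (SeparableClosure K ≃ₐ[K] SeparableClosure K) → Fin r → Jac 2 f (SeparableClosure K))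
    (h : ∀ σ, 2 • d σ = c σ) (h3 : ∀ σ τ, d (σ * τ) = d σ + tact ρ σ (d τ)) : TTriv ρ ℝ c := by
  obtain ⟨s, hs, hτ⟩ := real_aut
  let ι : SeparableClosure K →ₐ[K] SeparableClosure ℝ := IsSepClosed.lift
  obtain ⟨σ₀, hσ₀⟩ := exists_restrict (F := K) (L := ℝ) ι s
  have d1 : d 1 = 0 := by
    have h4 := h3 1 1
    rw [mul_one, map_one] at h4
    exact left_eq_add.1 h4
  have hinv : σ₀ * σ₀ = 1 := by
    refine AlgEquiv.ext fun x => ?_
    apply ι.injective
    show ι (σ₀ (σ₀ x)) = ι x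
    rw [← hσ₀, ← hσ₀, hs]
  have hd : tact ρ σ₀ (d σ₀) = - d σ₀ := by
    have h4 := h3 σ₀ σ₀
    rw [hinv, d1] at h4
    exact (neg_eq_of_add_eq_zero_right h4.symm).symm
  -- compatibility of the maps with the action
  have hmap : ∀ (σ : SeparableClosure K ≃ₐ[K] SeparableClosure K)
      (τ : SeparableClosure ℝ ≃ₐ[ℝ] SeparableClosure ℝ), (∀ x, τ (ι x) = ι (σ x)) →
      ∀ x : Fin r → Jac 2 f (SeparableClosure K),
        mact (ρ σ) (fun i => jm 2 f (rs K τ) (jm 2 f ι (x i))) =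
          fun i => jm 2 f ι (tact ρ σ x i) := by
    intro σ τ hx x
    have e2 : (rs K τ).comp ι = ι.comp (ak σ) := AlgHom.ext fun x => hx x
    have e3 : (fun i => jm 2 f (rs K τ) (jm 2 f ι (x i))) =
        fun i => jm 2 f ι (jm 2 f (ak σ) (x i)) := by
      funext i
      rw [jm_jm, jm_jm, e2]
    rw [e3, tact_apply]
    exact mact_map _ (jm 2 f ι) _
  refine ⟨ι, fun i => -(jm 2 f ι (d σ₀ i)), fun τ σ hx => ?_⟩
  have hneg : ∀ x : Fin r → Jac 2 f (SeparableClosure K),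
      mact (ρ σ) (fun i => jm 2 f (rs K τ) (-(jm 2 f ι (x i)))) =
        -(fun i => jm 2 f ι (tact ρ σ x i)) := by
    intro x
    rw [← hmap σ τ hx x]
    have e4 : (fun i => jm 2 f (rs K τ) (-(jm 2 f ι (x i)))) =
        (0 : Fin r → Jac 2 f (SeparableClosure ℝ)) - fun i => jm 2 f (rs K τ) (jm 2 f ι (x i)) := by
      funext i
      rw [map_neg, Pi.sub_apply, Pi.zero_apply, zero_sub]
    rw [e4, mact_sub, mact_zero, zero_sub]
  have e5 : (fun i => jm 2 f (rs K τ) ((fun i => -(jm 2 f ι (d σ₀ i))) i)) =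
      fun i => jm 2 f (rs K τ) (-(jm 2 f ι (d σ₀ i))) := rfl
  rw [e5, hneg]
  rcases hτ τ with rfl | rfl
  · have e1 : σ = 1 := by
      refine AlgEquiv.ext fun x => ?_
      apply ι.injective
      exact (hx x).symm
    have e6 : c σ = 0 := by
      have h7 := h σ
      rw [e1, d1, smul_zero] at h7
      rw [e1]
      exact h7.symm
    have e7 : tact ρ σ (d σ₀) = d σ₀ := by
      rw [e1, map_one]
      rfl
    rw [e6, e7]
    exact real_aux1 (jm 2 f ι) (d σ₀)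
  · have e1 : σ = σ₀ := by
      refine AlgEquiv.ext fun x => ?_
      exact ι.injective ((hx x).symm.trans (hσ₀ x))
    have e6 : c σ = 2 • d σ₀ := by
      rw [← h σ, e1]
    have e7 : tact ρ σ (d σ₀) = -(d σ₀) := by
      rw [e1, hd]
    rw [e6, e7]
    exact real_aux2 (jm 2 f ι) (d σ₀)

end real

section bk

variable {F : Type} [Field F] [NumberField F] {f : F[X]} {r : ℕ}

theorem ttriv_mu {K : Type} [Field K] {f : K[X]} {ρ : LatTw.Rep K (SeparableClosure K) r}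
    {E : Type} [Field E] [Algebra K E]
    {c : Gal K → Fin r → Jac 2 f (SeparableClosure K)} (h : TTriv ρ E c) :
    LatTw.TrivialOver f ρ E (fun σ => muT (c σ)) := by
  obtain ⟨ι, P, hP⟩ := h
  refine ⟨ι, muT P, fun τ σ hx => adT_inj ?_⟩
  have h1 := hP τ σ hx
  have h2 : adT (LatTw.mapT f ι (muT (c σ))) = fun i => jm 2 f ι (c σ i) := by
    funext i
    exact ad_mapJ ι (mu (c σ i))
  have h3 : adT (LatTw.mapT f (τ.toAlgHom.restrictScalars K) (muT P)) =
      fun i => jm 2 f (rs K τ) (P i) := by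
    funext i
    exact ad_mapJ (rs K τ) (mu (P i))
  rw [h2, adT_div, adT_mat, h3, h1]
  rfl

theorem bk_of (ρ : LatTw.Rep F (SeparableClosure F) r) (h1 : LatTw.TwoDivisible f ρ)
    (h2 : LatTw.ShaTwoZeroIn f ρ) : LatTw.BKSelmerZero f ρ := by
  intro c hc hl
  obtain ⟨hcV, hcC⟩ := hc
  have key := abs_h1f (G := Gal F) (A := Fin r → Jac 2 f (SeparableClosure F))
    (fun σ => (tact ρ σ : (Fin r → Jac 2 f (SeparableClosure F)) →+
      (Fin r → Jac 2 f (SeparableClosure F))))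
    (fun c => (∀ v : HeightOneSpectrum (𝓞 F), TTriv ρ (v.adicCompletion F) c) ∧
      ∀ σ : F →+* ℝ, letI := σ.toAlgebra; TTriv ρ ℝ c) ?_ ?_ ?_
    (fun σ n => adT (c σ n)) (fun n => (hcC n).1.comp adT) (fun σ n => hcV σ n)
    (fun σ τ n => ?_) (fun n => ⟨fun v => ?_, fun σ => ?_⟩)
  · obtain ⟨x, hx1, hx2⟩ := key
    refine ⟨fun n => muT (x n), fun n => hx1 n, fun σ n => adT_inj ?_⟩
    rw [adT_div, adT_act]
    exact hx2 σ n
  · intro c' h3 h4 h5 m hm
    have h6 : LatTw.Coboundary f ρ (fun σ => muT (c' σ)) := by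
      refine h2 _ m ⟨h3.comp muT, fun σ τ => adT_inj ?_⟩ (fun v => ttriv_mu (h5.1 v)) ?_ ?_
      · rw [adT_mul, adT_act]
        exact h4 σ τ
      · intro σ
        letI := σ.toAlgebra
        exact ttriv_mu (h5.2 σ)
      · refine ⟨muT 0, fun σ => adT_inj ?_⟩
        rw [adT_div, adT_act]
        show 2 ^ m • c' σ = tact ρ σ 0 - 0
        rw [hm σ, map_zero, sub_zero]
    exact tcob_iff.1 h6
  · intro P hP hP2
    have h3 : ∀ σ, LatTw.act f ρ σ (muT P) = muT P := fun σ => adT_inj (by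
      rw [adT_act]
      exact hP σ)
    have h4 : ∀ σ, LatTw.act f ρ σ (muT (0 : Fin r → Jac 2 f (SeparableClosure F))) =
        muT (0 : Fin r → Jac 2 f (SeparableClosure F)) := fun σ => adT_inj (by
      rw [adT_act]
      exact map_zero (tact ρ σ))
    obtain ⟨Q, -, hQ⟩ := h1 (muT (0 : Fin r → Jac 2 f (SeparableClosure F))) h4
    have h5 := hQ (muT P) ⟨adT_inj hP2, h3⟩
    have h6 := hQ (muT 0) ⟨adT_inj (smul_zero 2), h4⟩
    exact congrArg adT (h5.trans h6.symm)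
  · intro P hP
    have h3 : ∀ σ, LatTw.act f ρ σ (muT P) = muT P := fun σ => adT_inj (by
      rw [adT_act]
      exact hP σ)
    obtain ⟨Q, ⟨hQ1, hQ2⟩, -⟩ := h1 (muT P) h3
    refine ⟨adT Q, fun σ => ?_, ?_⟩
    · have h4 := congrArg adT (hQ2 σ)
      rw [adT_act] at h4
      exact h4
    · rw [← adT_pow, hQ1]
      rfl
  · show adT (c (σ * τ) n) = _
    have h3 : c (σ * τ) n = c σ n * LatTw.act f ρ σ (c τ n) := (hcC n).2 σ τ
    rw [h3, adT_mul, adT_act]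
    rfl
  · obtain ⟨ι, Q, -, hQ⟩ := hl v
    exact ttriv ⟨ι, Q n, fun τ σ hx => hQ n τ σ hx⟩
  · letI := σ.toAlgebra
    refine real_ttriv ρ _ (fun σ => adT (c σ (n + 1))) (fun σ => ?_) (fun σ τ => ?_)
    · rw [← adT_pow, (hcV σ n).1]
    · have h3 : c (σ * τ) (n + 1) = c σ (n + 1) * LatTw.act f ρ σ (c τ (n + 1)) :=
        (hcC (n + 1)).2 σ τ
      show adT (c (σ * τ) (n + 1)) = _
      rw [h3, adT_mul, adT_act]

end bk

/-- The theorem on the Bloch-Kato Selmer groups. -/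
theorem final_bk (F : Type) [Field F] [NumberField F] (g : ℕ) (hg : 1 ≤ g) (m : ℕ)
    (f₀ : (𝓞 F)[X]) (h₀ : LatTw.ResidueClass g m f₀) (p : F[X]) (δ : ℝ) (hδ : 0 < δ) :
    ∃ S : Finset (HeightOneSpectrum (𝓞 F)),
      (∀ v ∈ S, (2 : 𝓞 F) ∉ v.asIdeal ∧ (m : 𝓞 F) ∉ v.asIdeal) ∧
      ∃ c : ℝ, 0 < c ∧ ∃ B₀ : ℕ, ∀ B ≥ B₀, {f : (𝓞 F)[X] | LatTw.Poly g B f}.Finite ∧
        c * ({f : (𝓞 F)[X] | LatTw.Poly g B f}.ncard : ℝ) ≤
          ({f : (𝓞 F)[X] | LatTw.Poly g B f ∧ (∀ j, (m : 𝓞 F) ∣ f.coeff j - f₀.coeff j) ∧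
            LatTw.Near g p δ f ∧ LatTw.Minimal g f ∧ Irreducible (LatTw.toField f) ∧
            LatTw.AllArtinTwists f S ∧ LatTw.ManyCyclic f S}.ncard : ℝ) := by
  obtain ⟨S, hS, c, hc, B₀, h⟩ := final F g hg m f₀ h₀ p δ hδ
  refine ⟨S, hS, c, hc, B₀, fun B hB => ?_⟩
  obtain ⟨h1, h2⟩ := h B hB
  refine ⟨h1, h2.trans ?_⟩
  refine Nat.cast_le.2 (Set.ncard_le_ncard ?_ (h1.subset fun f hf => hf.1))
  rintro f ⟨a1, a2, a3, a4, a5, a6, a7⟩
  refine ⟨a1, a2, a3, a4, a5, fun M hM r ρ hρ => ?_, a7⟩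
  obtain ⟨b1, b2⟩ := a6 M hM r ρ hρ
  exact ⟨b1, bk_of ρ b1 b2⟩

end Pool.Agent.T3h73
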