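import Pool.Agent.T3h73.Def

/-!
# The Bloch-Kato Selmer groups of the Artin twists of `V_2 J`

`J` is the Jacobian of `y ^ 2 = f(x)` and `ρ` an integral representation of the Galois group, as in
`T3h73/Def.lean`; `A = J ⊗ ℤ ^ r`, and `V_2 A = V_2 J ⊗ ρ`.
-/

set_option autoImplicit false
set_option linter.all false

open Polynomial IsDedekindDomain NumberField

namespace Pool.Agent.T3h73.LatTw

open Pool.Agent.N874.Jac (J mapJ Gal)

section vee

variable {K : Type} [Field K] (f : K[X]) {r : ℕ} {Ω : Type} [Field Ω] [Algebra K Ω]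
  (ρ : Rep K Ω r)

/-- The elements of `V_2 A = V_2 J ⊗ ρ`, `Ω` a separable closure of `K`: the sequences of points
`x_n ∈ A(Ω)` of 2-power order with `x_(n + 1) ^ 2 = x_n` (`A(Ω)` is written multiplicatively). -/
def IsV (x : ℕ → Fin r → J f Ω) : Prop := ∀ n, x (n + 1) ^ 2 = x n ∧ ∃ m : ℕ, x n ^ 2 ^ m = 1

/-- The continuous cocycles with values in `V_2 A`. -/
def VCocycle (c : (Ω ≃ₐ[K] Ω) → ℕ → Fin r → J f Ω) : Prop :=
  (∀ σ, IsV f (c σ)) ∧ ∀ n, Cocycle f ρ fun σ => c σ n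

/-- The coboundaries with values in `V_2 A`. -/
def VCoboundary (c : (Ω ≃ₐ[K] Ω) → ℕ → Fin r → J f Ω) : Prop :=
  ∃ x : ℕ → Fin r → J f Ω, IsV f x ∧ ∀ σ n, c σ n = act f ρ σ (x n) / x n

/-- The restriction of the class of `c` to `E` is in the image of `A(E) ⊗ ℚ_2 → H ^ 1 (E, V_2 A)`,
`Ω'` a separable closure of `E`: there are an embedding `Ω → Ω'` and points `Q_n ∈ A(Ω')` with
`Q_(n + 1) ^ 2 = Q_n` and `c(τ)_n = τ Q_n / Q_n` for all automorphisms `τ` of `Ω'` over `E`. -/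
def KummerIn (E Ω' : Type) [Field E] [Field Ω'] [Algebra E Ω'] [Algebra K E] [Algebra K Ω']
    [IsScalarTower K E Ω'] (c : (Ω ≃ₐ[K] Ω) → ℕ → Fin r → J f Ω) : Prop :=
  ∃ (ι : Ω →ₐ[K] Ω') (Q : ℕ → Fin r → J f Ω'), (∀ n, Q (n + 1) ^ 2 = Q n) ∧
    ∀ (n : ℕ) (τ : Ω' ≃ₐ[E] Ω') (σ : Ω ≃ₐ[K] Ω), (∀ x : Ω, τ (ι x) = ι (σ x)) →
      mapT f ι (c σ n) = matAct (ρ σ) (mapT f (τ.toAlgHom.restrictScalars K) (Q n)) / Q n

/-- The restriction of the class of `c` to `E` is in the image of `A(E) ⊗ ℚ_2`. -/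
def Kummer (E : Type) [Field E] [Algebra K E] (c : (Ω ≃ₐ[K] Ω) → ℕ → Fin r → J f Ω) : Prop :=
  KummerIn f ρ E (SeparableClosure E) c

end vee

section numberfield

variable {F : Type} [Field F] [NumberField F]

/-- For `Ω` the separable closure of the number field `F`: the Bloch-Kato Selmer group
`H ^ 1_f (F, V_2 J ⊗ ρ)` is zero. Every continuous cocycle with values in `V_2 J ⊗ ρ = V_2 A` whose
class is in the image of `A(F_v) ⊗ ℚ_2` at all finite places `v` is a coboundary. -/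
def BKSelmerZero {Ω : Type} [Field Ω] [Algebra F Ω] (f : F[X]) {r : ℕ} (ρ : Rep F Ω r) : Prop :=
  ∀ c : (Ω ≃ₐ[F] Ω) → ℕ → Fin r → J f Ω, VCocycle f ρ c →
    (∀ v : HeightOneSpectrum (𝓞 F), Kummer f ρ (v.adicCompletion F) c) → VCoboundary f ρ c

/-- For all the extensions `M` which are admissible for `f` and `S` and all integral representations
`ρ` of `Gal(M/F)` multiplication by two is bijective on `A(F)` and the Bloch-Kato Selmer group
`H ^ 1_f (F, V_2 J ⊗ ρ)` is zero. -/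
def AllArtinTwists (f : (𝓞 F)[X]) (S : Finset (HeightOneSpectrum (𝓞 F))) : Prop :=
  ∀ M : IntermediateField F (SeparableClosure F), Admissible f S M →
    ∀ (r : ℕ) (ρ : Rep F (SeparableClosure F) r), TrivialOn M ρ →
      TwoDivisible (toField f) ρ ∧ BKSelmerZero (toField f) ρ

end numberfield

end Pool.Agent.T3h73.LatTw
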