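import Pool.Agent.N603.PM.UR
import Pool.Agent.N783.PF.Loc

/-!
# Ramification in towers of number fields, in terms of valuations
-/

set_option autoImplicit false
set_option linter.all false

open Polynomial IsDedekindDomain NumberField
open scoped Classical IntermediateField

namespace Pool.Agent.T3h73

open Pool.Agent.N783.PF (Ov)

section two

variable {K L : Type} [Field K] [NumberField K] [Field L] [NumberField L] [Algebra K L]

theorem map_inj : Function.Injective (algebraMap (𝓞 K) (𝓞 L)) :=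
  FaithfulSMul.algebraMap_injective (𝓞 K) (𝓞 L)

/-- The valuation at a prime over `v`. -/
theorem val_over {v : HeightOneSpectrum (𝓞 K)} {w : HeightOneSpectrum (𝓞 L)}
    (h : Ov v.asIdeal w) : ∃ e : ℕ, 0 < e ∧
      ∀ x : K, w.valuation L (algebraMap K L x) = v.valuation K x ^ e := by
  have h1 : v.asIdeal = w.asIdeal.under (𝓞 K) := by
    have hmax : v.asIdeal.IsMaximal := v.isMaximal
    refine hmax.eq_of_le ?_ fun a ha => h a ha
    intro h0
    apply w.isPrime.ne_top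
    rw [Ideal.eq_top_iff_one]
    have h2 : (1 : 𝓞 K) ∈ w.asIdeal.under (𝓞 K) := by rw [h0]; trivial
    rw [Ideal.mem_comap, map_one] at h2
    exact h2
  haveI : w.asIdeal.LiesOver v.asIdeal := ⟨h1⟩
  refine ⟨v.asIdeal.ramificationIdx' w.asIdeal, ?_,
    fun x => (HeightOneSpectrum.valuation_liesOver L v w x).symm⟩
  rw [Nat.pos_iff_ne_zero]
  exact Ideal.IsDedekindDomain.ramificationIdx'_ne_zero_of_liesOver w.asIdeal v.ne_bot

/-- There is a prime over `v`. -/
theorem exists_up (L : Type) [Field L] [NumberField L] [Algebra K L]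
    (v : HeightOneSpectrum (𝓞 K)) : ∃ w : HeightOneSpectrum (𝓞 L), Ov v.asIdeal w := by
  obtain ⟨Q, -, hQp, hQ⟩ := Ideal.exists_ideal_over_prime_of_isIntegral (S := 𝓞 L) v.asIdeal ⊥
    (by
      intro x hx
      have h1 : algebraMap (𝓞 K) (𝓞 L) x = 0 := by simpa using hx
      have h2 : x = 0 := map_inj (L := L) (by rw [h1, map_zero])
      rw [h2]
      exact zero_mem _)
  have hQ0 : Q ≠ ⊥ := by
    rintro rfl
    apply v.ne_bot
    rw [← hQ]
    exact (RingHom.injective_iff_ker_eq_bot _).1 map_inj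
  refine ⟨⟨Q, hQp, hQ0⟩, fun a ha => ?_⟩
  rw [← hQ] at ha
  exact ha

/-- There is a prime below `w`. -/
theorem exists_down (K : Type) [Field K] [NumberField K] [Algebra K L]
    (w : HeightOneSpectrum (𝓞 L)) : ∃ v : HeightOneSpectrum (𝓞 K), Ov v.asIdeal w := by
  have hp0 : w.asIdeal.under (𝓞 K) ≠ ⊥ := by
    intro h0
    exact w.ne_bot (Ideal.eq_bot_of_comap_eq_bot h0)
  exact ⟨⟨w.asIdeal.under (𝓞 K), inferInstance, hp0⟩, fun a ha => ha⟩

theorem ov_iff {v : HeightOneSpectrum (𝓞 K)} {w : HeightOneSpectrum (𝓞 L)}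
    (h : Ov v.asIdeal w) (a : 𝓞 K) : algebraMap (𝓞 K) (𝓞 L) a ∈ w.asIdeal ↔ a ∈ v.asIdeal := by
  obtain ⟨e, he, hv⟩ := val_over h
  refine ⟨fun ha => ?_, fun ha => h a ha⟩
  have h1 := hv (algebraMap (𝓞 K) K a)
  rw [← IsScalarTower.algebraMap_apply (𝓞 K) K L, IsScalarTower.algebraMap_apply (𝓞 K) (𝓞 L) L] at h1
  have h2 := (HeightOneSpectrum.valuation_lt_one_iff_mem (K := L) w _).2 ha
  rw [h1] at h2
  by_contra hn
  have h3 : v.valuation K (algebraMap (𝓞 K) K a) = 1 := by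
    refine le_antisymm (HeightOneSpectrum.valuation_le_one (K := K) v a) (not_lt.1 fun h => hn ?_)
    exact (HeightOneSpectrum.valuation_lt_one_iff_mem (K := K) v a).1 h
  rw [h3, one_pow] at h2
  exact lt_irrefl _ h2

theorem ov_unique {v v' : HeightOneSpectrum (𝓞 K)} {w : HeightOneSpectrum (𝓞 L)}
    (h : Ov v.asIdeal w) (h' : Ov v'.asIdeal w) : v = v' := by
  ext a
  rw [← ov_iff h, ← ov_iff h']

/-- All primes over `v` are unramified. -/
def Unr (L : Type) [Field L] [NumberField L] [Algebra K L] (v : HeightOneSpectrum (𝓞 K)) : Prop :=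
  ∀ w : HeightOneSpectrum (𝓞 L), Ov v.asIdeal w →
    ∃ a ∈ v.asIdeal, algebraMap (𝓞 K) (𝓞 L) a ∉ w.asIdeal ^ 2

theorem val_unr {v : HeightOneSpectrum (𝓞 K)} (hu : Unr L v) {w : HeightOneSpectrum (𝓞 L)}
    (h : Ov v.asIdeal w) (x : K) : w.valuation L (algebraMap K L x) = v.valuation K x := by
  obtain ⟨e, he, hv⟩ := val_over h
  obtain ⟨a, ha, ha2⟩ := hu w h
  have h1 := hv (algebraMap (𝓞 K) K a)
  rw [← IsScalarTower.algebraMap_apply (𝓞 K) K L, IsScalarTower.algebraMap_apply (𝓞 K) (𝓞 L) L,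
    HeightOneSpectrum.valuation_of_algebraMap, HeightOneSpectrum.valuation_of_algebraMap] at h1
  have h2 : ¬ w.intValuation (algebraMap (𝓞 K) (𝓞 L) a) ≤ WithZero.exp (-((2 : ℕ) : ℤ)) := by
    rw [w.intValuation_le_pow_iff_mem]
    exact ha2
  have h3 := (v.intValuation_le_pow_iff_mem a 1).2 (by rwa [pow_one])
  rw [h1] at h2
  have e1 : e = 1 := by
    by_contra hne
    apply h2
    calc v.intValuation a ^ e ≤ (WithZero.exp (-((1 : ℕ) : ℤ))) ^ e := pow_le_pow_left₀ zero_le h3 e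
      _ ≤ WithZero.exp (-((2 : ℕ) : ℤ)) := by
        rw [← WithZero.exp_nsmul, WithZero.exp_le_exp]
        simp only [nsmul_eq_mul]
        push_cast
        have : 2 ≤ e := by omega
        have : (2 : ℤ) ≤ e := by exact_mod_cast this
        linarith
  rw [hv, e1, pow_one]

/-- The primes at which `f'(θ)` is a unit are unramified. -/
theorem val_der_unr {p : (𝓞 K)[X]} {θ : L} (hmon : p.Monic) (hroot : aeval θ p = 0)
    (htop : K⟮θ⟯ = ⊤) {w : HeightOneSpectrum (𝓞 L)} {v : HeightOneSpectrum (𝓞 K)}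
    (h : Ov v.asIdeal w) (h3 : w.valuation L (aeval θ (derivative p)) = 1) (x : K) :
    w.valuation L (algebraMap K L x) = v.valuation K x := by
  have hint : IsIntegral (𝓞 K) θ := ⟨p, hmon, by rw [← aeval_def]; exact hroot⟩
  obtain ⟨y, hy⟩ := (IsIntegralClosure.isIntegral_iff (R := 𝓞 K) (A := 𝓞 L)).1 hint
  have hadj : Algebra.adjoin K {algebraMap (𝓞 L) L y} = ⊤ := by
    have h1 : IsIntegral K θ := hint.tower_top
    have h2 := IntermediateField.adjoin_simple_toSubalgebra_of_isAlgebraic h1.isAlgebraic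
    rw [hy, ← h2, htop, IntermediateField.top_toSubalgebra]
  have h1 : v.asIdeal = w.asIdeal.under (𝓞 K) := by
    ext a
    exact (ov_iff h a).symm
  haveI : w.asIdeal.LiesOver v.asIdeal := ⟨h1⟩
  refine Pool.Agent.N603.PM.UR.core (𝓞 K) K L (𝓞 L) y hadj w ?_ v x
  intro hmem
  have hgy : aeval y p = 0 := by
    apply IsFractionRing.injective (𝓞 L) L
    rw [map_zero, ← Polynomial.aeval_algebraMap_apply, hy]
    exact hroot
  have hint' : IsIntegral (𝓞 K) y := ⟨p, hmon, hgy⟩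
  have hdvd : minpoly (𝓞 K) y ∣ p := minpoly.isIntegrallyClosed_dvd hint' hgy
  obtain ⟨q, hq⟩ := hdvd
  have h1 : aeval y (derivative p) = aeval y (derivative (minpoly (𝓞 K) y)) * aeval y q := by
    have h2 := congrArg (fun p : (𝓞 K)[X] => aeval y (derivative p)) hq
    simp only [derivative_mul, map_add, map_mul, minpoly.aeval, zero_mul, add_zero] at h2
    rw [← h2]
  have h2 : aeval y (derivative p) ∈ w.asIdeal := by
    rw [h1]
    exact Ideal.mul_mem_right _ _ hmem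
  have h4 : w.valuation L (algebraMap (𝓞 L) L (aeval y (derivative p))) < 1 := by
    rw [HeightOneSpectrum.valuation_lt_one_iff_mem]
    exact h2
  rw [← Polynomial.aeval_algebraMap_apply, hy, h3] at h4
  exact lt_irrefl _ h4

end two

section tow

variable {F L M Ω : Type} [Field F] [NumberField F] [Field L] [NumberField L] [Field M]
  [NumberField M] [Field Ω] [NumberField Ω] [Algebra F L] [Algebra F M] [Algebra F Ω]
  [Algebra L Ω] [Algebra M Ω] [IsScalarTower F L Ω] [IsScalarTower F M Ω]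

theorem tower3 : IsScalarTower (𝓞 F) (𝓞 M) Ω := by
  refine IsScalarTower.of_algebraMap_eq fun x => ?_
  rw [IsScalarTower.algebraMap_apply (𝓞 F) F Ω, IsScalarTower.algebraMap_apply F M Ω,
    IsScalarTower.algebraMap_apply (𝓞 M) M Ω]
  rfl

theorem tower4 : IsScalarTower (𝓞 F) L Ω := by
  refine IsScalarTower.of_algebraMap_eq fun x => ?_
  rw [IsScalarTower.algebraMap_apply (𝓞 F) F Ω, IsScalarTower.algebraMap_apply F L Ω]
  rfl

theorem ov_trans {v : HeightOneSpectrum (𝓞 F)} {𝔓 : HeightOneSpectrum (𝓞 L)}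
    {𝔓' : HeightOneSpectrum (𝓞 Ω)} (h : Ov v.asIdeal 𝔓) (h' : Ov 𝔓.asIdeal 𝔓') :
    Ov v.asIdeal 𝔓' := by
  intro a ha
  have := h' _ (h a ha)
  rwa [← IsScalarTower.algebraMap_apply (𝓞 F) (𝓞 L) (𝓞 Ω)] at this

theorem ov_of {v : HeightOneSpectrum (𝓞 F)} {w : HeightOneSpectrum (𝓞 M)}
    {𝔓' : HeightOneSpectrum (𝓞 Ω)} (h : Ov v.asIdeal 𝔓') (h' : Ov w.asIdeal 𝔓') :
    Ov v.asIdeal w := by
  intro a ha
  rw [← ov_iff h', ← IsScalarTower.algebraMap_apply (𝓞 F) (𝓞 M) (𝓞 Ω)]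
  exact h a ha

/-- If `v` is unramified in `M` and `f'(θ)` is a unit at `𝔓`, then a prime of `Ω = M(θ)` over `𝔓` is
unramified over `𝔓` and over the prime of `M` below. -/
theorem up_unr {f : (𝓞 F)[X]} {θ : L} (hmon : f.Monic) (hroot : aeval θ f = 0)
    (htop : M⟮algebraMap L Ω θ⟯ = ⊤) {v : HeightOneSpectrum (𝓞 F)} (hu : Unr M v)
    {𝔓 : HeightOneSpectrum (𝓞 L)} (h : Ov v.asIdeal 𝔓)
    (h3 : 𝔓.valuation L (aeval θ (derivative f)) = 1) :
    ∃ (𝔓' : HeightOneSpectrum (𝓞 Ω)) (w : HeightOneSpectrum (𝓞 M)),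
      Ov v.asIdeal w ∧ Ov w.asIdeal 𝔓' ∧
      (∀ x : L, 𝔓'.valuation Ω (algebraMap L Ω x) = 𝔓.valuation L x) ∧
      (∀ x : M, 𝔓'.valuation Ω (algebraMap M Ω x) = w.valuation M x) := by
  obtain ⟨𝔓', h1⟩ := exists_up Ω 𝔓
  obtain ⟨w, hw⟩ := exists_down M 𝔓'
  have hv : Ov v.asIdeal 𝔓' := ov_trans h h1
  have hvw : Ov v.asIdeal w := ov_of hv hw
  obtain ⟨e, he, hee⟩ := val_over h1
  obtain ⟨e', he', hee'⟩ := val_over h
  have hmon' : (f.map (algebraMap (𝓞 F) (𝓞 M))).Monic := hmon.map _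
  haveI : IsScalarTower (𝓞 F) (𝓞 M) Ω := tower3
  haveI : IsScalarTower (𝓞 F) L Ω := tower4
  have hae : ∀ q : (𝓞 F)[X], aeval (algebraMap L Ω θ) (q.map (algebraMap (𝓞 F) (𝓞 M))) =
      algebraMap L Ω (aeval θ q) := by
    intro q
    rw [aeval_map_algebraMap, aeval_algebraMap_apply]
  have hM := val_der_unr (K := M) (L := Ω) hmon' (by rw [hae, hroot, map_zero]) htop hw
    (by rw [derivative_map, hae, hee, h3, one_pow])
  refine ⟨𝔓', w, hvw, hw, ?_, hM⟩
  obtain ⟨π, hπ⟩ := v.valuation_exists_uniformizer F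
  have h5 : 𝔓'.valuation Ω (algebraMap F Ω π) = WithZero.exp (-1 : ℤ) := by
    rw [IsScalarTower.algebraMap_apply F M Ω, hM, val_unr hu hvw, hπ]
  rw [IsScalarTower.algebraMap_apply F L Ω, hee, hee', hπ, ← pow_mul, ← WithZero.exp_nsmul,
    WithZero.exp_inj] at h5
  have h6 : e' * e = 1 := by
    rw [nsmul_eq_mul] at h5
    have : ((e' * e : ℕ) : ℤ) = 1 := by linarith
    exact_mod_cast this
  have h7 : e = 1 := Nat.eq_one_of_mul_eq_one_left h6
  intro x
  rw [hee, h7, pow_one]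

end tow

end Pool.Agent.T3h73
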