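import Pool.Agent.N78.PF.Loc
import Pool.Agent.T3h73.Ram

/-!
# Consequences of local conditions over an extension `M` of `F`

After `Pool/Agent/N78/PF/Loc.lean`.
-/

set_option autoImplicit false
set_option linter.all false

open Polynomial IsDedekindDomain Matrix NumberField WithZero
open scoped Classical IntermediateField

namespace Pool.Agent.T3h73

open Pool.Agent.N874.PP (Ev Sq1 U0)
open Pool.Agent.N783.PQ (LocIm)
open Pool.Agent.N874.JM (LocF)
open Pool.Agent.N874.PM (Lies)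
open Pool.Agent.N783.PF
open Pool.Agent.N78.PF (LOC1 LOC2 fF_scale eq_of_ov val_one two_cast int_theta val_theta val_der rd_eq
  sp_le map_locF)

section

variable {F L M Ω : Type} [Field F] [NumberField F] [Field L] [NumberField L] [Field M]
  [NumberField M] [Field Ω] [NumberField Ω] [Algebra F L] [Algebra F M] [Algebra F Ω]
  [Algebra L Ω] [Algebra M Ω] [IsScalarTower F L Ω] [IsScalarTower F M Ω]

theorem ev_of_eq {𝔓 : HeightOneSpectrum (𝓞 L)} {𝔓' : HeightOneSpectrum (𝓞 Ω)}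
    (hv : ∀ x : L, 𝔓'.valuation Ω (algebraMap L Ω x) = 𝔓.valuation L x) {x : L}
    (h : Ev 𝔓' (algebraMap L Ω x)) : Ev 𝔓 x := by
  obtain ⟨y, hy⟩ := h
  obtain ⟨z, hz⟩ := 𝔓.valuation_surjective L (𝔓'.valuation Ω y)
  exact ⟨z, by rw [hz, ← hy, hv]⟩

theorem lies_of {v : HeightOneSpectrum (𝓞 F)} {w : HeightOneSpectrum (𝓞 M)}
    (h : Ov v.asIdeal w) : Lies (M := F) (Ω := M) v w := by
  obtain ⟨e, he, hv⟩ := val_over h
  refine ⟨fun x hx => ?_, fun x hx => ?_⟩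
  · rw [hv]
    exact pow_le_one' hx e
  · rw [hv]
    exact pow_lt_one' hx he.ne'

/-- Primes not dividing `2 D` at which `f'(θ)` is a unit and which are unramified in `M`. -/
theorem ev_up {g : ℕ} {f : (𝓞 F)[X]} {θ : L} (hG : IsGen g f θ)
    {v : HeightOneSpectrum (𝓞 F)} {𝔓 : HeightOneSpectrum (𝓞 L)} (hov : Ov v.asIdeal 𝔓)
    (h2 : (2 : 𝓞 F) ∉ v.asIdeal) {D : ℕ} (hD : (D : 𝓞 F) ∉ v.asIdeal) (h : F[X])
    (hder : 𝔓.valuation L (aeval θ (derivative (fF f))) = 1) (hu : Unr M v)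
    (htop : M⟮algebraMap L Ω θ⟯ = ⊤)
    (hloc : ∀ w : HeightOneSpectrum (𝓞 M), LocF (w.adicCompletion M)
      ((fF (f.scaleRoots ((D : ℕ) : 𝓞 F))).map (algebraMap F M)) (h.map (algebraMap F M)))
    (hne : aeval ((D : L) * θ) h ≠ 0) : Ev 𝔓 (aeval ((D : L) * θ) h) := by
  have e1 : ∀ q : (𝓞 F)[X], aeval θ (fF q) = aeval θ q := by
    intro q
    rw [fF, aeval_map_algebraMap]
  obtain ⟨𝔓', w, hvw, hw, hL, hM⟩ := up_unr (M := M) (Ω := Ω) hG.mon (by rw [← e1]; exact hG.root)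
    htop hu hov (by rw [derivative_map, e1] at hder; exact hder)
  refine ev_of_eq hL ?_
  have v2 : w.valuation M 2 = 1 := by
    have h3 : (2 : 𝓞 M) ∉ w.asIdeal := by
      have := ov_iff hvw (2 : 𝓞 F)
      rw [map_ofNat] at this
      rw [this]
      exact h2
    have := val_one h3
    rwa [two_cast] at this
  have vD : w.valuation M (D : M) = 1 := by
    have h3 : (D : 𝓞 M) ∉ w.asIdeal := by
      have := ov_iff hvw (D : 𝓞 F)
      rw [map_natCast] at this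
      rw [this]
      exact hD
    have := val_one h3
    simpa using this
  have e2 : (fF (f.scaleRoots ((D : ℕ) : 𝓞 F))).map (algebraMap F M) =
      ((fF f).map (algebraMap F M)).scaleRoots (D : M) := by
    have hm1 : (fF f).Monic := hG.mon.map _
    rw [fF_scale hG.mon, map_scaleRoots]
    · simp
    · rw [hm1.leadingCoeff]
      simp
  have e3 : algebraMap L Ω (aeval ((D : L) * θ) h) =
      aeval (algebraMap M Ω (D : M) * algebraMap L Ω θ) (h.map (algebraMap F M)) := by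
    rw [aeval_map_algebraMap, ← aeval_algebraMap_apply]
    congr 2
    simp
  have hl := hloc w
  rw [e2] at hl
  have hm2 : ((fF f).map (algebraMap F M)).Monic := (hG.mon.map _).map _
  have hae : ∀ q : (𝓞 F)[X], aeval (algebraMap L Ω θ) ((fF q).map (algebraMap F M)) =
      algebraMap L Ω (aeval θ (fF q)) := by
    intro q
    rw [aeval_map_algebraMap, aeval_algebraMap_apply]
  rw [e3]
  refine LOC1 M Ω (𝓞 M) (𝓞 Ω) w 𝔓' (lies_of hw) v2 ((fF f).map (algebraMap F M))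
    (h.map (algebraMap F M)) (D : M) (algebraMap L Ω θ) hm2 ?_ ?_ ?_ ?_ vD hl ?_
  · rw [(hG.mon.map (algebraMap (𝓞 F) F)).natDegree_map, hG.mon.natDegree_map, hG.deg]
    exact odd_two_mul_add_one g
  · intro i
    rw [coeff_map, coeff_map]
    have e4 : algebraMap F M (algebraMap (𝓞 F) F (f.coeff i)) =
        algebraMap (𝓞 M) M (algebraMap (𝓞 F) (𝓞 M) (f.coeff i)) := rfl
    rw [e4]
    exact HeightOneSpectrum.valuation_le_one (K := M) w _
  · rw [hae, hG.root, map_zero]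
  · rw [derivative_map, fF, derivative_map, ← fF, hae, hL, fF, ← derivative_map]
    exact hder
  · rw [← e3]
    exact (_root_.map_ne_zero (algebraMap L Ω)).2 hne

/-- Consequences of the local conditions over `M` for an element of `L`. -/
theorem base (h2 : S_PIN) (h3 : S_PAR) (h4 : S_PARQ) (h5 : S_RAM) (h6 : S_CSQ)
    (h7 : S_EXQ) (h8 : S_LIE) (g W : ℕ) (f f₁ : (𝓞 F)[X]) (θ : L) (S J : Finset ℕ)
    (𝔮 : ℕ → Ideal (𝓞 F)) (r P : ℕ → (𝓞 F)[X]) (hg : 1 ≤ g) (hG : IsGen g f θ) (hsq : SqF g f)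
    (hF : GoodF g W f₁) (hS : GoodS g W S 𝔮 r P) (hc1 : Cg (sp F W) f f₁)
    (hcq : ∀ q ∈ S, Cg (sp F q) f (P q)) (hJS : J ⊆ S) (htop : M⟮algebraMap L Ω θ⟯ = ⊤)
    (hram : ∀ v : HeightOneSpectrum (𝓞 F), ¬ Unr M v → Irreducible (rd v.asIdeal f))
    (h : F[X]) (hne : aeval ((Dp J : L) * θ) h ≠ 0)
    (hN : IsSquare (Algebra.norm F (aeval ((Dp J : L) * θ) h)))
    (hspl : ∀ v : HeightOneSpectrum (𝓞 F), ((2 : 𝓞 F) ∈ v.asIdeal ∨ ∃ q ∈ S, 𝔮 q = v.asIdeal) →
      LocF (v.adicCompletion F) (fF (f.scaleRoots ((Dp J : ℕ) : 𝓞 F))) h)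
    (hlocM : ∀ w : HeightOneSpectrum (𝓞 M), LocF (w.adicCompletion M)
      ((fF (f.scaleRoots ((Dp J : ℕ) : 𝓞 F))).map (algebraMap F M)) (h.map (algebraMap F M)))
    (hreal : ∀ σ : F →+* ℝ, LocIm ℝ ((fF (f.scaleRoots ((Dp J : ℕ) : 𝓞 F))).map σ) (h.map σ)) :
    (∀ 𝔓 : HeightOneSpectrum (𝓞 L), (∀ q ∈ J, Ov (𝔮 q) 𝔓 → 𝔓.valuation L θ ≠ 1) →
      Ev 𝔓 (aeval ((Dp J : L) * θ) h)) ∧
    (∀ q ∈ J, ∀ 𝔓 : HeightOneSpectrum (𝓞 L), Ov (𝔮 q) 𝔓 → 𝔓.valuation L θ = 1 →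
      U0 𝔓 ((q : L) * θ) (aeval ((Dp J : L) * θ) h)) ∧
    (∀ w : HeightOneSpectrum (𝓞 F), (2 : 𝓞 F) ∈ w.asIdeal →
      LocF (w.adicCompletion F) (fF f) (h.comp (C ((Dp J : ℕ) : F) * X))) ∧
    ∀ σ : F →+* ℝ, LocIm ℝ ((fF f).map σ) ((h.comp (C ((Dp J : ℕ) : F) * X)).map σ) := by
  have hqp : ∀ q ∈ S, q.Prime := fun q hq => (hS q hq).1
  -- congruences modulo `𝔮 q`
  have hcQ : ∀ q ∈ S, Cg (𝔮 q) f (X * r q) := by
    intro q hq j
    obtain ⟨-, -, -, -, -, -, a2, -, -, -, -, -, -, a3, -⟩ := hS q hq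
    have b1 := sp_le (F := F) a2 (hcq q hq j)
    have b2 := a3 j
    have := Ideal.add_mem _ b1 b2
    simpa using this
  have hqne : ∀ q ∈ S, 𝔮 q ≠ ⊥ := by
    intro q hq h0
    obtain ⟨a1, -, -, -, -, -, a2, -⟩ := hS q hq
    rw [h0, Ideal.mem_bot] at a2
    exact a1.ne_zero (by exact_mod_cast a2)
  have hqpr : ∀ q ∈ S, (𝔮 q).IsPrime := by
    intro q hq
    obtain ⟨-, -, -, -, -, a1, -⟩ := hS q hq
    exact a1
  obtain ⟨D, hD⟩ : ∃ D : ℕ, D = Dp J := ⟨_, rfl⟩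
  rw [← hD] at hne hN hspl hlocM hreal ⊢
  have hD0 : D ≠ 0 := by
    rw [hD, Dp, Finset.prod_ne_zero_iff]
    exact fun q hq => (hqp q (hJS hq)).ne_zero
  have hD8 : D % 8 = 1 := by
    rw [hD]
    have : ∀ T : Finset ℕ, T ⊆ S → (∏ q ∈ T, q) % 8 = 1 := by
      intro T
      induction T using Finset.induction_on with
      | empty => intro _; rfl
      | insert a T ha ih =>
        intro hT
        rw [Finset.prod_insert ha, Nat.mul_mod, ih fun x hx => hT (Finset.mem_insert_of_mem hx),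
          (hS a (hT (Finset.mem_insert_self _ _))).2.2.2.1]
    exact this J hJS
  have evu : ∀ (v : HeightOneSpectrum (𝓞 F)) (𝔓 : HeightOneSpectrum (𝓞 L)), Ov v.asIdeal 𝔓 →
      (2 : 𝓞 F) ∉ v.asIdeal → (D : 𝓞 F) ∉ v.asIdeal →
      𝔓.valuation L (aeval θ (derivative (fF f))) = 1 → Ev 𝔓 (aeval ((D : L) * θ) h) := by
    intro v 𝔓 hov h2v hDv hder
    by_cases hu : Unr M v
    · exact ev_up hG hov h2v hDv h hder hu htop hlocM hne
    · exact h2 g F L f θ hG hsq v.asIdeal v.isPrime v.ne_bot (hram v hu) _ hne hN 𝔓 hov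
  refine ⟨?_, ?_, ?_, ?_⟩
  · -- even valuations
    intro 𝔓 h𝔓
    obtain ⟨w, w1, w2, w3⟩ := h8 F L 𝔓
    have hL : Lies (M := F) (Ω := L) w 𝔓 := ⟨fun x => (w3 x).1, fun x => (w3 x).2⟩
    by_cases c2 : (2 : 𝓞 F) ∈ w.asIdeal
    · -- primes over two
      have hW : (W : 𝓞 F) ∈ w.asIdeal := by
        obtain ⟨k, hk⟩ := hF.two
        rw [hk]
        push_cast
        exact Ideal.mul_mem_right _ _ c2
      have e1 := rd_eq (sp_le hW) hc1
      exact h2 g F L f θ hG hsq w.asIdeal w.isPrime w.ne_bot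
        (by rw [e1]; exact hF.irr _ w.isPrime c2) _ hne hN 𝔓 w1
    · by_cases cq : ∃ q ∈ J, (q : 𝓞 F) ∈ w.asIdeal
      · obtain ⟨q, hq, hqw⟩ := cq
        have hqS := hJS hq
        by_cases cw : w.asIdeal = 𝔮 q
        · have o1 : Ov (𝔮 q) 𝔓 := by
            rw [← cw]
            exact w1
          have v1 : 𝔓.valuation L θ < 1 := lt_of_le_of_ne (val_theta hG 𝔓) (h𝔓 q hq o1)
          exact h4 g W F L f θ S 𝔮 r P hg hG hsq hS q hqS (hcQ q hqS) _ hne hN 𝔓 o1 v1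
        · have e1 := rd_eq (sp_le hqw) (hcq q hqS)
          obtain ⟨-, -, -, -, -, -, -, -, -, -, -, -, -, -, a1⟩ := hS q hqS
          exact h2 g F L f θ hG hsq w.asIdeal w.isPrime w.ne_bot
            (by rw [e1]; exact a1 _ w.isPrime hqw cw) _ hne hN 𝔓 w1
      · -- primes not dividing `2 D`
        have hDw : (D : 𝓞 F) ∉ w.asIdeal := by
          intro hd
          rw [hD, Dp, Nat.cast_prod] at hd
          haveI := w.isPrime
          obtain ⟨q, hq, hqw⟩ := (Ideal.IsPrime.prod_mem_iff).1 hd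
          exact cq ⟨q, hq, hqw⟩
        by_cases cu : 𝔓.valuation L (aeval θ (derivative (fF f))) = 1
        · exact evu w 𝔓 w1 c2 hDw cu
        · have v1 : 𝔓.valuation L (aeval θ (derivative (fF f))) < 1 :=
            lt_of_le_of_ne (val_der hG 𝔓) cu
          obtain ⟨⟨c, hc⟩, hother⟩ := h5 g F L f θ hG hsq w.asIdeal w.isPrime w.ne_bot 𝔓 w1 v1
          refine h3 g F L f θ hG hsq w.asIdeal w.isPrime w.ne_bot 𝔓 c w1 hc _ hne hN ?_
          intro 𝔓' o' n'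
          obtain ⟨w', u1, u2, u3⟩ := h8 F L 𝔓'
          have ew : w = w' := by
            ext1
            exact eq_of_ov w.isPrime w.ne_bot o' u2
          have hL' : Lies (M := F) (Ω := L) w 𝔓' := by
            rw [ew]
            exact ⟨fun x => (u3 x).1, fun x => (u3 x).2⟩
          exact evu w 𝔓' o' c2 hDw (hother 𝔓' o' n')
  · -- the primes in `J`
    intro q hq 𝔓 o1 v1
    have hqS := hJS hq
    obtain ⟨w, w1, w2, w3⟩ := h8 F L 𝔓
    have hL : Lies (M := F) (Ω := L) w 𝔓 := ⟨fun x => (w3 x).1, fun x => (w3 x).2⟩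
    have ew : 𝔮 q = w.asIdeal := eq_of_ov (hqpr q hqS) (hqne q hqS) o1 w2
    obtain ⟨a1, a2, a3, a4, a5, a6, a7, a8, a9, a10, a11, a12, a13, a14, a15⟩ := hS q hqS
    haveI : Finite (𝓞 F ⧸ w.asIdeal) := Ideal.finiteQuotientOfFreeOfNeBot _ w.ne_bot
    haveI : Finite (𝓞 L ⧸ 𝔓.asIdeal) := Ideal.finiteQuotientOfFreeOfNeBot _ 𝔓.ne_bot
    have h2w : (2 : 𝓞 F) ∉ 𝔮 q := by
      intro hm
      have h9 : ((q : 𝓞 F)) - 2 * ((q / 2 : ℕ) : 𝓞 F) = 1 := by
        have h10 : q = 2 * (q / 2) + 1 := by omega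
        have h11 : (q : 𝓞 F) = 2 * ((q / 2 : ℕ) : 𝓞 F) + 1 := by exact_mod_cast congrArg (Nat.cast (R := 𝓞 F)) h10
        rw [h11]
        ring
      apply a6.ne_top
      rw [Ideal.eq_top_iff_one, ← h9]
      exact Ideal.sub_mem _ a7 (Ideal.mul_mem_right _ _ hm)
    have nat_mem : ∀ p : ℕ, p.Prime → (p : 𝓞 F) ∈ 𝔮 q → p = q := by
      intro p hp hpm
      by_contra hpq
      have hco : Nat.Coprime p q := (Nat.coprime_primes hp a1).2 hpq
      obtain ⟨u, v, huv⟩ := (Nat.isCoprime_iff_coprime.2 hco)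
      apply a6.ne_top
      rw [Ideal.eq_top_iff_one]
      have h9 : (1 : 𝓞 F) = (u : 𝓞 F) * (p : 𝓞 F) + (v : 𝓞 F) * (q : 𝓞 F) := by
        have := congrArg (Int.cast (R := 𝓞 F)) huv
        push_cast at this
        exact this.symm
      rw [h9]
      exact Ideal.add_mem _ (Ideal.mul_mem_left _ _ hpm) (Ideal.mul_mem_left _ _ a7)
    have a10' : Irreducible (rd w.asIdeal (r q)) := ew ▸ a10
    obtain ⟨D', hD'⟩ : ∃ D' : ℕ, D' = ∏ p ∈ J.erase q, p := ⟨_, rfl⟩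
    have hDD : D = q * D' := by
      rw [hD, hD']
      exact (Finset.mul_prod_erase J (fun P => P) hq).symm
    have hD'm : (D' : 𝓞 F) ∉ 𝔮 q := by
      intro hd
      rw [hD', Nat.cast_prod] at hd
      haveI := a6
      obtain ⟨p, hp, hpm⟩ := (Ideal.IsPrime.prod_mem_iff).1 hd
      have hp' := Finset.mem_erase.1 hp
      exact hp'.1 (nat_mem p (hqp p (hJS hp'.2)) hpm)
    have v2 : w.valuation F 2 = 1 := by
      have := val_one (w := w) (a := 2) (by rw [← ew]; exact h2w)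
      rwa [two_cast] at this
    have vD' : w.valuation F (D' : F) = 1 := by
      have := val_one (w := w) (a := (D' : 𝓞 F)) (by rw [← ew]; exact hD'm)
      simpa using this
    obtain ⟨𝔓₁, 𝔓₂, e1, e2, e3, e4, e5, e6, e7⟩ :=
      h7 g W F L f θ S 𝔮 r P hg hG hsq hS q hqS (hcQ q hqS)
    have vq : 𝔓.valuation L (algebraMap F L (q : F)) = WithZero.exp (-1 : ℤ) := by
      rw [map_natCast]
      rcases e7 𝔓 o1 with rfl | rfl
      · exact e5
      · exact e6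
    obtain ⟨c1, -, -, -⟩ := h6 g W F L f θ S 𝔮 r P hg hG hsq hS q hqS (hcQ q hqS) 𝔓 o1 v1
    have s1 : Sq1 𝔓 (-1 : L) := by
      have := c1 (-1) (by
        intro hm
        apply a6.ne_top
        rw [Ideal.eq_top_iff_one]
        have := Ideal.neg_mem_iff _ |>.2 hm
        simpa using this)
      simpa using this
    have s2 : Sq1 𝔓 (algebraMap F L (D' : F)) := by
      have := c1 (D' : 𝓞 F) hD'm
      simpa using this
    have hl := hspl w (Or.inr ⟨q, hqS, ew⟩)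
    rw [fF_scale hG.mon, hDD, Nat.cast_mul] at hl
    have e8 : (D : L) = algebraMap F L ((q : F) * (D' : F)) := by
      rw [hDD]
      simp
    have e9 : (q : L) = algebraMap F L (q : F) := by simp
    rw [e8] at hne ⊢
    rw [e9]
    refine LOC2 F L (𝓞 F) (𝓞 L) w 𝔓 hL v2 g (fF f) h (r q) (q : F) (D' : F) θ hg (hG.mon.map _)
      ?_ a8 a9 ?_ ?_ hG.root v1 vq vD' s1 s2 hl hne
    · rw [hG.mon.natDegree_map, hG.deg]
    · exact a10'
    · intro j
      rw [coeff_map, ← map_sub]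
      refine (HeightOneSpectrum.valuation_lt_one_iff_mem (K := F) w _).2 ?_
      rw [← ew]
      exact hcQ q hqS j
  · -- the primes over two
    intro w hw
    haveI : Fact (Nat.Prime 2) := ⟨Nat.prime_two⟩
    obtain ⟨δ, hδ⟩ := Pool.Agent.N891.PQ.sq_two D hD8
    obtain ⟨ι, hι, -, -⟩ := Pool.Agent.N498.PQ.cpl F 2 w (by
      change ((2 : ℕ) : 𝓞 F) ∈ w.asIdeal
      exact_mod_cast hw)
    haveI : CharZero (w.adicCompletion F) :=
      charZero_of_injective_algebraMap (algebraMap F (w.adicCompletion F)).injective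
    exact map_locF hG.mon hG.deg hD0 (ι δ) (by rw [← map_pow, hδ, map_natCast]) h (hspl w (Or.inl hw))
  · -- the real places
    intro σ
    letI : Algebra F ℝ := σ.toAlgebra
    exact map_locF (E := ℝ) hG.mon hG.deg hD0 (Real.sqrt D) (Real.sq_sqrt (Nat.cast_nonneg D)) h
      (hreal σ)

end

end Pool.Agent.T3h73
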