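import Pool.Agent.T3h73.Cyc1

/-!
# Subfields of the `p`-th cyclotomic extension: local properties
-/

set_option autoImplicit false
set_option linter.all false

open Polynomial IsDedekindDomain NumberField
open scoped Classical IntermediateField

namespace Pool.Agent.T3h73

open Pool.Agent.N783.PF (Ov)

/-- an element whose powers sum up to zero is a primitive root of unity -/
theorem prim_of_sum {κ : Type} [Field κ] {p : ℕ} (hp : p.Prime) (h0 : (p : κ) ≠ 0) {z : κ}
    (hz : ∑ i ∈ Finset.range p, z ^ i = 0) : IsPrimitiveRoot z p := by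
  have hne : z ≠ 1 := by
    rintro rfl
    simp at hz
    exact h0 hz
  have h1 : z ^ p = 1 := by
    have h2 := mul_geom_sum z p
    rw [hz, mul_zero] at h2
    exact (sub_eq_zero.1 h2.symm)
  haveI : Fact p.Prime := ⟨hp⟩
  rw [IsPrimitiveRoot.iff_orderOf]
  exact orderOf_eq_prime h1 hne

theorem prim_pow {κ : Type} [Field κ] {p : ℕ} {z : κ} (hz : IsPrimitiveRoot z p) (hp : 0 < p)
    {a b : ℕ} (h : z ^ a = z ^ b) : (a : ZMod p) = (b : ZMod p) := by
  rw [ZMod.natCast_eq_natCast_iff']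
  rw [← pow_mod_orderOf z a, ← pow_mod_orderOf z b, ← hz.eq_orderOf] at h
  exact hz.pow_inj (Nat.mod_lt _ hp) (Nat.mod_lt _ hp) h

section loc

variable {p : ℕ} [hp : Fact p.Prime] {F K : Type} [Field F] [NumberField F] [Field K]
  [NumberField K] [Algebra F K] [IsCyclotomicExtension {p} F K] {ζ : K} (hζ : IsPrimitiveRoot ζ p)

include hζ in
theorem cyc_top : F⟮ζ⟯ = ⊤ := by
  haveI : NeZero p := ⟨hp.out.ne_zero⟩
  have h1 := IsCyclotomicExtension.adjoin_primitive_root_eq_top (A := F) (B := K) hζ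
  rw [eq_top_iff]
  rintro x -
  have hx : x ∈ Algebra.adjoin F ({ζ} : Set K) := by rw [h1]; trivial
  exact IntermediateField.algebra_adjoin_le_adjoin F {ζ} hx

include hζ in
/-- unramified primes in the cyclotomic extension -/
theorem cyc_val {v : HeightOneSpectrum (𝓞 F)} (hv : (p : 𝓞 F) ∉ v.asIdeal)
    {w : HeightOneSpectrum (𝓞 K)} (hw : Ov v.asIdeal w) (x : F) :
    w.valuation K (algebraMap F K x) = v.valuation F x := by
  have hpw : (p : 𝓞 K) ∉ w.asIdeal := by
    intro h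
    apply hv
    rw [← ov_iff hw, map_natCast]
    exact h
  have hζ1 : w.valuation K ζ = 1 := by
    have h1 : w.valuation K ζ ^ p = 1 := by rw [← map_pow, hζ.pow_eq_one, map_one]
    exact (pow_eq_one_iff_of_nonneg zero_le hp.out.ne_zero).1 h1
  have hp1 : w.valuation K (p : K) = 1 := by
    have := (HeightOneSpectrum.valuation_eq_one_iff_notMem (K := K) w).2 hpw
    rwa [map_natCast] at this
  refine val_der_unr (p := X ^ p - 1) (θ := ζ) ?_ ?_ (cyc_top hζ) hw ?_ x
  · have := monic_X_pow_sub_C (1 : 𝓞 F) hp.out.ne_zero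
    rwa [C_1] at this
  · rw [map_sub, map_pow, aeval_X, map_one, hζ.pow_eq_one, sub_self]
  · have e : (aeval ζ) (derivative (X ^ p - 1 : (𝓞 F)[X])) = (p : K) * ζ ^ (p - 1) := by
      rw [derivative_sub, derivative_X_pow, derivative_one, sub_zero, map_mul, map_pow, aeval_X,
        map_natCast, map_natCast]
    rw [e, map_mul, map_pow, hp1, hζ1, one_pow, mul_one]

theorem mm_nf (e : ℕ) : NumberField (MM F hζ e) :=
  NumberField.of_module_finite F _

theorem mm_unr (e : ℕ) {v : HeightOneSpectrum (𝓞 F)} (hv : (p : 𝓞 F) ∉ v.asIdeal) :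
    haveI := mm_nf (F := F) hζ e
    Unr (MM F hζ e) v := by
  haveI := mm_nf (F := F) hζ e
  intro w' hw'
  obtain ⟨w, hw⟩ := exists_up K w'
  have hvw : Ov v.asIdeal w := ov_trans hw' hw
  obtain ⟨π, hπ⟩ := v.intValuation_exists_uniformizer
  have hπv : π ∈ v.asIdeal := by
    rw [← HeightOneSpectrum.intValuation_lt_one_iff_mem, hπ]
    exact WithZero.exp_lt_exp.2 (by norm_num)
  refine ⟨π, hπv, fun h => ?_⟩
  have h1 : algebraMap (𝓞 (MM F hζ e)) (𝓞 K) (algebraMap (𝓞 F) (𝓞 (MM F hζ e)) π) ∈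
      w.asIdeal ^ 2 := by
    have h2 := Ideal.mem_map_of_mem (algebraMap (𝓞 (MM F hζ e)) (𝓞 K)) h
    rw [Ideal.map_pow] at h2
    exact Ideal.pow_right_mono (Ideal.map_le_iff_le_comap.2 hw) 2 h2
  rw [← IsScalarTower.algebraMap_apply (𝓞 F) (𝓞 (MM F hζ e)) (𝓞 K),
    ← w.intValuation_le_pow_iff_mem] at h1
  have h4 := cyc_val hζ hv hvw (algebraMap (𝓞 F) F π)
  rw [← IsScalarTower.algebraMap_apply (𝓞 F) F K, IsScalarTower.algebraMap_apply (𝓞 F) (𝓞 K) K,
    HeightOneSpectrum.valuation_of_algebraMap, HeightOneSpectrum.valuation_of_algebraMap, hπ] at h4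
  rw [h4, WithZero.exp_le_exp] at h1
  norm_num at h1

theorem mm_spl {e : ℕ} {v : HeightOneSpectrum (𝓞 F)} (hv : (p : 𝓞 F) ∉ v.asIdeal)
    (hNv : ((Ideal.absNorm v.asIdeal : ℕ) : ZMod p) ^ e = 1) :
    haveI := mm_nf (F := F) hζ e
    Spl (MM F hζ e) v := by
  haveI := mm_nf (F := F) hζ e
  haveI : IsGalois F K := IsCyclotomicExtension.isGalois {p} F K
  obtain ⟨w, hw⟩ := exists_up K v
  obtain ⟨w', hw'⟩ := exists_down (MM F hζ e) w
  have hvw' : Ov v.asIdeal w' := ov_of hw hw'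
  have hcomap : w.asIdeal.comap (algebraMap (𝓞 F) (𝓞 K)) = v.asIdeal := by
    ext a
    rw [Ideal.mem_comap]
    exact ov_iff hw a
  obtain ⟨Φ, hΦ⟩ := Pool.Agent.K3h8.RS.exists_frob F K v w hcomap
  have hpw : (p : 𝓞 K) ∉ w.asIdeal := by
    intro h
    apply hv
    rw [← ov_iff hw, map_natCast]
    exact h
  obtain ⟨q, hq⟩ : ∃ q, q = Ideal.absNorm v.asIdeal := ⟨_, rfl⟩
  rw [← hq] at hNv hΦ
  -- the Frobenius automorphism belongs to the subgroup
  have hΦH : Φ ∈ HH F hζ e := by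
    rw [mem_HH]
    haveI := w.isMaximal
    letI : Field (𝓞 K ⧸ w.asIdeal) := Ideal.Quotient.field w.asIdeal
    obtain ⟨z, hz⟩ : ∃ z : 𝓞 K, (z : K) = ζ := ⟨⟨ζ, hζ.isIntegral hp.out.pos⟩, rfl⟩
    have hsum : ∑ i ∈ Finset.range p, (Ideal.Quotient.mk w.asIdeal z) ^ i = 0 := by
      have h1 : ∑ i ∈ Finset.range p, z ^ i = 0 := by
        apply RingOfIntegers.coe_injective
        rw [map_sum, map_zero]
        have h2 := hζ.geom_sum_eq_zero hp.out.one_lt
        rw [← h2]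
        refine Finset.sum_congr rfl fun i _ => ?_
        rw [map_pow, ← hz]
      have h3 := congrArg (Ideal.Quotient.mk w.asIdeal) h1
      rw [map_sum, map_zero] at h3
      rw [← h3]
      refine Finset.sum_congr rfl fun i _ => ?_
      rw [map_pow]
    have hprim := prim_of_sum hp.out (κ := 𝓞 K ⧸ w.asIdeal) (by
      intro h
      apply hpw
      rw [← Ideal.Quotient.eq_zero_iff_mem, map_natCast]
      exact h) hsum
    have h4 : Φ (z : K) - (z : K) ^ q = ((z ^ (hζ.autToPow F Φ : ZMod p).val - z ^ q : 𝓞 K) : K) := by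
      have h5 : Φ (z : K) = (z : K) ^ (hζ.autToPow F Φ : ZMod p).val := by
        rw [hz]
        exact (hζ.autToPow_spec F Φ).symm
      rw [h5]
      push_cast
      rfl
    have h6 := hΦ z
    rw [h4] at h6
    have h7 := (w.valuation_lt_one_iff_mem (K := K) _).1 h6
    have h8 : (Ideal.Quotient.mk w.asIdeal z) ^ (hζ.autToPow F Φ : ZMod p).val =
        (Ideal.Quotient.mk w.asIdeal z) ^ q := by
      rw [← map_pow, ← map_pow]
      exact Ideal.Quotient.eq.2 h7
    have h9 := prim_pow hprim hp.out.pos h8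
    rw [ZMod.natCast_zmod_val] at h9
    rw [h9]
    exact hNv
  refine ⟨w', hvw', mm_unr hζ e hv w' hvw', ?_⟩
  -- residue fields
  haveI hm := v.isMaximal
  haveI hm' := w'.isMaximal
  letI : Field (𝓞 F ⧸ v.asIdeal) := Ideal.Quotient.field v.asIdeal
  letI : Field (𝓞 (MM F hζ e) ⧸ w'.asIdeal) := Ideal.Quotient.field w'.asIdeal
  haveI hf : Finite (𝓞 F ⧸ v.asIdeal) := Ideal.finiteQuotientOfFreeOfNeBot v.asIdeal v.ne_bot
  letI := Fintype.ofFinite (𝓞 F ⧸ v.asIdeal)
  have hcard : Fintype.card (𝓞 F ⧸ v.asIdeal) = q := by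
    rw [hq, Ideal.absNorm_apply, Submodule.cardQuot_apply, Nat.card_eq_fintype_card]
  have hq1 : 1 < q := by rw [← hcard]; exact Fintype.one_lt_card
  have hfix : ∀ y : 𝓞 (MM F hζ e) ⧸ w'.asIdeal, y ^ q = y := by
    intro y
    obtain ⟨x, rfl⟩ := Ideal.Quotient.mk_surjective y
    have h1 := hΦ (algebraMap (𝓞 (MM F hζ e)) (𝓞 K) x)
    have h2 : Φ ((algebraMap (𝓞 (MM F hζ e)) (𝓞 K) x : 𝓞 K) : K) =
        ((algebraMap (𝓞 (MM F hζ e)) (𝓞 K) x : 𝓞 K) : K) := mm_fix hζ hΦH x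
    rw [h2] at h1
    have h3 : ((algebraMap (𝓞 (MM F hζ e)) (𝓞 K) x : 𝓞 K) : K) -
        ((algebraMap (𝓞 (MM F hζ e)) (𝓞 K) x : 𝓞 K) : K) ^ q =
        ((algebraMap (𝓞 (MM F hζ e)) (𝓞 K) (x - x ^ q) : 𝓞 K) : K) := by
      rw [map_sub, map_pow]
      push_cast
      rfl
    rw [h3] at h1
    have h4 := (w.valuation_lt_one_iff_mem (K := K) _).1 h1
    rw [ov_iff hw'] at h4
    rw [← map_pow]
    exact (Ideal.Quotient.eq.2 h4).symm
  set ι : (𝓞 F ⧸ v.asIdeal) →+* (𝓞 (MM F hζ e) ⧸ w'.asIdeal) :=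
    Ideal.quotientMap w'.asIdeal (algebraMap (𝓞 F) (𝓞 (MM F hζ e)))
      (fun a ha => (ov_iff hvw' a).2 ha) with hι
  have hιinj : Function.Injective ι := ι.injective
  have hsurj : Function.Surjective ι := by
    intro y
    have h1 : (Finset.univ.image ι) ⊆
        ((X ^ q - X : (𝓞 (MM F hζ e) ⧸ w'.asIdeal)[X]).roots.toFinset) := by
      intro x _
      rw [Multiset.mem_toFinset, mem_roots (FiniteField.X_pow_card_sub_X_ne_zero _ hq1)]
      simp [IsRoot.def, hfix x]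
    have h2 : ((X ^ q - X : (𝓞 (MM F hζ e) ⧸ w'.asIdeal)[X]).roots.toFinset).card ≤ q := by
      refine (Multiset.toFinset_card_le _).trans ((card_roots' _).trans ?_)
      rw [FiniteField.X_pow_card_sub_X_natDegree_eq _ hq1]
    have h3 := Finset.eq_of_subset_of_card_le h1 (by
      rw [Finset.card_image_of_injective _ hιinj, Finset.card_univ, hcard]
      exact h2)
    have h4 : y ∈ Finset.univ.image ι := by
      rw [h3, Multiset.mem_toFinset, mem_roots (FiniteField.X_pow_card_sub_X_ne_zero _ hq1)]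
      simp [IsRoot.def, hfix y]
    obtain ⟨x, -, hx⟩ := Finset.mem_image.1 h4
    exact ⟨x, hx⟩
  intro x
  obtain ⟨y, hy⟩ := hsurj (Ideal.Quotient.mk w'.asIdeal x)
  obtain ⟨a, rfl⟩ := Ideal.Quotient.mk_surjective y
  refine ⟨a, ?_⟩
  rw [hι, Ideal.quotientMap_mk] at hy
  exact Ideal.Quotient.eq.1 hy.symm

theorem mm_real {e : ℕ} (he : Even e) (σ : F →+* ℝ) :
    ∃ τ : MM F hζ e →+* ℝ, τ.comp (algebraMap F (MM F hζ e)) = σ := by
  haveI : IsGalois F K := IsCyclotomicExtension.isGalois {p} F K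
  letI : Algebra F ℂ := (Complex.ofRealHom.comp σ).toAlgebra
  have hF : ∀ x : F, algebraMap F ℂ x = ((σ x : ℝ) : ℂ) := fun x => rfl
  obtain ⟨φ, -⟩ : ∃ φ : K →ₐ[F] ℂ, True := ⟨IsAlgClosed.lift, trivial⟩
  obtain ⟨ψ, hψ⟩ : ∃ ψ : K →ₐ[F] ℂ, ∀ x, ψ x = (starRingEnd ℂ) (φ x) := by
    refine ⟨{ toRingHom := (starRingEnd ℂ).comp φ.toRingHom, commutes' := fun x => ?_ },
      fun x => rfl⟩
    show (starRingEnd ℂ) (φ (algebraMap F K x)) = _
    rw [φ.commutes, hF, Complex.conj_ofReal]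
  obtain ⟨c, hc⟩ := emb_unique φ ψ
  have hcζ : c ζ = ζ ^ (p - 1) := by
    apply φ.toRingHom.injective
    show φ (c ζ) = φ (ζ ^ (p - 1))
    rw [← hc, hψ, map_pow]
    have h1 : (φ ζ) ^ p = 1 := by rw [← map_pow, hζ.pow_eq_one, map_one]
    have h2 : ‖φ ζ‖ = 1 := Complex.norm_eq_one_of_pow_eq_one h1 hp.out.ne_zero
    have h3 : φ ζ * (starRingEnd ℂ) (φ ζ) = 1 := by
      rw [Complex.mul_conj, Complex.normSq_eq_norm_sq, h2]
      simp
    have h4 : φ ζ * (φ ζ) ^ (p - 1) = 1 := by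
      rw [← pow_succ', Nat.sub_add_cancel hp.out.pos, h1]
    have h5 : φ ζ ≠ 0 := by
      intro h
      rw [h, zero_mul] at h3
      exact zero_ne_one h3
    exact mul_left_cancel₀ h5 (h3.trans h4.symm)
  have hcH : c ∈ HH F hζ e := by
    rw [mem_HH]
    have h1 : ζ ^ (hζ.autToPow F c : ZMod p).val = ζ ^ (p - 1) := by
      rw [← hcζ]
      exact hζ.autToPow_spec F c
    have h2 := prim_pow hζ hp.out.pos h1
    rw [ZMod.natCast_zmod_val] at h2
    rw [h2, Nat.cast_sub hp.out.pos, ZMod.natCast_self, Nat.cast_one, zero_sub]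
    exact he.neg_one_pow
  have hreal : ∀ x : MM F hζ e, (φ (x : K)).im = 0 := by
    intro x
    have h1 := hc (x : K)
    rw [mm_fix hζ hcH, hψ] at h1
    exact Complex.conj_eq_iff_im.1 h1
  refine ⟨{ toFun := fun x => (φ (x : K)).re, map_one' := ?_, map_mul' := ?_, map_zero' := ?_,
            map_add' := ?_ }, ?_⟩
  · show (φ ((1 : MM F hζ e) : K)).re = 1
    have e1 : ((1 : MM F hζ e) : K) = 1 := rfl
    rw [e1, map_one, Complex.one_re]
  · intro x y
    show (φ ((x * y : MM F hζ e) : K)).re = (φ (x : K)).re * (φ (y : K)).re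
    have e1 : ((x * y : MM F hζ e) : K) = (x : K) * (y : K) := rfl
    rw [e1, map_mul, Complex.mul_re, hreal x, zero_mul, sub_zero]
  · show (φ ((0 : MM F hζ e) : K)).re = 0
    have e1 : ((0 : MM F hζ e) : K) = 0 := rfl
    rw [e1, map_zero, Complex.zero_re]
  · intro x y
    show (φ ((x + y : MM F hζ e) : K)).re = (φ (x : K)).re + (φ (y : K)).re
    have e1 : ((x + y : MM F hζ e) : K) = (x : K) + (y : K) := rfl
    rw [e1, map_add, Complex.add_re]
  · ext x
    show (φ ((algebraMap F (MM F hζ e) x : MM F hζ e) : K)).re = σ x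
    have e1 : ((algebraMap F (MM F hζ e) x : MM F hζ e) : K) = algebraMap F K x := rfl
    rw [e1, φ.commutes, hF, Complex.ofReal_re]

end loc

end Pool.Agent.T3h73
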