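import Pool.Agent.T3h73.InfIrr
import Pool.Agent.T3h73.Cyc2

/-!
# Prime numbers at all of whose prime divisors a polynomial is irreducible
-/

set_option autoImplicit false
set_option linter.all false

open Polynomial IsDedekindDomain NumberField
open scoped Classical IntermediateField

namespace Pool.Agent.T3h73

open Pool.Agent.N783.PF (Ov fF rd)

/-! ### Finite fields -/

theorem deg_dvd_of_root {k k' : Type} [Field k] [Finite k] [Field k'] (ι : k →+* k') {p : k[X]}
    (hp : Irreducible p) {a : k'} (ha : p.eval₂ ι a = 0) {d : ℕ}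
    (h : a ^ (Nat.card k) ^ d = a) : p.natDegree ∣ d := by
  refine hp.natDegree_dvd_of_dvd_X_pow_card_pow_sub_X ?_
  by_contra hnd
  obtain ⟨u, v, huv⟩ := (hp.coprime_iff_not_dvd).2 hnd
  have h1 := congrArg (fun q => eval₂ ι a q) huv
  simp only [eval₂_add, eval₂_mul, eval₂_sub, eval₂_pow, eval₂_X, eval₂_one, ha, h, sub_self,
    mul_zero, add_zero] at h1
  exact zero_ne_one h1

theorem card_of_pow {κ : Type} [Field κ] [Finite κ] {q : ℕ} (hq : q.Prime) (h0 : (q : κ) = 0)
    (h : ∀ x : κ, x ^ q = x) : Nat.card κ = q := by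
  letI := Fintype.ofFinite κ
  have h1 : Fintype.card κ ≤ q := by
    have h2 : (Finset.univ : Finset κ) ⊆ ((X ^ q - X : κ[X]).roots.toFinset) := by
      intro x _
      rw [Multiset.mem_toFinset, mem_roots (FiniteField.X_pow_card_sub_X_ne_zero _ hq.one_lt)]
      simp [IsRoot.def, h x]
    refine (Finset.card_le_card h2).trans ((Multiset.toFinset_card_le _).trans
      ((card_roots' _).trans ?_))
    rw [FiniteField.X_pow_card_sub_X_natDegree_eq _ hq.one_lt]
  haveI : CharP κ q := (CharP.charP_iff_prime_eq_zero hq).2 h0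
  haveI : Fact q.Prime := ⟨hq⟩
  obtain ⟨n, hn1, hn2⟩ := FiniteField.card κ q
  rw [Nat.card_eq_fintype_card]
  refine le_antisymm h1 ?_
  rw [hn2]
  exact Nat.le_self_pow n.pos.ne' q

/-! ### Primes of `ℚ` -/

theorem exists_vQ {q : ℕ} (hq : q.Prime) : ∃ t : HeightOneSpectrum (𝓞 ℚ), (q : 𝓞 ℚ) ∈ t.asIdeal ∧
    Ideal.absNorm t.asIdeal = q := by
  have hn : Ideal.absNorm (Ideal.span {(q : 𝓞 ℚ)}) = q := by
    rw [Ideal.absNorm_span_natCast, NumberField.RingOfIntegers.rank, Module.finrank_self, pow_one]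
  have hirr : Irreducible (Ideal.absNorm (Ideal.span {(q : 𝓞 ℚ)})) := by rw [hn]; exact hq
  have hp : (Ideal.span {(q : 𝓞 ℚ)}).IsPrime := Ideal.isPrime_of_irreducible_absNorm hirr
  refine ⟨⟨Ideal.span {(q : 𝓞 ℚ)}, hp, ?_⟩, Ideal.mem_span_singleton_self _, hn⟩
  rw [Ne, Ideal.span_singleton_eq_bot]
  exact_mod_cast hq.ne_zero

theorem prime_vQ (v : HeightOneSpectrum (𝓞 ℚ)) : (Ideal.absNorm v.asIdeal).Prime := by
  have h1 : (Ideal.absNorm v.asIdeal : 𝓞 ℚ) ∈ v.asIdeal := Ideal.absNorm_mem v.asIdeal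
  have h0 : 0 < Ideal.absNorm v.asIdeal := by
    rw [Nat.pos_iff_ne_zero, Ne, Ideal.absNorm_eq_zero_iff]
    exact v.ne_bot
  obtain ⟨p, hp1, hp2, hp3⟩ := Pool.Agent.N951.PF.prime_factor v.asIdeal v.isPrime _ h0 h1
  have h2 : Ideal.absNorm v.asIdeal ∣ Ideal.absNorm (Ideal.span {(p : 𝓞 ℚ)}) :=
    Ideal.absNorm_dvd_absNorm_of_le ((Ideal.span_singleton_le_iff_mem _).2 hp3)
  rw [Ideal.absNorm_span_natCast, NumberField.RingOfIntegers.rank, Module.finrank_self,
    pow_one] at h2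
  rw [Nat.dvd_antisymm h2 hp2]
  exact hp1

/-- the natural numbers in a prime ideal over `p` -/
theorem nat_mem {R : Type} [CommRing R] {P : Ideal R} (hP : P ≠ ⊤) {p : ℕ} (hp : p.Prime)
    (h : (p : R) ∈ P) (n : ℕ) : (n : R) ∈ P ↔ p ∣ n := by
  constructor
  · intro hn
    by_contra hd
    obtain ⟨u, v, huv⟩ := Nat.isCoprime_iff_coprime.2 ((Nat.Prime.coprime_iff_not_dvd hp).2 hd)
    apply hP
    rw [Ideal.eq_top_iff_one]
    have : (1 : R) = (u : R) * (p : R) + (v : R) * (n : R) := by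
      exact_mod_cast (congrArg (fun z : ℤ => (z : R)) huv).symm
    rw [this]
    exact P.add_mem (P.mul_mem_left _ h) (P.mul_mem_left _ hn)
  · rintro ⟨c, rfl⟩
    rw [Nat.cast_mul]
    exact P.mul_mem_right _ h

/-! ### Automorphisms -/

section aut

variable {F N : Type} [Field F] [NumberField F] [Field N] [NumberField N] [Algebra F N]
  [Algebra ℚ N]

/-- The homomorphism of the rings of integers given by an embedding followed by an automorphism. -/
theorem exists_j (τ : N ≃ₐ[ℚ] N) : ∃ j : 𝓞 F →+* 𝓞 N, ∀ x : 𝓞 F,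
    ((j x : 𝓞 N) : N) = τ (algebraMap F N (x : F)) := by
  refine ⟨RingOfIntegers.mapRingHom (τ.toRingHom.comp (algebraMap F N)), fun x => rfl⟩

/-- The powers of an automorphism that is the Frobenius automorphism at a prime ideal. -/
theorem frob_pow {P : HeightOneSpectrum (𝓞 N)} {Φ : N ≃ₐ[ℚ] N} {q : ℕ}
    (hΦ : ∀ x : 𝓞 N, P.valuation N (Φ (x : N) - (x : N) ^ q) < 1) (i : ℕ) (x y : 𝓞 N)
    (hy : (y : N) = (Φ ^ i) (x : N)) :
    Ideal.Quotient.mk P.asIdeal y = (Ideal.Quotient.mk P.asIdeal x) ^ q ^ i := by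
  induction i generalizing y with
  | zero =>
    rw [pow_zero, AlgEquiv.one_apply] at hy
    rw [pow_zero, pow_one, RingOfIntegers.ext hy]
  | succ i ih =>
    have h1 : IsIntegral ℤ ((Φ ^ i) (x : N)) := map_isIntegral_int (Φ ^ i) x.2
    obtain ⟨z, hz⟩ : ∃ z : 𝓞 N, (z : N) = (Φ ^ i) (x : N) := ⟨⟨_, h1⟩, rfl⟩
    have h2 := hΦ z
    have h3 : Φ (z : N) = (y : N) := by
      rw [hy, hz, pow_succ', AlgEquiv.mul_apply]
    have h4 : Φ (z : N) - (z : N) ^ q = ((y - z ^ q : 𝓞 N) : N) := by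
      rw [h3]
      push_cast
      rfl
    rw [h4] at h2
    have h5 : y - z ^ q ∈ P.asIdeal := (P.valuation_lt_one_iff_mem _).1 h2
    have h6 : Ideal.Quotient.mk P.asIdeal y = Ideal.Quotient.mk P.asIdeal z ^ q := by
      rw [← map_pow]
      exact Ideal.Quotient.eq.2 h5
    rw [h6, ih z hz, ← pow_mul, pow_succ]

/-- The prime ideal of `F` below a prime ideal of `N` with respect to an embedding. -/
theorem below (j : 𝓞 F →+* 𝓞 N) (P : HeightOneSpectrum (𝓞 N)) {q : ℕ} (hq : q.Prime)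
    (hqP : (q : 𝓞 N) ∈ P.asIdeal) : ∃ Q : HeightOneSpectrum (𝓞 F), (q : 𝓞 F) ∈ Q.asIdeal ∧
      ∀ x : 𝓞 F, x ∈ Q.asIdeal ↔ j x ∈ P.asIdeal := by
  have h1 : (q : 𝓞 F) ∈ P.asIdeal.comap j := by
    rw [Ideal.mem_comap, map_natCast]
    exact hqP
  refine ⟨⟨P.asIdeal.comap j, Ideal.IsPrime.comap j, ?_⟩, h1, fun x => Iff.rfl⟩
  intro h0
  rw [h0, Ideal.mem_bot] at h1
  exact hq.ne_zero (by exact_mod_cast h1)

/-- an automorphism that is congruent to the identity fixes an element with separable minimal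
polynomial -/
theorem fix_of_sep {P : HeightOneSpectrum (𝓞 N)} {Φ : N ≃ₐ[ℚ] N} {a : 𝓞 N} {h : ℤ[X]}
    (ha : aeval a h = 0) (hs : aeval a (derivative h) ∉ P.asIdeal) {b : 𝓞 N}
    (hb : (b : N) = Φ (a : N)) (hab : b - a ∈ P.asIdeal) : b = a := by
  by_contra hne
  apply hs
  set H : (𝓞 N)[X] := h.map (algebraMap ℤ (𝓞 N)) with hH
  have hHa : H.eval a = 0 := by
    rw [hH, eval_map, ← aeval_def]
    exact ha
  have hHb : H.eval b = 0 := by
    rw [hH, eval_map, ← aeval_def]
    apply RingOfIntegers.coe_injective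
    rw [map_zero]
    have e1 : algebraMap (𝓞 N) N (aeval b h) = aeval (b : N) h := by
      rw [← aeval_algebraMap_apply]
    have e2 : algebraMap (𝓞 N) N (aeval a h) = aeval (a : N) h := by
      rw [← aeval_algebraMap_apply]
    rw [e1, hb]
    have e3 : aeval (Φ (a : N)) h = Φ (aeval (a : N) h) := by
      have := Polynomial.hom_eval₂ h (algebraMap ℤ N) (Φ : N →+* N) (a : N)
      rw [aeval_def, aeval_def]
      have e4 : (Φ : N →+* N).comp (algebraMap ℤ N) = algebraMap ℤ N := RingHom.ext_int _ _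
      rw [e4] at this
      exact this.symm
    rw [e3, ← e2, ha, map_zero, map_zero]
  obtain ⟨g, hg⟩ := dvd_iff_isRoot.2 hHa
  have hgb : g.eval b = 0 := by
    rw [hg, eval_mul, eval_sub, eval_X, eval_C] at hHb
    rcases mul_eq_zero.1 hHb with h3 | h3
    · exact absurd (sub_eq_zero.1 h3) hne
    · exact h3
  have hga : g.eval a ∈ P.asIdeal := by
    obtain ⟨c, hc⟩ := sub_dvd_eval_sub b a g
    have e : g.eval a = - ((b - a) * c) := by
      rw [← hc, hgb]
      ring
    rw [e]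
    exact P.asIdeal.neg_mem (P.asIdeal.mul_mem_right _ hab)
  have hder : aeval a (derivative h) = g.eval a := by
    have e1 : aeval a (derivative h) = (derivative H).eval a := by
      rw [hH, derivative_map, eval_map, ← aeval_def]
    rw [e1, hg, derivative_mul, derivative_sub, derivative_X, derivative_C]
    simp
  rw [hder]
  exact hga

end aut

end Pool.Agent.T3h73
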