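import Pool.Agent.T3h73.Cheb2

/-!
# Prime numbers at all of whose prime divisors a polynomial is irreducible: the theorem
-/

set_option autoImplicit false
set_option linter.all false

open Polynomial IsDedekindDomain NumberField
open scoped Classical IntermediateField

namespace Pool.Agent.T3h73

open Pool.Agent.N783.PF (Ov fF rd)
open Pool.Agent.K3h30.RS (Above)

/-- The prime number `l` splits completely in `F`, in a strong form. -/
structure SplitPrime (F : Type) [Field F] [NumberField F] (l : ℕ) : Prop where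
  prime : l.Prime
  res : ∀ P : HeightOneSpectrum (𝓞 F), (l : 𝓞 F) ∈ P.asIdeal → ∀ x : 𝓞 F, x ^ l - x ∈ P.asIdeal
  gen : ∃ (α : 𝓞 F) (h : ℤ[X]), Algebra.adjoin ℚ {(α : F)} = ⊤ ∧ aeval α h = 0 ∧
    ∀ P : HeightOneSpectrum (𝓞 F), (l : 𝓞 F) ∈ P.asIdeal → aeval α (derivative h) ∉ P.asIdeal

theorem fin_below {F N : Type} [Field F] [NumberField F] [Field N] [NumberField N] [Algebra F N]
    {D : 𝓞 N} (hD0 : D ≠ 0) : {v : HeightOneSpectrum (𝓞 F) | ∃ P : HeightOneSpectrum (𝓞 N),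
      P.asIdeal.comap (algebraMap (𝓞 F) (𝓞 N)) = v.asIdeal ∧ D ∈ P.asIdeal}.Finite := by
  have hPfin : {P : HeightOneSpectrum (𝓞 N) | D ∈ P.asIdeal}.Finite := by
    have h1 := Ideal.finite_factors (I := Ideal.span {D}) (by
      rw [Ne, Ideal.zero_eq_bot, Ideal.span_singleton_eq_bot]
      exact hD0)
    refine h1.subset fun P hP => ?_
    rw [Set.mem_setOf_eq, Ideal.dvd_span_singleton]
    exact hP
  rcases isEmpty_or_nonempty (HeightOneSpectrum (𝓞 N)) with hE | hE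
  · refine Set.Finite.subset Set.finite_empty ?_
    rintro v ⟨P, -⟩
    exact (hE.false P).elim
  · obtain ⟨P₀⟩ := hE
    have hex : ∀ v : HeightOneSpectrum (𝓞 F), ∃ P : HeightOneSpectrum (𝓞 N),
        (∃ P : HeightOneSpectrum (𝓞 N),
          P.asIdeal.comap (algebraMap (𝓞 F) (𝓞 N)) = v.asIdeal ∧ D ∈ P.asIdeal) →
        (P.asIdeal.comap (algebraMap (𝓞 F) (𝓞 N)) = v.asIdeal ∧ D ∈ P.asIdeal) := by
      intro v
      by_cases h : ∃ P : HeightOneSpectrum (𝓞 N),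
          P.asIdeal.comap (algebraMap (𝓞 F) (𝓞 N)) = v.asIdeal ∧ D ∈ P.asIdeal
      · obtain ⟨P, hP⟩ := h
        exact ⟨P, fun _ => hP⟩
      · exact ⟨P₀, fun h' => absurd h' h⟩
    choose Q hQ using hex
    refine Set.Finite.of_injOn (f := Q) (t := {P : HeightOneSpectrum (𝓞 N) | D ∈ P.asIdeal})
      (fun v hv => (hQ v hv).2) ?_ hPfin
    intro v hv w hw hvw
    apply HeightOneSpectrum.ext
    rw [← (hQ v hv).1, ← (hQ w hw).1]
    exact congrArg (fun P : HeightOneSpectrum (𝓞 N) =>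
      P.asIdeal.comap (algebraMap (𝓞 F) (𝓞 N))) hvw

/-- powers of an automorphism of 2-power exponent on roots of unity and radicals -/
theorem fix_two {N : Type} [Field N] (φ : N →+* N) {k : ℕ} {ζ : N}
    (hζ : IsPrimitiveRoot ζ (2 ^ (k + 1))) :
    (φ ^ 2 ^ (2 * k)) ζ = ζ ∧ ∀ (ρ : N) (q : ℕ), ρ ^ 2 ^ k = q → (φ ^ 2 ^ (2 * k)) ρ = ρ := by
  have hpos : 0 < 2 ^ (k + 1) := by positivity
  haveI : NeZero (2 ^ (k + 1)) := ⟨hpos.ne'⟩
  obtain ⟨u, hu, hu2⟩ := hζ.eq_pow_of_pow_eq_one (ξ := φ ζ) (by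
    rw [← map_pow, hζ.pow_eq_one, map_one])
  have hcop : Nat.Coprime u (2 ^ (k + 1)) := by
    have h1 : IsPrimitiveRoot (φ ζ) (2 ^ (k + 1)) := hζ.map_of_injective φ.injective
    rw [← hu2] at h1
    exact (hζ.pow_iff_coprime hpos u).1 h1
  have hpow : ∀ i, (φ ^ i) ζ = ζ ^ u ^ i := by
    intro i
    induction i with
    | zero => rw [pow_zero, pow_zero, pow_one]; rfl
    | succ i ih =>
      rw [pow_succ', RingHom.mul_def, RingHom.comp_apply, ih, map_pow, ← hu2, ← pow_mul, pow_succ,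
        mul_comm]
  have hu3 : u ^ 2 ^ k ≡ 1 [MOD 2 ^ (k + 1)] := by
    have h1 := Nat.ModEq.pow_totient hcop
    rwa [Nat.totient_prime_pow_succ Nat.prime_two, show 2 - 1 = 1 from rfl, mul_one] at h1
  have hψζ : (φ ^ 2 ^ k) ζ = ζ := by
    rw [hpow, ← pow_mod_orderOf, ← hζ.eq_orderOf, hu3, hζ.eq_orderOf, pow_mod_orderOf, pow_one]
  obtain ⟨ψ, hψ⟩ : ∃ ψ, ψ = φ ^ 2 ^ k := ⟨_, rfl⟩
  have e : φ ^ 2 ^ (2 * k) = ψ ^ 2 ^ k := by
    rw [hψ, ← pow_mul, ← pow_add, two_mul]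
  rw [← hψ] at hψζ
  rw [e]
  have hψi : ∀ i, (ψ ^ i) ζ = ζ := by
    intro i
    induction i with
    | zero => rfl
    | succ i ih => rw [pow_succ', RingHom.mul_def, RingHom.comp_apply, ih, hψζ]
  refine ⟨hψi _, fun ρ q hρ => ?_⟩
  by_cases hρ0 : ρ = 0
  · rw [hρ0, map_zero]
  obtain ⟨ω, hω⟩ : ∃ ω, ω = ψ ρ / ρ := ⟨_, rfl⟩
  have hωρ : ψ ρ = ω * ρ := by rw [hω, div_mul_cancel₀ _ hρ0]
  have hω1 : ω ^ 2 ^ k = 1 := by
    rw [hω, div_pow, ← map_pow, hρ, map_natCast, ← hρ, div_self (pow_ne_zero _ hρ0)]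
  obtain ⟨s, -, hs⟩ := hζ.eq_pow_of_pow_eq_one (ξ := ω) (by
    rw [pow_succ, pow_mul, hω1, one_pow])
  have hψω : ψ ω = ω := by rw [← hs, map_pow, hψζ]
  have h1 : ∀ i, (ψ ^ i) ρ = ω ^ i * ρ := by
    intro i
    induction i with
    | zero => rw [pow_zero, pow_zero, one_mul]; rfl
    | succ i ih =>
      rw [pow_succ', RingHom.mul_def, RingHom.comp_apply, ih, map_mul, map_pow, hψω, hωρ, pow_succ]
      ring
  rw [h1, hω1, one_mul]

theorem exists_p {F : Type} [Field F] [NumberField F] {f : (𝓞 F)[X]} (hm : f.Monic)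
    (hodd : Odd f.natDegree) {l : ℕ} (hl : SplitPrime F l)
    (hf : ∀ P : HeightOneSpectrum (𝓞 F), (l : 𝓞 F) ∈ P.asIdeal → Irreducible (rd P.asIdeal f))
    (k : ℕ) (L : Finset ℕ) (hL : ∀ q ∈ L, q ≠ 0) (R : ℕ) (hR : R ≠ 0) :
    ∃ p : ℕ, p.Prime ∧ ¬ p ∣ R ∧ 2 ^ (k + 1) ∣ p - 1 ∧
      (∀ q ∈ L, (q : ZMod p) ^ ((p - 1) / 2 ^ k) = 1) ∧
      ∀ P : HeightOneSpectrum (𝓞 F), (p : 𝓞 F) ∈ P.asIdeal → Irreducible (rd P.asIdeal f) := by
  have hlp := hl.prime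
  have hmF : (fF f).Monic := hm.map _
  obtain ⟨n, hn⟩ : ∃ n, n = f.natDegree := ⟨_, rfl⟩
  -- the field `N`
  obtain ⟨hh, hhdef⟩ : ∃ hh : F[X], hh = fF f * (cyclotomic (2 ^ (k + 1)) F *
    ∏ q ∈ L, (X ^ 2 ^ k - C (q : F))) := ⟨_, rfl⟩
  have hhm : hh.Monic := by
    rw [hhdef]
    refine hmF.mul ((cyclotomic.monic _ _).mul (monic_prod_of_monic _ _ fun q _ => ?_))
    exact monic_X_pow_sub_C _ (by positivity)
  obtain ⟨N, _, _, _, _, _, hgal, hsplit⟩ := Pool.Agent.K3h8.RS.exists_gal ℚ F hh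
  have hroot : ∀ g : F[X], g ∣ hh → 0 < g.natDegree → ∃ z : N, eval₂ (algebraMap F N) z g = 0 := by
    intro g hg hd
    have h1 : (g.map (algebraMap F N)).Splits :=
      hsplit.of_dvd (hhm.map _).ne_zero (Polynomial.map_dvd _ hg)
    obtain ⟨z, hz⟩ := h1.exists_eval_eq_zero (by
      rw [degree_map]
      exact (natDegree_pos_iff_degree_pos.1 hd).ne')
    exact ⟨z, by rwa [eval_map] at hz⟩
  obtain ⟨θ, hθ⟩ := hroot (fF f) (by rw [hhdef]; exact dvd_mul_right _ _) (by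
    rw [hm.natDegree_map]
    exact hodd.pos)
  obtain ⟨ζ, hζ⟩ : ∃ ζ : N, IsPrimitiveRoot ζ (2 ^ (k + 1)) := by
    obtain ⟨ζ, hζ⟩ := hroot (cyclotomic (2 ^ (k + 1)) F) (by
      rw [hhdef]; exact (dvd_mul_right _ _).trans (dvd_mul_left _ _)) (by
      rw [natDegree_cyclotomic]
      exact Nat.totient_pos.2 (by positivity))
    haveI : NeZero ((2 ^ (k + 1) : ℕ) : N) := ⟨by
      have : (2 ^ (k + 1) : ℕ) ≠ 0 := by positivity
      exact_mod_cast this⟩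
    refine ⟨ζ, isRoot_cyclotomic_iff.1 ?_⟩
    rw [IsRoot.def, ← map_cyclotomic _ (algebraMap F N), eval_map]
    exact hζ
  have hρ : ∀ q ∈ L, ∃ ρ : N, ρ ^ 2 ^ k = (q : N) := by
    intro q hq
    have hd1 : (X ^ 2 ^ k - C (q : F)) ∣ ∏ q ∈ L, (X ^ 2 ^ k - C (q : F)) :=
      Finset.dvd_prod_of_mem (fun q : ℕ => (X ^ 2 ^ k - C (q : F))) hq
    have hd2 : (X ^ 2 ^ k - C (q : F)) ∣ hh := by
      rw [hhdef]
      exact Dvd.dvd.mul_left (Dvd.dvd.mul_left hd1 _) _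
    obtain ⟨ρ, hρ⟩ := hroot (X ^ 2 ^ k - C (q : F)) hd2 (by
      rw [natDegree_X_pow_sub_C]
      positivity)
    refine ⟨ρ, ?_⟩
    rw [eval₂_sub, eval₂_pow, eval₂_X, eval₂_C, map_natCast] at hρ
    exact sub_eq_zero.1 hρ
  -- the Frobenius automorphism at `l`
  obtain ⟨t₀, ht₀, hn₀⟩ := exists_vQ hlp
  obtain ⟨P₀, hP₀⟩ := exists_up N t₀
  have hcomap₀ : P₀.asIdeal.comap (algebraMap (𝓞 ℚ) (𝓞 N)) = t₀.asIdeal := by
    ext a
    rw [Ideal.mem_comap]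
    exact ov_iff hP₀ a
  obtain ⟨φ, hφ⟩ := Pool.Agent.K3h8.RS.exists_frob ℚ N t₀ P₀ hcomap₀
  rw [hn₀] at hφ
  have hlP₀ : (l : 𝓞 N) ∈ P₀.asIdeal := by
    have := hP₀ _ ht₀
    rwa [map_natCast] at this
  have hfinF : ∀ v : HeightOneSpectrum (𝓞 F), Finite (𝓞 F ⧸ v.asIdeal) := fun v =>
    Ideal.finiteQuotientOfFreeOfNeBot v.asIdeal v.ne_bot
  -- roots
  have hrootj : ∀ (τ : N ≃ₐ[ℚ] N) (j : 𝓞 F →+* 𝓞 N)
      (hj : ∀ x : 𝓞 F, ((j x : 𝓞 N) : N) = τ (algebraMap F N (x : F))) (y : 𝓞 N)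
      (hy : (y : N) = τ θ), eval₂ j y f = 0 := by
    intro τ j hj y hy
    apply RingOfIntegers.coe_injective
    rw [map_zero]
    have h1 := hom_eval₂ f j (algebraMap (𝓞 N) N) y
    have h2 : (algebraMap (𝓞 N) N).comp j =
        ((τ : N →+* N).comp (algebraMap F N)).comp (algebraMap (𝓞 F) F) := by
      ext x
      exact hj x
    have h3 : algebraMap (𝓞 N) N y = (τ : N →+* N) θ := hy
    rw [h1, h2, h3, ← eval₂_map, ← hom_eval₂]
    have h4 : eval₂ (algebraMap F N) θ (f.map (algebraMap (𝓞 F) F)) = 0 := hθ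
    rw [h4, map_zero]
  have hred : ∀ (j : 𝓞 F →+* 𝓞 N) (P : HeightOneSpectrum (𝓞 N)) (Q : HeightOneSpectrum (𝓞 F))
      (hQ : ∀ x : 𝓞 F, x ∈ Q.asIdeal ↔ j x ∈ P.asIdeal) (y : 𝓞 N), eval₂ j y f = 0 →
      ∃ ι : (𝓞 F ⧸ Q.asIdeal) →+* (𝓞 N ⧸ P.asIdeal),
        (rd Q.asIdeal f).eval₂ ι (Ideal.Quotient.mk P.asIdeal y) = 0 := by
    intro j P Q hQ y hy
    refine ⟨Ideal.quotientMap P.asIdeal j (fun x hx => (hQ x).1 hx), ?_⟩
    rw [rd, eval₂_map, Ideal.quotientMap_comp_mk, ← hom_eval₂, hy, map_zero]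
  have hθint : ∀ τ : N ≃ₐ[ℚ] N, IsIntegral ℤ (τ θ) := by
    intro τ
    have h1 : IsIntegral (𝓞 F) θ := by
      refine ⟨f, hm, ?_⟩
      have h4 : eval₂ (algebraMap F N) θ (f.map (algebraMap (𝓞 F) F)) = 0 := hθ
      rw [eval₂_map, ← IsScalarTower.algebraMap_eq] at h4
      exact h4
    exact map_isIntegral_int τ (isIntegral_trans θ h1)
  -- claim A
  have hA : ∀ (τ : N ≃ₐ[ℚ] N) (d : ℕ), (φ ^ d) (τ θ) = τ θ → n ∣ d := by
    intro τ d hd
    obtain ⟨j, hj⟩ := exists_j (F := F) τ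
    obtain ⟨Q, hQl, hQ⟩ := below j P₀ hlp hlP₀
    obtain ⟨y, hy⟩ : ∃ y : 𝓞 N, (y : N) = τ θ := ⟨⟨_, hθint τ⟩, rfl⟩
    obtain ⟨ι, hι⟩ := hred j P₀ Q hQ y (hrootj τ j hj y hy)
    haveI h1 := Q.isMaximal
    haveI h2 := P₀.isMaximal
    letI : Field (𝓞 F ⧸ Q.asIdeal) := Ideal.Quotient.field Q.asIdeal
    letI : Field (𝓞 N ⧸ P₀.asIdeal) := Ideal.Quotient.field P₀.asIdeal
    haveI := hfinF Q
    have hcard : Nat.card (𝓞 F ⧸ Q.asIdeal) = l := by
      refine card_of_pow hlp ?_ ?_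
      · rw [← map_natCast (Ideal.Quotient.mk Q.asIdeal)]
        exact Ideal.Quotient.eq_zero_iff_mem.2 hQl
      · intro x
        obtain ⟨x, rfl⟩ := Ideal.Quotient.mk_surjective x
        rw [← map_pow]
        exact Ideal.Quotient.eq.2 (hl.res Q hQl x)
    have h3 := frob_pow hφ d y y (by rw [hy]; exact hd.symm)
    rw [← hcard] at h3
    have h4 := deg_dvd_of_root ι (hf Q hQl) hι h3.symm
    rw [hm.natDegree_map] at h4
    rw [hn]
    exact h4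
  -- claim B
  have hB : ∀ (τ : N ≃ₐ[ℚ] N) (x : F), φ (τ (algebraMap F N x)) = τ (algebraMap F N x) := by
    intro τ
    obtain ⟨j, hj⟩ := exists_j (F := F) τ
    obtain ⟨Q, hQl, hQ⟩ := below j P₀ hlp hlP₀
    obtain ⟨α, h, hα, hh0, hsep⟩ := hl.gen
    obtain ⟨b, hb⟩ : ∃ b : 𝓞 N, (b : N) = φ ((j α : 𝓞 N) : N) :=
      ⟨⟨_, map_isIntegral_int φ (j α).2⟩, rfl⟩
    have haev : ∀ g : ℤ[X], aeval (j α) g = j (aeval α g) := by
      intro g
      rw [aeval_def, aeval_def]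
      have := hom_eval₂ g (algebraMap ℤ (𝓞 F)) j α
      have e4 : j.comp (algebraMap ℤ (𝓞 F)) = algebraMap ℤ (𝓞 N) := RingHom.ext_int _ _
      rw [e4] at this
      exact this.symm
    have hba : b - j α ∈ P₀.asIdeal := by
      have h1 := frob_pow hφ 1 (j α) b (by rw [pow_one]; exact hb)
      rw [pow_one] at h1
      rw [← Ideal.Quotient.eq, h1, ← map_pow]
      refine Ideal.Quotient.eq.2 ?_
      have h2 : (j α) ^ l - j α = j (α ^ l - α) := by rw [map_sub, map_pow]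
      rw [h2]
      exact (hQ _).1 (hl.res Q hQl α)
    have hfix := fix_of_sep (P := P₀) (Φ := φ) (a := j α) (h := h) (by rw [haev, hh0, map_zero])
      (by rw [haev]; exact fun h3 => hsep Q hQl ((hQ _).2 h3)) hb hba
    have hfix2 : φ (τ (algebraMap F N (α : F))) = τ (algebraMap F N (α : F)) := by
      rw [← hj, ← hb, hfix]
    obtain ⟨ψ₁, hψ₁⟩ : ∃ ψ₁ : F →ₐ[ℚ] N, ψ₁ = ((φ * τ : N ≃ₐ[ℚ] N) : N →ₐ[ℚ] N).comp
      (IsScalarTower.toAlgHom ℚ F N) := ⟨_, rfl⟩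
    obtain ⟨ψ₂, hψ₂⟩ : ∃ ψ₂ : F →ₐ[ℚ] N, ψ₂ = (τ : N →ₐ[ℚ] N).comp
      (IsScalarTower.toAlgHom ℚ F N) := ⟨_, rfl⟩
    have heq : ψ₁ = ψ₂ := by
      refine AlgHom.ext_of_adjoin_eq_top hα ?_
      intro x hx
      rw [Set.mem_singleton_iff] at hx
      rw [hx, hψ₁, hψ₂]
      exact hfix2
    intro x
    have h1 := DFunLike.congr_fun heq x
    rw [hψ₁, hψ₂] at h1
    exact h1
  -- the automorphism `Φ`
  obtain ⟨Φ, hΦ⟩ : ∃ Φ : N ≃ₐ[ℚ] N, Φ = φ ^ 2 ^ (2 * k) := ⟨_, rfl⟩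
  have hpowhom : ∀ (i : ℕ) (x : N), (φ ^ i) x = ((φ : N →+* N) ^ i) x := by
    intro i
    induction i with
    | zero => intro x; rfl
    | succ i ih =>
      intro x
      rw [pow_succ, AlgEquiv.mul_apply, ih, pow_succ, RingHom.mul_def, RingHom.comp_apply]
      rfl
  obtain ⟨hfixζ, hfixρ⟩ := fix_two (φ : N →+* N) hζ
  have hΦζ : Φ ζ = ζ := by rw [hΦ, hpowhom]; exact hfixζ
  have hΦρ : ∀ (ρ : N) (q : ℕ), ρ ^ 2 ^ k = q → Φ ρ = ρ := by
    intro ρ q h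
    rw [hΦ, hpowhom]
    exact hfixρ ρ q h
  have hΦB : ∀ (τ : N ≃ₐ[ℚ] N) (x : F), Φ (τ (algebraMap F N x)) = τ (algebraMap F N x) := by
    intro τ x
    have h1 : ∀ i : ℕ, (φ ^ i) (τ (algebraMap F N x)) = τ (algebraMap F N x) := by
      intro i
      induction i with
      | zero => rfl
      | succ i ih => rw [pow_succ', AlgEquiv.mul_apply, ih, hB]
    rw [hΦ]
    exact h1 _
  have hΦA : ∀ (τ : N ≃ₐ[ℚ] N) (d : ℕ), (Φ ^ d) (τ θ) = τ θ → n ∣ d := by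
    intro τ d hd
    rw [hΦ, ← pow_mul] at hd
    have h1 := hA τ _ hd
    have hcop : Nat.Coprime n (2 ^ (2 * k)) := by
      refine Nat.Coprime.pow_right _ ?_
      rw [hn]
      exact Nat.Coprime.symm ((Nat.coprime_two_left).2 hodd)
    exact hcop.dvd_of_dvd_mul_left h1
  have hdist : ∀ (τ : N ≃ₐ[ℚ] N), ∀ i < n, ∀ j < n, (Φ ^ i) (τ θ) = (Φ ^ j) (τ θ) → i = j := by
    intro τ
    have hlt : ∀ i j, i < j → j < n → (Φ ^ i) (τ θ) ≠ (Φ ^ j) (τ θ) := by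
      intro i j hij hj heq
      have h1 : (Φ ^ (j - i)) (τ θ) = τ θ := by
        have h2 : (Φ ^ i) ((Φ ^ (j - i)) (τ θ)) = (Φ ^ i) (τ θ) := by
          rw [← AlgEquiv.mul_apply, ← pow_add, Nat.add_sub_cancel' hij.le, ← heq]
        exact (Φ ^ i).injective h2
      have h3 := Nat.le_of_dvd (Nat.sub_pos_of_lt hij) (hΦA τ _ h1)
      omega
    intro i hi j hj heq
    rcases lt_trichotomy i j with h | h | h
    · exact absurd heq (hlt i j h hj)
    · exact h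
    · exact absurd heq.symm (hlt j i h hi)
  -- the bad primes
  have hy : ∀ (τ : N ≃ₐ[ℚ] N) (i : ℕ), ∃ y : 𝓞 N, (y : N) = (Φ ^ i) (τ θ) := fun τ i =>
    ⟨⟨_, map_isIntegral_int (Φ ^ i) (hθint τ)⟩, rfl⟩
  choose y hy using hy
  obtain ⟨D, hD⟩ : ∃ D : 𝓞 N, D = ∏ τ : N ≃ₐ[ℚ] N, ∏ i ∈ Finset.range n,
    ∏ j ∈ (Finset.range n).erase i, (y τ i - y τ j) := ⟨_, rfl⟩
  have hD0 : D ≠ 0 := by
    rw [hD, Finset.prod_ne_zero_iff]
    intro τ _
    rw [Finset.prod_ne_zero_iff]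
    intro i hi
    rw [Finset.prod_ne_zero_iff]
    intro j hj h0
    rw [Finset.mem_erase] at hj
    apply hj.1
    refine (hdist τ i (Finset.mem_range.1 hi) j (Finset.mem_range.1 hj.2) ?_).symm
    rw [← hy τ i, ← hy τ j, sub_eq_zero.1 h0]
  obtain ⟨R', hR'⟩ : ∃ R' : ℕ, R' = 2 * (R * ∏ q ∈ L, q) := ⟨_, rfl⟩
  have hR'0 : R' ≠ 0 := by
    rw [hR']
    exact mul_ne_zero two_ne_zero (mul_ne_zero hR (Finset.prod_ne_zero_iff.2 hL))
  have hfin1 := fin_below (F := ℚ) hD0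
  have hfin2 : {v : HeightOneSpectrum (𝓞 ℚ) | (R' : 𝓞 ℚ) ∈ v.asIdeal}.Finite := by
    have h1 := Ideal.finite_factors (I := Ideal.span {(R' : 𝓞 ℚ)}) (by
      rw [Ne, Ideal.zero_eq_bot, Ideal.span_singleton_eq_bot]
      exact_mod_cast hR'0)
    refine h1.subset fun P hP => ?_
    rw [Set.mem_setOf_eq, Ideal.dvd_span_singleton]
    exact hP
  obtain ⟨v, ⟨hvbad, P, ⟨v', hv', hP⟩, hPx⟩⟩ := exists_of_pos
    (Pool.Agent.K3h73.RS.t_CHEB ℚ N Φ (hfin1.toFinset ∪ hfin2.toFinset))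
  rw [Set.mem_singleton_iff] at hv'
  rw [hv'] at hP
  rw [Finset.mem_union, not_or, Set.Finite.mem_toFinset, Set.Finite.mem_toFinset] at hvbad
  obtain ⟨p, hpdef⟩ : ∃ p, p = Ideal.absNorm v.asIdeal := ⟨_, rfl⟩
  have hpp : p.Prime := by rw [hpdef]; exact prime_vQ v
  rw [← hpdef] at hPx
  have hpv : (p : 𝓞 ℚ) ∈ v.asIdeal := by rw [hpdef]; exact Ideal.absNorm_mem v.asIdeal
  have hpP : (p : 𝓞 N) ∈ P.asIdeal := by
    have h1 : (p : 𝓞 ℚ) ∈ P.asIdeal.comap (algebraMap (𝓞 ℚ) (𝓞 N)) := by rw [hP]; exact hpv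
    rw [Ideal.mem_comap, map_natCast] at h1
    exact h1
  have hDP : D ∉ P.asIdeal := fun h => hvbad.1 ⟨P, hP, h⟩
  have hpR' : ¬ p ∣ R' := fun h => hvbad.2 ((nat_mem v.isPrime.ne_top hpp hpv R').2 h)
  have hpR : ¬ p ∣ R := fun h => hpR' (by
    rw [hR']
    exact Dvd.dvd.mul_left (Dvd.dvd.mul_right h _) _)
  have hp2 : ¬ p ∣ 2 := fun h => hpR' (by
    rw [hR']
    exact Dvd.dvd.mul_right h _)
  have hpq : ∀ q ∈ L, ¬ p ∣ q := fun q hq h => hpR' (by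
    rw [hR']
    exact Dvd.dvd.mul_left (Dvd.dvd.mul_left (h.trans (Finset.dvd_prod_of_mem _ hq)) _) _)
  haveI hPmax := P.isMaximal
  letI : Field (𝓞 N ⧸ P.asIdeal) := Ideal.Quotient.field P.asIdeal
  have hnat : ∀ m : ℕ, ((m : ℕ) : 𝓞 N ⧸ P.asIdeal) = 0 ↔ p ∣ m := by
    intro m
    rw [← nat_mem P.isPrime.ne_top hpp hpP m, ← Ideal.Quotient.eq_zero_iff_mem, map_natCast]
  -- fixed elements
  have hfixP : ∀ x : 𝓞 N, Φ (x : N) = x → (Ideal.Quotient.mk P.asIdeal x) ^ p =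
      Ideal.Quotient.mk P.asIdeal x := by
    intro x hx
    have h1 := frob_pow hPx 1 x x (by rw [pow_one, hx])
    rw [pow_one] at h1
    exact h1.symm
  have hunit : ∀ z : 𝓞 N ⧸ P.asIdeal, z ≠ 0 → z ^ p = z → z ^ (p - 1) = 1 := by
    intro z hz h
    have h1 : z * z ^ (p - 1) = z * 1 := by
      rw [← pow_succ', Nat.sub_add_cancel hpp.one_lt.le, h, mul_one]
    exact mul_left_cancel₀ hz h1
  -- roots of unity
  have hdvd : 2 ^ (k + 1) ∣ p - 1 := by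
    obtain ⟨z, hz⟩ : ∃ z : 𝓞 N, (z : N) = ζ := ⟨⟨ζ, hζ.isIntegral (by positivity)⟩, rfl⟩
    have hz1 : z ^ 2 ^ (k + 1) = 1 := by
      apply RingOfIntegers.coe_injective
      rw [map_pow, map_one]
      have : algebraMap (𝓞 N) N z = ζ := hz
      rw [this, hζ.pow_eq_one]
    have hzm : z ^ 2 ^ k = -1 := by
      have h1 : (z ^ 2 ^ k - 1) * (z ^ 2 ^ k + 1) = 0 := by
        have e : (z ^ 2 ^ k - 1) * (z ^ 2 ^ k + 1) = z ^ 2 ^ (k + 1) - 1 := by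
          rw [pow_succ 2 k, pow_mul]
          ring
        rw [e, hz1, sub_self]
      rcases mul_eq_zero.1 h1 with h2 | h2
      · exfalso
        have h3 : ζ ^ 2 ^ k = 1 := by
          have h4 := congrArg (algebraMap (𝓞 N) N) (sub_eq_zero.1 h2)
          rw [map_pow, map_one] at h4
          have : algebraMap (𝓞 N) N z = ζ := hz
          rwa [this] at h4
        have h4 := (hζ.pow_eq_one_iff_dvd _).1 h3
        have h5 := Nat.le_of_dvd (by positivity) h4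
        rw [pow_succ] at h5
        have : 0 < 2 ^ k := by positivity
        omega
      · exact eq_neg_of_add_eq_zero_left h2
    obtain ⟨r, hr⟩ : ∃ r, r = Ideal.Quotient.mk P.asIdeal z := ⟨_, rfl⟩
    have hr1 : r ^ 2 ^ (k + 1) = 1 := by rw [hr, ← map_pow, hz1, map_one]
    have hrm : r ^ 2 ^ k = -1 := by rw [hr, ← map_pow, hzm, map_neg, map_one]
    have hne : ¬ r ^ 2 ^ k = 1 := by
      rw [hrm]
      intro h
      apply hp2
      rw [← hnat]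
      have : ((2 : ℕ) : 𝓞 N ⧸ P.asIdeal) = 1 - (-1) := by push_cast; ring
      rw [this, h, sub_self]
    haveI : Fact (Nat.Prime 2) := ⟨Nat.prime_two⟩
    have hord : orderOf r = 2 ^ (k + 1) := orderOf_eq_prime_pow hne hr1
    rw [← hord]
    apply orderOf_dvd_of_pow_eq_one
    refine hunit r ?_ ?_
    · intro h
      rw [h, zero_pow (by positivity)] at hr1
      exact zero_ne_one hr1
    · rw [hr]
      exact hfixP z (by rw [hz]; exact hΦζ)
  refine ⟨p, hpp, hpR, hdvd, ?_, ?_⟩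
  · -- the powers
    intro q hq
    obtain ⟨ρ, hρq⟩ := hρ q hq
    have hρint : IsIntegral ℤ ρ := by
      refine ⟨X ^ 2 ^ k - C (q : ℤ), monic_X_pow_sub_C _ (by positivity), ?_⟩
      rw [eval₂_sub, eval₂_pow, eval₂_X, eval₂_C, hρq]
      simp
    obtain ⟨z, hz⟩ : ∃ z : 𝓞 N, (z : N) = ρ := ⟨⟨ρ, hρint⟩, rfl⟩
    have hzq : z ^ 2 ^ k = (q : 𝓞 N) := by
      apply RingOfIntegers.coe_injective
      rw [map_pow, map_natCast]
      have : algebraMap (𝓞 N) N z = ρ := hz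
      rw [this, hρq]
    obtain ⟨r, hr⟩ : ∃ r, r = Ideal.Quotient.mk P.asIdeal z := ⟨_, rfl⟩
    have hrq : r ^ 2 ^ k = (q : 𝓞 N ⧸ P.asIdeal) := by rw [hr, ← map_pow, hzq, map_natCast]
    have hr0 : r ≠ 0 := by
      intro h
      rw [h, zero_pow (by positivity)] at hrq
      exact hpq q hq ((hnat q).1 hrq.symm)
    have hr1 := hunit r hr0 (by rw [hr]; exact hfixP z (by rw [hz]; exact hΦρ ρ q hρq))
    have he : 2 ^ k * ((p - 1) / 2 ^ k) = p - 1 :=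
      Nat.mul_div_cancel' ((pow_dvd_pow 2 (Nat.le_succ k)).trans hdvd)
    have h1 : (q : 𝓞 N ⧸ P.asIdeal) ^ ((p - 1) / 2 ^ k) = 1 := by
      rw [← hrq, ← pow_mul, he, hr1]
    haveI : Fact p.Prime := ⟨hpp⟩
    haveI : CharP (𝓞 N ⧸ P.asIdeal) p := ⟨fun m => hnat m⟩
    apply (ZMod.castHom (dvd_refl p) (𝓞 N ⧸ P.asIdeal)).injective
    rw [map_pow, map_natCast, map_one]
    exact h1
  · -- irreducibility
    intro Q hpQ
    obtain ⟨𝔔, h𝔔⟩ := exists_up N Q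
    have hG : IsGaloisGroup (N ≃ₐ[ℚ] N) (𝓞 ℚ) (𝓞 N) := inferInstance
    have hs : SMulCommClass (N ≃ₐ[ℚ] N) (𝓞 ℚ) (𝓞 N) := hG.commutes
    have hinv : Algebra.IsInvariant (𝓞 ℚ) (𝓞 N) (N ≃ₐ[ℚ] N) := hG.isInvariant
    haveI := 𝔔.isPrime
    haveI := P.isPrime
    have hunder : 𝔔.asIdeal.under (𝓞 ℚ) = P.asIdeal.under (𝓞 ℚ) := by
      have h1 : P.asIdeal.under (𝓞 ℚ) = v.asIdeal := hP
      rw [h1]
      have hmax : v.asIdeal.IsMaximal := v.isMaximal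
      symm
      refine hmax.eq_of_le ?_ ?_
      · intro h0
        apply 𝔔.isPrime.ne_top
        rw [Ideal.eq_top_iff_one]
        have h2 : (1 : 𝓞 ℚ) ∈ 𝔔.asIdeal.under (𝓞 ℚ) := by rw [h0]; trivial
        have h3 := (Ideal.mem_comap.1 h2)
        rwa [map_one] at h3
      · intro a ha
        -- `v` is generated by `p`
        have h2 : v.asIdeal = Ideal.span {(p : 𝓞 ℚ)} := by
          obtain ⟨t, ht, htn⟩ := exists_vQ hpp
          have hle : Ideal.span {(p : 𝓞 ℚ)} ≤ v.asIdeal :=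
            (Ideal.span_singleton_le_iff_mem _).2 hpv
          have hn : Ideal.absNorm (Ideal.span {(p : 𝓞 ℚ)}) = p := by
            rw [Ideal.absNorm_span_natCast, NumberField.RingOfIntegers.rank, Module.finrank_self,
              pow_one]
          obtain ⟨J, hJ⟩ := Ideal.dvd_iff_le.2 hle
          have hn2 := hn
          rw [hJ, map_mul, ← hpdef] at hn2
          have hn3 : Ideal.absNorm J = 1 := by
            have hp0 : 0 < p := hpp.pos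
            exact Nat.eq_of_mul_eq_mul_left hp0 (by rw [hn2, mul_one])
          rw [Ideal.absNorm_eq_one_iff.1 hn3, Ideal.mul_top] at hJ
          exact hJ.symm
        rw [h2, Ideal.mem_span_singleton] at ha
        obtain ⟨c, rfl⟩ := ha
        show algebraMap (𝓞 ℚ) (𝓞 N) (p * c) ∈ 𝔔.asIdeal
        rw [map_mul, map_natCast]
        refine Ideal.mul_mem_right _ _ ?_
        have h3 := h𝔔 _ hpQ
        rwa [map_natCast] at h3
    obtain ⟨τ, hτ⟩ := Algebra.IsInvariant.exists_smul_of_under_eq (𝓞 ℚ) (𝓞 N) (N ≃ₐ[ℚ] N)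
      𝔔.asIdeal P.asIdeal hunder
    obtain ⟨j, hj⟩ := exists_j (F := F) τ
    have hQ : ∀ x : 𝓞 F, x ∈ Q.asIdeal ↔ j x ∈ P.asIdeal := by
      intro x
      rw [← ov_iff h𝔔 x, hτ]
      have e : j x = τ • (algebraMap (𝓞 F) (𝓞 N) x) := by
        apply RingOfIntegers.ext
        rw [hj]
        rfl
      rw [e, Ideal.smul_mem_pointwise_smul_iff]
    haveI hm' := Q.isMaximal
    letI : Field (𝓞 F ⧸ Q.asIdeal) := Ideal.Quotient.field Q.asIdeal
    haveI := hfinF Q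
    have hcard : Nat.card (𝓞 F ⧸ Q.asIdeal) = p := by
      refine card_of_pow hpp ?_ ?_
      · rw [← map_natCast (Ideal.Quotient.mk Q.asIdeal)]
        exact Ideal.Quotient.eq_zero_iff_mem.2 hpQ
      · intro x
        obtain ⟨x, rfl⟩ := Ideal.Quotient.mk_surjective x
        rw [← map_pow]
        refine Ideal.Quotient.eq.2 ?_
        rw [hQ, map_sub, map_pow]
        have h1 := hfixP (j x) (by rw [hj]; exact hΦB τ x)
        rw [← map_pow] at h1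
        exact Ideal.Quotient.eq.1 h1
    obtain ⟨ι, hι⟩ := hred j P Q hQ (y τ 0) (hrootj τ j hj (y τ 0) (by rw [hy]; rfl))
    have hdeg : (rd Q.asIdeal f).natDegree = n := by rw [hn]; exact hm.natDegree_map _
    refine irr_of_orbit ι (hm.map _) hι ?_
    intro i hi j' hj' hij
    rw [hdeg] at hi hj'
    rw [hcard] at hij
    by_contra hne
    apply hDP
    have h0 : ∀ i, (y τ i : N) = (Φ ^ i) ((y τ 0 : 𝓞 N) : N) := by
      intro i
      rw [hy, hy]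
      rfl
    rw [← frob_pow hPx i (y τ 0) (y τ i) (h0 i),
      ← frob_pow hPx j' (y τ 0) (y τ j') (h0 j')] at hij
    have h7 : y τ i - y τ j' ∈ P.asIdeal := Ideal.Quotient.eq.1 hij
    rw [hD]
    have h8 : ∏ j ∈ (Finset.range n).erase i, (y τ i - y τ j) ∈ P.asIdeal := by
      refine Ideal.prod_mem (I := P.asIdeal) (i := j') ?_ h7
      exact Finset.mem_erase.2 ⟨fun h => hne h.symm, Finset.mem_range.2 hj'⟩
    have h9 : ∏ i ∈ Finset.range n, ∏ j ∈ (Finset.range n).erase i, (y τ i - y τ j) ∈ P.asIdeal :=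
      Ideal.prod_mem (I := P.asIdeal) (i := i) (Finset.mem_range.2 hi) h8
    exact Ideal.prod_mem (I := P.asIdeal) (i := τ) (Finset.mem_univ _) h9

end Pool.Agent.T3h73
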