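import Pool.Agent.T3h73.Base
import Pool.Agent.N301.JM.TOW

/-!
# The 2-Selmer group over a Galois 2-extension
-/

set_option autoImplicit false
set_option linter.all false

open Polynomial IsDedekindDomain NumberField
open scoped Classical IntermediateField

namespace Pool.Agent.T3h73

open Pool.Agent.N874.PP (Ev Sq1 U0)
open Pool.Agent.N783.PQ (LocIm)
open Pool.Agent.N874.JM (LocF)
open Pool.Agent.N874.PM (Lies)
open Pool.Agent.N783.PF
open Pool.Agent.N78.PF (fF_scale)

/-! ### Formal properties of the local condition -/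

section loc

variable {E E' : Type} [Field E] [Field E']

theorem LocIm.map {f h : E[X]} (H : LocIm E f h) (φ : E →+* E') :
    LocIm E' (f.map φ) (h.map φ) := by
  obtain ⟨l, s, hl, hs⟩ := H
  refine ⟨l.map fun p => (p.1.map φ, p.2.map φ), s.map φ, ?_, ?_⟩
  · intro p hp
    rw [List.mem_map] at hp
    obtain ⟨q, hq, rfl⟩ := hp
    obtain ⟨h1, h2, h3⟩ := hl q hq
    refine ⟨h1.map _, h2.map (mapRingHom φ), ?_⟩
    have := Polynomial.map_dvd φ h3
    rwa [Polynomial.map_sub, Polynomial.map_pow] at this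
  · have := Polynomial.map_dvd φ hs
    rw [Polynomial.map_sub, Polynomial.map_pow, Polynomial.map_mul] at this
    have e : ((l.map fun p : E[X] × E[X] => (-1) ^ p.1.natDegree * p.1).prod).map φ =
        ((l.map fun p : E[X] × E[X] => (p.1.map φ, p.2.map φ)).map
          fun p : E'[X] × E'[X] => (-1) ^ p.1.natDegree * p.1).prod := by
      rw [← coe_mapRingHom, map_list_prod, List.map_map, List.map_map]
      congr 1
      apply List.map_congr_left
      intro p _
      simp [natDegree_map]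
    rw [e] at this
    exact this

theorem LocIm.of_sq {f h s : E[X]} (H : f ∣ h - s ^ 2) : LocIm E f h :=
  ⟨[], s, by simp, by simpa using H⟩

theorem LocIm.mul {f h h₁ h₂ : E[X]} (H₁ : LocIm E f h₁) (H₂ : LocIm E f h₂)
    (H : f ∣ h - h₁ * h₂) : LocIm E f h := by
  obtain ⟨l₁, s₁, a₁, b₁⟩ := H₁
  obtain ⟨l₂, s₂, a₂, b₂⟩ := H₂
  refine ⟨l₁ ++ l₂, s₁ * s₂, ?_, ?_⟩
  · intro p hp
    rcases List.mem_append.1 hp with hp | hp
    · exact a₁ p hp
    · exact a₂ p hp
  · rw [List.map_append, List.prod_append]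
    have e : h * ((l₁.map fun p => (-1) ^ p.1.natDegree * p.1).prod *
        (l₂.map fun p => (-1) ^ p.1.natDegree * p.1).prod) - (s₁ * s₂) ^ 2 =
        (h - h₁ * h₂) * ((l₁.map fun p => (-1) ^ p.1.natDegree * p.1).prod *
        (l₂.map fun p => (-1) ^ p.1.natDegree * p.1).prod) +
        (h₁ * (l₁.map fun p => (-1) ^ p.1.natDegree * p.1).prod - s₁ ^ 2) *
          (h₂ * (l₂.map fun p => (-1) ^ p.1.natDegree * p.1).prod) +
        s₁ ^ 2 * (h₂ * (l₂.map fun p => (-1) ^ p.1.natDegree * p.1).prod - s₂ ^ 2) := by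
      ring
    rw [e]
    exact dvd_add (dvd_add (Dvd.dvd.mul_right H _) (Dvd.dvd.mul_right b₁ _))
      (Dvd.dvd.mul_left b₂ _)

end loc

/-- The map of completions given by a homomorphism of number fields. -/
theorem compl_hom {M M' : Type} [Field M] [NumberField M] [Field M'] [NumberField M']
    (τ : M →+* M') (w : HeightOneSpectrum (𝓞 M')) :
    ∃ (w' : HeightOneSpectrum (𝓞 M)) (φ : w'.adicCompletion M →+* w.adicCompletion M'),
      ∀ x : M, φ (algebraMap M _ x) = algebraMap M' _ (τ x) := by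
  letI : Algebra M M' := τ.toAlgebra
  obtain ⟨w', hw⟩ := exists_down M w
  obtain ⟨φ, hφ, -, -⟩ := Pool.Agent.N814.JM.cpl M M' (𝓞 M) (𝓞 M') w' w (lies_of hw)
  exact ⟨w', φ, hφ⟩

/-- The conditions. -/
structure CC {M Ω : Type} [Field M] [NumberField M] [Field Ω] [Algebra M Ω] (fM : M[X]) (Θ x : Ω) :
    Prop where
  fin : ∀ h : M[X], aeval Θ h = x → ∀ w : HeightOneSpectrum (𝓞 M), LocF (w.adicCompletion M) fM h
  real : ∀ h : M[X], aeval Θ h = x → ∀ σ : M →+* ℝ, LocIm ℝ (fM.map σ) (h.map σ)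

section cc

variable {F L M Ω : Type} [Field F] [NumberField F] [Field L] [NumberField L] [Field M]
  [NumberField M] [Field Ω] [NumberField Ω] [Algebra F L] [Algebra F M] [Algebra F Ω]
  [Algebra L Ω] [Algebra M Ω] [IsScalarTower F L Ω] [IsScalarTower F M Ω]

/-- `fM` is the minimal polynomial of `Θ` over `M`, which generates `Ω`. -/
structure Mp (fM : M[X]) (Θ : Ω) : Prop where
  dvd : ∀ h : M[X], aeval Θ h = 0 → fM ∣ h
  gen : ∀ x : Ω, ∃ h : M[X], aeval Θ h = x

theorem cc_sq {fM : M[X]} {Θ : Ω} (H : Mp fM Θ) (x : Ω) : CC fM Θ (x ^ 2) := by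
  obtain ⟨s, hs⟩ := H.gen x
  have key : ∀ h : M[X], aeval Θ h = x ^ 2 → fM ∣ h - s ^ 2 := fun h hh =>
    H.dvd _ (by rw [map_sub, map_pow, hh, hs, sub_self])
  refine ⟨fun h hh w => ?_, fun h hh σ => ?_⟩
  · have := Polynomial.map_dvd (algebraMap M (w.adicCompletion M)) (key h hh)
    rw [Polynomial.map_sub, Polynomial.map_pow] at this
    exact LocIm.of_sq this
  · have := Polynomial.map_dvd σ (key h hh)
    rw [Polynomial.map_sub, Polynomial.map_pow] at this
    exact LocIm.of_sq this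

theorem cc_mul {fM : M[X]} {Θ : Ω} (H : Mp fM Θ) {x y : Ω} (hx : CC fM Θ x) (hy : CC fM Θ y) :
    CC fM Θ (x * y) := by
  obtain ⟨s, hs⟩ := H.gen x
  obtain ⟨t, ht⟩ := H.gen y
  have key : ∀ h : M[X], aeval Θ h = x * y → fM ∣ h - s * t := fun h hh =>
    H.dvd _ (by rw [map_sub, map_mul, hh, hs, ht, sub_self])
  refine ⟨fun h hh w => ?_, fun h hh σ => ?_⟩
  · have := Polynomial.map_dvd (algebraMap M (w.adicCompletion M)) (key h hh)
    rw [Polynomial.map_sub, Polynomial.map_mul] at this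
    exact LocIm.mul (hx.fin s hs w) (hy.fin t ht w) this
  · have := Polynomial.map_dvd σ (key h hh)
    rw [Polynomial.map_sub, Polynomial.map_mul] at this
    exact LocIm.mul (hx.real s hs σ) (hy.real t ht σ) this

theorem cc_gal [IsGalois F M] {fF' : F[X]} {Θ : L} (σ : Ω ≃ₐ[L] Ω) {x : Ω}
    (hx : CC (fF'.map (algebraMap F M)) (algebraMap L Ω Θ) x) :
    CC (fF'.map (algebraMap F M)) (algebraMap L Ω Θ) (σ x) := by
  obtain ⟨τ, hτ⟩ : ∃ τ : M ≃ₐ[F] M, ∀ m : M, algebraMap M Ω (τ m) = σ (algebraMap M Ω m) := by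
    refine ⟨(σ.restrictScalars F).restrictNormal M, fun m => ?_⟩
    exact AlgEquiv.restrictNormal_commutes (σ.restrictScalars F) M m
  have hfix : ∀ p : F[X], (p.map (algebraMap F M)).map (τ : M →+* M) = p.map (algebraMap F M) := by
    intro p
    rw [Polynomial.map_map]
    congr 1
    ext a
    exact τ.commutes a
  have key : ∀ h : M[X], aeval (algebraMap L Ω Θ) h = σ x →
      aeval (algebraMap L Ω Θ) (h.map (τ.symm : M →+* M)) = x := by
    intro h hh
    apply σ.injective
    rw [← hh, aeval_def, aeval_def]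
    have e1 := hom_eval₂ (h.map (τ.symm : M →+* M)) (algebraMap M Ω) (σ : Ω →+* Ω)
      (algebraMap L Ω Θ)
    have e2 : ((σ : Ω →+* Ω).comp (algebraMap M Ω)) = (algebraMap M Ω).comp (τ : M →+* M) := by
      ext m
      exact (hτ m).symm
    rw [e2, ← eval₂_map, Polynomial.map_map] at e1
    have e3 : (τ : M →+* M).comp (τ.symm : M →+* M) = RingHom.id M := by
      ext m
      exact τ.apply_symm_apply m
    rw [e3, Polynomial.map_id] at e1
    have e5 : (σ : Ω →+* Ω) (algebraMap L Ω Θ) = algebraMap L Ω Θ := σ.commutes Θ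
    rw [e5] at e1
    exact e1
  have hback : ∀ h : M[X], (h.map (τ.symm : M →+* M)).map (τ : M →+* M) = h := by
    intro h
    rw [Polynomial.map_map]
    have e3 : (τ : M →+* M).comp (τ.symm : M →+* M) = RingHom.id M := by
      ext m
      exact τ.apply_symm_apply m
    rw [e3, Polynomial.map_id]
  refine ⟨fun h hh w => ?_, fun h hh ρ => ?_⟩
  · obtain ⟨w', φ, hφ⟩ := compl_hom (τ : M →+* M) w
    have h1 := LocIm.map (hx.fin _ (key h hh) w') φ
    have e4 : φ.comp (algebraMap M (w'.adicCompletion M)) =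
        (algebraMap M (w.adicCompletion M)).comp (τ : M →+* M) := RingHom.ext hφ
    have e6 : ∀ p : M[X], (p.map (algebraMap M (w'.adicCompletion M))).map φ =
        (p.map (τ : M →+* M)).map (algebraMap M (w.adicCompletion M)) := by
      intro p
      rw [Polynomial.map_map, Polynomial.map_map, e4]
    rw [e6, e6, hback, hfix] at h1
    exact h1
  · have h1 := hx.real _ (key h hh) (ρ.comp (τ : M →+* M))
    have e6 : ∀ p : M[X], p.map (ρ.comp (τ : M →+* M)) = (p.map (τ : M →+* M)).map ρ := by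
      intro p
      rw [Polynomial.map_map]
    rw [e6, e6, hback, hfix] at h1
    exact h1

end cc

end Pool.Agent.T3h73
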