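import Mathlib

/-!
# Descent of coboundaries along a finite quotient of 2-power order; matrices acting on tuples
-/

set_option autoImplicit false
set_option linter.all false

open scoped Classical

namespace Pool.Agent.T3h73

section descent

variable {G Q A : Type} [Group G] [Group Q] [Finite Q] [AddCommGroup A] (π : G →* Q)
  (act : G →* AddMonoid.End A)

theorem iterT (hT : ∀ x : A, 2 • x = 0 → (∀ h, π h = 1 → act h x = x) → x = 0) (n : ℕ) :
    ∀ x : A, 2 ^ n • x = 0 → (∀ h, π h = 1 → act h x = x) → x = 0 := by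
  induction n with
  | zero =>
    intro x hx _
    simpa using hx
  | succ n ih =>
    intro x hx hi
    have h1 : 2 • x = 0 := by
      refine ih (2 • x) ?_ fun h hh => ?_
      · rw [← mul_smul, ← pow_succ]
        exact hx
      · rw [map_nsmul, hi h hh]
    exact hT x h1 hi

theorem iterD (hD : ∀ x : A, (∀ h, π h = 1 → act h x = x) →
    ∃ y : A, 2 • y = x ∧ ∀ h, π h = 1 → act h y = y) (n : ℕ) :
    ∀ x : A, (∀ h, π h = 1 → act h x = x) →
      ∃ y : A, 2 ^ n • y = x ∧ ∀ h, π h = 1 → act h y = y := by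
  induction n with
  | zero =>
    intro x hx
    exact ⟨x, by simp, hx⟩
  | succ n ih =>
    intro x hi
    obtain ⟨y, hy, hyi⟩ := hD x hi
    obtain ⟨z, hz, hzi⟩ := ih y hyi
    refine ⟨z, ?_, hzi⟩
    rw [pow_succ, mul_comm, mul_smul, hz, hy]

/-- Descent along a quotient of 2-power order. -/
theorem descent (hπ : Function.Surjective π) {n : ℕ} (hQ : Nat.card Q = 2 ^ n)
    (hT : ∀ x : A, 2 • x = 0 → (∀ h, π h = 1 → act h x = x) → x = 0)
    (hD : ∀ x : A, (∀ h, π h = 1 → act h x = x) →
      ∃ y : A, 2 • y = x ∧ ∀ h, π h = 1 → act h y = y)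
    (c : G → A) (hc : ∀ σ τ, c (σ * τ) = c σ + act σ (c τ))
    (hH : ∃ R, ∀ h, π h = 1 → c h = act h R - R) : ∃ R, ∀ σ, c σ = act σ R - R := by
  haveI : Fintype Q := Fintype.ofFinite Q
  obtain ⟨R, hR⟩ := hH
  obtain ⟨c', hc'⟩ : ∃ c' : G → A, c' = fun σ => c σ - (act σ R - R) := ⟨_, rfl⟩
  have hact : ∀ σ τ x, act (σ * τ) x = act σ (act τ x) := by
    intro σ τ x
    rw [map_mul]
    rfl
  have hco : ∀ σ τ, c' (σ * τ) = c' σ + act σ (c' τ) := by
    intro σ τ
    rw [hc']
    simp only
    rw [hc, hact, map_sub, map_sub]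
    abel
  have h0 : ∀ h, π h = 1 → c' h = 0 := by
    intro h hh
    rw [hc']
    simp only
    rw [hR h hh, sub_self]
  have hdep : ∀ σ τ, π σ = π τ → c' σ = c' τ := by
    intro σ τ hst
    have h1 : τ = σ * (σ⁻¹ * τ) := by group
    have h2 : π (σ⁻¹ * τ) = 1 := by rw [map_mul, map_inv, hst, inv_mul_cancel]
    rw [h1, hco, h0 _ h2, map_zero, add_zero]
  -- the average
  choose s hs using hπ
  obtain ⟨b, hb⟩ : ∃ b : A, b = ∑ q : Q, c' (s q) := ⟨_, rfl⟩
  have hkey : ∀ σ, act σ b = b - 2 ^ n • c' σ := by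
    intro σ
    have h1 : act σ b = ∑ q : Q, (c' (s (π σ * q)) - c' σ) := by
      rw [hb, map_sum]
      refine Finset.sum_congr rfl fun q _ => ?_
      have h2 : c' (σ * s q) = c' (s (π σ * q)) := by
        apply hdep
        rw [map_mul, hs, hs]
      rw [← h2, hco]
      abel
    rw [h1, Finset.sum_sub_distrib, Finset.sum_const, Finset.card_univ, ← Nat.card_eq_fintype_card,
      hQ, hb]
    congr 1
    exact Fintype.sum_equiv (Equiv.mulLeft (π σ)) _ _ fun q => rfl
  have hbi : ∀ h, π h = 1 → act h b = b := by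
    intro h hh
    rw [hkey, h0 h hh, smul_zero, sub_zero]
  obtain ⟨b', hb', hb'i⟩ := iterD π act hD n b hbi
  have hmain : ∀ σ, c' σ = b' - act σ b' := by
    intro σ
    have h1 : c' σ - b' + act σ b' = 0 := by
      refine iterT π act hT n _ ?_ fun h hh => ?_
      · rw [smul_add, smul_sub, hb', ← map_nsmul, hb', hkey]
        abel
      · have h2 : h * σ = σ * (σ⁻¹ * h * σ) := by group
        have h3 : π (σ⁻¹ * h * σ) = 1 := by
          rw [map_mul, map_mul, hh, mul_one, map_inv, inv_mul_cancel]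
        have h4 : act h (c' σ) = c' σ := by
          have e1 := hco h σ
          rw [h0 h hh, zero_add, h2, hco, h0 _ h3, map_zero, add_zero] at e1
          exact e1.symm
        have h5 : act h (act σ b') = act σ b' := by
          rw [← hact, h2, hact, hb'i _ h3]
        rw [map_add, map_sub, h4, hb'i h hh, h5]
    rw [sub_add] at h1
    exact sub_eq_zero.1 h1
  refine ⟨R - b', fun σ => ?_⟩
  have h1 := hmain σ
  rw [hc'] at h1
  simp only at h1
  rw [map_sub]
  have h2 : c σ = (act σ R - R) + (b' - act σ b') := by rw [← h1]; abel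
  rw [h2]
  abel

/-- The invariants are uniquely divisible by 2. -/
theorem invDiv (hT : ∀ x : A, 2 • x = 0 → (∀ h, π h = 1 → act h x = x) → x = 0)
    (hD : ∀ x : A, (∀ h, π h = 1 → act h x = x) →
      ∃ y : A, 2 • y = x ∧ ∀ h, π h = 1 → act h y = y) (x : A) (hx : ∀ σ, act σ x = x) :
    ∃! y : A, 2 • y = x ∧ ∀ σ, act σ y = y := by
  obtain ⟨y, hy, hyi⟩ := hD x fun h _ => hx h
  have hact : ∀ σ τ x, act (σ * τ) x = act σ (act τ x) := by
    intro σ τ x
    rw [map_mul]
    rfl
  refine ⟨y, ⟨hy, fun σ => ?_⟩, ?_⟩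
  · have h1 : act σ y - y = 0 := by
      refine hT _ ?_ fun h hh => ?_
      · rw [smul_sub, ← map_nsmul, hy, hx, sub_self]
      · have h2 : h * σ = σ * (σ⁻¹ * h * σ) := by group
        have h3 : π (σ⁻¹ * h * σ) = 1 := by
          rw [map_mul, map_mul, hh, mul_one, map_inv, inv_mul_cancel]
        rw [map_sub, ← hact, h2, hact, hyi _ h3, hyi h hh]
    exact sub_eq_zero.1 h1
  · rintro z ⟨hz, hzi⟩
    have h1 : z - y = 0 := by
      refine hT _ ?_ fun h hh => ?_
      · rw [smul_sub, hz, hy, sub_self]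
      · rw [map_sub, hzi, hyi h hh]
    exact sub_eq_zero.1 h1

end descent

section mact

variable {G G' : Type} [AddCommGroup G] [AddCommGroup G'] {r : ℕ}

/-- Matrices act on tuples. -/
def mact (A : Matrix (Fin r) (Fin r) ℤ) (x : Fin r → G) : Fin r → G :=
  fun i => ∑ j, A i j • x j

theorem mact_one (x : Fin r → G) : mact 1 x = x := by
  funext i
  unfold mact
  rw [Finset.sum_eq_single i]
  · simp
  · intro j _ hj
    rw [Matrix.one_apply_ne hj.symm, zero_smul]
  · intro h
    exact absurd (Finset.mem_univ _) h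

theorem mact_mul (A B : Matrix (Fin r) (Fin r) ℤ) (x : Fin r → G) :
    mact (A * B) x = mact A (mact B x) := by
  funext i
  unfold mact
  simp only [Matrix.mul_apply, Finset.sum_smul, Finset.smul_sum, mul_smul]
  rw [Finset.sum_comm]

theorem mact_add (A : Matrix (Fin r) (Fin r) ℤ) (x y : Fin r → G) :
    mact A (x + y) = mact A x + mact A y := by
  funext i
  unfold mact
  simp only [Pi.add_apply, smul_add, Finset.sum_add_distrib]

theorem mact_zero (A : Matrix (Fin r) (Fin r) ℤ) : mact A (0 : Fin r → G) = 0 := by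
  funext i
  unfold mact
  simp

theorem mact_sub (A : Matrix (Fin r) (Fin r) ℤ) (x y : Fin r → G) :
    mact A (x - y) = mact A x - mact A y := by
  funext i
  unfold mact
  simp only [Pi.sub_apply, smul_sub, Finset.sum_sub_distrib]

theorem mact_map (A : Matrix (Fin r) (Fin r) ℤ) (φ : G →+ G') (x : Fin r → G) :
    mact A (fun i => φ (x i)) = fun i => φ (mact A x i) := by
  funext i
  unfold mact
  rw [map_sum]
  simp only [map_zsmul]

end mact

end Pool.Agent.T3h73
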