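import Pool.Agent.T3h73.Trf
import Pool.Agent.T3h73.Lat

/-!
# Twists of powers of the Jacobian by integral representations of the Galois group
-/

set_option autoImplicit false
set_option linter.all false

open Polynomial IsDedekindDomain
open scoped Classical

namespace Pool.Agent.T3h73

open Pool.Agent.N352.JB
open Pool.Agent.Y160.SE
open Pool.Agent.TH115.GD (incl rs ak)
open Pool.Agent.N106.JB (good2)

section tw

variable {F : Type} [Field F] {f : F[X]} {Ω : Type} [Field Ω] [Algebra F Ω] {r : ℕ}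
  (ρ : (Ω ≃ₐ[F] Ω) →* Matrix (Fin r) (Fin r) ℤ)

/-- The twisted action. -/
noncomputable def tact : (Ω ≃ₐ[F] Ω) →* AddMonoid.End (Fin r → Jac 2 f Ω) where
  toFun σ :=
    { toFun := fun x => mact (ρ σ) (fun i => jm 2 f (ak σ) (x i))
      map_zero' := by
        have h : (fun i : Fin r => jm 2 f (ak σ) ((0 : Fin r → Jac 2 f Ω) i)) = 0 := by
          funext i
          exact map_zero _
        rw [h, mact_zero]
      map_add' := fun x y => by
        have h : (fun i : Fin r => jm 2 f (ak σ) ((x + y) i)) =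
            (fun i => jm 2 f (ak σ) (x i)) + fun i => jm 2 f (ak σ) (y i) := by
          funext i
          exact map_add _ _ _
        rw [h, mact_add] }
  map_one' := by
    ext1 x
    show mact (ρ 1) (fun i => jm 2 f (ak 1) (x i)) = x
    rw [map_one, mact_one]
    funext i
    exact jm_id (x i)
  map_mul' := fun σ τ => by
    ext1 x
    show mact (ρ (σ * τ)) (fun i => jm 2 f (ak (σ * τ)) (x i)) =
      mact (ρ σ) (fun i => jm 2 f (ak σ) (mact (ρ τ) (fun i => jm 2 f (ak τ) (x i)) i))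
    rw [map_mul, mact_mul, ← mact_map]
    congr 2
    funext i
    rw [jm_jm]
    rfl

theorem tact_apply (σ : Ω ≃ₐ[F] Ω) (x : Fin r → Jac 2 f Ω) :
    tact ρ σ x = mact (ρ σ) (fun i => jm 2 f (ak σ) (x i)) := rfl

/-- The cocycle condition. -/
def TCoc (c : (Ω ≃ₐ[F] Ω) → Fin r → Jac 2 f Ω) : Prop :=
  IsLocallyConstant c ∧ ∀ σ τ, c (σ * τ) = c σ + tact ρ σ (c τ)

/-- Coboundaries. -/
def TCob (c : (Ω ≃ₐ[F] Ω) → Fin r → Jac 2 f Ω) : Prop :=
  ∃ Q : Fin r → Jac 2 f Ω, ∀ σ, c σ = tact ρ σ Q - Q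

/-- Local triviality. -/
def TTriv (E : Type) [Field E] [Algebra F E] (c : (Ω ≃ₐ[F] Ω) → Fin r → Jac 2 f Ω) : Prop :=
  ∃ (ι : Ω →ₐ[F] SeparableClosure E) (P : Fin r → Jac 2 f (SeparableClosure E)),
    ∀ (τ : SeparableClosure E ≃ₐ[E] SeparableClosure E) (σ : Ω ≃ₐ[F] Ω),
      (∀ x : Ω, τ (ι x) = ι (σ x)) →
      (fun i => jm 2 f ι (c σ i)) = mact (ρ σ) (fun i => jm 2 f (rs F τ) (P i)) - P

end tw

/-- Two embeddings of a normal extension. -/
theorem emb_unique {F Ω Ω' : Type} [Field F] [Field Ω] [Field Ω'] [Algebra F Ω] [Algebra F Ω']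
    [Normal F Ω] (φ ψ : Ω →ₐ[F] Ω') : ∃ σ : Ω ≃ₐ[F] Ω, ∀ x, ψ x = φ (σ x) := by
  letI : Algebra Ω Ω' := φ.toRingHom.toAlgebra
  haveI : IsScalarTower F Ω Ω' := IsScalarTower.of_algebraMap_eq fun x => (φ.commutes x).symm
  exact ⟨ψ.restrictNormal' Ω, fun x => (ψ.restrictNormal_commutes Ω x).symm⟩

section up

variable {F M : Type} [Field F] [Field M] [Algebra F M] {f : F[X]} {Ω : Type} [Field Ω]
  [Algebra F Ω] [Algebra M Ω] [IsScalarTower F M Ω] {r : ℕ}
  (ρ : (Ω ≃ₐ[F] Ω) →* Matrix (Fin r) (Fin r) ℤ)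

theorem triv_up [IsGalois F Ω]
    (hρ : ∀ σ : Ω ≃ₐ[M] Ω, ρ (σ.restrictScalars F) = 1)
    {c : (Ω ≃ₐ[F] Ω) → Fin r → Jac 2 f Ω} (hc : ∀ σ τ, c (σ * τ) = c σ + tact ρ σ (c τ))
    {E E' : Type} [Field E] [Algebra F E] [Field E'] [Algebra M E'] (θ : E →+* E')
    (hθ : ∀ x : F, θ (algebraMap F E x) = algebraMap M E' (algebraMap F M x))
    (h : TTriv ρ E c) (i : Fin r) :
    ATriv (K := M) (f := f.map (algebraMap F M)) (Ω := Ω) E'
      (fun σ => tr' f Ω (c (σ.restrictScalars F) i)) := by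
  letI : Algebra E E' := θ.toAlgebra
  letI : Algebra F E' := ((algebraMap M E').comp (algebraMap F M)).toAlgebra
  haveI : IsScalarTower F M E' := IsScalarTower.of_algebraMap_eq fun x => rfl
  haveI : IsScalarTower F E E' := IsScalarTower.of_algebraMap_eq fun x => (hθ x).symm
  haveI : IsScalarTower F M (SeparableClosure E') := IsScalarTower.of_algebraMap_eq fun x => rfl
  haveI : IsScalarTower F E (SeparableClosure E') := by
    refine IsScalarTower.of_algebraMap_eq fun x => ?_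
    rw [IsScalarTower.algebraMap_apply F E' (SeparableClosure E'),
      IsScalarTower.algebraMap_apply E E' (SeparableClosure E'), IsScalarTower.algebraMap_apply F E E']
  haveI : Algebra.IsSeparable M Ω := Algebra.isSeparable_tower_top_of_isSeparable F M Ω
  obtain ⟨ι, P, hP⟩ := h
  obtain ⟨j, -⟩ : ∃ j : SeparableClosure E →ₐ[E] SeparableClosure E', True :=
    ⟨IsSepClosed.lift, trivial⟩
  obtain ⟨κ, -⟩ : ∃ κ : Ω →ₐ[M] SeparableClosure E', True := ⟨IsSepClosed.lift, trivial⟩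
  obtain ⟨jF, hjF⟩ : ∃ jF : SeparableClosure E →ₐ[F] SeparableClosure E',
    jF = j.restrictScalars F := ⟨_, rfl⟩
  obtain ⟨κF, hκF⟩ : ∃ κF : Ω →ₐ[F] SeparableClosure E', κF = κ.restrictScalars F := ⟨_, rfl⟩
  have hjF' : ∀ x, jF x = j x := fun x => by rw [hjF]; rfl
  have hκF' : ∀ x, κF x = κ x := fun x => by rw [hκF]; rfl
  obtain ⟨σ₀, hσ₀⟩ := emb_unique (jF.comp ι) κF
  have hinv : ∀ x, jF (ι x) = κ (σ₀⁻¹ x) := by
    intro x
    have h1 := hσ₀ (σ₀⁻¹ x)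
    rw [hκF'] at h1
    rw [h1]
    have h2 : σ₀ (σ₀⁻¹ x) = x := by
      have : (σ₀ * σ₀⁻¹) x = x := by rw [mul_inv_cancel]; rfl
      exact this
    rw [h2]
    rfl
  obtain ⟨a, ha⟩ : ∃ a : Fin r → Jac 2 f Ω, a = c σ₀⁻¹ := ⟨_, rfl⟩
  obtain ⟨Pw, hPw⟩ : ∃ Pw : Fin r → Jac 2 f (SeparableClosure E'), Pw =
    mact (ρ σ₀⁻¹) (fun k => jm 2 f jF (P k)) - fun k => jm 2 f κF (a k) := ⟨_, rfl⟩
  refine ⟨κ, tr' f _ (Pw i), fun τ' σ' hτσ => ?_⟩
  obtain ⟨σF, hσF⟩ : ∃ σF : Ω ≃ₐ[F] Ω, σF = σ'.restrictScalars F := ⟨_, rfl⟩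
  have hσF' : ∀ x, σF x = σ' x := fun x => by rw [hσF]; rfl
  obtain ⟨τF, hτF⟩ : ∃ τF : SeparableClosure E' →ₐ[F] SeparableClosure E',
    τF = (rs M τ').restrictScalars F := ⟨_, rfl⟩
  have hτF' : ∀ x, τF x = τ' x := fun x => by rw [hτF]; rfl
  -- the automorphism over `E`
  obtain ⟨τ, hτ⟩ := emb_unique j ((τ'.toAlgHom.restrictScalars E).comp j)
  have hτ' : ∀ x, τ' (j x) = j (τ x) := hτ
  have hρ' : ρ σF = 1 := by rw [hσF]; exact hρ σ'
  have hcompat : ∀ x : Ω, τ (ι x) = ι ((σ₀ * σF * σ₀⁻¹) x) := by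
    intro x
    apply j.toRingHom.injective
    show j (τ (ι x)) = j (ι ((σ₀ * σF * σ₀⁻¹) x))
    have h1 : κ (σ' (σ₀⁻¹ x)) = j (ι (σ₀ (σ' (σ₀⁻¹ x)))) := by
      have := hσ₀ (σ' (σ₀⁻¹ x))
      rw [hκF'] at this
      rw [this]
      exact hjF' _
    rw [← hτ', ← hjF', hinv, hτσ, h1]
    show _ = j (ι (σ₀ (σF (σ₀⁻¹ x))))
    rw [hσF']
  have hmain := hP τ (σ₀ * σF * σ₀⁻¹) hcompat
  have hρ2 : ρ (σ₀ * σF * σ₀⁻¹) = 1 := by
    rw [map_mul, map_mul, hρ', mul_one, ← map_mul, mul_inv_cancel, map_one]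
  rw [hρ2, mact_one] at hmain
  -- the cocycle
  have hcσ : c σF = a + tact ρ σ₀⁻¹ (c (σ₀ * σF * σ₀⁻¹)) - tact ρ σF a := by
    have h1 := hc σ₀⁻¹ (σ₀ * σF * σ₀⁻¹)
    have h2 := hc σF σ₀⁻¹
    have h3 : σ₀⁻¹ * (σ₀ * σF * σ₀⁻¹) = σF * σ₀⁻¹ := by group
    rw [h3, h2, ← ha] at h1
    rw [← h1]
    abel
  have hfin : jm 2 f κF (c σF i) = jm 2 f τF (Pw i) - Pw i := by
    have e1 : c σF i = a i + mact (ρ σ₀⁻¹)
        (fun k => jm 2 f (ak σ₀⁻¹) (c (σ₀ * σF * σ₀⁻¹) k)) i - jm 2 f (ak σF) (a i) := by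
      have h1 := congrFun hcσ i
      rw [tact_apply, tact_apply, hρ', mact_one] at h1
      exact h1
    have e2 : jm 2 f κF (jm 2 f (ak σF) (a i)) = jm 2 f τF (jm 2 f κF (a i)) := by
      rw [jm_jm, jm_jm]
      congr 2
      refine AlgHom.ext fun x => ?_
      show κF (σF x) = τF (κF x)
      rw [hκF', hκF', hτF', hσF', hτσ]
    have e3 : ∀ k, jm 2 f κF (jm 2 f (ak σ₀⁻¹) (c (σ₀ * σF * σ₀⁻¹) k)) =
        jm 2 f τF (jm 2 f jF (P k)) - jm 2 f jF (P k) := by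
      intro k
      have h1 : jm 2 f κF (jm 2 f (ak σ₀⁻¹) (c (σ₀ * σF * σ₀⁻¹) k)) =
          jm 2 f jF (jm 2 f ι (c (σ₀ * σF * σ₀⁻¹) k)) := by
        rw [jm_jm, jm_jm]
        congr 2
        refine AlgHom.ext fun x => ?_
        show κF (σ₀⁻¹ x) = jF (ι x)
        rw [hκF', hinv]
      have h2 : jm 2 f ι (c (σ₀ * σF * σ₀⁻¹) k) = jm 2 f (rs F τ) (P k) - P k :=
        congrFun hmain k
      have h3 : jm 2 f jF (jm 2 f (rs F τ) (P k)) = jm 2 f τF (jm 2 f jF (P k)) := by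
        rw [jm_jm, jm_jm]
        congr 2
        refine AlgHom.ext fun x => ?_
        show jF (τ x) = τF (jF x)
        rw [hjF', hjF', hτF', hτ']
      rw [h1, h2, map_sub, h3]
    have e4 : jm 2 f κF (mact (ρ σ₀⁻¹)
        (fun k => jm 2 f (ak σ₀⁻¹) (c (σ₀ * σF * σ₀⁻¹) k)) i) =
        jm 2 f τF (mact (ρ σ₀⁻¹) (fun k => jm 2 f jF (P k)) i) -
          mact (ρ σ₀⁻¹) (fun k => jm 2 f jF (P k)) i := by
      have h1 := congrFun (mact_map (ρ σ₀⁻¹) (jm 2 f κF)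
        (fun k => jm 2 f (ak σ₀⁻¹) (c (σ₀ * σF * σ₀⁻¹) k))) i
      have h2 : (fun k => jm 2 f κF (jm 2 f (ak σ₀⁻¹) (c (σ₀ * σF * σ₀⁻¹) k))) =
          (fun k => jm 2 f τF (jm 2 f jF (P k))) - fun k => jm 2 f jF (P k) := by
        funext k
        exact e3 k
      have h3 := congrFun (mact_map (ρ σ₀⁻¹) (jm 2 f τF) (fun k => jm 2 f jF (P k))) i
      rw [← h1, h2, mact_sub, ← h3]
      rfl
    have e5 : Pw i = mact (ρ σ₀⁻¹) (fun k => jm 2 f jF (P k)) i - jm 2 f κF (a i) := by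
      rw [hPw]
      rfl
    rw [e1, map_sub, map_add, e4, e2, e5, map_sub]
    abel
  rw [hσF] at hfin
  show jm 2 (f.map (algebraMap F M)) κ (tr' f Ω (c (σ'.restrictScalars F) i)) =
    jm 2 (f.map (algebraMap F M)) (rs M τ') (tr' f _ (Pw i)) - tr' f _ (Pw i)
  rw [← tr'_jm, ← tr'_jm, ← hκF, ← hτF, hfin, map_sub]

/-- The Galois group of `Ω` over `M` in terms of the restriction. -/
theorem res_one [IsGalois F M] (σ : Ω ≃ₐ[F] Ω) (h : AlgEquiv.restrictNormalHom M σ = 1) :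
    ∃ σ' : Ω ≃ₐ[M] Ω, σ'.restrictScalars F = σ := by
  have h1 : ∀ m : M, σ (algebraMap M Ω m) = algebraMap M Ω m := by
    intro m
    have h2 := σ.restrictNormal_commutes M m
    have h3 : σ.restrictNormal M = 1 := h
    rw [h3] at h2
    exact h2.symm
  exact ⟨{ σ with commutes' := h1 }, AlgEquiv.ext fun x => rfl⟩

theorem one_res [IsGalois F M] (σ' : Ω ≃ₐ[M] Ω) :
    AlgEquiv.restrictNormalHom M (σ'.restrictScalars F) = 1 := by
  apply AlgEquiv.ext
  intro m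
  apply (algebraMap M Ω).injective
  have h2 := (σ'.restrictScalars F).restrictNormal_commutes M m
  rw [show (AlgEquiv.restrictNormalHom M (σ'.restrictScalars F)) m =
    (σ'.restrictScalars F).restrictNormal M m from rfl, h2]
  exact σ'.commutes m

theorem restr_cont [Algebra.IsAlgebraic F Ω] :
    Continuous fun σ : Ω ≃ₐ[M] Ω => σ.restrictScalars F := by
  let φ : (Ω ≃ₐ[M] Ω) →* (Ω ≃ₐ[F] Ω) :=
    { toFun := fun σ => σ.restrictScalars F
      map_one' := rfl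
      map_mul' := fun σ τ => rfl }
  refine continuous_of_continuousAt_one φ ?_
  intro U hU
  rw [map_one, krullTopology_mem_nhds_one_iff] at hU
  obtain ⟨L, hL, hLU⟩ := hU
  rw [Filter.mem_map, krullTopology_mem_nhds_one_iff]
  obtain ⟨b, -⟩ : ∃ b : Module.Basis (Fin (Module.finrank F L)) F L, True :=
    ⟨Module.finBasis F L, trivial⟩
  refine ⟨IntermediateField.adjoin M (Set.range fun i => (b i : Ω)),
    IntermediateField.finiteDimensional_adjoin ?_, ?_⟩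
  · rintro _ ⟨i, rfl⟩
    have h1 : IsIntegral F (b i : Ω) := (Algebra.IsAlgebraic.isAlgebraic _).isIntegral
    exact h1.tower_top
  · intro σ hσ
    apply hLU
    show σ.restrictScalars F ∈ (L.fixingSubgroup : Set (Ω ≃ₐ[F] Ω))
    rw [SetLike.mem_coe, IntermediateField.mem_fixingSubgroup_iff]
    intro x hx
    have h1 := b.sum_repr ⟨x, hx⟩
    obtain ⟨a, ha⟩ : ∃ a : Fin (Module.finrank F L) → F, a = fun i => b.repr ⟨x, hx⟩ i := ⟨_, rfl⟩
    have h2 : x = ∑ i, algebraMap F Ω (a i) * (b i : Ω) := by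
      have h3 := congrArg (fun z : L => (z : Ω)) h1
      simp only [AddSubmonoidClass.coe_finset_sum, Algebra.smul_def] at h3
      refine h3.symm.trans ?_
      refine Finset.sum_congr rfl fun i _ => ?_
      rw [ha]
      rfl
    rw [SetLike.mem_coe, IntermediateField.mem_fixingSubgroup_iff] at hσ
    have h4 : ∀ i, σ (b i : Ω) = (b i : Ω) := fun i =>
      hσ _ (IntermediateField.subset_adjoin M _ ⟨i, rfl⟩)
    show σ x = x
    rw [h2, map_sum]
    refine Finset.sum_congr rfl fun i _ => ?_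
    rw [map_mul, h4, IsScalarTower.algebraMap_apply F M Ω, σ.commutes]

/-- The main theorem on twists. -/
theorem twist_main [IsGalois F Ω] [IsSepClosed Ω] [IsGalois F M] [FiniteDimensional F M] {n : ℕ}
    (hn : Module.finrank F M = 2 ^ n) (h2 : (2 : M) ≠ 0) (hm : f.Monic) (hodd : Odd f.natDegree)
    (hirr : Irreducible (f.map (algebraMap F M))) (hsep : (f.map (algebraMap F M)).Separable)
    (Pl : ∀ (E : Type) [Field E] [Algebra M E], Prop) (hS : SelTriv Pl (f.map (algebraMap F M)))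
    (hρ : ∀ σ : Ω ≃ₐ[M] Ω, ρ (σ.restrictScalars F) = 1) :
    (∀ x : Fin r → Jac 2 f Ω, (∀ σ, tact ρ σ x = x) →
      ∃! y : Fin r → Jac 2 f Ω, 2 • y = x ∧ ∀ σ, tact ρ σ y = y) ∧
    ∀ (c : (Ω ≃ₐ[F] Ω) → Fin r → Jac 2 f Ω) (m : ℕ), TCoc ρ c →
      (∀ (E' : Type) [Field E'] [Algebra M E'], Pl E' →
        ∃ (E : Type) (_ : Field E) (_ : Algebra F E) (θ : E →+* E'),
          (∀ x : F, θ (algebraMap F E x) = algebraMap M E' (algebraMap F M x)) ∧ TTriv ρ E c) →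
      TCob ρ (fun σ => 2 ^ m • c σ) → TCob ρ c := by
  haveI : IsGalois M Ω := IsGalois.tower_top_of_isGalois F M Ω
  have hmM : (f.map (algebraMap F M)).Monic := hm.map _
  have hoM : Odd (f.map (algebraMap F M)).natDegree := by rw [hm.natDegree_map]; exact hodd
  have hg : Good 2 (-1 : M) (f.map (algebraMap F M)) := good2 h2 hmM hsep hoM
  obtain ⟨π, hπ⟩ : ∃ π : (Ω ≃ₐ[F] Ω) →* (M ≃ₐ[F] M), π = AlgEquiv.restrictNormalHom M := ⟨_, rfl⟩
  have hπ1 : ∀ σ, π σ = 1 → ∃ σ' : Ω ≃ₐ[M] Ω, σ'.restrictScalars F = σ := by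
    intro σ h
    rw [hπ] at h
    exact res_one σ h
  have hπ2 : ∀ σ' : Ω ≃ₐ[M] Ω, π (σ'.restrictScalars F) = 1 := by
    intro σ'
    rw [hπ]
    exact one_res σ'
  have hπs : Function.Surjective π := by
    rw [hπ]
    exact AlgEquiv.restrictNormalHom_surjective Ω
  -- the action of the Galois group of `M`
  have hact : ∀ (σ' : Ω ≃ₐ[M] Ω) (x : Fin r → Jac 2 f Ω) (i : Fin r),
      tact ρ (σ'.restrictScalars F) x i = jm 2 f (ak (σ'.restrictScalars F)) (x i) := by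
    intro σ' x i
    rw [tact_apply, hρ, mact_one]
  have hak : ∀ σ' : Ω ≃ₐ[M] Ω, (ak σ' : Ω →ₐ[M] Ω).restrictScalars F =
      ak (σ'.restrictScalars F) := fun σ' => AlgHom.ext fun x => rfl
  have htr : ∀ (σ' : Ω ≃ₐ[M] Ω) (x : Jac 2 f Ω),
      jm 2 (f.map (algebraMap F M)) (ak σ') (tr' f Ω x) =
        tr' f Ω (jm 2 f (ak (σ'.restrictScalars F)) x) := by
    intro σ' x
    rw [← tr'_jm, hak]
  have htrinj : ∀ x y : Jac 2 f Ω, tr' (M := M) f Ω x = tr' f Ω y → x = y := by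
    intro x y h
    have := congrArg (tr (M := M) f Ω) h
    rwa [tr_tr', tr_tr'] at this
  have hT : ∀ x : Fin r → Jac 2 f Ω, 2 • x = 0 → (∀ h, π h = 1 → tact ρ h x = x) → x = 0 := by
    intro x hx hi
    funext i
    apply htrinj
    have e0 : (tr' (M := M) f Ω) ((0 : Fin r → Jac 2 f Ω) i) = 0 := map_zero _
    rw [e0]
    refine torGen hg hirr _ ?_ fun σ' => ?_
    · rw [← map_nsmul]
      have h1 : 2 • x i = 0 := congrFun hx i
      rw [h1, map_zero]
    · rw [htr, ← hact σ' x i, hi _ (hπ2 σ')]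
  have hD : ∀ x : Fin r → Jac 2 f Ω, (∀ h, π h = 1 → tact ρ h x = x) →
      ∃ y : Fin r → Jac 2 f Ω, 2 • y = x ∧ ∀ h, π h = 1 → tact ρ h y = y := by
    intro x hi
    have h1 : ∀ i, ∃ y : Jac 2 f Ω, 2 • y = x i ∧
        ∀ σ' : Ω ≃ₐ[M] Ω, jm 2 f (ak (σ'.restrictScalars F)) y = y := by
      intro i
      obtain ⟨y, hy, hyi⟩ := divGen h2 hmM hirr hsep hoM Pl hS (tr' f Ω (x i)) (fun σ' => by
        rw [htr, ← hact σ' x i, hi _ (hπ2 σ')])
      refine ⟨tr f Ω y, ?_, fun σ' => ?_⟩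
      · rw [← map_nsmul, hy, tr_tr']
      · apply htrinj
        rw [← htr, tr'_tr, hyi]
    choose y hy hyi using h1
    refine ⟨y, funext fun i => hy i, fun h hh => ?_⟩
    obtain ⟨σ', rfl⟩ := hπ1 h hh
    funext i
    rw [hact, hyi]
  refine ⟨fun x hx => invDiv π (tact ρ) hT hD x hx, fun c m hc hloc hb => ?_⟩
  refine descent π (tact ρ) hπs (n := n) ?_ hT hD c hc.2 ?_
  · rw [← hn]
    exact IsGalois.card_aut_eq_finrank F M
  · -- over `M`
    obtain ⟨Q, hQ⟩ := hb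
    have h1 : ∀ i, ∃ R : Jac 2 f Ω, ∀ σ' : Ω ≃ₐ[M] Ω, c (σ'.restrictScalars F) i =
        jm 2 f (ak (σ'.restrictScalars F)) R - R := by
      intro i
      have H1 : ACoc (K := M) (f := f.map (algebraMap F M))
          (fun σ' : Ω ≃ₐ[M] Ω => tr' f Ω (c (σ'.restrictScalars F) i)) := by
        refine ⟨?_, fun σ' τ' => ?_⟩
        · have h3 : IsLocallyConstant fun σ' : Ω ≃ₐ[M] Ω => c (σ'.restrictScalars F) :=
            hc.1.comp_continuous restr_cont
          exact h3.comp fun x => tr' f Ω (x i)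
        · have h3 : (σ' * τ').restrictScalars F = σ'.restrictScalars F * τ'.restrictScalars F :=
            AlgEquiv.ext fun x => rfl
          show tr' f Ω (c ((σ' * τ').restrictScalars F) i) = tr' f Ω (c (σ'.restrictScalars F) i) +
            jm 2 (f.map (algebraMap F M)) (ak σ') (tr' f Ω (c (τ'.restrictScalars F) i))
          rw [htr, h3, hc.2, ← map_add]
          congr 1
          rw [Pi.add_apply, hact]
      have H2 : ∀ (E' : Type) [Field E'] [Algebra M E'], Pl E' →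
          ATriv (K := M) (f := f.map (algebraMap F M)) E'
            (fun σ' : Ω ≃ₐ[M] Ω => tr' f Ω (c (σ'.restrictScalars F) i)) := by
        intro E' _ _ hE'
        obtain ⟨E, _, _, θ, hθ, hE⟩ := hloc E' hE'
        exact triv_up ρ hρ hc.2 θ hθ hE i
      have H3 : ACob (K := M) (f := f.map (algebraMap F M))
          (fun σ' : Ω ≃ₐ[M] Ω => 2 ^ m • tr' f Ω (c (σ'.restrictScalars F) i)) := by
        refine ⟨tr' f Ω (Q i), fun σ' => ?_⟩
        show 2 ^ m • tr' f Ω (c (σ'.restrictScalars F) i) = _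
        have h3 : 2 ^ m • c (σ'.restrictScalars F) i =
            jm 2 f (ak (σ'.restrictScalars F)) (Q i) - Q i := by
          have h4 := congrFun (hQ (σ'.restrictScalars F)) i
          rw [Pi.sub_apply, hact] at h4
          exact h4
        rw [← map_nsmul, h3, map_sub, htr]
      obtain ⟨R, hR⟩ := shaGen hg hirr Pl hS m _ H1 H2 H3
      refine ⟨tr f Ω R, fun σ' => ?_⟩
      apply htrinj
      rw [map_sub, ← htr, tr'_tr]
      exact hR σ'
    choose R hR using h1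
    refine ⟨R, fun h hh => ?_⟩
    obtain ⟨σ', rfl⟩ := hπ1 h hh
    funext i
    rw [Pi.sub_apply, hact, hR]

end up

end Pool.Agent.T3h73
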