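import Pool.Agent.T3h73.Def
import Pool.Agent.T3h73.Twist
import Pool.Agent.T3h73.Top
import Pool.Agent.N783.PF.Jac

/-!
# Comparison of the definitions of `Def.lean` with the additive ones
-/

set_option autoImplicit false
set_option linter.all false

open Polynomial IsDedekindDomain NumberField
open scoped Classical

namespace Pool.Agent.T3h73

open Pool.Agent.N783.PF (PlF fF Ov)
open Pool.Agent.Y160.SE (Jac jm)
open Pool.Agent.N106.JB (ad mu ad_mapJ ad_mul ad_div ad_pow ad_mu mu_ad ad_inj)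
open Pool.Agent.TH115.GD (incl rs ak)
open Pool.Agent.N874.Jac (J mapJ Gal UniquelyTwoDivisible ShaTwoTrivialReal)

section cmp

variable {K : Type} [Field K] {f : K[X]} {r : ℕ}

/-- tuples written additively -/
def adT {L : Type} [Field L] [Algebra K L] (x : Fin r → J f L) : Fin r → Jac 2 f L :=
  fun i => ad (x i)

/-- tuples written multiplicatively -/
def muT {L : Type} [Field L] [Algebra K L] (x : Fin r → Jac 2 f L) : Fin r → J f L :=
  fun i => mu (x i)

theorem adT_inj {L : Type} [Field L] [Algebra K L] {x y : Fin r → J f L} (h : adT x = adT y) :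
    x = y := h

theorem adT_mat {L : Type} [Field L] [Algebra K L] (A : Matrix (Fin r) (Fin r) ℤ)
    (x : Fin r → J f L) : adT (LatTw.matAct A x) = mact A (adT x) := by
  funext i
  show Additive.ofMul (∏ j, x j ^ A i j) = ∑ j, A i j • Additive.ofMul (x j)
  rw [ofMul_prod]
  refine Finset.sum_congr rfl fun j _ => ?_
  exact ofMul_zpow _ _

theorem adT_act (ρ : Gal K →* Matrix (Fin r) (Fin r) ℤ) (σ : Gal K)
    (x : Fin r → J f (SeparableClosure K)) :
    adT (LatTw.act f ρ σ x) = tact ρ σ (adT x) := by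
  unfold LatTw.act
  rw [adT_mat, tact_apply]
  refine congrArg (mact (ρ σ)) ?_
  funext i
  exact ad_mapJ (ak σ) (x i)

theorem adT_mul {L : Type} [Field L] [Algebra K L] (x y : Fin r → J f L) :
    adT (x * y) = adT x + adT y := rfl

theorem adT_div {L : Type} [Field L] [Algebra K L] (x y : Fin r → J f L) :
    adT (x / y) = adT x - adT y := rfl

theorem adT_pow {L : Type} [Field L] [Algebra K L] (x : Fin r → J f L) (n : ℕ) :
    adT (x ^ n) = n • adT x := rfl

theorem tcoc {ρ : Gal K →* Matrix (Fin r) (Fin r) ℤ}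
    {c : Gal K → Fin r → J f (SeparableClosure K)} (h : LatTw.Cocycle f ρ c) :
    TCoc ρ (fun σ => adT (c σ)) := by
  refine ⟨h.1.comp adT, fun σ τ => ?_⟩
  show adT (c (σ * τ)) = _
  rw [h.2 σ τ, adT_mul, adT_act]

theorem tcob_iff {ρ : Gal K →* Matrix (Fin r) (Fin r) ℤ}
    {c : Gal K → Fin r → J f (SeparableClosure K)} :
    LatTw.Coboundary f ρ c ↔ TCob ρ (fun σ => adT (c σ)) := by
  constructor
  · rintro ⟨Q, hQ⟩
    refine ⟨adT Q, fun σ => ?_⟩
    show adT (c σ) = _
    rw [hQ σ, adT_div, adT_act]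
  · rintro ⟨Q, hQ⟩
    refine ⟨muT Q, fun σ => adT_inj ?_⟩
    have h : adT (c σ) = tact ρ σ Q - Q := hQ σ
    rw [h, adT_div, adT_act]
    rfl

theorem ttriv {ρ : Gal K →* Matrix (Fin r) (Fin r) ℤ} {E : Type} [Field E] [Algebra K E]
    {c : Gal K → Fin r → J f (SeparableClosure K)} (h : LatTw.TrivialOver f ρ E c) :
    TTriv ρ E (fun σ => adT (c σ)) := by
  obtain ⟨ι, P, hP⟩ := h
  refine ⟨ι, adT P, fun τ σ hx => ?_⟩
  have h1 := congrArg adT (hP τ σ hx)
  rw [adT_div, adT_mat] at h1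
  have h2 : adT (LatTw.mapT f ι (c σ)) = fun i => jm 2 f ι (adT (c σ) i) := by
    funext i
    exact ad_mapJ ι (c σ i)
  have h3 : adT (LatTw.mapT f (τ.toAlgHom.restrictScalars K) P) =
      fun i => jm 2 f (rs K τ) (adT P i) := by
    funext i
    exact ad_mapJ (rs K τ) (P i)
  rw [h2, h3] at h1
  exact h1

end cmp

/-- The Jacobian over `M`. -/
theorem over_M {F : Type} [Field F] [NumberField F] {f : (𝓞 F)[X]} (hm : f.Monic)
    (ho : Odd f.natDegree) {M : Type} [Field M] [NumberField M] [Algebra F M]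
    (hi : Irreducible ((fF f).map (algebraMap F M)))
    (ht : Pool.Agent.N352.JB.SelTriv (PlF M) ((fF f).map (algebraMap F M))) :
    UniquelyTwoDivisible ((fF f).map (algebraMap F M)) ∧
      ShaTwoTrivialReal ((fF f).map (algebraMap F M)) (𝓞 M) := by
  have hF : ((fF f).map (algebraMap F M)).Monic := (hm.map _).map _
  have hd : Odd ((fF f).map (algebraMap F M)).natDegree := by
    rw [(hm.map _).natDegree_map, hm.natDegree_map]
    exact ho
  refine ⟨Pool.Agent.N352.JB.ptsT M _ two_ne_zero hF hi hi.separable hd _ ht,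
    fun c m hc hl hr hb => ?_⟩
  refine Pool.Agent.N352.JB.shaT M _ two_ne_zero hF hi hi.separable hd _ ht c m hc
    (fun E _ _ hE => ?_) hb
  cases hE with
  | fin v => exact hl v
  | real ρ => exact hr ρ

/-- The twists. -/
theorem over_F {F : Type} [Field F] [NumberField F] {f : (𝓞 F)[X]} (hm : f.Monic)
    (ho : Odd f.natDegree) (M : IntermediateField F (SeparableClosure F)) [NumberField M]
    [IsGalois F M] {n : ℕ} (hn : Module.finrank F M = 2 ^ n)
    (hi : Irreducible ((fF f).map (algebraMap F M)))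
    (ht : Pool.Agent.N352.JB.SelTriv (PlF M) ((fF f).map (algebraMap F M))) {r : ℕ}
    (ρ : Gal F →* Matrix (Fin r) (Fin r) ℤ) (hρ : ∀ σ : Gal F, (∀ x ∈ M, σ x = x) → ρ σ = 1) :
    LatTw.TwoDivisible (LatTw.toField f) ρ ∧ LatTw.ShaTwoZeroIn (LatTw.toField f) ρ := by
  haveI : FiniteDimensional F M := Module.finite_of_finrank_pos (by rw [hn]; positivity)
  have hmF : (fF f).Monic := hm.map _
  have hoF : Odd (fF f).natDegree := by
    rw [hm.natDegree_map]
    exact ho
  have hρ' : ∀ σ : SeparableClosure F ≃ₐ[M] SeparableClosure F, ρ (σ.restrictScalars F) = 1 :=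
    fun σ => hρ _ fun x hx => σ.commutes ⟨x, hx⟩
  obtain ⟨h1, h2⟩ := twist_main (F := F) (M := M) (Ω := SeparableClosure F) (f := fF f) ρ hn
    two_ne_zero hmF hoF hi hi.separable (PlF M) ht hρ'
  refine ⟨?_, ?_⟩
  · intro P hP
    obtain ⟨y, ⟨hy1, hy2⟩, hu⟩ := h1 (adT P) fun σ => by rw [← adT_act, hP]
    refine ⟨muT y, ⟨adT_inj ?_, fun σ => adT_inj ?_⟩, ?_⟩
    · rw [adT_pow]
      exact hy1
    · rw [adT_act]
      exact hy2 σ
    · rintro z ⟨hz1, hz2⟩
      apply adT_inj
      refine hu (adT z) ⟨?_, fun σ => ?_⟩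
      · rw [← adT_pow, hz1]
      · rw [← adT_act, hz2]
  · intro c m hc hfin hreal hb
    rw [tcob_iff]
    rw [tcob_iff] at hb
    refine h2 _ m (tcoc hc) ?_ hb
    intro E' _ _ hE
    cases hE with
    | fin w =>
      obtain ⟨v, φ, hφ⟩ := compl_hom (algebraMap F M) w
      exact ⟨v.adicCompletion F, inferInstance, inferInstance, φ, hφ, ttriv (hfin v)⟩
    | real σ' =>
      have h3 := hreal (σ'.comp (algebraMap F M))
      letI := (σ'.comp (algebraMap F M)).toAlgebra
      exact ⟨ℝ, inferInstance, inferInstance, RingHom.id ℝ, fun x => rfl, ttriv h3⟩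

end Pool.Agent.T3h73
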