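import Pool.Agent.T3h73.Sel
import Pool.Agent.Y46.G2.EmbA

/-!
# Completions at primes which split completely
-/

set_option autoImplicit false
set_option linter.all false

open Polynomial IsDedekindDomain NumberField Topology
open scoped Classical

namespace Pool.Agent.T3h73

open Pool.Agent.N783.PF (Ov)

/-- Above `v` there is a prime of `M` which is unramified and of degree one. -/
def Spl {F : Type} (M : Type) [Field F] [NumberField F] [Field M] [NumberField M] [Algebra F M]
    (v : HeightOneSpectrum (𝓞 F)) : Prop :=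
  ∃ w : HeightOneSpectrum (𝓞 M), Ov v.asIdeal w ∧
    (∃ a ∈ v.asIdeal, algebraMap (𝓞 F) (𝓞 M) a ∉ w.asIdeal ^ 2) ∧
    ∀ x : 𝓞 M, ∃ a : 𝓞 F, x - algebraMap (𝓞 F) (𝓞 M) a ∈ w.asIdeal

section

variable {F M : Type} [Field F] [NumberField F] [Field M] [NumberField M] [Algebra F M]

theorem val_eq1 {v : HeightOneSpectrum (𝓞 F)} {w : HeightOneSpectrum (𝓞 M)}
    (h : Ov v.asIdeal w) (hu : ∃ a ∈ v.asIdeal, algebraMap (𝓞 F) (𝓞 M) a ∉ w.asIdeal ^ 2) (x : F) :
    w.valuation M (algebraMap F M x) = v.valuation F x := by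
  obtain ⟨e, he, hv⟩ := val_over h
  obtain ⟨a, ha, ha2⟩ := hu
  have h1 := hv (algebraMap (𝓞 F) F a)
  rw [← IsScalarTower.algebraMap_apply (𝓞 F) F M, IsScalarTower.algebraMap_apply (𝓞 F) (𝓞 M) M,
    HeightOneSpectrum.valuation_of_algebraMap, HeightOneSpectrum.valuation_of_algebraMap] at h1
  have h2 : ¬ w.intValuation (algebraMap (𝓞 F) (𝓞 M) a) ≤ WithZero.exp (-((2 : ℕ) : ℤ)) := by
    rw [w.intValuation_le_pow_iff_mem]
    exact ha2
  have h3 := (v.intValuation_le_pow_iff_mem a 1).2 (by rwa [pow_one])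
  rw [h1] at h2
  have e1 : e = 1 := by
    by_contra hne
    apply h2
    calc v.intValuation a ^ e ≤ (WithZero.exp (-((1 : ℕ) : ℤ))) ^ e := pow_le_pow_left₀ zero_le h3 e
      _ ≤ WithZero.exp (-((2 : ℕ) : ℤ)) := by
        rw [← WithZero.exp_nsmul, WithZero.exp_le_exp]
        simp only [nsmul_eq_mul]
        push_cast
        have : 2 ≤ e := by omega
        have : (2 : ℤ) ≤ e := by exact_mod_cast this
        linarith
  rw [hv, e1, pow_one]

/-- Approximation by elements of `F`, first step. -/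
theorem ap1 {v : HeightOneSpectrum (𝓞 F)} {w : HeightOneSpectrum (𝓞 M)}
    (h1 : ∀ x : F, w.valuation M (algebraMap F M x) = v.valuation F x)
    (h2 : ∀ x : 𝓞 M, ∃ a : 𝓞 F, x - algebraMap (𝓞 F) (𝓞 M) a ∈ w.asIdeal) (s : M)
    (hs : s ≠ 0) : ∃ s₀ : F, w.valuation M (s - algebraMap F M s₀) < w.valuation M s := by
  obtain ⟨z, hz⟩ := v.valuation_surjective F (w.valuation M s)
  have hws : w.valuation M s ≠ 0 := (Valuation.ne_zero_iff _).2 hs
  have hz0 : z ≠ 0 := by
    intro h0
    rw [h0, map_zero] at hz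
    exact hws hz.symm
  have hz1 : algebraMap F M z ≠ 0 := (_root_.map_ne_zero _).2 hz0
  obtain ⟨u, hu⟩ : ∃ u : M, u = s * (algebraMap F M z)⁻¹ := ⟨_, rfl⟩
  have hwu : w.valuation M u = 1 := by
    rw [hu, map_mul, map_inv₀, h1, hz, mul_inv_cancel₀ hws]
  obtain ⟨a, ha⟩ := w.exists_valuation_sub_lt_of_integer hwu.le 1
  rw [Units.val_one] at ha
  obtain ⟨c, hc⟩ := h2 a
  have hca : w.valuation M (algebraMap F M (c : F) - algebraMap (𝓞 M) M a) < 1 := by
    have e : algebraMap F M (c : F) - algebraMap (𝓞 M) M a =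
        -(algebraMap (𝓞 M) M (a - algebraMap (𝓞 F) (𝓞 M) c)) := by
      rw [map_sub, neg_sub]
      rfl
    rw [e, Valuation.map_neg, HeightOneSpectrum.valuation_lt_one_iff_mem]
    exact hc
  have huc : w.valuation M (u - algebraMap F M (c : F)) < 1 := by
    have e : u - algebraMap F M (c : F) =
        - ((algebraMap (𝓞 M) M a - u) + (algebraMap F M (c : F) - algebraMap (𝓞 M) M a)) := by ring
    rw [e, Valuation.map_neg]
    exact (Valuation.map_add _ _ _).trans_lt (max_lt ha hca)
  refine ⟨(c : F) * z, ?_⟩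
  have e1 : s - algebraMap F M ((c : F) * z) = (u - algebraMap F M (c : F)) * algebraMap F M z := by
    rw [map_mul, hu, sub_mul, mul_assoc, inv_mul_cancel₀ hz1, mul_one]
  rw [e1, map_mul, h1 z, hz]
  calc w.valuation M (u - algebraMap F M (c : F)) * w.valuation M s < 1 * w.valuation M s :=
        (mul_lt_mul_iff_left₀ (zero_lt_iff.2 hws)).2 huc
    _ = w.valuation M s := one_mul _

/-- Approximation by elements of `F`. -/
theorem ap2 {w : HeightOneSpectrum (𝓞 M)}
    (h : ∀ s : M, s ≠ 0 → ∃ s₀ : F, w.valuation M (s - algebraMap F M s₀) < w.valuation M s)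
    (s : M) {ε : WithZero (Multiplicative ℤ)} (hε : ε ≠ 0) :
    ∃ s₀ : F, w.valuation M (s - algebraMap F M s₀) < ε := by
  obtain ⟨b, rfl⟩ : ∃ b : ℤ, ε = WithZero.exp b := ⟨WithZero.log ε, (WithZero.exp_log hε).symm⟩
  have key : ∀ (n : ℕ) (s : M), w.valuation M s < WithZero.exp (b + n) →
      ∃ s₀ : F, w.valuation M (s - algebraMap F M s₀) < WithZero.exp b := by
    intro n
    induction n with
    | zero =>
      intro s hs
      refine ⟨0, ?_⟩
      rw [map_zero, sub_zero]
      simpa using hs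
    | succ n ih =>
      intro s hs
      by_cases h0 : s = 0
      · refine ⟨0, ?_⟩
        rw [h0, map_zero, sub_zero, map_zero]
        exact WithZero.exp_pos
      · obtain ⟨s₁, hs₁⟩ := h s h0
        have h3 : w.valuation M (s - algebraMap F M s₁) < WithZero.exp (b + n) := by
          by_cases h4 : s - algebraMap F M s₁ = 0
          · rw [h4, map_zero]
            exact WithZero.exp_pos
          · have a1 : w.valuation M (s - algebraMap F M s₁) ≠ 0 := (Valuation.ne_zero_iff _).2 h4
            have a2 : w.valuation M s ≠ 0 := (Valuation.ne_zero_iff _).2 h0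
            rw [← WithZero.exp_log a1, ← WithZero.exp_log a2, WithZero.exp_lt_exp] at hs₁
            rw [← WithZero.exp_log a2, WithZero.exp_lt_exp] at hs
            rw [← WithZero.exp_log a1, WithZero.exp_lt_exp]
            push_cast at hs
            omega
        obtain ⟨s₂, hs₂⟩ := ih _ h3
        refine ⟨s₁ + s₂, ?_⟩
        rw [map_add, ← sub_sub]
        exact hs₂
  by_cases h0 : s = 0
  · refine ⟨0, ?_⟩
    rw [h0, map_zero, sub_zero, map_zero]
    exact WithZero.exp_pos
  · have a2 : w.valuation M s ≠ 0 := (Valuation.ne_zero_iff _).2 h0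
    refine key (WithZero.log (w.valuation M s) - b + 1).toNat s ?_
    conv_lhs => rw [← WithZero.exp_log a2]
    rw [WithZero.exp_lt_exp]
    have := Int.self_le_toNat (WithZero.log (w.valuation M s) - b + 1)
    omega

/-- The elements of `F` are dense in the completion. -/
theorem dense_F {w : HeightOneSpectrum (𝓞 M)}
    (h : ∀ s : M, s ≠ 0 → ∃ s₀ : F, w.valuation M (s - algebraMap F M s₀) < w.valuation M s) :
    DenseRange fun a : F => algebraMap M (w.adicCompletion M) (algebraMap F M a) := by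
  intro y
  rw [mem_closure_iff_nhds]
  intro U hU
  obtain ⟨V, hVU, hVo, hyV⟩ := mem_nhds_iff.1 hU
  obtain ⟨s, hs⟩ := (HeightOneSpectrum.denseRange_algebraMap (K := M) w).exists_mem_open hVo ⟨y, hyV⟩
  obtain ⟨γ, hγ⟩ := Valued.mem_nhds.1 (hVo.mem_nhds hs)
  have hg0 : MonoidWithZeroHom.ValueGroup₀.embedding γ.1 ≠ (0 : WithZero (Multiplicative ℤ)) := by
    simp
  obtain ⟨a, ha⟩ := ap2 h s hg0
  refine ⟨algebraMap M _ (algebraMap F M a), hVU (hγ ?_), ⟨a, rfl⟩⟩
  have e : ∀ z : M, Valued.v (algebraMap M (w.adicCompletion M) z) = w.valuation M z := fun z =>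
    HeightOneSpectrum.valuedAdicCompletion_eq_valuation' w z
  rw [Set.mem_setOf_eq, Valuation.restrict_lt_iff_lt_embedding, ← map_sub, e, ← neg_sub,
    Valuation.map_neg]
  exact ha

theorem dn_of_spl {v : HeightOneSpectrum (𝓞 F)} (hs : Spl M v) : Dn M v := by
  obtain ⟨w, hov, hram, hres⟩ := hs
  have hval := val_eq1 hov hram
  obtain ⟨ι, hc, hι⟩ := Pool.Agent.Y46.G2.exists_compl_cont v w (algebraMap F M)
    (fun x hx => by rw [hval]; exact hx) (fun x hx => by rw [hval]; exact hx)
  have hdense := dense_F (F := F) (ap1 hval hres)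
  letI : Algebra (v.adicCompletion F) (w.adicCompletion M) := ι.toAlgebra
  haveI : ContinuousSMul (v.adicCompletion F) (w.adicCompletion M) :=
    ⟨(hc.comp continuous_fst).mul continuous_snd⟩
  haveI : IsScalarTower F (v.adicCompletion F) (w.adicCompletion M) :=
    IsScalarTower.of_algebraMap_eq fun x => by
      rw [IsScalarTower.algebraMap_apply F M (w.adicCompletion M), ← hι]
      rfl
  have hcl : IsClosed (Set.range ι) := by
    open scoped Valued in
    have h1 := (LinearMap.range (Algebra.linearMap (v.adicCompletion F)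
      (w.adicCompletion M))).closed_of_finiteDimensional
    exact h1
  have hsurj : Function.Surjective ι := by
    rw [← Set.range_eq_univ, ← hcl.closure_eq]
    refine Dense.closure_eq (Dense.mono ?_ hdense)
    rintro _ ⟨a, rfl⟩
    exact ⟨algebraMap F _ a, hι a⟩
  have hinj : Function.Injective ι := ι.injective
  refine ⟨w, (RingEquiv.ofBijective ι ⟨hinj, hsurj⟩).symm.toRingHom, fun x => ?_⟩
  apply hinj
  rw [hι]
  exact (RingEquiv.ofBijective ι ⟨hinj, hsurj⟩).apply_symm_apply _

end

end Pool.Agent.T3h73
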