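import Pool.Agent.T3h73.Cpl
import Pool.Agent.T3h73.Twist
import Pool.Agent.K3h8.RS.Frob

/-!
# Subfields of the `p`-th cyclotomic extension
-/

set_option autoImplicit false
set_option linter.all false

open Polynomial IsDedekindDomain NumberField
open scoped Classical IntermediateField

namespace Pool.Agent.T3h73

open Pool.Agent.N783.PF (Ov)

section sub

variable {p : ℕ} [hp : Fact p.Prime] {F K : Type} [Field F] [Field K] [Algebra F K]
  {ζ : K} (hζ : IsPrimitiveRoot ζ p)

/-- The automorphisms `σ` with `χ(σ) ^ e = 1`, where `χ` is the cyclotomic character. -/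
noncomputable def HH (F : Type) [Field F] {K : Type} [Field K] [Algebra F K] {ζ : K}
    (hζ : IsPrimitiveRoot ζ p) (e : ℕ) : Subgroup (K ≃ₐ[F] K) :=
  ((powMonoidHom e : (ZMod p)ˣ →* (ZMod p)ˣ).comp (hζ.autToPow F)).ker

theorem mem_HH {e : ℕ} {σ : K ≃ₐ[F] K} :
    σ ∈ HH F hζ e ↔ (hζ.autToPow F σ : ZMod p) ^ e = 1 := by
  unfold HH
  rw [MonoidHom.mem_ker, MonoidHom.comp_apply, powMonoidHom_apply, ← Units.val_inj,
    Units.val_pow_eq_pow_val, Units.val_one]

/-- The fixed field. -/
noncomputable def MM (F : Type) [Field F] {K : Type} [Field K] [Algebra F K] {ζ : K}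
    (hζ : IsPrimitiveRoot ζ p) (e : ℕ) : IntermediateField F K :=
  IntermediateField.fixedField (HH F hζ e)

theorem mm_fix {e : ℕ} {σ : K ≃ₐ[F] K} (hσ : σ ∈ HH F hζ e) (x : MM F hζ e) :
    σ (x : K) = x :=
  x.2 ⟨σ, hσ⟩

theorem mm_gal [IsCyclotomicExtension {p} F K] (e : ℕ) : IsGalois F (MM F hζ e) := by
  haveI : IsGalois F K := IsCyclotomicExtension.isGalois {p} F K
  haveI : (HH F hζ e).Normal := MonoidHom.normal_ker _
  exact IsGalois.of_fixedField_normal_subgroup (HH F hζ e)

theorem mm_cyc [IsCyclotomicExtension {p} F K] (e : ℕ) :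
    IsCyclic (MM F hζ e ≃ₐ[F] MM F hζ e) := by
  haveI : IsGalois F K := IsCyclotomicExtension.isGalois {p} F K
  haveI : FiniteDimensional F K := IsCyclotomicExtension.finiteDimensional {p} F K
  haveI : (HH F hζ e).Normal := MonoidHom.normal_ker _
  obtain ⟨E⟩ : Nonempty ((K ≃ₐ[F] K) ⧸ HH F hζ e ≃* (MM F hζ e ≃ₐ[F] MM F hζ e)) :=
    ⟨IsGalois.normalAutEquivQuotient (HH F hζ e)⟩
  haveI : IsCyclic ((K ≃ₐ[F] K) ⧸ HH F hζ e) :=
    isCyclic_of_injective (QuotientGroup.kerLift
      ((powMonoidHom e : (ZMod p)ˣ →* (ZMod p)ˣ).comp (hζ.autToPow F)))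
      (QuotientGroup.kerLift_injective _)
  exact isCyclic_of_surjective E.toMonoidHom E.surjective

theorem mm_card [IsCyclotomicExtension {p} F K] [CharZero F] {e k : ℕ}
    (he : 2 ^ k * e = p - 1)
    (hirr : Irreducible (cyclotomic p F)) :
    Module.finrank (MM F hζ e) K = e ∧ Module.finrank F (MM F hζ e) = 2 ^ k ∧
      Module.finrank F K = p - 1 := by
  haveI : IsGalois F K := IsCyclotomicExtension.isGalois {p} F K
  haveI : FiniteDimensional F K := IsCyclotomicExtension.finiteDimensional {p} F K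
  have h1 : Module.finrank (MM F hζ e) K = Nat.card (HH F hζ e) := by
    rw [MM, IntermediateField.finrank_fixedField_eq_card]
  have h2 : Module.finrank F K = p - 1 := by
    rw [IsCyclotomicExtension.finrank K hirr, Nat.totient_prime hp.out]
  have hinj : Function.Injective (hζ.autToPow F) := hζ.autToPow_injective F
  have hbij : Function.Bijective (hζ.autToPow F) := by
    haveI : Finite (K ≃ₐ[F] K) := inferInstance
    rw [Nat.bijective_iff_injective_and_card]
    refine ⟨hinj, ?_⟩
    rw [IsGalois.card_aut_eq_finrank, h2, Nat.card_eq_fintype_card, ZMod.card_units_eq_totient,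
      Nat.totient_prime hp.out]
  have h3 : Nat.card (HH F hζ e) = Nat.card (powMonoidHom e : (ZMod p)ˣ →* (ZMod p)ˣ).ker := by
    refine Nat.card_eq_of_bijective
      (fun σ : HH F hζ e => (⟨hζ.autToPow F σ.1, σ.2⟩ :
        (powMonoidHom e : (ZMod p)ˣ →* (ZMod p)ˣ).ker)) ⟨?_, ?_⟩
    · intro σ τ hστ
      exact Subtype.ext (hinj (congrArg Subtype.val hστ))
    · rintro ⟨u, hu⟩
      obtain ⟨σ, rfl⟩ := hbij.2 u
      exact ⟨⟨σ, hu⟩, rfl⟩
  have h4 : Nat.card (powMonoidHom e : (ZMod p)ˣ →* (ZMod p)ˣ).ker = e := by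
    rw [IsCyclic.card_powMonoidHom_ker, Nat.card_eq_fintype_card, ZMod.card_units_eq_totient,
      Nat.totient_prime hp.out, ← he, Nat.gcd_mul_left_left]
  have h5 : Module.finrank (MM F hζ e) K = e := by rw [h1, h3, h4]
  refine ⟨h5, ?_, h2⟩
  have h6 := Module.finrank_mul_finrank F (MM F hζ e) K
  rw [h5, h2, ← he] at h6
  have he0 : 0 < e := by
    rcases Nat.eq_zero_or_pos e with h | h
    · rw [h, mul_zero] at he
      have := hp.out.two_le
      omega
    · exact h
  exact Nat.eq_of_mul_eq_mul_right he0 h6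

/-- The cyclotomic polynomial is not irreducible over the subfield. -/
theorem mm_red [IsCyclotomicExtension {p} F K] [CharZero F] {e k : ℕ}
    (he : 2 ^ k * e = p - 1) (hk : 1 ≤ k)
    (hirr : Irreducible (cyclotomic p F)) : ¬ Irreducible (cyclotomic p (MM F hζ e)) := by
  intro h
  obtain ⟨h1, h2, h3⟩ := mm_card hζ he hirr
  haveI : IsCyclotomicExtension {p} (MM F hζ e) K := by
    refine IsCyclotomicExtension.mk ?_ ?_
    · rintro n hn -
      rw [Set.mem_singleton_iff] at hn
      exact ⟨ζ, hn ▸ hζ⟩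
    · intro x
      have hx := (‹IsCyclotomicExtension {p} F K›).adjoin_roots x
      have hle : Algebra.adjoin F {b : K | ∃ n : ℕ, n ∈ ({p} : Set ℕ) ∧ n ≠ 0 ∧ b ^ n = 1} ≤
          (Algebra.adjoin (MM F hζ e)
            {b : K | ∃ n : ℕ, n ∈ ({p} : Set ℕ) ∧ n ≠ 0 ∧ b ^ n = 1}).restrictScalars F :=
        Algebra.adjoin_le fun y hy => Algebra.subset_adjoin hy
      exact hle hx
  have h4 := IsCyclotomicExtension.finrank K h
  rw [h1, Nat.totient_prime hp.out, ← he] at h4
  have he0 : 0 < e := by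
    rcases Nat.eq_zero_or_pos e with h | h
    · rw [h, mul_zero] at he
      have := hp.out.two_le
      omega
    · exact h
  have h5 : 2 ^ 1 ≤ 2 ^ k := Nat.pow_le_pow_right (by norm_num) hk
  nlinarith

end sub

/-- Eisenstein's criterion for the cyclotomic polynomial. -/
theorem cyc_irr {p : ℕ} (hp : p.Prime) {L : Type} [Field L] [NumberField L] (P : Ideal (𝓞 L))
    (hP : P.IsPrime) (hpP : (p : 𝓞 L) ∈ P) (hpP2 : (p : 𝓞 L) ∉ P ^ 2) :
    Irreducible (cyclotomic p L) := by
  haveI : Fact p.Prime := ⟨hp⟩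
  -- the polynomial over `ℤ`
  have hE := cyclotomic_comp_X_add_one_isEisensteinAt p
  set q : ℤ[X] := (cyclotomic p ℤ).comp (X + 1) with hq
  have hqm : q.Monic := by
    rw [hq]
    exact (cyclotomic.monic p ℤ).comp_X_add_C 1
  have hqd : q.natDegree = p - 1 := by
    rw [hq, natDegree_comp, natDegree_cyclotomic, Nat.totient_prime hp]
    have : (X + 1 : ℤ[X]).natDegree = 1 := natDegree_X_add_C (1 : ℤ)
    rw [this, mul_one]
  have hp1 : 0 < p - 1 := Nat.sub_pos_of_lt hp.one_lt
  have hmap : ∀ c : ℤ, c ∈ Ideal.span {(p : ℤ)} → (c : 𝓞 L) ∈ P := by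
    intro c hc
    obtain ⟨d, rfl⟩ := Ideal.mem_span_singleton.1 hc
    push_cast
    exact P.mul_mem_right _ hpP
  set Q : (𝓞 L)[X] := q.map (Int.castRingHom (𝓞 L)) with hQ
  have hQm : Q.Monic := hqm.map _
  have hQd : Q.natDegree = p - 1 := by rw [hQ, hqm.natDegree_map, hqd]
  have h0 : q.coeff 0 = p := by
    rw [hq, coeff_zero_eq_eval_zero, eval_comp, eval_add, eval_X, eval_one, zero_add,
      eval_one_cyclotomic_prime]
  have hirr : Irreducible Q := by
    refine irreducible_of_eisenstein_criterion hP ?_ ?_ ?_ ?_ hQm.isPrimitive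
    · rw [hQm.leadingCoeff]
      exact fun h => hP.ne_top ((Ideal.eq_top_iff_one _).2 h)
    · intro n hn
      rw [hQ, coeff_map]
      apply hmap
      have hn' : n < q.natDegree := by
        have h3 : (n : WithBot ℕ) < Q.degree := hn
        rw [degree_eq_natDegree hQm.ne_zero, hQd] at h3
        rw [hqd]
        exact_mod_cast h3
      exact hE.mem hn'
    · rw [degree_eq_natDegree hQm.ne_zero, hQd]
      exact_mod_cast hp1
    · rw [hQ, coeff_map, h0]
      simpa using hpP2
  have hirrL : Irreducible (Q.map (algebraMap (𝓞 L) L)) :=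
    (Polynomial.Monic.irreducible_iff_irreducible_map_fraction_map hQm).1 hirr
  have e1 : Q.map (algebraMap (𝓞 L) L) = (cyclotomic p L).comp (X + 1) := by
    rw [hQ, Polynomial.map_map, hq, Polynomial.map_comp, map_cyclotomic]
    simp
  rw [e1] at hirrL
  refine ⟨fun hu => hirrL.not_isUnit ?_, fun a b hab => ?_⟩
  · exact hu.map (compRingHom (X + 1 : L[X]))
  · have h5 : (cyclotomic p L).comp (X + 1) = a.comp (X + 1) * b.comp (X + 1) := by
      rw [hab, mul_comp]
    have key : ∀ c : L[X], IsUnit (c.comp (X + 1)) → IsUnit c := by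
      intro c hc
      have h6 := hc.map (compRingHom (X - 1 : L[X]))
      have h7 : compRingHom (X - 1 : L[X]) (c.comp (X + 1)) = c := by
        show (c.comp (X + 1)).comp (X - 1) = c
        rw [comp_assoc]
        simp
      rwa [h7] at h6
    rcases hirrL.isUnit_or_isUnit h5 with h | h
    · exact Or.inl (key a h)
    · exact Or.inr (key b h)

end Pool.Agent.T3h73
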