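import Pool.Agent.N874.Jac.Def

/-!
# Twists of powers of hyperelliptic Jacobians by integral representations of the Galois group

`J` is the Jacobian of `y ^ 2 = f(x)`, `f` a polynomial of odd degree over `K` without multiple
roots; `J(L)` is written multiplicatively (`N874/Jac/Def.lean`). A homomorphism `ρ` from the absolute
Galois group of `K` to the integral `r × r` matrices which factors through the Galois group of a finite
extension gives the abelian variety `A = J ⊗ ℤ ^ r` of dimension `r dim J`: the group `A(K^sep)` is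
`J(K^sep) ^ r` with the action `σ (P_j) = (∏_j σ(P_j) ^ ρ(σ)_{ij})`.
-/

set_option autoImplicit false
set_option linter.all false

open Polynomial IsDedekindDomain NumberField

namespace Pool.Agent.T3h73.LatTw

open Pool.Agent.N874.Jac (J mapJ Gal UniquelyTwoDivisible ShaTwoTrivialReal)

/-- Homomorphisms from the group of automorphisms of `Ω` over `K` to the integral `r × r` matrices. -/
abbrev Rep (K Ω : Type) [Field K] [Field Ω] [Algebra K Ω] (r : ℕ) : Type :=
  (Ω ≃ₐ[K] Ω) →* Matrix (Fin r) (Fin r) ℤ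

/-- Integral matrices act on the tuples of elements of a commutative group. -/
def matAct {G : Type} [CommGroup G] {r : ℕ} (A : Matrix (Fin r) (Fin r) ℤ) (x : Fin r → G) :
    Fin r → G :=
  fun i => ∏ j, x j ^ A i j

section twist

variable {K : Type} [Field K] (f : K[X]) {r : ℕ}

/-- A homomorphism of extensions of `K` acts on the tuples of points. -/
noncomputable def mapT {L L' : Type} [Field L] [Algebra K L] [Field L'] [Algebra K L']
    (φ : L →ₐ[K] L') (P : Fin r → J f L) : Fin r → J f L' :=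
  fun i => mapJ f φ (P i)

variable {Ω : Type} [Field Ω] [Algebra K Ω] (ρ : Rep K Ω r)

/-- The action of the automorphisms of `Ω` over `K` on `A(Ω)`. -/
noncomputable def act (σ : Ω ≃ₐ[K] Ω) (P : Fin r → J f Ω) : Fin r → J f Ω :=
  matAct (ρ σ) (mapT f σ.toAlgHom P)

/-- Continuous 1-cocycles with values in `A(Ω)`. -/
def Cocycle (c : (Ω ≃ₐ[K] Ω) → Fin r → J f Ω) : Prop :=
  IsLocallyConstant c ∧ ∀ σ τ : Ω ≃ₐ[K] Ω, c (σ * τ) = c σ * act f ρ σ (c τ)

/-- Coboundaries. -/
def Coboundary (c : (Ω ≃ₐ[K] Ω) → Fin r → J f Ω) : Prop :=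
  ∃ Q : Fin r → J f Ω, ∀ σ : Ω ≃ₐ[K] Ω, c σ = act f ρ σ Q / Q

/-- The restriction of the class of the cocycle `c` to the group of automorphisms of `Ω'` over `E` is
zero: for an embedding `ι : Ω → Ω'` over `K` there is `P ∈ A(Ω')` with `c(τ|Ω) = τ P / P` for every
automorphism `τ` of `Ω'` over `E`. -/
def SplitsIn (E Ω' : Type) [Field E] [Field Ω'] [Algebra E Ω'] [Algebra K E] [Algebra K Ω']
    [IsScalarTower K E Ω'] (c : (Ω ≃ₐ[K] Ω) → Fin r → J f Ω) : Prop :=
  ∃ (ι : Ω →ₐ[K] Ω') (P : Fin r → J f Ω'), ∀ (τ : Ω' ≃ₐ[E] Ω') (σ : Ω ≃ₐ[K] Ω),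
    (∀ x : Ω, τ (ι x) = ι (σ x)) →
    mapT f ι (c σ) = matAct (ρ σ) (mapT f (τ.toAlgHom.restrictScalars K) P) / P

/-- The restriction of the class of the cocycle `c` to the absolute Galois group of `E` is zero. -/
def TrivialOver (E : Type) [Field E] [Algebra K E] (c : (Ω ≃ₐ[K] Ω) → Fin r → J f Ω) : Prop :=
  SplitsIn f ρ E (SeparableClosure E) c

/-- Multiplication by two on the group of the fixed elements of `A(Ω)` is bijective. -/
def TwoDivisible : Prop :=
  ∀ P : Fin r → J f Ω, (∀ σ : Ω ≃ₐ[K] Ω, act f ρ σ P = P) →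
    ∃! Q : Fin r → J f Ω, Q ^ 2 = P ∧ ∀ σ : Ω ≃ₐ[K] Ω, act f ρ σ Q = Q

end twist

/-- `L` is a cyclic extension of `K` of degree `n`. -/
def CyclicOfDegree (K L : Type) [Field K] [Field L] [Algebra K L] (n : ℕ) : Prop :=
  IsGalois K L ∧ IsCyclic (L ≃ₐ[K] L) ∧ Module.finrank K L = n

section numberfield

variable {F : Type} [Field F] [NumberField F]

/-- The classes of 2-power order which are zero over all the completions of the number field `F` are
zero. For `Ω` the separable closure of `F`: the 2-primary part of the Tate-Shafarevich group of `A`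
over `F` is zero. -/
def ShaTwoZeroIn {Ω : Type} [Field Ω] [Algebra F Ω] (f : F[X]) {r : ℕ} (ρ : Rep F Ω r) : Prop :=
  ∀ (c : (Ω ≃ₐ[F] Ω) → Fin r → J f Ω) (m : ℕ), Cocycle f ρ c →
    (∀ v : HeightOneSpectrum (𝓞 F), TrivialOver f ρ (v.adicCompletion F) c) →
    (∀ σ : F →+* ℝ, letI := σ.toAlgebra; TrivialOver f ρ ℝ c) →
    Coboundary f ρ (c ^ 2 ^ m) → Coboundary f ρ c

/-- The representation is trivial on the automorphisms over `M`. -/
def TrivialOn {Ω : Type} [Field Ω] [Algebra F Ω] (M : IntermediateField F Ω) {r : ℕ}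
    (ρ : Rep F Ω r) : Prop :=
  ∀ σ : Ω ≃ₐ[F] Ω, (∀ x ∈ M, σ x = x) → ρ σ = 1

/-- The polynomial over `F` given by a polynomial over the ring of integers. -/
noncomputable abbrev toField (f : (𝓞 F)[X]) : F[X] := f.map (algebraMap (𝓞 F) F)

/-- The monic polynomials of degree `2 g + 1` over the ring of integers without term of degree `2 g`
and of height at most `B`: the coefficient of `x ^ j` has all absolute values at most
`B ^ (2 g + 1 - j)`. -/
structure Poly (g B : ℕ) (f : (𝓞 F)[X]) : Prop where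
  monic : f.Monic
  degree : f.natDegree = 2 * g + 1
  trace : f.coeff (2 * g) = 0
  height : ∀ j < 2 * g, ∀ σ : F →+* ℂ, ‖σ (f.coeff j : F)‖ ≤ (B : ℝ) ^ (2 * g + 1 - j)

/-- The shape of `f` at the archimedean places is near to that of `p`: for a positive real number
`b`, the coefficients of `b ^ (-(2 g + 1)) f(b x)` are at distance at most `δ` from those of `p`. -/
def Near (g : ℕ) (p : F[X]) (δ : ℝ) (f : (𝓞 F)[X]) : Prop :=
  ∃ b : ℝ, 0 < b ∧ ∀ j < 2 * g, ∀ σ : F →+* ℂ,
    ‖σ (f.coeff j : F) - (b : ℂ) ^ (2 * g + 1 - j) * σ (p.coeff j)‖ ≤ δ * b ^ (2 * g + 1 - j)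

/-- The equation `y ^ 2 = f(x)` is minimal. -/
def Minimal (g : ℕ) (f : (𝓞 F)[X]) : Prop :=
  ∀ v : HeightOneSpectrum (𝓞 F), ¬ ∀ j ≤ 2 * g, f.coeff j ∈ v.asIdeal ^ (2 * (2 * g + 1 - j))

/-- The residue class of `f₀` modulo `m`: it is separable modulo the primes dividing `m` and
irreducible modulo the primes dividing 2 and `m`. -/
structure ResidueClass (g m : ℕ) (f₀ : (𝓞 F)[X]) : Prop where
  pos : 0 < m
  monic : f₀.Monic
  degree : f₀.natDegree = 2 * g + 1
  trace : f₀.coeff (2 * g) = 0
  separable : ∀ v : HeightOneSpectrum (𝓞 F), (m : 𝓞 F) ∈ v.asIdeal →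
    (f₀.map (Ideal.Quotient.mk v.asIdeal)).Separable
  irreducible : ∀ v : HeightOneSpectrum (𝓞 F), (m : 𝓞 F) ∈ v.asIdeal → (2 : 𝓞 F) ∈ v.asIdeal →
    Irreducible (f₀.map (Ideal.Quotient.mk v.asIdeal))

/-- The conditions on an extension `M` of `F`: it is Galois of degree a power of two; the primes above
2 and the primes in `S` are split; at the ramified primes `f` is irreducible, and every real place at
which `f` has more than one root extends to a real place of `M`. -/
structure AdmissibleField (f : (𝓞 F)[X]) (S : Finset (HeightOneSpectrum (𝓞 F)))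
    (M : Type) [Field M] [Algebra F M] : Prop where
  galois : IsGalois F M
  degree : ∃ n : ℕ, Module.finrank F M = 2 ^ n
  split : ∀ v : HeightOneSpectrum (𝓞 F), (2 : 𝓞 F) ∈ v.asIdeal ∨ v ∈ S →
    Nonempty (M →ₐ[F] v.adicCompletion F)
  ramified : ∀ (v : HeightOneSpectrum (𝓞 F)) (w : HeightOneSpectrum (𝓞 M)),
    v.asIdeal.map (algebraMap (𝓞 F) (𝓞 M)) ≤ w.asIdeal ^ 2 →
    Irreducible (f.map (Ideal.Quotient.mk v.asIdeal))
  real : ∀ σ : F →+* ℝ, (∃! x : ℝ, ((toField f).map σ).eval x = 0) ∨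
    ∃ τ : M →+* ℝ, τ.comp (algebraMap F M) = σ

/-- The subfields of the separable closure of `F` with these properties. -/
def Admissible (f : (𝓞 F)[X]) (S : Finset (HeightOneSpectrum (𝓞 F)))
    (M : IntermediateField F (SeparableClosure F)) : Prop :=
  AdmissibleField f S M

/-- For all the extensions `M` which are admissible for `f` and `S` and all integral representations
`ρ` of `Gal(M/F)` multiplication by two is bijective on `A(F)` and the 2-primary part of the
Tate-Shafarevich group of `A` is zero, where `A = J ⊗ ℤ ^ r`, `J` the Jacobian of `y ^ 2 = f(x)`. -/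
def AllTwists (f : (𝓞 F)[X]) (S : Finset (HeightOneSpectrum (𝓞 F))) : Prop :=
  ∀ M : IntermediateField F (SeparableClosure F), Admissible f S M →
    ∀ (r : ℕ) (ρ : Rep F (SeparableClosure F) r), TrivialOn M ρ →
      TwoDivisible (toField f) ρ ∧ ShaTwoZeroIn (toField f) ρ

/-- For every `k ≥ 1` infinitely many extensions admissible for `f` and `S` are cyclic of degree
`2 ^ k`. -/
def ManyCyclic (f : (𝓞 F)[X]) (S : Finset (HeightOneSpectrum (𝓞 F))) : Prop :=
  ∀ k : ℕ, 1 ≤ k → {M : IntermediateField F (SeparableClosure F) |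
    Admissible f S M ∧ CyclicOfDegree F M (2 ^ k)}.Infinite

end numberfield

end Pool.Agent.T3h73.LatTw
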