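import Pool.Agent.N352.PF.All

/-!
# The conditions at the small prime ideals, with a prescribed residue class

-/

set_option autoImplicit false
set_option linter.all false

open Polynomial NumberField IsDedekindDomain

namespace Pool.Agent.T3h73

open Pool.Agent.N352.PF

/-- A residue class `f₀` modulo `m₀` which satisfies the conditions at the primes dividing `m₀` is
extended to one which satisfies the conditions at all small primes. -/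
theorem gf2 (F : Type) [Field F] [NumberField F] (g M m₀ : ℕ) (hg : 1 ≤ g) (hm₀ : 0 < m₀)
    (f₀ : (𝓞 F)[X]) (hmon : f₀.Monic) (hdeg : f₀.natDegree = 2 * g + 1)
    (htr : f₀.coeff (2 * g) = 0)
    (hsep : ∀ v : HeightOneSpectrum (𝓞 F), (m₀ : 𝓞 F) ∈ v.asIdeal → (rv v f₀).Separable)
    (hirr : ∀ v : HeightOneSpectrum (𝓞 F), (m₀ : 𝓞 F) ∈ v.asIdeal → (2 : 𝓞 F) ∈ v.asIdeal →
      Irreducible (rv v f₀)) :
    ∃ (W : ℕ) (f₁ : (𝓞 F)[X]), f₁.Monic ∧ f₁.natDegree = 2 * g + 1 ∧ f₁.coeff (2 * g) = 0 ∧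
      0 < W ∧ 2 ∣ W ∧ m₀ ∣ W ∧ (∀ j, (m₀ : 𝓞 F) ∣ f₁.coeff j - f₀.coeff j) ∧
      (∀ v : HeightOneSpectrum (𝓞 F), (2 : 𝓞 F) ∈ v.asIdeal → Irreducible (rv v f₁)) ∧
      (∀ v : HeightOneSpectrum (𝓞 F), (W : 𝓞 F) ∈ v.asIdeal → (rv v f₁).Separable) ∧
      ∀ p : ℕ, p.Prime → p ≤ M → p ∣ W := by
  classical
  obtain ⟨W₂, f₂, m2, d2, t2, w2, -, i2, s2, p2⟩ := Pool.Agent.N823.PF.gf F g (max M 2) hg
  set W' : ℕ := ∏ p ∈ (Finset.range (max M 2 + 1)).filter (fun p => p.Prime ∧ ¬ p ∣ m₀), p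
    with hW'
  have hW'0 : 0 < W' := Finset.prod_pos fun p hp => ((Finset.mem_filter.1 hp).2.1).pos
  have hcop : Nat.Coprime W' m₀ := by
    rw [hW']
    refine Nat.Coprime.prod_left fun p hp => ?_
    obtain ⟨h1, h2⟩ := (Finset.mem_filter.1 hp).2
    exact (Nat.Prime.coprime_iff_not_dvd h1).2 h2
  have hW'd : ∀ p : ℕ, p.Prime → p ≤ max M 2 → ¬ p ∣ m₀ → p ∣ W' := by
    intro p hp hpM hpm
    rw [hW']
    exact Finset.dvd_prod_of_mem _ (Finset.mem_filter.2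
      ⟨Finset.mem_range.2 (by omega), hp, hpm⟩)
  obtain ⟨u, v, huv0⟩ := Nat.isCoprime_iff_coprime.2 hcop
  have huv : (u : 𝓞 F) * ((W' : ℕ) : 𝓞 F) + (v : 𝓞 F) * (m₀ : 𝓞 F) = 1 := by
    have := congrArg (Int.cast : ℤ → 𝓞 F) huv0
    push_cast at this ⊢
    exact this
  set f₁ : (𝓞 F)[X] := C ((u : 𝓞 F) * ((W' : ℕ) : 𝓞 F)) * f₀ +
    C ((v : 𝓞 F) * (m₀ : 𝓞 F)) * f₂ with hf₁
  have hco : ∀ j, f₁.coeff j = (u : 𝓞 F) * ((W' : ℕ) : 𝓞 F) * f₀.coeff j +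
      (v : 𝓞 F) * (m₀ : 𝓞 F) * f₂.coeff j := by
    intro j
    rw [hf₁, coeff_add, coeff_C_mul, coeff_C_mul]
  have htop : f₁.coeff (2 * g + 1) = 1 := by
    have e1 : f₀.coeff (2 * g + 1) = 1 := by rw [← hdeg]; exact hmon
    have e2 : f₂.coeff (2 * g + 1) = 1 := by rw [← d2]; exact m2
    rw [hco, e1, e2, mul_one, mul_one, huv]
  have hd : f₁.natDegree = 2 * g + 1 := by
    apply Polynomial.natDegree_eq_of_le_of_coeff_ne_zero
    · rw [Polynomial.natDegree_le_iff_coeff_eq_zero]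
      intro n hn
      rw [hco, coeff_eq_zero_of_natDegree_lt (by omega), coeff_eq_zero_of_natDegree_lt (by omega)]
      ring
    · rw [htop]
      exact one_ne_zero
  have hm1 : f₁.Monic := by
    rw [Polynomial.Monic, Polynomial.leadingCoeff, hd, htop]
  have hc0 : ∀ j, (m₀ : 𝓞 F) ∣ f₁.coeff j - f₀.coeff j := by
    intro j
    refine ⟨(v : 𝓞 F) * (f₂.coeff j - f₀.coeff j), ?_⟩
    rw [hco]
    linear_combination (f₀.coeff j) * huv
  have hc2 : ∀ j, ((W' : ℕ) : 𝓞 F) ∣ f₁.coeff j - f₂.coeff j := by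
    intro j
    refine ⟨(u : 𝓞 F) * (f₀.coeff j - f₂.coeff j), ?_⟩
    rw [hco]
    linear_combination (f₂.coeff j) * huv
  have hr0 : ∀ w : HeightOneSpectrum (𝓞 F), (m₀ : 𝓞 F) ∈ w.asIdeal → rv w f₁ = rv w f₀ := by
    intro w hw
    ext j
    rw [coeff_map, coeff_map]
    refine Ideal.Quotient.eq.2 ?_
    obtain ⟨c, hc⟩ := hc0 j
    rw [hc]
    exact Ideal.mul_mem_right _ _ hw
  have hr2 : ∀ w : HeightOneSpectrum (𝓞 F), ((W' : ℕ) : 𝓞 F) ∈ w.asIdeal → rv w f₁ = rv w f₂ := by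
    intro w hw
    ext j
    rw [coeff_map, coeff_map]
    refine Ideal.Quotient.eq.2 ?_
    obtain ⟨c, hc⟩ := hc2 j
    rw [hc]
    exact Ideal.mul_mem_right _ _ hw
  have hW2 : ∀ w : HeightOneSpectrum (𝓞 F), ((W' : ℕ) : 𝓞 F) ∈ w.asIdeal →
      ((W₂ : ℕ) : 𝓞 F) ∈ w.asIdeal := by
    intro w hw
    obtain ⟨p, hp1, hp2, hp3⟩ :=
      Pool.Agent.N951.PF.prime_factor w.asIdeal w.isPrime W' hW'0 hw
    rw [hW', Prime.dvd_finset_prod_iff hp1.prime] at hp2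
    obtain ⟨q, hq, hpq⟩ := hp2
    obtain ⟨hq1, hq2, -⟩ := Finset.mem_filter.1 hq
    have e1 : p = q := (Nat.prime_dvd_prime_iff_eq hp1 hq2).1 hpq
    obtain ⟨c, hc⟩ := p2 p hp1 (by rw [e1]; have := Finset.mem_range.1 hq1; omega)
    rw [hc, Nat.cast_mul]
    exact Ideal.mul_mem_right _ _ hp3
  have h2W : 2 ∣ m₀ * W' := by
    by_cases h : 2 ∣ m₀
    · exact Dvd.dvd.mul_right h _
    · exact Dvd.dvd.mul_left (hW'd 2 Nat.prime_two (le_max_right _ _) h) _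
  have hdich : ∀ w : HeightOneSpectrum (𝓞 F), ((m₀ * W' : ℕ) : 𝓞 F) ∈ w.asIdeal →
      (m₀ : 𝓞 F) ∈ w.asIdeal ∨ ((W' : ℕ) : 𝓞 F) ∈ w.asIdeal := by
    intro w hw
    rw [Nat.cast_mul] at hw
    exact w.isPrime.mem_or_mem hw
  refine ⟨m₀ * W', f₁, hm1, hd, ?_, Nat.mul_pos hm₀ hW'0, h2W, dvd_mul_right _ _, hc0, ?_, ?_, ?_⟩
  · rw [hco, htr, t2]
    ring
  · intro w hw
    have hWw : ((m₀ * W' : ℕ) : 𝓞 F) ∈ w.asIdeal := by
      obtain ⟨c, hc⟩ := h2W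
      rw [hc, Nat.cast_mul, Nat.cast_ofNat]
      exact Ideal.mul_mem_right _ _ hw
    rcases hdich w hWw with h | h
    · rw [hr0 w h]
      exact hirr w h hw
    · rw [hr2 w h]
      exact i2 w hw
  · intro w hWw
    rcases hdich w hWw with h | h
    · rw [hr0 w h]
      exact hsep w h
    · rw [hr2 w h]
      exact s2 w (hW2 w h)
  · intro p hp hpM
    by_cases h : p ∣ m₀
    · exact Dvd.dvd.mul_right h _
    · exact Dvd.dvd.mul_left (hW'd p hp (hpM.trans (le_max_left _ _)) h) _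

end Pool.Agent.T3h73
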