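import Pool.Agent.N352.PF.All

/-!
# Counting in a region: polynomials whose shape at the archimedean places is near to a given one
-/

set_option autoImplicit false
set_option linter.all false

open Polynomial NumberField IsDedekindDomain
open scoped Classical

namespace Pool.Agent.T3h73

open Pool.Agent.N352.PF
open Pool.Agent.N352.PJ (dd pol dis Dy D2)

variable {F : Type} [Field F] [NumberField F]

/-- the coefficients below `2 g` are near to those of `p` at scale `b` -/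
def NearA (g : ℕ) (p : F[X]) (δ b : ℝ) (a : ℕ → 𝓞 F) : Prop :=
  ∀ j < 2 * g, ∀ σ : F →+* ℂ, ‖σ (a j : F) - (b : ℂ) ^ (2 * g + 1 - j) * σ (p.coeff j)‖ ≤
    δ * b ^ (2 * g + 1 - j)

/-- a bound for all conjugates -/
theorem exists_bd (x : F) : ∃ N : ℕ, ∀ σ : F →+* ℂ, ‖σ x‖ ≤ N := by
  classical
  haveI : Finite (F →+* ℂ) := inferInstance
  obtain ⟨R, hR⟩ := (Set.finite_range fun σ : F →+* ℂ => ‖σ x‖).bddAbove
  refine ⟨⌈R⌉₊, fun σ => (hR ⟨σ, rfl⟩).trans (Nat.le_ceil R)⟩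

/-- a bound for all conjugates of finitely many elements -/
theorem exists_bds (n : ℕ) (x : ℕ → F) : ∃ N : ℕ, ∀ j < n, ∀ σ : F →+* ℂ, ‖σ (x j)‖ ≤ N := by
  classical
  choose N hN using fun j => exists_bd (x j)
  refine ⟨∑ j ∈ Finset.range n, N j, fun j hj σ => (hN j σ).trans ?_⟩
  exact_mod_cast Finset.single_le_sum (f := N) (fun i _ => Nat.zero_le _) (Finset.mem_range.2 hj)

/-- a common denominator -/
theorem exists_den (p : F[X]) : ∃ N : ℕ, 0 < N ∧ ∃ e : ℕ → 𝓞 F, ∀ j,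
    (e j : F) = (N : F) * p.coeff j := by
  classical
  obtain ⟨b, hb⟩ := IsLocalization.exist_integer_multiples_of_finset
    (Algebra.algebraMapSubmonoid (𝓞 F) (nonZeroDivisors ℤ)) (S := F)
    (p.support.image fun j => p.coeff j)
  obtain ⟨n, hn, hnb⟩ := b.2
  have hn0 : n ≠ 0 := nonZeroDivisors.ne_zero hn
  have hbn : (b : 𝓞 F) = (n : 𝓞 F) := by
    rw [← hnb]
    simp
  have hex : ∀ j, ∃ e : 𝓞 F, (e : F) = ((n.natAbs : ℕ) : F) * p.coeff j := by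
    intro j
    by_cases hj : p.coeff j = 0
    · exact ⟨0, by rw [hj, mul_zero]; exact map_zero _⟩
    · have h1 := hb (p.coeff j) (Finset.mem_image.2 ⟨j, mem_support_iff.2 hj, rfl⟩)
      obtain ⟨y, hy⟩ := h1
      have hy' : (y : F) = (n : F) * p.coeff j := by
        have : (algebraMap (𝓞 F) F) y = (b : 𝓞 F) • p.coeff j := hy
        rw [Algebra.smul_def, hbn, map_intCast] at this
        exact this
      rcases Int.natAbs_eq n with h | h
      · refine ⟨y, ?_⟩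
        rw [hy']
        congr 1
        rw [h]
        simp
      · refine ⟨-y, ?_⟩
        have e1 : ((-y : 𝓞 F) : F) = -(y : F) := by push_cast; rfl
        have e2 : (n : F) = -((n.natAbs : ℕ) : F) := by
          have h3 : ((n : ℤ) : F) = ((-(n.natAbs : ℤ) : ℤ) : F) := congrArg _ h
          rw [h3, Int.cast_neg, Int.cast_natCast]
        rw [e1, hy', e2]
        ring
  choose e he using hex
  exact ⟨n.natAbs, Int.natAbs_pos.2 hn0, e, he⟩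

/-- The number of the elements of a residue class in a region. -/
theorem reg (g : ℕ) (hg : 1 ≤ g) (p : F[X]) (δ : ℝ) (hδ : 0 < δ) :
    ∃ (N₁ : ℕ) (c₁ : ℝ), 1 ≤ N₁ ∧ 0 < c₁ ∧ ∀ (W : ℕ) (A : Fin (2 * g) → 𝓞 F), 0 < W →
    ∃ B₀ : ℕ, ∀ B ≥ B₀, c₁ * (B : ℝ) ^ (dg F * dd g) ≤
      ({a ∈ Bx g B W A | NearA g p δ ((B : ℝ) / N₁)
        (fun j => if h : j < 2 * g then a ⟨j, h⟩ else 0)}.ncard : ℝ) *
        (W : ℝ) ^ (2 * g * dg F) := by
  obtain ⟨C, hC1, hC⟩ := Pool.Agent.N364.PF.cl F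
  obtain ⟨N₂, hN₂, e, he⟩ := exists_den p
  obtain ⟨E, hE⟩ := exists_bds (2 * g) (fun j => (e j : F))
  obtain ⟨R, hR⟩ := exists_bds (2 * g) (fun j => p.coeff j)
  obtain ⟨Δ, hΔ⟩ := exists_nat_ge δ
  set N₁ : ℕ := R + Δ + 1 with hN₁
  have hN₁1 : 1 ≤ N₁ := by omega
  obtain ⟨N₃, hN₃⟩ := exists_nat_gt (2 * (N₁ : ℝ) ^ (2 * g + 1) / δ)
  have hN₁r : (1 : ℝ) ≤ N₁ := by exact_mod_cast hN₁1
  have hN₃0 : (0 : ℝ) < N₃ := lt_of_le_of_lt (by positivity) hN₃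
  have hN₃p : 0 < N₃ := by exact_mod_cast hN₃0
  rw [div_lt_iff₀ hδ] at hN₃
  obtain ⟨B₀₁, hB₀₁⟩ := exists_nat_ge (2 * (E : ℝ) * (N₁ : ℝ) ^ (2 * g + 1) / δ)
  rw [div_le_iff₀ hδ] at hB₀₁
  refine ⟨N₁, ((1 : ℝ) / (((2 * N₃) ^ dg F * C : ℕ) : ℝ)) ^ (2 * g), hN₁1, by positivity,
    fun W A hW => ?_⟩
  refine ⟨max B₀₁ (2 * N₃ * (C * W)), fun B hB => ?_⟩
  have hB1 : B₀₁ ≤ B := (le_max_left _ _).trans hB
  have hB2 : 2 * N₃ * (C * W) ≤ B := (le_max_right _ _).trans hB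
  have hCWp : 0 < C * W := Nat.mul_pos hC1 hW
  have hBpos : 1 ≤ B := le_trans (Nat.mul_pos (Nat.mul_pos two_pos hN₃p) hCWp) hB2
  have hBr : (1 : ℝ) ≤ B := by exact_mod_cast hBpos
  -- radius and centre
  set T : ℕ → ℕ := fun j => B ^ (2 * g + 1 - j) / N₃ with hT
  set ctr : ℕ → 𝓞 F := fun j =>
    e j * ((B ^ (2 * g + 1 - j) / (N₁ ^ (2 * g + 1 - j) * N₂) : ℕ) : 𝓞 F) with hctr
  have hpowB : ∀ j < 2 * g, B ≤ B ^ (2 * g + 1 - j) := fun j hj =>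
    Nat.le_self_pow (by omega) B
  have hTlow : ∀ j < 2 * g, B ^ (2 * g + 1 - j) ≤ 2 * N₃ * T j := by
    intro j hj
    have h1 := Nat.lt_div_mul_add (a := B ^ (2 * g + 1 - j)) hN₃p
    have h2 : N₃ ≤ T j * N₃ := by
      refine Nat.le_mul_of_pos_left _ (Nat.div_pos ?_ hN₃p)
      refine le_trans ?_ (hpowB j hj)
      refine le_trans ?_ hB2
      nlinarith [Nat.mul_pos hC1 hW]
    have h3 : B ^ (2 * g + 1 - j) < T j * N₃ + N₃ := h1
    nlinarith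
  have hCW : ∀ j < 2 * g, C * W ≤ T j := by
    intro j hj
    rw [hT]
    refine (Nat.le_div_iff_mul_le hN₃p).2 ?_
    refine le_trans ?_ (hpowB j hj)
    refine le_trans ?_ hB2
    have : 2 * N₃ * (C * W) = C * W * N₃ + C * W * N₃ := by ring
    rw [this]
    exact Nat.le_add_right _ _
  -- the sets
  have hset : ∀ j : Fin (2 * g), ∃ s : Finset (𝓞 F), (∀ x ∈ s, x - ctr j ∈ Bal F (T j) ∧
      (W : 𝓞 F) ∣ x - A j) ∧ T j ^ dg F ≤ C * s.card * W ^ dg F := by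
    intro j
    have h1 := hC (T j) W (A j - ctr j) hW (hCW j j.2)
    have hfin : {x ∈ Bal F (T j) | (W : 𝓞 F) ∣ x - (A j - ctr j)}.Finite := by
      by_contra hinf
      have h2 : {x ∈ Bal F (T j) | (W : 𝓞 F) ∣ x - (A j - ctr j)}.ncard = 0 :=
        Set.Infinite.ncard hinf
      rw [h2, mul_zero, zero_mul, Nat.le_zero] at h1
      have h3 : 0 < T j := lt_of_lt_of_le (Nat.mul_pos hC1 hW) (hCW j j.2)
      exact absurd h1 (pow_pos h3 _).ne'
    refine ⟨hfin.toFinset.image (fun x => x + ctr j), ?_, ?_⟩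
    · intro x hx
      obtain ⟨y, hy, rfl⟩ := Finset.mem_image.1 hx
      rw [Set.Finite.mem_toFinset] at hy
      refine ⟨by rw [add_sub_cancel_right]; exact hy.1, ?_⟩
      have e1 : y + ctr j - A j = y - (A j - ctr j) := by ring
      rw [e1]
      exact hy.2
    · rw [Finset.card_image_of_injective _ (add_left_injective _)]
      rwa [Set.ncard_eq_toFinset_card _ hfin] at h1
  choose s hs1 hs2 using hset
  -- near
  have hnear : ∀ (j : Fin (2 * g)), ∀ x ∈ s j, ∀ σ : F →+* ℂ,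
      ‖σ (x : F) - (((B : ℝ) / N₁ : ℝ) : ℂ) ^ (2 * g + 1 - (j : ℕ)) * σ (p.coeff j)‖ ≤
        δ * ((B : ℝ) / N₁) ^ (2 * g + 1 - (j : ℕ)) := by
    intro j x hx σ
    set n : ℕ := 2 * g + 1 - (j : ℕ) with hn
    have hn1 : 1 ≤ n := by have := j.2; omega
    have hn2 : n ≤ 2 * g + 1 := by omega
    have h1 : ‖σ (((x - ctr j : 𝓞 F)) : F)‖ ≤ T j := (hs1 j x hx).1 σ
    have h2 : (T j : ℝ) ≤ (B : ℝ) ^ n / N₃ := by
      have : ((B ^ n / N₃ : ℕ) : ℝ) ≤ ((B ^ n : ℕ) : ℝ) / (N₃ : ℝ) := Nat.cast_div_le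
      push_cast at this
      exact this
    -- the centre
    have h3 : ‖σ ((ctr j : 𝓞 F) : F) - (((B : ℝ) / N₁ : ℝ) : ℂ) ^ n * σ (p.coeff j)‖ ≤ E := by
      have hN₂r : (0 : ℝ) < N₂ := by exact_mod_cast hN₂
      have e1 : ((ctr j : 𝓞 F) : F) = (e j : F) *
          ((B ^ n / (N₁ ^ n * N₂) : ℕ) : F) := by
        rw [hctr]
        push_cast
        rfl
      have e2 : σ (p.coeff j) = σ (e j : F) / (N₂ : ℂ) := by
        rw [he j, map_mul, map_natCast]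
        have : (N₂ : ℂ) ≠ 0 := by exact_mod_cast hN₂.ne'
        field_simp
      have e3 : σ ((ctr j : 𝓞 F) : F) - (((B : ℝ) / N₁ : ℝ) : ℂ) ^ n * σ (p.coeff j) =
          σ (e j : F) * ((((B ^ n / (N₁ ^ n * N₂) : ℕ) : ℝ) -
            (B : ℝ) ^ n / ((N₁ : ℝ) ^ n * N₂) : ℝ) : ℂ) := by
        rw [e1, e2, map_mul, map_natCast]
        have : (N₂ : ℂ) ≠ 0 := by exact_mod_cast hN₂.ne'
        have h5 : (N₁ : ℂ) ≠ 0 := by
          have : N₁ ≠ 0 := by omega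
          exact_mod_cast this
        push_cast
        rw [div_pow]
        field_simp
      rw [e3, norm_mul, Complex.norm_real]
      have e4 : |(((B ^ n / (N₁ ^ n * N₂) : ℕ) : ℝ) - (B : ℝ) ^ n / ((N₁ : ℝ) ^ n * N₂))| ≤ 1 := by
        have hq : (0 : ℝ) < (N₁ : ℝ) ^ n * N₂ := by positivity
        have hqn : 0 < N₁ ^ n * N₂ := by positivity
        have h6 : ((B ^ n / (N₁ ^ n * N₂) : ℕ) : ℝ) ≤ (B : ℝ) ^ n / ((N₁ : ℝ) ^ n * N₂) := by
          have : ((B ^ n / (N₁ ^ n * N₂) : ℕ) : ℝ) ≤ ((B ^ n : ℕ) : ℝ) / ((N₁ ^ n * N₂ : ℕ) : ℝ) :=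
            Nat.cast_div_le
          push_cast at this
          exact this
        have h7 : (B : ℝ) ^ n / ((N₁ : ℝ) ^ n * N₂) ≤ ((B ^ n / (N₁ ^ n * N₂) : ℕ) : ℝ) + 1 := by
          rw [div_le_iff₀ hq]
          have h8 := (Nat.lt_div_mul_add (a := B ^ n) hqn).le
          have h9 : ((B ^ n : ℕ) : ℝ) ≤
              ((B ^ n / (N₁ ^ n * N₂) * (N₁ ^ n * N₂) + N₁ ^ n * N₂ : ℕ) : ℝ) := by
            exact_mod_cast h8
          push_cast at h9
          nlinarith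
        rw [abs_le]
        constructor <;> linarith
      calc ‖σ (e j : F)‖ * ‖(((B ^ n / (N₁ ^ n * N₂) : ℕ) : ℝ) - (B : ℝ) ^ n / ((N₁ : ℝ) ^ n * N₂))‖
          ≤ E * 1 := by
            refine mul_le_mul (hE j j.2 σ) ?_ (norm_nonneg _) (Nat.cast_nonneg _)
            rw [Real.norm_eq_abs]
            exact e4
        _ = E := mul_one _
    have hpw1 : (N₁ : ℝ) ^ n ≤ (N₁ : ℝ) ^ (2 * g + 1) := pow_le_pow_right₀ hN₁r hn2
    have hN₁n : (0 : ℝ) < (N₁ : ℝ) ^ n := by positivity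
    have hBn : (B : ℝ) ≤ (B : ℝ) ^ n := by
      calc (B : ℝ) = (B : ℝ) ^ 1 := (pow_one _).symm
        _ ≤ (B : ℝ) ^ n := pow_le_pow_right₀ hBr hn1
    have h4 : (B : ℝ) ^ n / N₃ ≤ δ / 2 * ((B : ℝ) / N₁) ^ n := by
      rw [div_pow, div_le_iff₀ hN₃0, mul_div_assoc', div_mul_eq_mul_div, le_div_iff₀ hN₁n]
      have h5 : (N₁ : ℝ) ^ n ≤ δ / 2 * N₃ := by nlinarith
      calc (B : ℝ) ^ n * (N₁ : ℝ) ^ n ≤ (B : ℝ) ^ n * (δ / 2 * N₃) := by gcongr
        _ = _ := by ring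
    have h5 : (E : ℝ) ≤ δ / 2 * ((B : ℝ) / N₁) ^ n := by
      rw [div_pow, mul_div_assoc', le_div_iff₀ hN₁n]
      have h6 : (B₀₁ : ℝ) ≤ B := by exact_mod_cast hB1
      have h7 : (E : ℝ) * (N₁ : ℝ) ^ n ≤ E * (N₁ : ℝ) ^ (2 * g + 1) := by gcongr
      have h8 : (B₀₁ : ℝ) * δ ≤ B * δ := by gcongr
      nlinarith
    have e5 : σ (x : F) - (((B : ℝ) / N₁ : ℝ) : ℂ) ^ n * σ (p.coeff j) =
        σ (((x - ctr j : 𝓞 F)) : F) +
        (σ ((ctr j : 𝓞 F) : F) - (((B : ℝ) / N₁ : ℝ) : ℂ) ^ n * σ (p.coeff j)) := by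
      have : (((x - ctr j : 𝓞 F)) : F) = (x : F) - ((ctr j : 𝓞 F) : F) := by push_cast; rfl
      rw [this, map_sub]
      ring
    rw [e5]
    refine (norm_add_le _ _).trans ?_
    have h9 := h1.trans (h2.trans h4)
    have h10 := h3.trans h5
    have : δ * ((B : ℝ) / N₁) ^ n = δ / 2 * ((B : ℝ) / N₁) ^ n + δ / 2 * ((B : ℝ) / N₁) ^ n := by
      ring
    rw [this]
    exact add_le_add h9 h10
  -- the box
  have hbox : ∀ (j : Fin (2 * g)), ∀ x ∈ s j, x ∈ Bal F (B ^ (2 * g + 1 - (j : ℕ))) := by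
    intro j x hx σ
    have h1 := hnear j x hx σ
    set n : ℕ := 2 * g + 1 - (j : ℕ) with hn
    have hn1 : 1 ≤ n := by have := j.2; omega
    have h2 : ‖(((B : ℝ) / N₁ : ℝ) : ℂ) ^ n * σ (p.coeff j)‖ ≤ ((B : ℝ) / N₁) ^ n * R := by
      rw [norm_mul, norm_pow, Complex.norm_real, Real.norm_of_nonneg (by positivity)]
      exact mul_le_mul_of_nonneg_left (hR j j.2 σ) (by positivity)
    have h3 : ‖σ (x : F)‖ ≤ ((B : ℝ) / N₁) ^ n * R + δ * ((B : ℝ) / N₁) ^ n := by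
      have e1 : σ (x : F) = (((B : ℝ) / N₁ : ℝ) : ℂ) ^ n * σ (p.coeff j) +
        (σ (x : F) - (((B : ℝ) / N₁ : ℝ) : ℂ) ^ n * σ (p.coeff j)) := by ring
      rw [e1]
      exact (norm_add_le _ _).trans (add_le_add h2 h1)
    show ‖σ (x : F)‖ ≤ ((B ^ n : ℕ) : ℝ)
    push_cast
    refine h3.trans ?_
    have h4 : ((B : ℝ) / N₁) ^ n * R + δ * ((B : ℝ) / N₁) ^ n = ((B : ℝ) / N₁) ^ n * (R + δ) := by
      ring
    rw [h4, div_pow, div_mul_eq_mul_div, div_le_iff₀ (by positivity)]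
    have h5 : (R : ℝ) + δ ≤ (N₁ : ℝ) ^ n := by
      have h6 : (R : ℝ) + δ ≤ N₁ := by
        rw [hN₁]
        push_cast
        linarith
      refine h6.trans ?_
      calc (N₁ : ℝ) = (N₁ : ℝ) ^ 1 := (pow_one _).symm
        _ ≤ (N₁ : ℝ) ^ n := pow_le_pow_right₀ hN₁r hn1
    gcongr
  -- counting
  set U := {a ∈ Bx g B W A | NearA g p δ ((B : ℝ) / N₁)
        (fun j => if h : j < 2 * g then a ⟨j, h⟩ else 0)} with hU
  have hBxf : (Bx g B W A).Finite := by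
    obtain ⟨C', -, hC'⟩ := Pool.Agent.N352.PF.bxT F g
    by_contra hinf
    obtain ⟨hfin, -⟩ := hC' (max B (C' * 1)) 1 A one_pos (le_max_right _ _)
    refine hinf (hfin.subset ?_)
    rintro a ⟨ha, -⟩
    refine ⟨fun j σ => (ha j σ).trans ?_, fun j => by simp⟩
    have : B ^ (2 * g + 1 - (j : ℕ)) ≤ (max B (C' * 1)) ^ (2 * g + 1 - (j : ℕ)) :=
      Nat.pow_le_pow_left (le_max_left _ _) _
    exact_mod_cast this
  have hUf : U.Finite := hBxf.subset (Set.sep_subset _ _)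
  have hsub : (↑(Fintype.piFinset s) : Set (Fin (2 * g) → 𝓞 F)) ⊆ U := by
    intro a ha
    rw [Finset.mem_coe, Fintype.mem_piFinset] at ha
    refine ⟨⟨fun j => hbox j _ (ha j), fun j => (hs1 j _ (ha j)).2⟩, ?_⟩
    intro j hj σ
    beta_reduce
    rw [dif_pos hj]
    exact hnear ⟨j, hj⟩ _ (ha ⟨j, hj⟩) σ
  have hcard : ∏ j, (s j).card ≤ U.ncard := by
    have h1 := Set.ncard_le_ncard hsub hUf
    rwa [Set.ncard_coe_finset, Fintype.card_piFinset] at h1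
  have hWr : (0 : ℝ) < W := by exact_mod_cast hW
  have hone : ∀ j : Fin (2 * g), ((1 : ℝ) / (((2 * N₃) ^ dg F * C : ℕ) : ℝ)) *
      ((B : ℝ) ^ dg F) ^ (2 * g + 1 - (j : ℕ)) ≤ ((s j).card : ℝ) * (W : ℝ) ^ dg F := by
    intro j
    have hK0 : (0 : ℝ) < (((2 * N₃) ^ dg F * C : ℕ) : ℝ) := by
      have : 0 < (2 * N₃) ^ dg F * C := by positivity
      exact_mod_cast this
    rw [one_div_mul_eq_div, div_le_iff₀ hK0]
    have h1 : (B ^ (2 * g + 1 - (j : ℕ))) ^ dg F ≤ (2 * N₃ * T j) ^ dg F :=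
      Nat.pow_le_pow_left (hTlow j j.2) _
    have h2 : (B ^ dg F) ^ (2 * g + 1 - (j : ℕ)) ≤
        (s j).card * W ^ dg F * ((2 * N₃) ^ dg F * C) := by
      calc (B ^ dg F) ^ (2 * g + 1 - (j : ℕ)) = (B ^ (2 * g + 1 - (j : ℕ))) ^ dg F := by
            rw [← pow_mul, ← pow_mul, mul_comm]
        _ ≤ (2 * N₃ * T j) ^ dg F := h1
        _ = (2 * N₃) ^ dg F * T j ^ dg F := mul_pow _ _ _
        _ ≤ (2 * N₃) ^ dg F * (C * (s j).card * W ^ dg F) := Nat.mul_le_mul_left _ (hs2 j)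
        _ = _ := by ring
    exact_mod_cast h2
  calc ((1 : ℝ) / (((2 * N₃) ^ dg F * C : ℕ) : ℝ)) ^ (2 * g) * (B : ℝ) ^ (dg F * dd g)
      = ∏ j : Fin (2 * g), (((1 : ℝ) / (((2 * N₃) ^ dg F * C : ℕ) : ℝ)) *
          ((B : ℝ) ^ dg F) ^ (2 * g + 1 - (j : ℕ))) := by
        rw [Finset.prod_mul_distrib, Finset.prod_const, Finset.card_univ, Fintype.card_fin,
          Finset.prod_pow_eq_pow_sum, Pool.Agent.N352.PF.SML99.sum_dd, ← pow_mul]
    _ ≤ ∏ j : Fin (2 * g), (((s j).card : ℝ) * (W : ℝ) ^ dg F) :=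
        Finset.prod_le_prod (fun j _ => by positivity) fun j _ => hone j
    _ = ((∏ j, (s j).card : ℕ) : ℝ) * (W : ℝ) ^ (2 * g * dg F) := by
        rw [Finset.prod_mul_distrib, Finset.prod_const, Finset.card_univ, Fintype.card_fin,
          ← pow_mul, mul_comm (dg F)]
        push_cast
        rfl
    _ ≤ (U.ncard : ℝ) * (W : ℝ) ^ (2 * g * dg F) := by
        refine mul_le_mul_of_nonneg_right ?_ (by positivity)
        exact_mod_cast hcard

end Pool.Agent.T3h73
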