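import Pool.Agent.T3h73.Sml2
import Pool.Agent.T3h73.Gf2
import Pool.Agent.T3h73.Reg

/-!
# Many polynomials in the family, in a residue class and in a region
-/

set_option autoImplicit false
set_option linter.all false

open Polynomial NumberField IsDedekindDomain
open scoped Classical

namespace Pool.Agent.T3h73

open Pool.Agent.N352.PJ (dd pol dis Dy D2)
open Pool.Agent.N352.PF (dg Bal nv rv Bz Bx S_BX S_SML S_WK S_STR S_DSC S_GF S_PF)
open Pool.Agent.N783.PF (Bd Cg sp rd Ht GoodS GoodF Fam S_FAM)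
open Pool.Agent.N951.PF

theorem fam2 (F : Type) [Field F] [NumberField F] (g : ℕ) (hg : 1 ≤ g) (m₀ : ℕ) (hm₀ : 0 < m₀)
    (f₀ : (𝓞 F)[X]) (f0mon : f₀.Monic) (f0deg : f₀.natDegree = 2 * g + 1)
    (f0tr : f₀.coeff (2 * g) = 0)
    (f0sep : ∀ v : HeightOneSpectrum (𝓞 F), (m₀ : 𝓞 F) ∈ v.asIdeal → (rv v f₀).Separable)
    (f0irr : ∀ v : HeightOneSpectrum (𝓞 F), (m₀ : 𝓞 F) ∈ v.asIdeal → (2 : 𝓞 F) ∈ v.asIdeal →
      Irreducible (rv v f₀)) (p : F[X]) (δ : ℝ) (hδ : 0 < δ) :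
    ∃ N₁ : ℕ, 1 ≤ N₁ ∧ ∀ K : ℕ, ∃ (W : ℕ) (f₁ : (𝓞 F)[X]), K ≤ W ∧ m₀ ∣ W ∧
      (∀ j, (m₀ : 𝓞 F) ∣ f₁.coeff j - f₀.coeff j) ∧ GoodF g W f₁ ∧
      ∃ c : ℝ, 0 < c ∧ ∀ (S : Finset ℕ) (𝔮 : ℕ → Ideal (𝓞 F)) (h P : ℕ → (𝓞 F)[X]),
        GoodS g W S 𝔮 h P → ∃ B₀ : ℕ, ∀ B ≥ B₀,
        c * (B : ℝ) ^ (Module.finrank ℚ F * dd g) ≤
          (((∏ q ∈ S, q ^ (2 * g)) ^ Module.finrank ℚ F : ℕ) : ℝ) *
          ({f : (𝓞 F)[X] | Fam g B W f₁ S P f ∧
            NearA g p δ ((B : ℝ) / N₁) f.coeff}.ncard : ℝ) := by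
  have h1 : S_BX := Pool.Agent.N352.PF.bxT
  have h3 : S_WK := Pool.Agent.N935.PF.WK.wk
  have h4 : S_STR := Pool.Agent.N352.PF.STR331.str Pool.Agent.N75.PF.cu Pool.Agent.N364.PF.cl
    Pool.Agent.N195.PF.pf
  have h5 : S_DSC := Pool.Agent.N195.PF.dscp
  have h7 : S_PF := Pool.Agent.N195.PF.pf
  obtain ⟨N₁, c₁, hN₁, hc₁, hreg⟩ := reg g hg p δ hδ
  refine ⟨N₁, hN₁, fun K => ?_⟩
  obtain ⟨C₁, hC₁, hBX⟩ := h1 F g
  obtain ⟨k, hk⟩ := exists_nat_gt (4 * (C₁ : ℝ) / c₁)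
  obtain ⟨M, C₂, hC₂, hM⟩ := sml3 F g k hg
  obtain ⟨p₀, hp₀K, hp₀⟩ := Nat.exists_infinite_primes K
  obtain ⟨W, f₁, hmon, hdeg, htr, hW0, htwo, hmW, hf10, hirr, hsep, hW⟩ :=
    gf2 F g (max p₀ (max M (2 * g + 1))) m₀ hg hm₀ f₀ f0mon f0deg f0tr f0sep f0irr
  have hKW : K ≤ W := hp₀K.trans (Nat.le_of_dvd hW0 (hW p₀ hp₀ (le_max_left _ _)))
  have hne : ∀ (𝔭 : Ideal (𝓞 F)) (n : ℕ), 0 < n → (n : 𝓞 F) ∈ 𝔭 → 𝔭 ≠ ⊥ := by
    intro 𝔭 n hn hm h0
    rw [h0, Ideal.mem_bot] at hm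
    have : n = 0 := by exact_mod_cast hm
    omega
  have hgood : GoodF g W f₁ := by
    refine ⟨hmon, hdeg, htr, hW0, htwo, ?_, ?_⟩
    · intro 𝔭 hp h2m
      have hb : 𝔭 ≠ ⊥ := hne 𝔭 2 two_pos (by exact_mod_cast h2m)
      exact hirr ⟨𝔭, hp, hb⟩ h2m
    · intro 𝔭 hp hWm
      exact hsep ⟨𝔭, hp, hne 𝔭 W hW0 hWm⟩ hWm
  refine ⟨W, f₁, hKW, hmW, hf10, hgood, c₁ / (2 * (W : ℝ) ^ (2 * g * dg F)), by positivity,
    fun S 𝔮 h P hS => ?_⟩
  obtain ⟨Q, hQ⟩ : ∃ Q : ℕ, Q = ∏ q ∈ S, q := ⟨_, rfl⟩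
  have hQ0 : 0 < Q := by
    rw [hQ]
    exact Finset.prod_pos fun q hq => (hS q hq).1.pos
  have hWQ : 0 < W * Q := Nat.mul_pos hW0 hQ0
  -- residues
  have hcrt : ∀ j : Fin (2 * g), ∃ x : 𝓞 F, (W : 𝓞 F) ∣ x - f₁.coeff j ∧
      ∀ q ∈ S, (q : 𝓞 F) ∣ x - (P q).coeff j := fun j =>
    crt W S (fun q hq => ⟨(hS q hq).1, fun hd =>
      absurd (Nat.le_of_dvd hW0 hd) (by have := (hS q hq).2.1; omega)⟩) _ _
  choose A hA1 hA2 using hcrt
  obtain ⟨B₁, hB₁⟩ := h4 F g hg (c₁ / (4 * ((W * Q : ℕ) : ℝ) ^ (2 * g * dg F))) (by positivity)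
  obtain ⟨B₂, hB₂⟩ := hreg (W * Q) A hWQ
  refine ⟨max B₂ (max B₁ (max (C₁ * (W * Q)) (C₂ * (W * Q)))), fun B hB' => ?_⟩
  have hBB2 : B₂ ≤ B := (le_max_left _ _).trans hB'
  have hB : max B₁ (max (C₁ * (W * Q)) (C₂ * (W * Q))) ≤ B := (le_max_right _ _).trans hB'
  have hBB1 : B₁ ≤ B := (le_max_left _ _).trans hB
  have hBC1 : C₁ * (W * Q) ≤ B := ((le_max_left _ _).trans (le_max_right _ _)).trans hB
  have hBC2 : C₂ * (W * Q) ≤ B := ((le_max_right _ _).trans (le_max_right _ _)).trans hB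
  obtain ⟨hfin, -, hcardU⟩ := hBX B (W * Q) A hWQ hBC1
  have hcardR := hB₂ B hBB2
  obtain ⟨hfin0, -, -⟩ := hBX B 1 (fun _ => 0) one_pos
    (le_trans (Nat.mul_le_mul_left C₁ hWQ) hBC1)
  have hBz : (Bz F g B).Finite := by
    refine hfin0.subset ?_
    intro a ha
    exact ⟨ha, fun j => by simp⟩
  have hsml := hM B (W * Q) A hWQ hBC2
  have hstr := hB₁ B hBB1
  set U := Bx g B (W * Q) A with hU
  set V := {a ∈ U | NearA g p δ ((B : ℝ) / N₁)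
        (fun j => if h : j < 2 * g then a ⟨j, h⟩ else 0)} with hV
  have hVf : V.Finite := hfin.subset (Set.sep_subset _ _)
  set U1 := {a ∈ U | ∃ v : HeightOneSpectrum (𝓞 F), M < nv v ∧ nv v ^ 2 < B ^ dg F ∧
    ((W * Q : ℕ) : 𝓞 F) ∉ v.asIdeal ∧ dis a ∈ v.asIdeal ^ 2} with hU1
  set U2 := {a ∈ Bz F g B | ∃ v : HeightOneSpectrum (𝓞 F), B ^ dg F ≤ nv v ^ 2 ∧
    dis a ∈ v.asIdeal ∧ D2 a ∈ v.asIdeal} with hU2
  have hU1f : U1.Finite := hfin.subset (Set.sep_subset _ _)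
  have hU2f : U2.Finite := hBz.subset (Set.sep_subset _ _)
  -- the good ones are in the family
  have key : pol '' (V \ (U1 ∪ U2)) ⊆ {f : (𝓞 F)[X] | Fam g B W f₁ S P f ∧
      NearA g p δ ((B : ℝ) / N₁) f.coeff} := by
    rintro _ ⟨a, ⟨⟨haU, haN⟩, ha⟩, rfl⟩
    have haB : a ∈ Bz F g B := haU.1
    have haR : ∀ j, ((W * Q : ℕ) : 𝓞 F) ∣ a j - A j := haU.2
    have hone : Cg (sp F W) (pol a) f₁ := by
      apply cg_pol a hmon hdeg htr
      intro j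
      rw [Ideal.mem_span_singleton]
      have e1 : (W : 𝓞 F) ∣ a j - A j := dvd_trans (by push_cast; exact dvd_mul_right _ _) (haR j)
      have e2 : a j - f₁.coeff j = (a j - A j) + (A j - f₁.coeff j) := by ring
      rw [e2]
      exact dvd_add e1 (hA1 j)
    have hcon : ∀ q ∈ S, Cg (sp F q) (pol a) (P q) := by
      intro q hq
      obtain ⟨hq1, hq2, hq3, hq4, hq5, hq6, hq7, hq8, hq9, hq10, hq11, hq12, hq13, hq14, hq15⟩ :=
        hS q hq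
      apply cg_pol a hq11 hq12 hq13
      intro j
      rw [Ideal.mem_span_singleton]
      have e0 : (q : 𝓞 F) ∣ ((W * Q : ℕ) : 𝓞 F) := by
        have e3 : q ∣ W * Q := by
          rw [hQ]
          exact Dvd.dvd.mul_left (Finset.dvd_prod_of_mem (fun q => q) hq) W
        exact Nat.cast_dvd_cast e3
      have e1 : (q : 𝓞 F) ∣ a j - A j := dvd_trans e0 (haR j)
      have e2 : a j - (P q).coeff j = (a j - A j) + (A j - (P q).coeff j) := by ring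
      rw [e2]
      exact dvd_add e1 (hA2 j q hq)
    refine ⟨⟨ht_pol haB, hone, hcon, fun 𝔭 hp hb hPd => ?_⟩, fun j hj σ => by
      have h9 := haN j hj σ
      beta_reduce at h9
      rw [dif_pos hj] at h9
      have e9 := pol_coeff_lt a ⟨j, hj⟩
      have e10 : (pol a).coeff j = a ⟨j, hj⟩ := e9
      rw [e10]
      exact h9⟩
    obtain ⟨v, hv⟩ : ∃ v : HeightOneSpectrum (𝓞 F), v.asIdeal = 𝔭 := ⟨⟨𝔭, hp, hb⟩, rfl⟩
    subst hv
    have hPd' : dis a ∈ v.asIdeal ^ 2 := hPd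
    have hPd1 : Pool.Agent.N352.PF.dsc g (pol a) ∈ v.asIdeal :=
      Ideal.pow_le_self two_ne_zero hPd
    haveI : Finite (𝓞 F ⧸ v.asIdeal) := v.asIdeal.finiteQuotientOfFreeOfNeBot v.ne_bot
    haveI : IsDomain (𝓞 F ⧸ v.asIdeal) := Ideal.Quotient.isDomain v.asIdeal
    have hPW : (W : 𝓞 F) ∉ v.asIdeal := by
      intro hd
      refine h5 F g v (pol a) f₁ hg (pol_monic a) (pol_natDegree a) ?_ (hsep v hd) hPd1
      intro j
      exact (Ideal.span_singleton_le_iff_mem _).2 hd (hone j)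
    have hPS : ∀ q ∈ S, (q : 𝓞 F) ∉ v.asIdeal := by
      intro q hq hd
      obtain ⟨hq1, hq2, hq3, hq4, hq5, hq6, hq7, hq8, hq9, hq10, hq11, hq12, hq13, hq14, hq15⟩ :=
        hS q hq
      have hc : ∀ j, (pol a).coeff j - (P q).coeff j ∈ v.asIdeal := fun j =>
        (Ideal.span_singleton_le_iff_mem _).2 hd (hcon q hq j)
      by_cases hv : v.asIdeal = 𝔮 q
      · refine h5 F g v (pol a) (X * h q) hg (pol_monic a) (pol_natDegree a) ?_ ?_ hPd1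
        · intro j
          have e1 : (pol a).coeff j - (X * h q).coeff j =
              ((pol a).coeff j - (P q).coeff j) + ((P q).coeff j - (X * h q).coeff j) := by ring
          rw [e1]
          refine Ideal.add_mem _ (hc j) ?_
          rw [hv]
          exact hq14 j
        · have e1 : rv v (X * h q) = X * rv v (h q) := by
            rw [rv, rv, Polynomial.map_mul, Polynomial.map_X]
          rw [e1]
          have e2 : Irreducible (rv v (h q)) := by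
            have e3 : Irreducible (rd v.asIdeal (h q)) := by
              rw [hv]
              exact hq10
            exact e3
          refine sep_X_mul e2 ?_
          rw [rv, hq8.natDegree_map, hq9]
          omega
      · refine h5 F g v (pol a) (P q) hg (pol_monic a) (pol_natDegree a) hc ?_ hPd1
        exact sep_of_irr (hq15 v.asIdeal v.isPrime hd hv)
    have hPQ : ((W * Q : ℕ) : 𝓞 F) ∉ v.asIdeal := by
      intro hd
      rw [Nat.cast_mul] at hd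
      rcases v.isPrime.mem_or_mem hd with hd | hd
      · exact hPW hd
      · rw [hQ, Nat.cast_prod] at hd
        obtain ⟨q, hq, hqm⟩ := (Ideal.IsPrime.prod_mem_iff (hp := v.isPrime)).1 hd
        exact hPS q hq hqm
    have hsmall : ∀ n : ℕ, 0 < n → (n : 𝓞 F) ∈ v.asIdeal →
        (∀ p : ℕ, p.Prime → p ∣ n → p ≤ max p₀ (max M (2 * g + 1))) → False := by
      intro n hn hm hle
      obtain ⟨p, hp1, hp2, hp3⟩ := prime_factor v.asIdeal v.isPrime n hn hm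
      have e1 := hW p hp1 (hle p hp1 hp2)
      apply hPW
      obtain ⟨m, hm⟩ := e1
      rw [hm, Nat.cast_mul]
      exact Ideal.mul_mem_right _ _ hp3
    have hfac : ((2 * g + 1).factorial : 𝓞 F) ∉ v.asIdeal := by
      intro hd
      refine hsmall _ (Nat.factorial_pos _) hd fun p hp hpd => ?_
      exact ((hp.dvd_factorial).1 hpd).trans ((le_max_right _ _).trans (le_max_right _ _))
    have hPM1 : M < nv v := by
      by_contra hc
      have hnv2 : 2 ≤ nv v := (h7 F).2.2 v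
      refine hsmall (nv v) (by omega) (Ideal.absNorm_mem v.asIdeal) fun p hp hpd => ?_
      have e1 := Nat.le_of_dvd (by omega) hpd
      exact (e1.trans (not_lt.1 hc)).trans ((le_max_left _ _).trans (le_max_right _ _))
    have hBP : B ^ dg F ≤ nv v ^ 2 := by
      by_contra hc
      exact ha (Or.inl ⟨haU, v, hPM1, not_le.1 hc, hPQ, hPd'⟩)
    refine ⟨hBP, h3 F g v hg hfac a hPd' fun hD => ?_⟩
    exact ha (Or.inr ⟨haB, v, hBP, hPd1, hD⟩)
  -- finiteness of the family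
  have hFf : {f : (𝓞 F)[X] | Fam g B W f₁ S P f ∧
      NearA g p δ ((B : ℝ) / N₁) f.coeff}.Finite := by
    refine (hBz.image pol).subset ?_
    intro f hf
    exact ⟨fun j => f.coeff j, bz_coeff hf.1.ht, (eq_pol hf.1.ht).symm⟩
  -- counting
  set R := {f : (𝓞 F)[X] | Fam g B W f₁ S P f ∧ NearA g p δ ((B : ℝ) / N₁) f.coeff} with hR
  have c1 : (V \ (U1 ∪ U2)).ncard ≤ R.ncard := by
    rw [← Set.ncard_image_of_injective _ pol_inj]
    exact Set.ncard_le_ncard key hFf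
  have c2 : V.ncard ≤ (V \ (U1 ∪ U2)).ncard + (U1.ncard + U2.ncard) := by
    have e1 := Set.ncard_le_ncard_diff_add_ncard V (U1 ∪ U2) (hU1f.union hU2f)
    have e2 := Set.ncard_union_le U1 U2
    omega
  have c3 : (k : ℝ) * U1.ncard ≤ U.ncard := by exact_mod_cast hsml
  have hC0 : (0 : ℝ) < C₁ := by exact_mod_cast hC₁
  have c4 : (U.ncard : ℝ) * ((W * Q : ℕ) : ℝ) ^ (2 * g * dg F) ≤
      C₁ * (B : ℝ) ^ (dg F * dd g) := by exact_mod_cast hcardU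
  have hP0 : (0 : ℝ) < ((W * Q : ℕ) : ℝ) ^ (2 * g * dg F) := by positivity
  set PP : ℝ := ((W * Q : ℕ) : ℝ) ^ (2 * g * dg F) with hPP
  set BD : ℝ := (B : ℝ) ^ (dg F * dd g) with hBD
  have hBD0 : 0 ≤ BD := by positivity
  have c4' : c₁ * BD ≤ V.ncard * PP := hcardR
  have c5 : (U2.ncard : ℝ) * PP ≤ c₁ / 4 * BD := by
    have e1 : (U2.ncard : ℝ) * PP ≤ (c₁ / (4 * PP) * BD) * PP :=
      mul_le_mul_of_nonneg_right hstr hP0.le
    have e2 : (c₁ / (4 * PP) * BD) * PP = c₁ / 4 * BD := by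
      field_simp
    rwa [e2] at e1
  have c6 : (U1.ncard : ℝ) * PP ≤ c₁ / 4 * BD := by
    have hk' : 4 * (C₁ : ℝ) < k * c₁ := by
      rwa [div_lt_iff₀ hc₁] at hk
    have hk0 : (0 : ℝ) < k := lt_of_le_of_lt (by positivity) hk
    have e1 : (k : ℝ) * (U1.ncard * PP) ≤ C₁ * BD := by
      calc (k : ℝ) * (U1.ncard * PP) = (k * U1.ncard) * PP := by ring
        _ ≤ U.ncard * PP := mul_le_mul_of_nonneg_right c3 hP0.le
        _ ≤ C₁ * BD := c4
    have e2 : (C₁ : ℝ) * BD ≤ k * (c₁ / 4 * BD) := by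
      nlinarith
    exact le_of_mul_le_mul_left (e1.trans e2) hk0
  have c7 : c₁ / 2 * BD ≤ (R.ncard : ℝ) * PP := by
    have e1 : (V.ncard : ℝ) ≤ ((V \ (U1 ∪ U2)).ncard : ℝ) + (U1.ncard + U2.ncard) := by
      exact_mod_cast c2
    have e2 : ((V \ (U1 ∪ U2)).ncard : ℝ) ≤ (R.ncard : ℝ) := by
      exact_mod_cast c1
    have e3 : (V.ncard : ℝ) * PP ≤ ((R.ncard : ℝ) + (U1.ncard + U2.ncard)) * PP :=
      mul_le_mul_of_nonneg_right (by linarith) hP0.le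
    nlinarith
  have c8 : (((∏ q ∈ S, q ^ (2 * g)) ^ Module.finrank ℚ F : ℕ) : ℝ) =
      (Q : ℝ) ^ (2 * g * dg F) := by
    rw [hQ, Finset.prod_pow]
    push_cast
    rw [← pow_mul]
  rw [c8]
  have hW1 : (0 : ℝ) < (W : ℝ) ^ (2 * g * dg F) := by positivity
  have c9 : PP = (W : ℝ) ^ (2 * g * dg F) * (Q : ℝ) ^ (2 * g * dg F) := by
    rw [hPP]
    push_cast
    rw [mul_pow]
  rw [c9] at c7
  rw [div_mul_eq_mul_div, div_le_iff₀ (by positivity)]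
  calc c₁ * (B : ℝ) ^ (Module.finrank ℚ F * dd g) = 2 * (c₁ / 2 * BD) := by rw [hBD]; ring
    _ ≤ 2 * ((R.ncard : ℝ) * ((W : ℝ) ^ (2 * g * dg F) * (Q : ℝ) ^ (2 * g * dg F))) := by
        linarith
    _ = _ := by ring

end Pool.Agent.T3h73
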