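import Pool.Agent.T3h73.Cmp
import Pool.Agent.T3h73.InfAdm

/-!
# Assembly
-/

set_option autoImplicit false
set_option linter.all false

open Polynomial IsDedekindDomain NumberField
open scoped Classical IntermediateField

namespace Pool.Agent.T3h73

open Pool.Agent.N783.PF (fF Ov rd Ht Min)
open Pool.Agent.N874.Jac (Gal)

section

variable {F : Type} [Field F] [NumberField F]

theorem ht_iff {g B : ℕ} {f : (𝓞 F)[X]} : Ht g B f ↔ LatTw.Poly g B f := by
  constructor
  · intro h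
    exact ⟨h.mon, h.deg, h.tr, fun j hj σ => h.ht j hj.le σ⟩
  · intro h
    refine ⟨h.monic, h.degree, h.trace, fun j hj σ => ?_⟩
    rcases Nat.lt_or_ge j (2 * g) with h1 | h1
    · exact h.height j h1 σ
    · have h2 : j = 2 * g := le_antisymm hj h1
      rw [h2, h.trace]
      have e : ((0 : 𝓞 F) : F) = 0 := rfl
      rw [e, map_zero, norm_zero]
      positivity

theorem near_of {g : ℕ} {p : F[X]} {δ : ℝ} {f : (𝓞 F)[X]} {B : ℕ}
    (h : ∃ b : ℝ, 0 < b ∧ b ≤ B ∧ NearA g p δ b f.coeff) : LatTw.Near g p δ f := by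
  obtain ⟨b, hb, -, h⟩ := h
  exact ⟨b, hb, h⟩

theorem min_of {g : ℕ} {f : (𝓞 F)[X]} (h : Min g f) : LatTw.Minimal g f := fun v =>
  h v.asIdeal v.isPrime v.ne_bot

/-- The twists of the Jacobian of a good polynomial. -/
theorem twists_of {g m₀ B : ℕ} {f₀ : (𝓞 F)[X]} {p : F[X]} {δ : ℝ}
    {S : Finset (HeightOneSpectrum (𝓞 F))} {f : (𝓞 F)[X]} (h : Good2 g m₀ f₀ p δ S B f)
    (M : IntermediateField F (SeparableClosure F)) (hA : LatTw.Admissible f S M) (r : ℕ)
    (ρ : LatTw.Rep F (SeparableClosure F) r) (hρ : LatTw.TrivialOn M ρ) :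
    LatTw.TwoDivisible (LatTw.toField f) ρ ∧ LatTw.ShaTwoZeroIn (LatTw.toField f) ρ := by
  obtain ⟨n, hn⟩ := LatTw.AdmissibleField.degree hA
  haveI : FiniteDimensional F M := Module.finite_of_finrank_pos (by rw [hn]; positivity)
  haveI : NumberField M := NumberField.of_module_finite F M
  haveI := LatTw.AdmissibleField.galois hA
  obtain ⟨h1, h2⟩ := h.sel M (admA_of_adm hA)
  exact over_F h.ht.mon (by rw [h.ht.deg]; exact odd_two_mul_add_one g) M hn h1 h2 ρ hρ

end

end Pool.Agent.T3h73
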