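import Pool.Agent.T3h73.SelUp
import Pool.Agent.N352.JB.All

/-!
# The Jacobian over an extension, with any separable closure
-/

set_option autoImplicit false
set_option linter.all false

open Polynomial IsDedekindDomain
open scoped Classical

namespace Pool.Agent.T3h73

open Pool.Agent.N352.JB
open Pool.Agent.Y160.SE
open Pool.Agent.TH115.GD (incl rs ak)
open Pool.Agent.N106.JB (good2)

section gen

variable {K : Type} [Field K] {f : K[X]} {Ω : Type} [Field Ω] [Algebra K Ω]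

/-- The cocycle condition. -/
def ACoc (c : (Ω ≃ₐ[K] Ω) → Jac 2 f Ω) : Prop :=
  IsLocallyConstant c ∧ ∀ σ τ : Ω ≃ₐ[K] Ω, c (σ * τ) = c σ + jm 2 f (ak σ) (c τ)

/-- Coboundaries. -/
def ACob (c : (Ω ≃ₐ[K] Ω) → Jac 2 f Ω) : Prop :=
  ∃ Q : Jac 2 f Ω, ∀ σ : Ω ≃ₐ[K] Ω, c σ = jm 2 f (ak σ) Q - Q

/-- Local triviality. -/
def ATriv (E : Type) [Field E] [Algebra K E] (c : (Ω ≃ₐ[K] Ω) → Jac 2 f Ω) : Prop :=
  ∃ (ι : Ω →ₐ[K] SeparableClosure E) (P : Jac 2 f (SeparableClosure E)),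
    ∀ (τ : SeparableClosure E ≃ₐ[E] SeparableClosure E) (σ : Ω ≃ₐ[K] Ω),
      (∀ x : Ω, τ (ι x) = ι (σ x)) →
      jm 2 f ι (c σ) = jm 2 f (rs K τ) P - P

theorem ACoc.nsmul {c : (Ω ≃ₐ[K] Ω) → Jac 2 f Ω} (h : ACoc c) (n : ℕ) :
    ACoc fun σ => n • c σ := by
  refine ⟨h.1.comp fun x => n • x, fun σ τ => ?_⟩
  show n • c (σ * τ) = n • c σ + jm 2 f (ak σ) (n • c τ)
  rw [h.2 σ τ, smul_add, map_nsmul]

theorem ATriv.nsmul {E : Type} [Field E] [Algebra K E]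
    {c : (Ω ≃ₐ[K] Ω) → Jac 2 f Ω} (h : ATriv E c) (n : ℕ) :
    ATriv E fun σ => n • c σ := by
  obtain ⟨ι, P, hP⟩ := h
  refine ⟨ι, n • P, fun τ σ hx => ?_⟩
  show jm 2 f ι (n • c σ) = jm 2 f (rs K τ) (n • P) - n • P
  rw [map_nsmul, map_nsmul, hP τ σ hx, smul_sub]

end gen

/-- The core: twice the cocycle is a coboundary. -/
theorem shaCore {K : Type} [Field K] {f : K[X]} {Ω : Type} [Field Ω] [Algebra K Ω] [IsGalois K Ω]
    [IsSepClosed Ω] (hg : Good 2 (-1 : K) f) (hirr : Irreducible f)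
    (Pl : ∀ (E : Type) [Field E] [Algebra K E], Prop) (hS : SelTriv Pl f)
    (c : (Ω ≃ₐ[K] Ω) → Jac 2 f Ω) (hc : ACoc c)
    (ht : ∀ (E : Type) [Field E] [Algebra K E], Pl E → ATriv E c)
    (hb : ACob fun σ => 2 • c σ) : ACob c := by
  have h1 : S_KUM := Pool.Agent.N232.JB.kum Pool.Agent.N615.JB.lag Pool.Agent.N615.JB.nrm
  have h2 : S_LOC := Pool.Agent.N424.JB.loc Pool.Agent.N615.JB.lag sqlT
  have h3 : S_COB := Pool.Agent.N615.JB.cob
  have h4 : S_DBL := Pool.Agent.N615.JB.dbl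
  have h5 : S_LC := Pool.Agent.N615.JB.lc
  obtain ⟨Q, hQ⟩ := hb
  obtain ⟨d1, d2, d3⟩ := h4 K Ω f hg
  obtain ⟨Q', hQ'⟩ := d3 Q
  -- the corrected cocycle
  set c'' : (Ω ≃ₐ[K] Ω) → Jac 2 f Ω := fun σ => c σ - (jm 2 f (ak σ) Q' - Q') with hc''
  have hlc : IsLocallyConstant c'' :=
    hc.1.sub ((h5 K Ω f hg Q').sub (IsLocallyConstant.const Q'))
  have hjm : ∀ (σ τ : Ω ≃ₐ[K] Ω) (x : Jac 2 f Ω),
      jm 2 f (ak (σ * τ)) x = jm 2 f (ak σ) (jm 2 f (ak τ) x) := by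
    intro σ τ x
    rw [jm_jm]
    rfl
  have hco : ∀ σ τ, c'' (σ * τ) = c'' σ + jm 2 f (ak σ) (c'' τ) := by
    intro σ τ
    show c (σ * τ) - (jm 2 f (ak (σ * τ)) Q' - Q') =
      c σ - (jm 2 f (ak σ) Q' - Q') + jm 2 f (ak σ) (c τ - (jm 2 f (ak τ) Q' - Q'))
    rw [hc.2 σ τ, hjm, map_sub, map_sub]
    abel
  have htor : ∀ σ, Tor hg (c'' σ) := by
    intro σ
    rw [d1]
    show 2 • (c σ - (jm 2 f (ak σ) Q' - Q')) = 0
    have := hQ σ
    simp only at this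
    rw [smul_sub, smul_sub, this, ← map_nsmul, hQ']
    abel
  obtain ⟨h, b, hK, hsq⟩ := h1 K Ω f hg hirr c'' hlc hco htor
  have hcop : IsCoprime h f := by
    have hnd : ¬ f ∣ h := by
      intro hd
      obtain ⟨e, he⟩ := exists_rt hg Ω
      obtain ⟨hb0, hb1⟩ := hK.val e he
      apply hb0
      have : aeval e h = 0 := by
        obtain ⟨q, hq⟩ := hd
        rw [hq, map_mul, show aeval e f = 0 from he, zero_mul]
      rw [this] at hb1
      exact pow_eq_zero_iff (two_ne_zero) |>.1 hb1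
    exact ((hirr.coprime_iff_not_dvd).2 hnd).symm
  have hloc : ∀ (E : Type) [Field E] [Algebra K E], Pl E →
      LocIm E (f.map (algebraMap K E)) (h.map (algebraMap K E)) := by
    intro E _ _ hE
    obtain ⟨ι, P, hP⟩ := ht E hE
    refine h2 K Ω E (SeparableClosure E) f hg c'' htor h b hK ι
      (P - jm 2 f ι Q') ?_
    intro τ σ hx
    show jm 2 f ι (c σ - (jm 2 f (ak σ) Q' - Q')) = _
    have hcomm : jm 2 f ι (jm 2 f (ak σ) Q') = jm 2 f (rs K τ) (jm 2 f ι Q') := by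
      rw [jm_jm, jm_jm]
      have e : ι.comp (ak σ) = (rs K τ).comp ι := AlgHom.ext fun x => (hx x).symm
      rw [e]
    rw [map_sub, map_sub, hcomm, hP τ σ hx, map_sub]
    abel
  obtain ⟨s, hs⟩ := hS h hcop hsq hloc
  obtain ⟨R, _, hR⟩ := h3 K Ω f hg hirr c'' hco htor h b hK s hs
  refine ⟨R + Q', fun σ => ?_⟩
  have h6 : c σ = c'' σ + (jm 2 f (ak σ) Q' - Q') := by
    show c σ = (c σ - (jm 2 f (ak σ) Q' - Q')) + (jm 2 f (ak σ) Q' - Q')
    rw [sub_add_cancel]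
  rw [h6, hR σ, map_add]
  abel

/-- The 2-primary part of the group of locally trivial classes is zero. -/
theorem shaGen {K : Type} [Field K] {f : K[X]} {Ω : Type} [Field Ω] [Algebra K Ω] [IsGalois K Ω]
    [IsSepClosed Ω] (hg : Good 2 (-1 : K) f) (hirr : Irreducible f)
    (Pl : ∀ (E : Type) [Field E] [Algebra K E], Prop) (hS : SelTriv Pl f) (m : ℕ)
    (c : (Ω ≃ₐ[K] Ω) → Jac 2 f Ω) (hc : ACoc c)
    (ht : ∀ (E : Type) [Field E] [Algebra K E], Pl E → ATriv E c)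
    (hb : ACob fun σ => 2 ^ m • c σ) : ACob c := by
  have key : ∀ (m : ℕ) (c : (Ω ≃ₐ[K] Ω) → Jac 2 f Ω), ACoc c →
      (∀ (E : Type) [Field E] [Algebra K E], Pl E → ATriv E c) →
      ACob (fun σ => 2 ^ m • c σ) → ACob c := by
    intro m
    induction m with
    | zero =>
      intro c hc ht hb
      simpa using hb
    | succ m ih =>
      intro c hc ht hb
      refine ih c hc ht (shaCore hg hirr Pl hS _ (hc.nsmul _)
        (fun E _ _ hE => (ht E hE).nsmul _) ?_)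
      obtain ⟨Q, hQ⟩ := hb
      refine ⟨Q, fun σ => ?_⟩
      rw [← hQ σ]
      have e : (2 : ℕ) ^ (m + 1) = 2 * 2 ^ m := by rw [pow_succ, mul_comm]
      exact ((congrArg (fun n : ℕ => n • c σ) e).trans (mul_smul 2 (2 ^ m) (c σ))).symm
  exact key m c hc ht hb

/-- An invariant class killed by 2 is zero. -/
theorem torGen {K : Type} [Field K] {f : K[X]} {Ω : Type} [Field Ω] [Algebra K Ω] [IsGalois K Ω]
    [IsSepClosed Ω] (hg : Good 2 (-1 : K) f) (hirr : Irreducible f) (x : Jac 2 f Ω)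
    (h2 : 2 • x = 0) (hx : ∀ σ : Ω ≃ₐ[K] Ω, jm 2 f (ak σ) x = x) : x = 0 :=
  Pool.Agent.N615.JB.tor K Ω f hg hirr x (((Pool.Agent.N615.JB.dbl K Ω f hg).1 x).2 h2) hx

/-- The invariant classes are divisible by 2. -/
theorem divGen {K : Type} [Field K] {f : K[X]} {Ω : Type} [Field Ω] [Algebra K Ω] [IsGalois K Ω]
    [IsSepClosed Ω] (h2 : (2 : K) ≠ 0) (hm : f.Monic) (hirr : Irreducible f) (hs : f.Separable)
    (hodd : Odd f.natDegree) (Pl : ∀ (E : Type) [Field E] [Algebra K E], Prop) (hS : SelTriv Pl f)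
    (x : Jac 2 f Ω) (hx : ∀ σ : Ω ≃ₐ[K] Ω, jm 2 f (ak σ) x = x) :
    ∃ y : Jac 2 f Ω, 2 • y = x ∧ ∀ σ : Ω ≃ₐ[K] Ω, jm 2 f (ak σ) y = y := by
  have hg : Good 2 (-1 : K) f := good2 h2 hm hs hodd
  have hrs : ∀ σ : Ω ≃ₐ[K] Ω, (rs K σ : Ω →ₐ[K] Ω) = ak σ := fun σ => AlgHom.ext fun _ => rfl
  obtain ⟨y, hy⟩ := fixed_class (E := K) hyps hg x (fun τ => by rw [hrs]; exact hx τ)
  obtain ⟨z, hz⟩ := (ptsT K f h2 hm hirr hs hodd Pl hS).2 (Additive.toMul y)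
  refine ⟨jm 2 f (incl K K Ω) (Additive.ofMul z), ?_, fun σ => ?_⟩
  · rw [← map_nsmul, ← hy]
    congr 1
  · rw [jm_jm]
    congr 1
    congr 1
    exact AlgHom.ext fun w => σ.commutes w

end Pool.Agent.T3h73
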