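import Pool.Agent.T3h73.Ram
import Pool.Agent.Y682.Lcl

/-!
# Quadratic extensions
-/

set_option autoImplicit false
set_option linter.all false

open Polynomial NumberField IsDedekindDomain
open scoped Classical IntermediateField

namespace Pool.Agent.T3h73

open Pool.Agent.N783.PF (Ov)

section alg

variable {F Ω : Type} [Field F] [Field Ω] [Algebra F Ω] {s : Ω} {d : F}

theorem qd_min (hs : s ^ 2 = algebraMap F Ω d) (hd : ¬ IsSquare d) :
    minpoly F s = X ^ 2 - C d := by
  have h1 : Irreducible (X ^ 2 - C d : F[X]) :=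
    X_pow_sub_C_irreducible_of_prime Nat.prime_two (fun b hb => hd ⟨b, by rw [← hb, sq]⟩)
  refine (minpoly.eq_of_irreducible_of_monic h1 ?_ (monic_X_pow_sub_C d two_ne_zero)).symm
  rw [map_sub, map_pow, aeval_X, aeval_C, hs, sub_self]

theorem qd_int (hs : s ^ 2 = algebraMap F Ω d) : IsIntegral F s :=
  ⟨X ^ 2 - C d, monic_X_pow_sub_C d two_ne_zero, by
    rw [eval₂_sub, eval₂_pow, eval₂_X, eval₂_C, hs, sub_self]⟩

theorem qd_finrank (hs : s ^ 2 = algebraMap F Ω d) (hd : ¬ IsSquare d) :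
    Module.finrank F F⟮s⟯ = 2 := by
  rw [IntermediateField.adjoin.finrank (qd_int hs), qd_min hs hd, natDegree_X_pow_sub_C]

theorem qd_hom (hs : s ^ 2 = algebraMap F Ω d) (hd : ¬ IsSquare d) {E : Type} [Field E]
    [Algebra F E] {z : E} (hz : z ^ 2 = algebraMap F E d) : Nonempty (F⟮s⟯ →ₐ[F] E) := by
  refine ⟨(IntermediateField.algHomAdjoinIntegralEquiv F (qd_int hs)).symm ⟨z, ?_⟩⟩
  rw [qd_min hs hd, mem_aroots]
  refine ⟨X_pow_sub_C_ne_zero (by norm_num) _, ?_⟩
  rw [map_sub, map_pow, aeval_X, aeval_C, hz, sub_self]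

theorem qd_lin (hs : s ^ 2 = algebraMap F Ω d) {x : Ω} (hx : x ∈ F⟮s⟯) :
    ∃ a b : F, x = algebraMap F Ω a + algebraMap F Ω b * s := by
  have h3 := IntermediateField.adjoin_simple_toSubalgebra_of_isAlgebraic (qd_int hs).isAlgebraic
  have h1 : x ∈ Algebra.adjoin F {s} := by
    rw [← h3]
    exact hx
  rw [Algebra.adjoin_singleton_eq_range_aeval] at h1
  obtain ⟨p, hp⟩ := h1
  have hp' : aeval s p = x := hp
  have hm : (X ^ 2 - C d : F[X]).Monic := monic_X_pow_sub_C d two_ne_zero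
  have h4 := modByMonic_add_div p (q := (X ^ 2 - C d : F[X]))
  have h5 : (p %ₘ (X ^ 2 - C d)).natDegree ≤ 1 := by
    have := natDegree_modByMonic_lt p hm (by
      intro h
      have := congrArg natDegree h
      rw [natDegree_X_pow_sub_C, natDegree_one] at this
      omega)
    rw [natDegree_X_pow_sub_C] at this
    omega
  rw [eq_X_add_C_of_natDegree_le_one h5] at h4
  generalize (p %ₘ (X ^ 2 - C d)).coeff 0 = a at h4
  generalize (p %ₘ (X ^ 2 - C d)).coeff 1 = b at h4
  refine ⟨a, b, ?_⟩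
  rw [← hp', ← h4]
  simp only [map_add, map_mul, map_sub, map_pow, aeval_X, aeval_C, hs, sub_self, zero_mul,
    add_zero]
  ring

theorem qd_kummer (h2 : (2 : F) ≠ 0) (hs : s ^ 2 = algebraMap F Ω d) (hd : ¬ IsSquare d) {s' : Ω}
    {d' : F} (hs' : s' ^ 2 = algebraMap F Ω d') (hd' : ¬ IsSquare d') (h : s' ∈ F⟮s⟯) :
    IsSquare (d * d') := by
  obtain ⟨a, b, hab⟩ := qd_lin hs h
  have hinj := (algebraMap F Ω).injective
  have hsF : ∀ c : F, algebraMap F Ω c ≠ s := by
    intro c hc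
    apply hd
    refine ⟨c, hinj ?_⟩
    rw [map_mul, hc, ← hs, sq]
  have h1 : algebraMap F Ω (d' - a ^ 2 - b ^ 2 * d) = algebraMap F Ω (2 * a * b) * s := by
    simp only [map_sub, map_mul, map_pow, map_ofNat]
    rw [← hs', hab, ← hs]
    ring
  by_cases hb : b = 0
  · exfalso
    apply hd'
    refine ⟨a, hinj ?_⟩
    rw [← hs', hab, hb]
    simp only [map_zero, zero_mul, add_zero, map_mul]
    ring
  · by_cases ha : a = 0
    · refine ⟨b * d, hinj ?_⟩
      have h3 : algebraMap F Ω d' = algebraMap F Ω b ^ 2 * algebraMap F Ω d := by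
        rw [← hs', hab, ha, ← hs]
        simp only [map_zero, zero_add]
        ring
      rw [map_mul, h3]
      simp only [map_mul]
      ring
    · exfalso
      have h3 : 2 * a * b ≠ 0 := mul_ne_zero (mul_ne_zero h2 ha) hb
      have h4 : algebraMap F Ω (2 * a * b) ≠ 0 := (_root_.map_ne_zero _).2 h3
      apply hsF ((d' - a ^ 2 - b ^ 2 * d) / (2 * a * b))
      rw [map_div₀, h1, mul_div_assoc, mul_comm, div_mul_cancel₀ _ h4]

end alg

section nf

variable {F : Type} [Field F] [NumberField F]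

/-- A quadratic extension is unramified at the odd primes at which `d` is a unit. -/
theorem qd_unr {M : Type} [Field M] [NumberField M] [Algebra F M] {t : M} {d : F}
    (ht : t ^ 2 = algebraMap F M d) (htop : F⟮t⟯ = ⊤) (v : HeightOneSpectrum (𝓞 F))
    (h2 : (2 : 𝓞 F) ∉ v.asIdeal) (hd : v.valuation F d = 1) : Unr M v := by
  intro w hw
  obtain ⟨α, β, hαβ, hα, hβ⟩ : ∃ α β : 𝓞 F, (β : F) * d = (α : F) ∧ v.valuation F (α : F) = 1 ∧
      v.valuation F (β : F) = 1 := by
    obtain ⟨α, ⟨β, hβ⟩, h⟩ := v.exists_primeCompl_mul_eq_of_integer (K := F) d hd.le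
    have hβ1 : v.valuation F (β : F) = 1 :=
      (HeightOneSpectrum.valuation_eq_one_iff_notMem (K := F) v).2 hβ
    refine ⟨α, β, ?_, ?_, hβ1⟩
    · rw [mul_comm]
      exact h
    · have := congrArg (v.valuation F) h
      rw [map_mul, hd, one_mul] at this
      rw [← this]
      exact hβ1
  have hβ0 : (β : F) ≠ 0 := by
    intro h0
    rw [h0, map_zero] at hβ
    exact zero_ne_one hβ
  obtain ⟨θ, hθ⟩ : ∃ θ : M, θ = algebraMap F M (β : F) * t := ⟨_, rfl⟩
  have hθ2 : θ ^ 2 = algebraMap F M ((α * β : 𝓞 F) : F) := by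
    rw [hθ, mul_pow, ht, ← map_pow, ← map_mul]
    congr 1
    have : ((α * β : 𝓞 F) : F) = (α : F) * (β : F) := by push_cast; rfl
    rw [this, ← hαβ]
    ring
  have hθtop : F⟮θ⟯ = ⊤ := by
    rw [eq_top_iff, ← htop, IntermediateField.adjoin_simple_le_iff]
    have e1 : t = (algebraMap F M (β : F))⁻¹ * θ := by
      rw [hθ, ← mul_assoc, inv_mul_cancel₀ ((_root_.map_ne_zero _).2 hβ0), one_mul]
    rw [e1]
    exact mul_mem (inv_mem (IntermediateField.algebraMap_mem _ _))
      (IntermediateField.mem_adjoin_simple_self F _)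
  have hcoe : algebraMap (𝓞 F) M (α * β) = algebraMap F M ((α * β : 𝓞 F) : F) :=
    IsScalarTower.algebraMap_apply (𝓞 F) F M _
  have hval : w.valuation M (2 * θ) = 1 := by
    obtain ⟨e, he, hv⟩ := val_over hw
    have h3 : w.valuation M (2 * θ) ^ 2 = 1 := by
      rw [← map_pow, mul_pow, hθ2]
      have e1 : (2 : M) ^ 2 * algebraMap F M ((α * β : 𝓞 F) : F) =
          algebraMap F M ((2 : F) ^ 2 * ((α : F) * (β : F))) := by
        rw [map_mul, map_pow, map_ofNat]
        congr 2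
      have h2v : v.valuation F (2 : F) = 1 := by
        have := (HeightOneSpectrum.valuation_eq_one_iff_notMem (K := F) v).2 h2
        rwa [map_ofNat] at this
      rw [e1, hv, map_mul, map_pow, map_mul, hα, hβ, h2v]
      simp
    exact (pow_eq_one_iff_of_nonneg zero_le two_ne_zero).1 h3
  have key := val_der_unr (p := X ^ 2 - C (α * β)) (monic_X_pow_sub_C _ two_ne_zero) (by
    rw [map_sub, map_pow, aeval_X, aeval_C, hθ2, hcoe, sub_self]) hθtop hw (by
    rw [derivative_sub, derivative_X_pow, derivative_C, sub_zero, map_mul, map_pow, aeval_X,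
      Nat.cast_ofNat, map_ofNat, show 2 - 1 = 1 from rfl, pow_one]
    have e2 : (aeval θ) (2 : (𝓞 F)[X]) = 2 := map_ofNat _ 2
    rw [e2]
    exact hval)
  obtain ⟨π, hπ⟩ := v.intValuation_exists_uniformizer
  have hπv : π ∈ v.asIdeal := by
    rw [← HeightOneSpectrum.intValuation_lt_one_iff_mem, hπ]
    exact WithZero.exp_lt_exp.2 (by norm_num)
  refine ⟨π, hπv, fun h => ?_⟩
  rw [← w.intValuation_le_pow_iff_mem] at h
  have h4 := key (algebraMap (𝓞 F) F π)
  rw [← IsScalarTower.algebraMap_apply (𝓞 F) F M, IsScalarTower.algebraMap_apply (𝓞 F) (𝓞 M) M,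
    HeightOneSpectrum.valuation_of_algebraMap, HeightOneSpectrum.valuation_of_algebraMap, hπ] at h4
  rw [h4, WithZero.exp_le_exp] at h
  norm_num at h

end nf

end Pool.Agent.T3h73
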