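import Pool.Agent.T3h73.Top
import Pool.Agent.N170.PF.Tw

/-!
# The 2-Selmer group over a Galois 2-extension: the descent
-/

set_option autoImplicit false
set_option linter.all false

open Polynomial IsDedekindDomain NumberField
open scoped Classical IntermediateField

namespace Pool.Agent.T3h73

open Pool.Agent.N874.PP (Ev Sq1 U0)
open Pool.Agent.N783.PQ (LocIm)
open Pool.Agent.N874.JM (LocF)
open Pool.Agent.N874.PM (Lies)
open Pool.Agent.N783.PF
open Pool.Agent.N78.PF (fF_scale)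

/-- The completion of `M` at some prime maps to the completion of `F` at `v`. -/
def Dn {F : Type} (M : Type) [Field F] [NumberField F] [Field M] [NumberField M] [Algebra F M]
    (v : HeightOneSpectrum (𝓞 F)) : Prop :=
  ∃ (w : HeightOneSpectrum (𝓞 M)) (φ : w.adicCompletion M →+* v.adicCompletion F),
    ∀ x : F, φ (algebraMap M _ (algebraMap F M x)) = algebraMap F _ x

/-- The real place `σ` extends to a real place of `M`. -/
def Rl {F : Type} (M : Type) [Field F] [Field M] [Algebra F M] (σ : F →+* ℝ) : Prop :=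
  ∃ σ' : M →+* ℝ, σ'.comp (algebraMap F M) = σ

section sel

variable {F L M Ω : Type} [Field F] [NumberField F] [Field L] [NumberField L] [Field M]
  [NumberField M] [Field Ω] [NumberField Ω] [Algebra F L] [Algebra F M] [Algebra F Ω]
  [Algebra L Ω] [Algebra M Ω] [IsScalarTower F L Ω] [IsScalarTower F M Ω]

/-- The conclusion of `S_CORE`. -/
def CoreC (L : Type) [Field L] [NumberField L] [Algebra F L] (f : (𝓞 F)[X]) (θ : L)
    (𝔮 : ℕ → Ideal (𝓞 F)) (J : Finset ℕ) : Prop :=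
  ∀ h : F[X], aeval θ h ≠ 0 → IsSquare (Algebra.norm F (aeval θ h)) →
    (∀ 𝔓 : HeightOneSpectrum (𝓞 L), (∀ q ∈ J, Ov (𝔮 q) 𝔓 → 𝔓.valuation L θ ≠ 1) →
      Ev 𝔓 (aeval θ h)) →
    (∀ q ∈ J, ∀ 𝔓 : HeightOneSpectrum (𝓞 L), Ov (𝔮 q) 𝔓 → 𝔓.valuation L θ = 1 →
      U0 𝔓 ((q : L) * θ) (aeval θ h)) →
    (∀ w : HeightOneSpectrum (𝓞 F), (2 : 𝓞 F) ∈ w.asIdeal →
      LocF (w.adicCompletion F) (fF f) h) →
    (∀ σ : F →+* ℝ, LocIm ℝ ((fF f).map σ) (h.map σ)) → IsSquare (aeval θ h)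

theorem selM (h2 : S_PIN) (h3 : S_PAR) (h4 : S_PARQ) (h5 : S_RAM) (h6 : S_CSQ)
    (h7 : S_EXQ) (h8 : S_LIE) [IsGalois F M] {n : ℕ} (hM : Module.finrank F M = 2 ^ n)
    (g W : ℕ) (f f₁ : (𝓞 F)[X]) (θ : L) (S J : Finset ℕ)
    (𝔮 : ℕ → Ideal (𝓞 F)) (r P : ℕ → (𝓞 F)[X]) (hg : 1 ≤ g) (hG : IsGen g f θ) (hsq : SqF g f)
    (hF : GoodF g W f₁) (hS : GoodS g W S 𝔮 r P) (hc1 : Cg (sp F W) f f₁)
    (hcq : ∀ q ∈ S, Cg (sp F q) f (P q)) (hJS : J ⊆ S) (htop : M⟮algebraMap L Ω θ⟯ = ⊤)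
    (hrk : Module.finrank M Ω = 2 * g + 1)
    (hram : ∀ v : HeightOneSpectrum (𝓞 F), ¬ Unr M v → Irreducible (rd v.asIdeal f))
    (hspl : ∀ v : HeightOneSpectrum (𝓞 F), ((2 : 𝓞 F) ∈ v.asIdeal ∨ ∃ q ∈ S, 𝔮 q = v.asIdeal) →
      Dn M v)
    (hR : ∀ σ : F →+* ℝ, Rl M σ ∨ ∀ h : F[X], aeval ((Dp J : L) * θ) h ≠ 0 →
      IsSquare (Algebra.norm F (aeval ((Dp J : L) * θ) h)) →
      LocIm ℝ ((fF (f.scaleRoots ((Dp J : ℕ) : 𝓞 F))).map σ) (h.map σ))
    (hcore : CoreC L f θ 𝔮 J) (x : Ω) (hx : x ≠ 0)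
    (hC : CC ((fF (f.scaleRoots ((Dp J : ℕ) : 𝓞 F))).map (algebraMap F M))
      (algebraMap L Ω ((Dp J : L) * θ)) x) (hN : IsSquare (Algebra.norm M x)) : IsSquare x := by
  have hbase := base (M := M) (Ω := Ω) h2 h3 h4 h5 h6 h7 h8 g W f f₁ θ S J 𝔮 r P hg hG hsq hF hS
    hc1 hcq hJS htop hram
  have hD0 : Dp J ≠ 0 := by
    rw [Dp, Finset.prod_ne_zero_iff]
    exact fun q hq => (hS q (hJS hq)).1.ne_zero
  generalize hDD : Dp J = D at hD0 hbase hR hC
  have hD0F : (D : F) ≠ 0 := Nat.cast_ne_zero.2 hD0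
  have hD0L : (D : L) ≠ 0 := Nat.cast_ne_zero.2 hD0
  have hD0M : (D : M) ≠ 0 := Nat.cast_ne_zero.2 hD0
  obtain ⟨Θ, hΘ⟩ : ∃ Θ : L, Θ = (D : L) * θ := ⟨_, rfl⟩
  rw [← hΘ] at hbase hR hC
  obtain ⟨fJ, hfJ⟩ : ∃ fJ : F[X], fJ = fF (f.scaleRoots ((D : ℕ) : 𝓞 F)) := ⟨_, rfl⟩
  have hmJ : fJ.Monic := by
    rw [hfJ]
    exact ((monic_scaleRoots_iff (D : 𝓞 F)).2 hG.mon).map _
  have hdJ : fJ.natDegree = 2 * g + 1 := by
    rw [hfJ, fF, ((monic_scaleRoots_iff (D : 𝓞 F)).2 hG.mon).natDegree_map, natDegree_scaleRoots,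
      hG.deg]
  have hroot : aeval Θ fJ = 0 := by
    have e1 := scaleRoots_eval₂_mul (p := fF f) (algebraMap F L) θ (D : F)
    have e2 : eval₂ (algebraMap F L) θ (fF f) = 0 := by
      rw [← aeval_def]
      exact hG.root
    rw [e2, mul_zero, map_natCast] at e1
    rw [hfJ, fF_scale hG.mon, aeval_def, hΘ]
    exact e1
  rw [← hfJ] at hbase hR hC
  -- the field `Ω`
  haveI : FiniteDimensional F L := Module.finite_of_finrank_pos (by rw [hG.rank]; omega)
  haveI : FiniteDimensional M Ω := Module.finite_of_finrank_pos (by rw [hrk]; omega)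
  have hΘtop : M⟮algebraMap L Ω Θ⟯ = ⊤ := by
    rw [eq_top_iff, ← htop, IntermediateField.adjoin_simple_le_iff]
    have e1 : algebraMap L Ω θ = (algebraMap M Ω (D : M))⁻¹ * algebraMap L Ω Θ := by
      rw [hΘ, map_mul, map_natCast, map_natCast, ← mul_assoc, inv_mul_cancel₀, one_mul]
      exact Nat.cast_ne_zero.2 hD0
    rw [e1]
    exact mul_mem (inv_mem (IntermediateField.algebraMap_mem _ _))
      (IntermediateField.mem_adjoin_simple_self M _)
  have hmp : Mp (fJ.map (algebraMap F M)) (algebraMap L Ω Θ) := by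
    have hint : IsIntegral M (algebraMap L Ω Θ) := IsIntegral.of_finite M _
    have hmin : minpoly M (algebraMap L Ω Θ) = fJ.map (algebraMap F M) := by
      have h1 : minpoly M (algebraMap L Ω Θ) ∣ fJ.map (algebraMap F M) := by
        apply minpoly.dvd
        rw [aeval_map_algebraMap, aeval_algebraMap_apply, hroot, map_zero]
      refine (eq_of_monic_of_dvd_of_natDegree_le (minpoly.monic hint) (hmJ.map _) h1 ?_).symm
      rw [hmJ.natDegree_map, hdJ, ← IntermediateField.adjoin.finrank hint, hΘtop,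
        IntermediateField.finrank_top', hrk]
    refine ⟨fun h hh => ?_, fun y => ?_⟩
    · rw [← hmin]
      exact minpoly.dvd _ _ hh
    · have h1 : y ∈ Algebra.adjoin M {algebraMap L Ω Θ} := by
        have h3 := IntermediateField.adjoin_simple_toSubalgebra_of_isAlgebraic hint.isAlgebraic
        rw [← h3, hΘtop]
        trivial
      rw [Algebra.adjoin_singleton_eq_range_aeval] at h1
      obtain ⟨p, hp⟩ := h1
      exact ⟨p, hp⟩
  have h2F : (2 : F) ≠ 0 := two_ne_zero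
  refine Pool.Agent.N301.JM.tow' n F L M Ω h2F hM (by rw [hG.rank]; exact odd_two_mul_add_one g)
    (by rw [hrk, hG.rank]) (CC (fJ.map (algebraMap F M)) (algebraMap L Ω Θ)) ?_ ?_ ?_ ?_ x hx hC hN
  · intro y _
    exact cc_sq hmp y
  · intro y z _ _ hy hz
    exact cc_mul hmp hy hz
  · intro σ y hy
    exact cc_gal σ hy
  · intro y hy hCy hNy
    -- the element of `L`
    obtain ⟨h, hh⟩ : ∃ h : F[X], aeval Θ h = y := by
      obtain ⟨c, hc⟩ := hG.gen y
      refine ⟨∑ i, C (c i * ((D : F)⁻¹) ^ (i : ℕ)) * X ^ (i : ℕ), ?_⟩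
      rw [hc, map_sum]
      refine Finset.sum_congr rfl fun i _ => ?_
      rw [map_mul, aeval_C, map_pow, aeval_X, hΘ, map_mul, map_pow, map_inv₀, map_natCast, mul_pow,
        mul_assoc, ← mul_assoc (((D : L)⁻¹) ^ (i : ℕ)), ← mul_pow, inv_mul_cancel₀ hD0L, one_pow,
        one_mul]
    have hhM : aeval (algebraMap L Ω Θ) (h.map (algebraMap F M)) = algebraMap L Ω y := by
      rw [aeval_map_algebraMap, aeval_algebraMap_apply, hh]
    have hlocM := hCy.fin _ hhM
    have hrealM := hCy.real _ hhM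
    have hne : aeval Θ h ≠ 0 := by
      rw [hh]
      exact hy
    have hNh : IsSquare (Algebra.norm F (aeval Θ h)) := by
      rw [hh]
      exact hNy
    obtain ⟨k1, k2, k3, k4⟩ := hbase h hne hNh (fun v hv => by
      obtain ⟨w, φ, hφ⟩ := hspl v hv
      have h1 := LocIm.map (hlocM w) φ
      have e1 : ∀ p : F[X], ((p.map (algebraMap F M)).map (algebraMap M (w.adicCompletion M))).map φ =
          p.map (algebraMap F (v.adicCompletion F)) := by
        intro p
        rw [Polynomial.map_map, Polynomial.map_map]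
        exact congrArg (fun z => p.map z) (RingHom.ext hφ)
      rw [e1, e1] at h1
      exact h1) hlocM (fun σ => by
      rcases hR σ with ⟨σ', hσ'⟩ | hone
      · have h1 := hrealM σ'
        rw [Polynomial.map_map, Polynomial.map_map, hσ'] at h1
        exact h1
      · exact hone h hne hNh)
    have hcomp : aeval θ (h.comp (C (D : F) * X)) = aeval Θ h := by
      rw [aeval_comp, map_mul, aeval_C, aeval_X, hΘ, map_natCast]
    have hcore' := hcore (h.comp (C (D : F) * X))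
    rw [hcomp] at hcore'
    rw [← hh]
    exact hcore' hne hNh k1 k2 k3 k4

end sel

end Pool.Agent.T3h73
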