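import Pool.Agent.T3h73.Sel
import Pool.Agent.N874.JM.Fld
import Pool.Agent.N783.PF.Final
import Pool.Agent.N783.PF.Jac

/-!
# The 2-Selmer group over a Galois 2-extension
-/

set_option autoImplicit false
set_option linter.all false

open Polynomial IsDedekindDomain NumberField
open scoped Classical IntermediateField

namespace Pool.Agent.T3h73

open Pool.Agent.N874.PP (Ev Sq1 U0)
open Pool.Agent.N783.PQ (LocIm)
open Pool.Agent.N874.JM (LocF)
open Pool.Agent.N783.PF
open Pool.Agent.N78.PF (fF_scale)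

/-- The polynomial `p` has exactly one real root. -/
def OneRoot (p : ℝ[X]) : Prop := ∃! x : ℝ, p.eval x = 0

/-- The conditions on the extension `M` of `F`. -/
structure AdmA {F : Type} (M : Type) [Field F] [NumberField F] [Field M] [NumberField M]
    [Algebra F M] (f : (𝓞 F)[X]) (T : Set (Ideal (𝓞 F))) : Prop where
  gal : IsGalois F M
  two : ∃ n, Module.finrank F M = 2 ^ n
  ram : ∀ v : HeightOneSpectrum (𝓞 F), ¬ Unr M v → Irreducible (rd v.asIdeal f)
  spl : ∀ v : HeightOneSpectrum (𝓞 F), v.asIdeal ∈ T → Dn M v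
  real : ∀ σ : F →+* ℝ, Rl M σ ∨ OneRoot ((fF f).map σ)

/-- With exactly one real root the real condition is always satisfied. -/
def S_ONE : Prop := ∀ (F : Type) [Field F] [NumberField F] (p h : F[X]) (σ : F →+* ℝ),
  p.Monic → p.Separable → IsCoprime h p → IsSquare (Algebra.norm F (AdjoinRoot.mk p h)) →
  OneRoot (p.map σ) → LocIm ℝ (p.map σ) (h.map σ)

section

variable {F : Type} [Field F] [NumberField F]

theorem oneRoot_scale {p : ℝ[X]} {D : ℝ} (hD : D ≠ 0) (h : OneRoot p) :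
    OneRoot (p.scaleRoots D) := by
  have key : ∀ x : ℝ, (p.scaleRoots D).eval (D * x) = D ^ p.natDegree * p.eval x := by
    intro x
    have := scaleRoots_eval₂_mul (p := p) (RingHom.id ℝ) x D
    simpa [eval₂_id] using this
  obtain ⟨x, hx, hu⟩ := h
  refine ⟨D * x, ?_, fun y hy => ?_⟩
  · simp only
    rw [key, hx, mul_zero]
  · have h1 := key (D⁻¹ * y)
    rw [← mul_assoc, mul_inv_cancel₀ hD, one_mul] at h1
    simp only at hy
    rw [hy] at h1
    have h2 : p.eval (D⁻¹ * y) = 0 := by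
      rcases mul_eq_zero.1 h1.symm with h | h
      · exact absurd h (pow_ne_zero _ hD)
      · exact h
    have h3 := hu _ h2
    rw [← h3, ← mul_assoc, mul_inv_cancel₀ hD, one_mul]

/-- The norm of `h(Θ)` in terms of the field generated by `Θ`. -/
theorem norm_mk {L : Type} [Field L] [Algebra F L] {p : F[X]} {Θ : L} (hm : p.Monic)
    (hi : Irreducible p) (hroot : aeval Θ p = 0) (hr : Module.finrank F L = p.natDegree)
    (hp : 0 < p.natDegree) :
    ∃ e : AdjoinRoot p ≃ₐ[F] L, ∀ q : F[X], e (AdjoinRoot.mk p q) = aeval Θ q := by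
  haveI hfact' : Fact (Irreducible p) := ⟨hi⟩
  obtain ⟨φ, hφ⟩ : ∃ φ : AdjoinRoot p →ₐ[F] L,
    φ = AdjoinRoot.liftAlgHom p (Algebra.ofId F _) Θ hroot := ⟨_, rfl⟩
  have hφmk : ∀ q : F[X], φ (AdjoinRoot.mk p q) = aeval Θ q := by
    intro q
    have h1 := AdjoinRoot.liftAlgHom_mk p (Algebra.ofId F L) Θ hroot q
    rw [Algebra.toRingHom_ofId, ← Polynomial.aeval_def] at h1
    rw [hφ]
    exact h1
  have hφinj : Function.Injective φ := φ.toRingHom.injective
  haveI : FiniteDimensional F (AdjoinRoot p) := hm.finite_adjoinRoot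
  haveI : FiniteDimensional F L := Module.finite_of_finrank_pos (by rw [hr]; exact hp)
  have hrk : Module.finrank F (AdjoinRoot p) = Module.finrank F L := by
    rw [hr, (AdjoinRoot.powerBasis hm.ne_zero).finrank, AdjoinRoot.powerBasis_dim]
  have hφsurj : Function.Surjective φ :=
    (LinearMap.injective_iff_surjective_of_finrank_eq_finrank (f := φ.toLinearMap) hrk).1 hφinj
  exact ⟨AlgEquiv.ofBijective φ ⟨hφinj, hφsurj⟩, hφmk⟩

end

theorem pin : S_PIN := Pool.Agent.N426.PF.pin int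

/-- The Selmer group over `M` of the twist is trivial. -/
theorem selUp (hone : S_ONE) {F : Type} [Field F] [NumberField F] {g W : ℕ} {f f₁ : (𝓞 F)[X]}
    {L : Type} [Field L] [NumberField L] [Algebra F L] {θ : L} {S J : Finset ℕ}
    {𝔮 : ℕ → Ideal (𝓞 F)} {r P : ℕ → (𝓞 F)[X]} (hg : 1 ≤ g) (hG : IsGen g f θ) (hsq : SqF g f)
    (hirr : Irreducible (fF f))
    (hF : GoodF g W f₁) (hS : GoodS g W S 𝔮 r P) (hc1 : Cg (sp F W) f f₁)
    (hcq : ∀ q ∈ S, Cg (sp F q) f (P q)) (hJS : J ⊆ S) (hcore : CoreC L f θ 𝔮 J)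
    {T : Set (Ideal (𝓞 F))}
    (hT : ∀ v : HeightOneSpectrum (𝓞 F), ((2 : 𝓞 F) ∈ v.asIdeal ∨ ∃ q ∈ S, 𝔮 q = v.asIdeal) →
      v.asIdeal ∈ T)
    (M : Type) [Field M] [NumberField M] [Algebra F M] (hA : AdmA M f T) :
    Irreducible ((fF (f.scaleRoots ((Dp J : ℕ) : 𝓞 F))).map (algebraMap F M)) ∧
    Pool.Agent.N352.JB.SelTriv (PlF M)
      ((fF (f.scaleRoots ((Dp J : ℕ) : 𝓞 F))).map (algebraMap F M)) := by
  obtain ⟨hgal, ⟨n, hn⟩, hram, hspl, hreal⟩ := hA
  haveI := hgal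
  haveI : FiniteDimensional F M := inferInstance
  have hm := hG.mon
  have hd := hG.deg
  have hmF : (fF f).Monic := hm.map _
  have hdF : (fF f).natDegree = 2 * g + 1 := by rw [hm.natDegree_map, hd]
  have hirrM : Irreducible ((fF f).map (algebraMap F M)) :=
    Pool.Agent.N874.JM.irr_up hn hirr hmF (by rw [hdF]; exact odd_two_mul_add_one g)
  have hmM : ((fF f).map (algebraMap F M)).Monic := hmF.map _
  have hdM : ((fF f).map (algebraMap F M)).natDegree = 2 * g + 1 := by rw [hmF.natDegree_map, hdF]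
  obtain ⟨Ω, instF, instA, t, ht, hrk, htop, hfin, hmin⟩ :=
    Pool.Agent.N874.JM.exists_field hirrM hmM
  haveI : NumberField Ω := NumberField.of_module_finite M Ω
  letI : Algebra F Ω := ((algebraMap M Ω).comp (algebraMap F M)).toAlgebra
  haveI : IsScalarTower F M Ω := IsScalarTower.of_algebraMap_eq fun x => rfl
  have ht' : aeval t (fF f) = 0 := by
    rw [aeval_map_algebraMap] at ht
    exact ht
  -- `L` in `Ω`
  obtain ⟨e, he⟩ := norm_mk (L := L) hmF hirr hG.root (by rw [hG.rank, hdF]) (by rw [hdF]; omega)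
  haveI hfact : Fact (Irreducible (fF f)) := ⟨hirr⟩
  obtain ⟨ψ, hψ⟩ : ∃ ψ : AdjoinRoot (fF f) →ₐ[F] Ω,
    ψ = AdjoinRoot.liftAlgHom (fF f) (Algebra.ofId F _) t ht' := ⟨_, rfl⟩
  have hψmk : ∀ q : F[X], ψ (AdjoinRoot.mk (fF f) q) = aeval t q := by
    intro q
    have h1 := AdjoinRoot.liftAlgHom_mk (fF f) (Algebra.ofId F Ω) t ht' q
    rw [Algebra.toRingHom_ofId, ← Polynomial.aeval_def] at h1
    rw [hψ]
    exact h1
  letI : Algebra L Ω := (ψ.comp (e.symm : L →ₐ[F] AdjoinRoot (fF f))).toRingHom.toAlgebra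
  have hLΩ : ∀ x : L, algebraMap L Ω x = ψ (e.symm x) := fun x => rfl
  haveI : IsScalarTower F L Ω := by
    refine IsScalarTower.of_algebraMap_eq fun x => ?_
    rw [hLΩ, AlgEquiv.commutes, AlgHom.commutes]
  have hθt : algebraMap L Ω θ = t := by
    have h1 : e (AdjoinRoot.mk (fF f) X) = θ := by rw [he, aeval_X]
    rw [hLΩ, ← h1, e.symm_apply_apply, hψmk, aeval_X]
  have hD0 : Dp J ≠ 0 := by
    rw [Dp, Finset.prod_ne_zero_iff]
    exact fun q hq => (hS q (hJS hq)).1.ne_zero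
  -- the twist over `F`
  have hmD : (f.scaleRoots ((Dp J : ℕ) : 𝓞 F)).Monic := (monic_scaleRoots_iff _).2 hm
  have hD0F : ((Dp J : ℕ) : F) ≠ 0 := Nat.cast_ne_zero.2 hD0
  have hirrD : Irreducible (fF (f.scaleRoots ((Dp J : ℕ) : 𝓞 F))) := by
    rw [fF_scale hm]
    exact Pool.Agent.N170.PF.irr_scale hD0F hirr
  have hmFD : (fF (f.scaleRoots ((Dp J : ℕ) : 𝓞 F))).Monic := hmD.map _
  have hdFD : (fF (f.scaleRoots ((Dp J : ℕ) : 𝓞 F))).natDegree = 2 * g + 1 := by
    rw [hmD.natDegree_map, natDegree_scaleRoots, hd]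
  have hirrDM : Irreducible ((fF (f.scaleRoots ((Dp J : ℕ) : 𝓞 F))).map (algebraMap F M)) :=
    Pool.Agent.N874.JM.irr_up hn hirrD hmFD (by rw [hdFD]; exact odd_two_mul_add_one g)
  have hrootL : aeval (((Dp J : ℕ) : L) * θ) (fF (f.scaleRoots ((Dp J : ℕ) : 𝓞 F))) = 0 := by
    have e1 := scaleRoots_eval₂_mul (p := fF f) (algebraMap F L) θ ((Dp J : ℕ) : F)
    have e2 : eval₂ (algebraMap F L) θ (fF f) = 0 := by
      rw [← aeval_def]
      exact hG.root
    rw [e2, mul_zero, map_natCast] at e1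
    rw [fF_scale hm, aeval_def]
    exact e1
  refine ⟨hirrDM, ?_⟩
  -- real places
  have hR : ∀ σ : F →+* ℝ, Rl M σ ∨ ∀ h : F[X], aeval ((Dp J : L) * θ) h ≠ 0 →
      IsSquare (Algebra.norm F (aeval ((Dp J : L) * θ) h)) →
      LocIm ℝ ((fF (f.scaleRoots ((Dp J : ℕ) : 𝓞 F))).map σ) (h.map σ) := by
    intro σ
    rcases hreal σ with h1 | h1
    · exact Or.inl h1
    · right
      intro h hne hN
      obtain ⟨e', he'⟩ := norm_mk (L := L) hmFD hirrD hrootL (by rw [hG.rank, hdFD])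
        (by rw [hdFD]; omega)
      refine hone F _ h σ hmFD hirrD.separable ?_ ?_ ?_
      · refine ((hirrD.coprime_iff_not_dvd).2 fun hd => hne ?_).symm
        obtain ⟨q, hq⟩ := hd
        rw [hq, map_mul, hrootL, zero_mul]
      · rw [← Algebra.norm_eq_of_algEquiv e', he']
        exact hN
      · have e3 : (fF (f.scaleRoots ((Dp J : ℕ) : 𝓞 F))).map σ =
            ((fF f).map σ).scaleRoots ((Dp J : ℕ) : ℝ) := by
          rw [fF_scale hm, map_scaleRoots]
          · rw [map_natCast]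
          · rw [hmF.leadingCoeff, map_one]
            exact one_ne_zero
        rw [e3]
        exact oneRoot_scale (Nat.cast_ne_zero.2 hD0) h1
  have hsel := selM (L := L) (M := M) (Ω := Ω) pin (Pool.Agent.N426.PF.par int)
    (Pool.Agent.N426.PF.parq int exq) (Pool.Agent.N459.PF.ram int) csq exq Pool.Agent.N459.PF.lie
    hn g W f f₁ θ S J 𝔮 r P hg hG hsq hF hS hc1 hcq hJS (by rw [hθt]; exact htop)
    (by rw [hrk, hdM]) hram (fun v hv => hspl v (hT v hv)) hR hcore
  -- back to `AdjoinRoot`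
  intro h hcop hnorm hloc
  have hmDM : ((fF (f.scaleRoots ((Dp J : ℕ) : 𝓞 F))).map (algebraMap F M)).Monic := hmFD.map _
  have hdDM : ((fF (f.scaleRoots ((Dp J : ℕ) : 𝓞 F))).map (algebraMap F M)).natDegree =
      2 * g + 1 := by rw [hmFD.natDegree_map, hdFD]
  have hrootM : aeval (algebraMap L Ω (((Dp J : ℕ) : L) * θ))
      ((fF (f.scaleRoots ((Dp J : ℕ) : 𝓞 F))).map (algebraMap F M)) = 0 := by
    rw [aeval_map_algebraMap, aeval_algebraMap_apply, hrootL, map_zero]
  obtain ⟨e'', he''⟩ := norm_mk (L := Ω) hmDM hirrDM hrootM (by rw [hrk, hdM, hdDM])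
    (by rw [hdDM]; omega)
  have hne : aeval (algebraMap L Ω (((Dp J : ℕ) : L) * θ)) h ≠ 0 := by
    intro h0
    generalize algebraMap L Ω (((Dp J : ℕ) : L) * θ) = Θ' at hrootM h0
    obtain ⟨u, v, huv⟩ := hcop
    have := congrArg (aeval Θ') huv
    rw [map_add, map_mul, map_mul, hrootM, h0, mul_zero, mul_zero, add_zero, map_one] at this
    exact zero_ne_one this
  have hdvd : ∀ a b : M[X], aeval (algebraMap L Ω (((Dp J : ℕ) : L) * θ)) a =
      aeval (algebraMap L Ω (((Dp J : ℕ) : L) * θ)) b →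
      (fF (f.scaleRoots ((Dp J : ℕ) : 𝓞 F))).map (algebraMap F M) ∣ a - b := by
    intro a b hab
    rw [← AdjoinRoot.mk_eq_zero]
    apply e''.injective
    rw [map_zero, he'', map_sub, hab, sub_self]
  have hcc : CC ((fF (f.scaleRoots ((Dp J : ℕ) : 𝓞 F))).map (algebraMap F M))
      (algebraMap L Ω (((Dp J : ℕ) : L) * θ))
      (aeval (algebraMap L Ω (((Dp J : ℕ) : L) * θ)) h) := by
    refine ⟨fun h' hh w => ?_, fun h' hh σ => ?_⟩
    · have h1 : LocF (w.adicCompletion M) _ h := hloc (w.adicCompletion M) (PlF.fin w)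
      have h2 := Polynomial.map_dvd (algebraMap M (w.adicCompletion M)) (hdvd h' h hh)
      rw [Polynomial.map_sub] at h2
      exact LocIm.mul (h₂ := 1) h1 (LocIm.of_sq (s := 1) (by simp)) (by rwa [mul_one])
    · have h1 : LocIm ℝ _ (h.map σ) := @hloc ℝ _ σ.toAlgebra (PlF.real σ)
      have h2 := Polynomial.map_dvd σ (hdvd h' h hh)
      rw [Polynomial.map_sub] at h2
      exact LocIm.mul (h₂ := 1) h1 (LocIm.of_sq (s := 1) (by simp)) (by rwa [mul_one])
  have hnorm' : IsSquare (Algebra.norm M (aeval (algebraMap L Ω (((Dp J : ℕ) : L) * θ)) h)) := by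
    rw [← he'', Algebra.norm_eq_of_algEquiv]
    exact hnorm
  obtain ⟨y, hy⟩ := hsel _ hne hcc hnorm'
  obtain ⟨z, rfl⟩ := e''.surjective y
  obtain ⟨s, rfl⟩ := AdjoinRoot.mk_surjective z
  refine ⟨s, ?_⟩
  apply hdvd
  rw [hy, he'', map_pow, pow_two]

end Pool.Agent.T3h73
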