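import Pool.Agent.T3h73.JacUp

/-!
# The Jacobian over `M` of a polynomial over `F`: comparison
-/

set_option autoImplicit false
set_option linter.all false

open Polynomial IsDedekindDomain
open scoped Classical

namespace Pool.Agent.T3h73

open Pool.Agent.N352.JB
open Pool.Agent.Y160.SE
open Pool.Agent.TH115.GD (incl rs ak)

section tr

variable {F M : Type} [Field F] [Field M] [Algebra F M] (f : F[X])

theorem tr_eq (L : Type) [Field L] [Algebra M L] [Algebra F L] [IsScalarTower F M L] :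
    ((f.map (algebraMap F M)).map (algebraMap M L)).map (RingHom.id L) = f.map (algebraMap F L) := by
  rw [Polynomial.map_id, Polynomial.map_map, ← IsScalarTower.algebraMap_eq]

theorem tr_eq' (L : Type) [Field L] [Algebra M L] [Algebra F L] [IsScalarTower F M L] :
    (f.map (algebraMap F L)).map (RingHom.id L) = (f.map (algebraMap F M)).map (algebraMap M L) := by
  rw [Polynomial.map_id, Polynomial.map_map, ← IsScalarTower.algebraMap_eq]

/-- The comparison map. -/
noncomputable def tr (L : Type) [Field L] [Algebra M L] [Algebra F L] [IsScalarTower F M L] :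
    Jac 2 (f.map (algebraMap F M)) L →+ Jac 2 f L :=
  MonoidHom.toAdditive (CommRing.Pic.mapRingHom (crMap 2 (RingHom.id L) _ _ (tr_eq (M := M) f L)))

/-- The inverse. -/
noncomputable def tr' (L : Type) [Field L] [Algebra M L] [Algebra F L] [IsScalarTower F M L] :
    Jac 2 f L →+ Jac 2 (f.map (algebraMap F M)) L :=
  MonoidHom.toAdditive (CommRing.Pic.mapRingHom (crMap 2 (RingHom.id L) _ _ (tr_eq' (M := M) f L)))

variable {f} {L L' : Type} [Field L] [Algebra M L] [Algebra F L] [IsScalarTower F M L]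
  [Field L'] [Algebra M L'] [Algebra F L'] [IsScalarTower F M L']

theorem pic_comp {R S T : Type} [CommRing R] [CommRing S] [CommRing T] (φ : R →+* S) (ψ : S →+* T)
    (x : CommRing.Pic R) : CommRing.Pic.mapRingHom ψ (CommRing.Pic.mapRingHom φ x) =
      CommRing.Pic.mapRingHom (ψ.comp φ) x :=
  CommRing.Pic.mapRingHom_mapRingHom

theorem pic_id {R : Type} [CommRing R] (x : CommRing.Pic R) :
    CommRing.Pic.mapRingHom (RingHom.id R) x = x := by
  rw [CommRing.Pic.mapRingHom_id]
  rfl

theorem cc_comp {E E' E'' : Type} [Field E] [Field E'] [Field E''] (φ : E →+* E') (ψ : E' →+* E'')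
    (χ : E →+* E'') (hχ : ψ.comp φ = χ) {p : E[X]} {p' : E'[X]} {p'' : E''[X]} (h : p.map φ = p')
    (h' : p'.map ψ = p'') (h'' : p.map χ = p'') :
    (crMap 2 ψ p' p'' h').comp (crMap 2 φ p p' h) = crMap 2 χ p p'' h'' := by
  subst hχ
  exact (crMap_comp φ ψ h h' h'').symm

theorem pc_comp {E E' E'' : Type} [Field E] [Field E'] [Field E''] (φ : E →+* E') (ψ : E' →+* E'')
    (χ : E →+* E'') (hχ : ψ.comp φ = χ) {p : E[X]} {p' : E'[X]} {p'' : E''[X]} (h : p.map φ = p')
    (h' : p'.map ψ = p'') (h'' : p.map χ = p'') (x : CommRing.Pic (CR 2 p)) :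
    CommRing.Pic.mapRingHom (crMap 2 ψ p' p'' h') (CommRing.Pic.mapRingHom (crMap 2 φ p p' h) x) =
      CommRing.Pic.mapRingHom (crMap 2 χ p p'' h'') x := by
  rw [← cc_comp φ ψ χ hχ h h' h'']
  exact CommRing.Pic.mapRingHom_mapRingHom

theorem pc_id {E : Type} [Field E] {p : E[X]} (h : p.map (RingHom.id E) = p)
    (x : CommRing.Pic (CR 2 p)) :
    CommRing.Pic.mapRingHom (crMap 2 (RingHom.id E) p p h) x = x := by
  rw [crMap_id, CommRing.Pic.mapRingHom_id]
  rfl

theorem tr_ap (x : Jac 2 (f.map (algebraMap F M)) L) : tr (M := M) f L x =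
    Additive.ofMul (CommRing.Pic.mapRingHom
      (crMap 2 (RingHom.id L) _ _ (tr_eq (M := M) f L)) x.toMul) := rfl

theorem tr'_ap (x : Jac 2 f L) : tr' (M := M) f L x =
    Additive.ofMul (CommRing.Pic.mapRingHom
      (crMap 2 (RingHom.id L) _ _ (tr_eq' (M := M) f L)) x.toMul) := rfl

theorem tr_tr' (x : Jac 2 f L) : tr (M := M) f L (tr' f L x) = x := by
  rw [tr_ap, tr'_ap, toMul_ofMul, pc_comp (RingHom.id L) (RingHom.id L) (RingHom.id L)
    (RingHom.id_comp _) (tr_eq' (M := M) f L) (tr_eq (M := M) f L) Polynomial.map_id, pc_id,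
    ofMul_toMul]

theorem tr'_tr (x : Jac 2 (f.map (algebraMap F M)) L) : tr' f L (tr f L x) = x := by
  rw [tr_ap, tr'_ap, toMul_ofMul, pc_comp (RingHom.id L) (RingHom.id L) (RingHom.id L)
    (RingHom.id_comp _) (tr_eq (M := M) f L) (tr_eq' (M := M) f L) Polynomial.map_id, pc_id,
    ofMul_toMul]

theorem map_alg1 (φ : L →ₐ[M] L') : ((f.map (algebraMap F M)).map (algebraMap M L)).map
    (φ : L →+* L') = (f.map (algebraMap F M)).map (algebraMap M L') := by
  rw [Polynomial.map_map, φ.comp_algebraMap]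

theorem map_alg2 (φ : L →ₐ[F] L') : (f.map (algebraMap F L)).map
    (φ : L →+* L') = f.map (algebraMap F L') := by
  rw [Polynomial.map_map, AlgHom.comp_algebraMap]

theorem map_alg3 (φ : L →ₐ[M] L') : ((f.map (algebraMap F M)).map (algebraMap M L)).map
    (φ : L →+* L') = f.map (algebraMap F L') := by
  rw [map_alg1, Polynomial.map_map, ← IsScalarTower.algebraMap_eq]

theorem tr_jm (φ : L →ₐ[M] L') (x : Jac 2 (f.map (algebraMap F M)) L) :
    tr f L' (jm 2 (f.map (algebraMap F M)) φ x) = jm 2 f (φ.restrictScalars F) (tr f L x) := by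
  rw [tr_ap, tr_ap, jm_eq, jm_eq, toMul_ofMul, toMul_ofMul,
    pc_comp (φ : L →+* L') (RingHom.id L') (φ : L →+* L')
      (RingHom.id_comp _) (map_alg1 (f := f) φ) (tr_eq (M := M) f L') (map_alg3 (f := f) φ),
    pc_comp (RingHom.id L) ((φ.restrictScalars F : L →ₐ[F] L') : L →+* L')
      (φ : L →+* L') (RingHom.comp_id _) (tr_eq (M := M) f L) (map_alg2 (f := f) _)
      (map_alg3 (f := f) φ)]

theorem tr'_jm (φ : L →ₐ[M] L') (x : Jac 2 f L) :
    tr' f L' (jm 2 f (φ.restrictScalars F) x) = jm 2 (f.map (algebraMap F M)) φ (tr' f L x) := by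
  have h := tr_jm (f := f) φ (tr' f L x)
  rw [tr_tr'] at h
  rw [← h, tr'_tr]

end tr

end Pool.Agent.T3h73
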